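import Mathlib

set_option autoImplicit false
set_option linter.unusedSectionVars false
open scoped Classical

namespace Pool.Agent.Helper992

theorem v2_lt {k r : ℕ} (hk : 1 ≤ k)
    (h1 : IsCoprime ((2 : ℤ) ^ r + 1) ((2 ^ k + 1 : ℕ) : ℤ))
    (h2 : IsCoprime ((2 : ℤ) ^ r - 1) ((2 ^ k + 1 : ℕ) : ℤ)) :
    padicValNat 2 r < padicValNat 2 k := by
  by_contra hcon
  push Not at hcon
  have hp : Fact (Nat.Prime 2) := ⟨Nat.prime_two⟩
  set a := padicValNat 2 k with ha
  obtain ⟨k', hk'⟩ : 2 ^ a ∣ k := pow_padicValNat_dvd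
  obtain ⟨r', hr'⟩ : 2 ^ a ∣ r := dvd_trans (pow_dvd_pow 2 hcon) pow_padicValNat_dvd
  have hk'odd : Odd k' := by
    rw [← Nat.not_even_iff_odd]
    intro he
    obtain ⟨c, hc⟩ := he
    have h3 : 2 ^ (a + 1) ∣ k := by
      rw [hk', hc]
      exact ⟨c, by rw [pow_succ]; ring⟩
    exact pow_succ_padicValNat_not_dvd (p := 2) (by omega : k ≠ 0) h3
  set B : ℤ := 2 ^ (2 ^ a) with hB
  have hBn : B + 1 ∣ ((2 ^ k + 1 : ℕ) : ℤ) := by
    have h3 := Odd.add_dvd_pow_add_pow B 1 hk'odd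
    rw [one_pow, hB, ← pow_mul, ← hk'] at h3
    push_cast
    exact h3
  have hB3 : 3 ≤ B + 1 := by
    have : (2 : ℤ) ^ 1 ≤ 2 ^ (2 ^ a) :=
      pow_le_pow_right₀ (by norm_num) Nat.one_le_two_pow
    rw [hB]; linarith
  have key : ∀ x : ℤ, IsCoprime x ((2 ^ k + 1 : ℕ) : ℤ) → ¬ (B + 1 ∣ x) := by
    intro x hx hd
    have h3 : IsUnit (B + 1) := hx.isUnit_of_dvd' hd hBn
    rcases Int.isUnit_iff.mp h3 with h | h <;> omega
  rcases Nat.even_or_odd r' with he | ho
  · apply key _ h2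
    obtain ⟨c, hc⟩ := he
    have h3 : B ^ 2 - 1 ∣ (B ^ 2) ^ c - 1 := by
      simpa using sub_dvd_pow_sub_pow (B ^ 2) 1 c
    have h4 : (2 : ℤ) ^ r = (B ^ 2) ^ c := by
      rw [hB, ← pow_mul, ← pow_mul, hr', hc]; congr 1; ring
    rw [h4]
    refine dvd_trans ?_ h3
    exact ⟨B - 1, by ring⟩
  · apply key _ h1
    have h3 := Odd.add_dvd_pow_add_pow B 1 ho
    rw [one_pow, hB, ← pow_mul, ← hr'] at h3
    exact h3

/-- The rigidity lemma, normalised. -/
theorem rigidity_aux {k m : ℕ} (hk : 1 ≤ k) (hm1 : 1 ≤ m) (hm2 : m ≤ 2 ^ (k - 1))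
    (hcop : Nat.Coprime m (2 ^ k + 1))
    (hC : ∀ i < 2 ^ (k - 1), ((m * (2 * i + 1)) % (2 ^ k + 1) ≤ 2 ^ (k - 1) ↔
      (m * (2 * i + 2)) % (2 ^ k + 1) ≤ 2 ^ (k - 1))) :
    ∃ i, i + 2 ≤ k ∧ m = 2 ^ i := by
  set h := 2 ^ (k - 1) with hh
  have hq : 2 ^ k = 2 * h := by rw [hh, ← pow_succ']; congr 1; omega
  set n := 2 ^ k + 1 with hn
  have hn' : n = 2 * h + 1 := by omega
  have hhpos : 0 < h := by positivity
  clear_value h n
  set N := 2 * m with hN
  have hcopN : Nat.Coprime N n := by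
    apply Nat.Coprime.mul_left _ hcop
    rw [Nat.coprime_two_left]
    exact ⟨h, by omega⟩
  have hNn : N < n := by omega
  have hN2 : 2 ≤ N := by omega
  have hnpos : 0 < n := by omega
  -- parity reading
  have hpar : ∀ t, ((m * t) % n ≤ h ↔ Even (N * t / n)) := by
    intro t
    have h1 := Nat.div_add_mod (m * t) n
    have h2 : (m * t) % n < n := Nat.mod_lt _ hnpos
    set a := m * t / n
    set b := (m * t) % n
    have h3 : N * t = n * (2 * a) + 2 * b := by
      have : N * t = 2 * (m * t) := by rw [hN]; ring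
      rw [this, ← h1]; ring
    rw [h3, Nat.mul_add_div hnpos]
    constructor
    · intro hb
      have : 2 * b / n = 0 := Nat.div_eq_of_lt (by omega)
      rw [this]; simp
    · intro he
      by_contra hb
      have : 2 * b / n = 1 := by
        apply Nat.div_eq_of_lt_le <;> omega
      rw [this] at he
      obtain ⟨c, hc⟩ := he
      omega
  have heq : ∀ i < h, N * (2 * i + 1) / n = N * (2 * i + 2) / n := by
    intro i hi
    have h1 := hC i hi
    rw [hpar, hpar] at h1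
    have h2 : N * (2 * i + 1) / n ≤ N * (2 * i + 2) / n :=
      Nat.div_le_div_right (Nat.mul_le_mul_left _ (by omega))
    have h3 : N * (2 * i + 2) / n ≤ N * (2 * i + 1) / n + 1 := by
      have : N * (2 * i + 2) ≤ N * (2 * i + 1) + n := by
        have : N * (2 * i + 2) = N * (2 * i + 1) + N := by ring
        omega
      calc N * (2 * i + 2) / n ≤ (N * (2 * i + 1) + n) / n := Nat.div_le_div_right this
        _ = N * (2 * i + 1) / n + 1 := Nat.add_div_right _ hnpos
    rcases Nat.even_or_odd (N * (2 * i + 1) / n) with he | ho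
    · have he2 := h1.mp he
      obtain ⟨c, hc⟩ := he
      obtain ⟨c2, hc2⟩ := he2
      omega
    · have ho2 : Odd (N * (2 * i + 2) / n) := by
        rw [← Nat.not_even_iff_odd] at ho ⊢
        exact fun h => ho (h1.mpr h)
      obtain ⟨c, hc⟩ := ho
      obtain ⟨c2, hc2⟩ := ho2
      omega
  have hev : ∀ v, 1 ≤ v → v < N → Even (v * n / N) := by
    intro v hv1 hvN
    by_contra hcon
    rw [Nat.not_even_iff_odd] at hcon
    obtain ⟨i, hi⟩ := hcon
    have h1 := Nat.div_add_mod (v * n) N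
    have h2 : (v * n) % N < N := Nat.mod_lt _ (by omega)
    have h3 : (v * n) % N ≠ 0 := by
      intro h4
      have h5 : N ∣ v * n := Nat.dvd_of_mod_eq_zero h4
      have h6 : N ∣ v := hcopN.dvd_of_dvd_mul_right h5
      have := Nat.le_of_dvd (by omega) h6
      omega
    rw [hi] at h1
    have h4 : N * (2 * i + 1) < v * n := by omega
    have h5 : v * n < N * (2 * i + 2) := by
      have : N * (2 * i + 2) = N * (2 * i + 1) + N := by ring
      omega
    have h6 : i < h := by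
      have h7 : N * (2 * i + 1) < N * n := lt_trans h4 (Nat.mul_lt_mul_of_pos_right hvN hnpos)
      have := Nat.lt_of_mul_lt_mul_left h7
      omega
    have h7 : N * (2 * i + 1) / n < v := by
      rw [Nat.div_lt_iff_lt_mul hnpos]; exact h4
    have h8 : v ≤ N * (2 * i + 2) / n := by
      rw [Nat.le_div_iff_mul_le hnpos]; exact h5.le
    have := heq i h6
    omega
  -- quotient and remainder
  have h1 := Nat.div_add_mod n N
  have h2 : n % N < N := Nat.mod_lt _ (by omega)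
  have hu : Even (n / N) := by
    have := hev 1 le_rfl (by omega)
    rwa [one_mul] at this
  set u := n / N with hu'
  set ρ := n % N with hρ
  clear_value u ρ
  obtain ⟨c, hc⟩ := hu
  have hρodd : ∃ e, ρ = 2 * e + 1 := by
    refine ⟨h - m * u, ?_⟩
    have h3 : N * u = 2 * (m * u) := by rw [hN]; ring
    omega
  obtain ⟨e, he⟩ := hρodd
  have hρ1 : ρ = 1 := by
    by_contra hne
    have hρ3 : 3 ≤ ρ := by omega
    set v := (N - 1) / ρ + 1 with hv
    have hv1 := Nat.div_add_mod (N - 1) ρ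
    have hv2 : (N - 1) % ρ < ρ := Nat.mod_lt _ (by omega)
    set d := (N - 1) / ρ with hd
    have hvρ : v * ρ = ρ * d + ρ := by rw [hv]; ring
    have h3d : 3 * d ≤ ρ * d := Nat.mul_le_mul_right _ hρ3
    have hvN : v < N := by omega
    have h4 := hev v (by omega) hvN
    have h5 : v * n / N = v * u + 1 := by
      have h6 : v * n = N * (v * u) + v * ρ := by rw [← h1]; ring
      rw [h6, Nat.mul_add_div (by omega)]
      congr 1
      apply Nat.div_eq_of_lt_le <;> omega
    rw [h5, hc] at h4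
    obtain ⟨w, hw⟩ := h4
    have h6 : v * (c + c) = 2 * (v * c) := by ring
    omega
  -- conclude
  have h4 : 2 ^ k = 4 * m * c := by
    have h5 : N * u = 4 * m * c := by rw [hN, hc]; ring
    omega
  have h5 : 4 * m ∣ 2 ^ k := ⟨c, h4⟩
  obtain ⟨l, hl, hl2⟩ := (Nat.dvd_prime_pow Nat.prime_two).mp h5
  have hl3 : 2 ≤ l := by
    by_contra hcon
    interval_cases l <;> omega
  obtain ⟨i, rfl⟩ := Nat.exists_eq_add_of_le hl3
  refine ⟨i, by omega, ?_⟩
  rw [pow_add] at hl2
  omega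

/-- The rigidity lemma. -/
theorem rigidity {k : ℕ} (hk : 1 ≤ k) {μ : ℤ} (hμ : IsCoprime μ ((2 ^ k + 1 : ℕ) : ℤ))
    (hC : ∀ i : ℕ, i < 2 ^ (k - 1) →
      ((μ * (2 * i + 1)) % ((2 ^ k + 1 : ℕ) : ℤ) ≤ 2 ^ (k - 1) ↔
      (μ * (2 * i + 2)) % ((2 ^ k + 1 : ℕ) : ℤ) ≤ 2 ^ (k - 1))) :
    ∃ i, i + 2 ≤ k ∧ (((2 ^ k + 1 : ℕ) : ℤ) ∣ μ - 2 ^ i ∨ ((2 ^ k + 1 : ℕ) : ℤ) ∣ μ + 2 ^ i) := by
  set n : ℕ := 2 ^ k + 1 with hn
  have hq : 2 ^ k = 2 * 2 ^ (k - 1) := by rw [← pow_succ']; congr 1; omega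
  have hnpos : (0 : ℤ) < (n : ℤ) := by positivity
  have hn3 : 3 ≤ n := by
    have : 0 < 2 ^ (k - 1) := by positivity
    omega
  set r := μ % (n : ℤ) with hr
  have hr0 : 0 ≤ r := Int.emod_nonneg _ hnpos.ne'
  have hrn : r < n := Int.emod_lt_of_pos _ hnpos
  have hrc : IsCoprime r (n : ℤ) := by
    have h1 : μ = r + (n : ℤ) * (μ / n) := (Int.emod_add_mul_ediv μ n).symm
    rw [h1] at hμ
    exact IsCoprime.add_mul_left_left_iff.mp hμ
  have hrμ : (n : ℤ) ∣ μ - r := Int.dvd_self_sub_emod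
  have hrpos : 0 < r := by
    rcases hr0.lt_or_eq with h | h
    · exact h
    · rw [← h] at hrc
      rw [isCoprime_zero_left, Int.isUnit_iff] at hrc
      omega
  obtain ⟨m, hm⟩ : ∃ m : ℕ, (m : ℤ) = r := ⟨r.toNat, Int.toNat_of_nonneg hr0⟩
  have hmn : m < n := by exact_mod_cast (hm ▸ hrn)
  have hmpos : 0 < m := by exact_mod_cast (hm ▸ hrpos)
  have hmcop : Nat.Coprime m n := by
    rw [← hm] at hrc
    exact Nat.isCoprime_iff_coprime.mp hrc
  -- residues of multiples
  have hres : ∀ t : ℕ, (μ * t) % (n : ℤ) = ((m * t % n : ℕ) : ℤ) := by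
    intro t
    push_cast
    rw [hm]
    have h1 : μ ≡ r [ZMOD (n : ℤ)] := by
      apply Int.modEq_iff_dvd.mpr
      have : r - μ = -(μ - r) := by ring
      rw [this]; exact (dvd_neg).mpr hrμ
    exact h1.mul_right _
  have hC' : ∀ i < 2 ^ (k - 1), ((m * (2 * i + 1)) % n ≤ 2 ^ (k - 1) ↔
      (m * (2 * i + 2)) % n ≤ 2 ^ (k - 1)) := by
    intro i hi
    have h1 := hC i hi
    have e1 : (μ * (2 * (i : ℤ) + 1)) % (n : ℤ) = ((m * (2 * i + 1) % n : ℕ) : ℤ) := by
      rw [← hres]; push_cast; ring_nf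
    have e2 : (μ * (2 * (i : ℤ) + 2)) % (n : ℤ) = ((m * (2 * i + 2) % n : ℕ) : ℤ) := by
      rw [← hres]; push_cast; ring_nf
    rw [e1, e2] at h1
    exact_mod_cast h1
  by_cases hmle : m ≤ 2 ^ (k - 1)
  · obtain ⟨i, hi, hmi⟩ := rigidity_aux hk (by omega) hmle hmcop hC'
    refine ⟨i, hi, Or.inl ?_⟩
    have : (r : ℤ) = 2 ^ i := by rw [← hm, hmi]; push_cast; ring
    rw [← this]; exact hrμ
  · -- reflect
    have hm' : 1 ≤ n - m := by omega
    have hcop' : Nat.Coprime (n - m) n := by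
      rw [Nat.coprime_self_sub_left hmn.le]
      exact hmcop
    have hrefl : ∀ t, 0 < t → t < n → ((n - m) * t) % n = n - (m * t) % n := by
      intro t ht0 htn
      have h1 : (m * t) % n ≠ 0 := by
        intro h2
        have h3 : n ∣ m * t := Nat.dvd_of_mod_eq_zero h2
        have h4 : n ∣ t := hmcop.symm.dvd_of_dvd_mul_left h3
        have := Nat.le_of_dvd ht0 h4
        omega
      have h2 : (m * t) % n < n := Nat.mod_lt _ (by omega)
      have h3 : ((n - m) * t + m * t) = n * t := by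
        rw [← add_mul, Nat.sub_add_cancel hmn.le]
      have h4 := Nat.div_add_mod (m * t) n
      have h5 : (n - m) * t = n * (t - m * t / n - 1) + (n - (m * t) % n) := by
        have h6 : m * t / n < t := by
          rw [Nat.div_lt_iff_lt_mul (by omega), mul_comm t]
          exact Nat.mul_lt_mul_of_pos_right hmn ht0
        obtain ⟨w, hw⟩ : ∃ w, t = m * t / n + 1 + w := ⟨t - (m * t / n + 1), by omega⟩
        have h7 : t - m * t / n - 1 = w := by omega
        rw [h7]
        have h8 : n * t = n * (m * t / n) + n + n * w := by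
          conv_lhs => rw [hw]
          ring
        omega
      rw [h5, Nat.mul_add_mod]
      exact Nat.mod_eq_of_lt (by omega)
    have hC'' : ∀ i < 2 ^ (k - 1), (((n - m) * (2 * i + 1)) % n ≤ 2 ^ (k - 1) ↔
        ((n - m) * (2 * i + 2)) % n ≤ 2 ^ (k - 1)) := by
      intro i hi
      have h1 := hC' i hi
      rw [hrefl _ (by omega) (by omega), hrefl _ (by omega) (by omega)]
      have b1 : m * (2 * i + 1) % n < n := Nat.mod_lt _ (by omega)
      have b2 : m * (2 * i + 2) % n < n := Nat.mod_lt _ (by omega)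
      omega
    obtain ⟨i, hi, hmi⟩ := rigidity_aux hk hm' (by omega) hcop' hC''
    refine ⟨i, hi, Or.inr ?_⟩
    have h1 : r + 2 ^ i = n := by
      have : ((n - m : ℕ) : ℤ) = 2 ^ i := by rw [hmi]; push_cast; ring
      rw [← this, ← hm, Nat.cast_sub hmn.le]; ring
    have h2 : μ + 2 ^ i = (μ - r) + n := by rw [← h1]; ring
    rw [h2]; exact dvd_add hrμ dvd_rfl

end Pool.Agent.Helper992
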