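import Mathlib

set_option autoImplicit false
set_option linter.unusedSectionVars false
open scoped Classical

namespace Pool.Agent.Helper992

open Finset

section basic

variable {F : Type*} [Field F] [Fintype F]

/-- The trace-like map to the subfield of order `2^k`. -/
noncomputable def T (k : ℕ) (x : F) : F := x + x ^ (2 ^ k)

/-- The unit circle. -/
noncomputable def U (F : Type*) [Field F] [Fintype F] (k : ℕ) : Finset F :=
  univ.filter (fun z => z ^ (2 ^ k + 1) = 1)

/-- The subfield of order `2^k`. -/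
noncomputable def K (F : Type*) [Field F] [Fintype F] (k : ℕ) : Finset F :=
  univ.filter (fun z => z ^ (2 ^ k) = z)

theorem charTwo {k : ℕ} (hF : Fintype.card F = 2 ^ (2 * k)) : CharP F 2 :=
  haveI : Fact (Nat.Prime 2) := ⟨Nat.prime_two⟩
  charP_of_card_eq_prime_pow hF

theorem mem_U {k : ℕ} {z : F} : z ∈ U F k ↔ z ^ (2 ^ k + 1) = 1 := by simp [U]

theorem mem_K {k : ℕ} {z : F} : z ∈ K F k ↔ z ^ (2 ^ k) = z := by simp [K]

theorem pow_qq {k : ℕ} (hF : Fintype.card F = 2 ^ (2 * k)) (x : F) :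
    (x ^ (2 ^ k)) ^ (2 ^ k) = x := by
  rw [← pow_mul, ← pow_add, ← two_mul, ← hF]
  exact FiniteField.pow_card x

theorem exists_prim {n : ℕ} (h : n ∣ Fintype.card F - 1) :
    ∃ ζ : F, IsPrimitiveRoot ζ n := by
  obtain ⟨g, hg⟩ := IsCyclic.exists_generator (α := Fˣ)
  have hord : orderOf g = Fintype.card F - 1 := by
    rw [orderOf_eq_card_of_forall_mem_zpowers hg, Nat.card_eq_fintype_card, Fintype.card_units]
  have hpos : 0 < Fintype.card F - 1 := by
    have := Fintype.one_lt_card (α := F)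
    omega
  have h1 : IsPrimitiveRoot g (Fintype.card F - 1) := by
    rw [← hord]; exact IsPrimitiveRoot.orderOf g
  have h2 : IsPrimitiveRoot (g : F) (Fintype.card F - 1) := by
    exact IsPrimitiveRoot.coe_units_iff.mpr h1
  obtain ⟨c, hc⟩ := h
  refine ⟨(g : F) ^ c, ?_⟩
  exact h2.pow hpos (by rw [hc, mul_comm])

theorem card_sub_one {k : ℕ} (hF : Fintype.card F = 2 ^ (2 * k)) :
    Fintype.card F - 1 = (2 ^ k + 1) * (2 ^ k - 1) := by
  rw [hF]
  have h1 : 1 ≤ 2 ^ k := Nat.one_le_two_pow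
  have h2 : 2 ^ (2 * k) = 2 ^ k * 2 ^ k := by rw [← pow_add]; congr 1; ring
  rw [h2]
  obtain ⟨m, hm⟩ := Nat.exists_eq_add_of_le h1
  rw [hm]
  simp only [Nat.add_sub_cancel_left]
  have : (1 + m) * (1 + m) = (1 + m + 1) * m + 1 := by ring
  omega

theorem exists_zeta {k : ℕ} (hF : Fintype.card F = 2 ^ (2 * k)) :
    ∃ ζ : F, IsPrimitiveRoot ζ (2 ^ k + 1) :=
  exists_prim (by rw [card_sub_one hF]; exact Dvd.intro _ rfl)

theorem card_U {k : ℕ} (hF : Fintype.card F = 2 ^ (2 * k)) : (U F k).card = 2 ^ k + 1 := by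
  obtain ⟨ζ, hζ⟩ := exists_zeta hF
  rw [← hζ.card_nthRootsFinset]
  congr 1
  ext z
  rw [mem_U, Polynomial.mem_nthRootsFinset (by positivity)]

theorem card_K {k : ℕ} (hk : 1 ≤ k) (hF : Fintype.card F = 2 ^ (2 * k)) :
    (K F k).card = 2 ^ k := by
  have h1 : 2 ≤ 2 ^ k := by
    calc 2 = 2 ^ 1 := by norm_num
      _ ≤ 2 ^ k := Nat.pow_le_pow_right (by norm_num) hk
  obtain ⟨η, hη⟩ := exists_prim (F := F) (n := 2 ^ k - 1)
    (by rw [card_sub_one hF]; exact Dvd.intro_left _ rfl)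
  have hpos : 0 < 2 ^ k - 1 := by omega
  have h2 : K F k = insert 0 (Polynomial.nthRootsFinset (2 ^ k - 1) (1 : F)) := by
    ext z
    rw [mem_K, mem_insert, Polynomial.mem_nthRootsFinset hpos]
    constructor
    · intro h
      by_cases hz : z = 0
      · left; exact hz
      · right
        have : z ^ (2 ^ k - 1) * z = 1 * z := by
          rw [← pow_succ, Nat.sub_add_cancel (by omega), h, one_mul]
        exact mul_right_cancel₀ hz this
    · rintro (h | h)
      · rw [h, zero_pow (by positivity)]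
      · calc z ^ (2 ^ k) = z ^ (2 ^ k - 1) * z := by
              rw [← pow_succ, Nat.sub_add_cancel (by omega)]
          _ = z := by rw [h, one_mul]
  rw [h2, card_insert_of_notMem, hη.card_nthRootsFinset]
  · omega
  · rw [Polynomial.mem_nthRootsFinset hpos, zero_pow (by omega)]
    exact zero_ne_one

end basic

section circle

variable {F : Type*} [Field F] [Fintype F] {k : ℕ}

theorem U_ne_zero {z : F} (hz : z ∈ U F k) : z ≠ 0 := by
  rintro rfl
  rw [mem_U, zero_pow (by positivity)] at hz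
  exact zero_ne_one hz

theorem U_pow_q {z : F} (hz : z ∈ U F k) : z ^ (2 ^ k) = z⁻¹ := by
  have h0 := U_ne_zero hz
  rw [mem_U, pow_succ] at hz
  exact eq_inv_of_mul_eq_one_left hz

theorem one_mem_U : (1 : F) ∈ U F k := by rw [mem_U, one_pow]

theorem mul_mem_U {z w : F} (hz : z ∈ U F k) (hw : w ∈ U F k) : z * w ∈ U F k := by
  rw [mem_U] at *; rw [mul_pow, hz, hw, one_mul]

theorem inv_mem_U {z : F} (hz : z ∈ U F k) : z⁻¹ ∈ U F k := by
  rw [mem_U] at *; rw [inv_pow, hz, inv_one]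

theorem pow_mem_U {z : F} (hz : z ∈ U F k) (m : ℕ) : z ^ m ∈ U F k := by
  rw [mem_U] at *; rw [← pow_mul, mul_comm, pow_mul, hz, one_pow]

theorem zpow_mem_U {z : F} (hz : z ∈ U F k) (m : ℤ) : z ^ m ∈ U F k := by
  cases m with
  | ofNat m =>
    rw [Int.ofNat_eq_natCast, zpow_natCast]
    exact pow_mem_U hz m
  | negSucc m => rw [zpow_negSucc]; exact inv_mem_U (pow_mem_U hz _)

theorem T_U {z : F} (hz : z ∈ U F k) : T k z = z + z⁻¹ := by rw [T, U_pow_q hz]

variable [CharP F 2]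

theorem add_pow_q (x y : F) : (x + y) ^ (2 ^ k) = x ^ (2 ^ k) + y ^ (2 ^ k) :=
  haveI : Fact (Nat.Prime 2) := ⟨Nat.prime_two⟩
  add_pow_char_pow x y 2 k

theorem sum_pow_q {ι : Type*} (s : Finset ι) (f : ι → F) :
    (∑ i ∈ s, f i) ^ (2 ^ k) = ∑ i ∈ s, f i ^ (2 ^ k) :=
  haveI : Fact (Nat.Prime 2) := ⟨Nat.prime_two⟩
  sum_pow_char_pow 2 k s f

theorem T_add (x y : F) : T k (x + y) = T k x + T k y := by
  rw [T, T, T, add_pow_q]; ring

theorem T_zero : T k (0 : F) = 0 := by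
  rw [T, zero_pow (by positivity), add_zero]

theorem T_eq_zero {x : F} : T k x = 0 ↔ x ∈ K F k := by
  rw [T, mem_K, CharTwo.add_eq_zero, eq_comm]

theorem zero_mem_K : (0 : F) ∈ K F k := by
  rw [mem_K, zero_pow (by positivity)]

theorem one_mem_K : (1 : F) ∈ K F k := by
  rw [mem_K, one_pow]

theorem add_mem_K {x y : F} (hx : x ∈ K F k) (hy : y ∈ K F k) : x + y ∈ K F k := by
  rw [mem_K] at *; rw [add_pow_q, hx, hy]

theorem mul_mem_K {x y : F} (hx : x ∈ K F k) (hy : y ∈ K F k) : x * y ∈ K F k := by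
  rw [mem_K] at *; rw [mul_pow, hx, hy]

theorem inv_mem_K {x : F} (hx : x ∈ K F k) : x⁻¹ ∈ K F k := by
  rw [mem_K] at *; rw [inv_pow, hx]

theorem div_mem_K {x y : F} (hx : x ∈ K F k) (hy : y ∈ K F k) : x / y ∈ K F k := by
  rw [div_eq_mul_inv]; exact mul_mem_K hx (inv_mem_K hy)

theorem pow_mem_K {x : F} (hx : x ∈ K F k) (m : ℕ) : x ^ m ∈ K F k := by
  rw [mem_K] at *; rw [← pow_mul, mul_comm, pow_mul, hx]

theorem T_K_mul {c : F} (hc : c ∈ K F k) (x : F) : T k (c * x) = c * T k x := by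
  rw [mem_K] at hc
  rw [T, T, mul_pow, hc]; ring

theorem T_mem_K (hF : Fintype.card F = 2 ^ (2 * k)) (x : F) : T k x ∈ K F k := by
  rw [mem_K, T, add_pow_q, pow_qq hF, add_comm]

theorem T_K {c : F} (hc : c ∈ K F k) : T k c = 0 := T_eq_zero.mpr hc

/-- elements of `U ∩ K` are trivial -/
theorem eq_one_of_U_K {z : F} (hz : z ∈ U F k) (hz' : z ∈ K F k) : z = 1 := by
  have h0 := U_ne_zero hz
  have h1 := U_pow_q hz
  rw [mem_K] at hz'
  rw [hz'] at h1
  have h2 : z * z = 1 := by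
    nth_rewrite 2 [h1]
    exact mul_inv_cancel₀ h0
  have h3 : (z + 1) * (z + 1) = 0 := by
    have : (z + 1) * (z + 1) = z * z + 1 + (z + z) := by ring
    rw [this, h2, CharTwo.add_self_eq_zero, CharTwo.add_self_eq_zero, add_zero]
  have h4 : z + 1 = 0 := by simpa using h3
  exact CharTwo.add_eq_zero.mp h4

theorem T_U_eq_zero {z : F} (hz : z ∈ U F k) : T k z = 0 ↔ z = 1 := by
  constructor
  · intro h
    exact eq_one_of_U_K hz (T_eq_zero.mp h)
  · rintro rfl
    exact T_K one_mem_K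

theorem T_inv {z : F} (hz : z ∈ U F k) : T k z⁻¹ = T k z := by
  rw [T_U hz, T_U (inv_mem_U hz), inv_inv, add_comm]

/-- `T x = T y` on the unit circle iff `y = x^{±1}`. -/
theorem T_U_eq {x y : F} (hx : x ∈ U F k) (hy : y ∈ U F k) :
    T k x = T k y ↔ x = y ∨ x = y⁻¹ := by
  have hx0 := U_ne_zero hx
  have hy0 := U_ne_zero hy
  constructor
  · intro h
    rw [T_U hx, T_U hy] at h
    have h1 : (x + y) * (x * y + 1) = 0 := by
      have h2 : (x + x⁻¹) * (x * y) = (y + y⁻¹) * (x * y) := by rw [h]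
      have h3 : (x + x⁻¹) * (x * y) = x * x * y + y := by field_simp
      have h4 : (y + y⁻¹) * (x * y) = x * y * y + x := by field_simp
      rw [h3, h4] at h2
      have h5 : (x + y) * (x * y + 1) = (x * x * y + y) + (x * y * y + x) := by ring
      rw [h5, h2, CharTwo.add_self_eq_zero]
    rcases mul_eq_zero.mp h1 with h2 | h2
    · left; exact CharTwo.add_eq_zero.mp h2
    · right
      exact eq_inv_of_mul_eq_one_left (CharTwo.add_eq_zero.mp h2)
  · rintro (h | h)
    · rw [h]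
    · rw [h, T_inv hy]

end circle

end Pool.Agent.Helper992
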