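import Mathlib

set_option autoImplicit false
open scoped Classical Pointwise
open Finset

namespace Pool.Agent.Helper992.Bc

variable {d : ℕ}

/-- sign of a bit -/
def sg (b : Bool) : ℚ := if b then -1 else 1

theorem sg_mul_self (b : Bool) : sg b * sg b = 1 := by cases b <;> simp [sg]

/-- character -/
noncomputable def chi (S : Finset (Fin d)) : (Fin d → Bool) → ℚ :=
  fun y => ∏ i, if i ∈ S then sg (y i) else 1

theorem chi_mul (S T : Finset (Fin d)) : chi S * chi T = chi (symmDiff S T) := by
  funext y
  simp only [chi, Pi.mul_apply]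
  rw [← Finset.prod_mul_distrib]
  apply Finset.prod_congr rfl
  intro i _
  by_cases h1 : i ∈ S <;> by_cases h2 : i ∈ T <;>
    simp [h1, h2, Finset.mem_symmDiff, sg_mul_self]

theorem chi_empty : chi (∅ : Finset (Fin d)) = 1 := by
  funext y
  simp [chi]

theorem chi_single (i : Fin d) (y : Fin d → Bool) : chi {i} y = sg (y i) := by
  simp only [chi, Finset.mem_singleton]
  rw [Finset.prod_eq_single i]
  · simp
  · intro j _ hj; simp [hj]
  · intro h; exact absurd (Finset.mem_univ _) h

def E1 : Set (Finset (Fin d)) := {S | S.card = 1}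
def E2 : Set (Finset (Fin d)) := {S | S.card = 0 ∨ S.card = 2}
noncomputable def E4 : Finset (Finset (Fin d)) :=
  powersetCard 0 univ ∪ powersetCard 2 univ ∪ powersetCard 4 univ

theorem mem_E4 (S : Finset (Fin d)) :
    S ∈ (E4 : Finset (Finset (Fin d))) ↔ S.card = 0 ∨ S.card = 2 ∨ S.card = 4 := by
  unfold E4
  simp only [Finset.mem_union, Finset.mem_powersetCard, Finset.subset_univ, true_and]
  tauto

theorem card_E4 : (E4 : Finset (Finset (Fin d))).card ≤ 1 + d.choose 2 + d.choose 4 := by
  unfold E4
  refine (Finset.card_union_le _ _).trans ?_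
  refine (Nat.add_le_add_right (Finset.card_union_le _ _) _).trans ?_
  simp only [Finset.card_powersetCard, Finset.card_univ, Fintype.card_fin, Nat.choose_zero_right]
  exact le_rfl

theorem card_symmDiff (S T : Finset (Fin d)) :
    (symmDiff S T).card + 2 * (S ∩ T).card = S.card + T.card := by
  have h1 : (symmDiff S T).card = (S \ T).card + (T \ S).card := by
    rw [show symmDiff S T = (S \ T) ∪ (T \ S) from rfl, Finset.card_union_of_disjoint]
    exact disjoint_sdiff_sdiff
  have h2 := Finset.card_sdiff_add_card_inter S T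
  have h3 := Finset.card_sdiff_add_card_inter T S
  rw [Finset.inter_comm T S] at h3
  omega

theorem span_mul1 : (Submodule.span ℚ (chi '' (E1 : Set (Finset (Fin d)))))
    * (Submodule.span ℚ (chi '' (E1 : Set (Finset (Fin d)))))
    ≤ Submodule.span ℚ (chi '' (E2 : Set (Finset (Fin d)))) := by
  rw [Submodule.span_mul_span]
  apply Submodule.span_mono
  rintro _ ⟨_, ⟨S, hS, rfl⟩, _, ⟨T, hT, rfl⟩, rfl⟩
  refine ⟨symmDiff S T, ?_, (chi_mul S T).symm⟩
  have h := card_symmDiff S T
  have hi : (S ∩ T).card ≤ S.card := Finset.card_le_card Finset.inter_subset_left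
  simp only [E1, E2, Set.mem_setOf_eq] at *
  omega

theorem span_mul2 : (Submodule.span ℚ (chi '' (E2 : Set (Finset (Fin d)))))
    * (Submodule.span ℚ (chi '' (E2 : Set (Finset (Fin d)))))
    ≤ Submodule.span ℚ ((E4.image chi : Finset ((Fin d → Bool) → ℚ)) : Set _) := by
  rw [Submodule.span_mul_span]
  apply Submodule.span_mono
  rintro _ ⟨_, ⟨S, hS, rfl⟩, _, ⟨T, hT, rfl⟩, rfl⟩
  rw [Finset.coe_image]
  refine ⟨symmDiff S T, ?_, (chi_mul S T).symm⟩
  rw [Finset.mem_coe, mem_E4]
  have h := card_symmDiff S T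
  have hi : (S ∩ T).card ≤ S.card := Finset.card_le_card Finset.inter_subset_left
  simp only [E2, Set.mem_setOf_eq] at *
  omega

/-- inner product function -/
noncomputable def ip (x : Fin d → Bool) : (Fin d → Bool) → ℚ :=
  ∑ i, sg (x i) • chi {i}

theorem ip_apply (x y : Fin d → Bool) : ip x y = ∑ i, sg (x i) * sg (y i) := by
  simp only [ip, Finset.sum_apply, Pi.smul_apply, smul_eq_mul, chi_single]

theorem ip_dist (x y : Fin d → Bool) : ip x y = d - 2 * (hammingDist x y : ℚ) := by
  rw [ip_apply]
  have h : ∀ i, sg (x i) * sg (y i) = 1 - 2 * (if x i ≠ y i then 1 else 0) := by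
    intro i
    cases hx : x i <;> cases hy : y i <;> simp [sg] <;> norm_num
  rw [Finset.sum_congr rfl (fun i _ => h i), Finset.sum_sub_distrib, ← Finset.mul_sum,
    Finset.sum_boole]
  simp [hammingDist]

theorem ip_mem (x : Fin d → Bool) :
    ip x ∈ Submodule.span ℚ (chi '' (E1 : Set (Finset (Fin d)))) := by
  apply Submodule.sum_mem
  intro i _
  apply Submodule.smul_mem
  apply Submodule.subset_span
  exact ⟨{i}, by simp [E1], rfl⟩

noncomputable def f (A B : ℚ) (x : Fin d → Bool) : (Fin d → Bool) → ℚ :=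
  (ip x * ip x - A • 1) * (ip x * ip x - B • 1)

theorem one_mem : (1 : (Fin d → Bool) → ℚ) ∈ Submodule.span ℚ (chi '' (E2 : Set (Finset (Fin d)))) := by
  rw [← chi_empty]
  apply Submodule.subset_span
  exact ⟨∅, by simp [E2], rfl⟩

theorem f_mem (A B : ℚ) (x : Fin d → Bool) :
    f A B x ∈ Submodule.span ℚ ((E4.image chi : Finset ((Fin d → Bool) → ℚ)) : Set _) := by
  apply span_mul2
  have h : ∀ A : ℚ, ip x * ip x - A • 1 ∈ Submodule.span ℚ (chi '' (E2 : Set (Finset (Fin d)))) := by
    intro A
    apply Submodule.sub_mem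
    · exact span_mul1 (Submodule.mul_mem_mul (ip_mem x) (ip_mem x))
    · exact Submodule.smul_mem _ _ one_mem
  exact Submodule.mul_mem_mul (h A) (h B)

theorem bound (d D1 D2 : ℕ) (h1 : 1 ≤ D1) (h1' : D1 < d) (h2 : 1 ≤ D2) (h2' : D2 < d)
    (C : Finset (Fin d → Bool))
    (hC : ∀ x ∈ C, ∀ y ∈ C, x ≠ y → hammingDist x y = D1 ∨ hammingDist x y = D2 ∨
      hammingDist x y = d - D1 ∨ hammingDist x y = d - D2) :
    C.card ≤ 1 + d.choose 2 + d.choose 4 := by
  set A : ℚ := ((d : ℚ) - 2 * D1) ^ 2 with hA
  set B : ℚ := ((d : ℚ) - 2 * D2) ^ 2 with hB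
  have hval : ∀ x y : Fin d → Bool, f A B x y
      = ((d - 2 * (hammingDist x y : ℚ)) ^ 2 - A) * ((d - 2 * (hammingDist x y : ℚ)) ^ 2 - B) := by
    intro x y
    simp only [f, Pi.mul_apply, Pi.sub_apply, Pi.smul_apply, Pi.one_apply, smul_eq_mul, mul_one,
      ip_dist]
    ring
  have hli : LinearIndependent ℚ (fun x : C => f A B (x : Fin d → Bool)) := by
    rw [Fintype.linearIndependent_iff]
    intro g hg y
    have h := congrFun hg (y : Fin d → Bool)
    rw [Finset.sum_apply, Finset.sum_eq_single y] at h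
    · simp only [Pi.smul_apply, smul_eq_mul, Pi.zero_apply, hval, hammingDist_self] at h
      rcases mul_eq_zero.mp h with h | h
      · exact h
      · exfalso
        have d1 : (0 : ℚ) < D1 := by exact_mod_cast h1
        have d2 : (0 : ℚ) < D2 := by exact_mod_cast h2
        have e1 : (D1 : ℚ) < d := by exact_mod_cast h1'
        have e2 : (D2 : ℚ) < d := by exact_mod_cast h2'
        rcases mul_eq_zero.mp h with h | h
        · have : (4 * (D1 : ℚ) * (d - D1)) = 0 := by
            rw [← h, hA]; push_cast; ring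
          have : 0 < (4 * (D1 : ℚ) * (d - D1)) := by
            apply mul_pos (by linarith); linarith
          linarith
        · have : (4 * (D2 : ℚ) * (d - D2)) = 0 := by
            rw [← h, hB]; push_cast; ring
          have : 0 < (4 * (D2 : ℚ) * (d - D2)) := by
            apply mul_pos (by linarith); linarith
          linarith
    · intro x _ hxy
      have hne : (x : Fin d → Bool) ≠ y := fun h => hxy (Subtype.ext h)
      simp only [Pi.smul_apply, smul_eq_mul, hval]
      have c1 : ((d - D1 : ℕ) : ℚ) = d - D1 := by push_cast [Nat.cast_sub h1'.le]; ring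
      have c2 : ((d - D2 : ℕ) : ℚ) = d - D2 := by push_cast [Nat.cast_sub h2'.le]; ring
      rcases hC x x.2 y y.2 hne with h | h | h | h
      · rw [h, hA]; ring
      · rw [h, hB]; ring
      · rw [h, c1, hA]; ring
      · rw [h, c2, hB]; ring
    · intro h; exact absurd (Finset.mem_univ _) h
  have h3 := finrank_span_eq_card hli
  rw [Fintype.card_coe] at h3
  rw [← h3]
  have h4 : Submodule.span ℚ (Set.range (fun x : C => f A B (x : Fin d → Bool)))
      ≤ Submodule.span ℚ ((E4.image chi : Finset ((Fin d → Bool) → ℚ)) : Set _) := by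
    rw [Submodule.span_le]
    rintro _ ⟨x, rfl⟩
    exact f_mem A B x.1
  refine (Submodule.finrank_mono h4).trans ?_
  refine (finrank_span_finset_le_card _).trans ?_
  exact Finset.card_image_le.trans card_E4

end Pool.Agent.Helper992.Bc
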