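import Mathlib

set_option autoImplicit false
open Finset

namespace Pool.Agent.Helper992.Bc2

theorem card_lt (m D : ℕ) (hD : D ≤ m + 2) :
    ((Finset.univ : Finset (Fin (m + 2))).filter (fun i => i.val < D)).card = D := by
  rw [Fin.card_filter_val_lt]
  omega

theorem card_ge (m D : ℕ) (hD : D ≤ m + 2) :
    ((Finset.univ : Finset (Fin (m + 2))).filter (fun i => ¬ i.val < D)).card = m + 2 - D := by
  have h := Finset.card_filter_add_card_filter_not (s := (Finset.univ : Finset (Fin (m + 2))))
    (fun i => i.val < D)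
  rw [card_lt m D hD, Finset.card_univ, Fintype.card_fin] at h
  omega

/-- `ψ`. -/
def psi (m D : ℕ) (x : Fin (m + 2) → Bool) : Fin m → Bool := fun j =>
  if j.val + 1 < D then xor (x ⟨j.val + 1, by omega⟩) (x 0)
  else xor (x ⟨j.val + 1, by omega⟩) (x (Fin.last (m + 1)))

theorem psi_eq (m D : ℕ) (h0 : 1 ≤ D) (h1 : D < m + 2) (x y : Fin (m + 2) → Bool)
    (h : psi m D x = psi m D y) (i : Fin (m + 2)) :
    xor (x i) (y i) = if i.val < D then xor (x 0) (y 0)
      else xor (x (Fin.last (m + 1))) (y (Fin.last (m + 1))) := by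
  rcases Nat.eq_zero_or_pos i.val with hi | hi
  · have : i = 0 := Fin.ext hi
    subst this
    have : (0 : Fin (m + 2)).val < D := by
      have e : (0 : Fin (m + 2)).val = 0 := rfl
      rw [e]; omega
    rw [if_pos this]
  · by_cases hl : i.val = m + 1
    · have : i = Fin.last (m + 1) := Fin.ext hl
      subst this
      have : ¬ (Fin.last (m + 1)).val < D := by simp; omega
      rw [if_neg this]
    · have hj : i.val - 1 < m := by omega
      have hh := congrFun h ⟨i.val - 1, hj⟩
      unfold psi at hh
      simp only at hh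
      have e : (⟨i.val - 1 + 1, by omega⟩ : Fin (m + 2)) = i := Fin.ext (by simp; omega)
      have e' : i.val - 1 + 1 = i.val := by omega
      rw [e] at hh
      rw [e'] at hh
      by_cases hD : i.val < D
      · rw [if_pos hD] at hh ⊢
        rw [if_pos hD] at hh
        revert hh
        cases x i <;> cases y i <;> cases x 0 <;> cases y 0 <;> simp
      · rw [if_neg hD] at hh ⊢
        rw [if_neg hD] at hh
        revert hh
        cases x i <;> cases y i <;> cases x (Fin.last (m + 1)) <;>
          cases y (Fin.last (m + 1)) <;> simp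

theorem dist_cases (m D : ℕ) (h0 : 1 ≤ D) (h1 : D < m + 2) (x y : Fin (m + 2) → Bool)
    (h : psi m D x = psi m D y) :
    hammingDist x y = 0 ∨ hammingDist x y = D ∨ hammingDist x y = m + 2 - D ∨
      hammingDist x y = m + 2 := by
  have hp := psi_eq m D h0 h1 x y h
  have hne : ∀ i, (x i ≠ y i) ↔ (xor (x i) (y i) = true) := by
    intro i; cases x i <;> cases y i <;> simp
  unfold hammingDist
  have hset : (Finset.univ.filter (fun i => x i ≠ y i))
      = Finset.univ.filter (fun i : Fin (m + 2) => (if i.val < D then xor (x 0) (y 0)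
      else xor (x (Fin.last (m + 1))) (y (Fin.last (m + 1)))) = true) := by
    ext i
    simp only [Finset.mem_filter, Finset.mem_univ, true_and]
    rw [hne i, hp i]
  rw [hset]
  cases ha : xor (x 0) (y 0) <;> cases hb : xor (x (Fin.last (m + 1))) (y (Fin.last (m + 1)))
  · left
    simp
  · right; right; left
    rw [← card_ge m D (by omega)]
    congr 1
    ext i
    by_cases hi : i.val < D <;> simp [hi]
  · right; left
    have e : (Finset.univ.filter (fun i : Fin (m + 2) => (if i.val < D then true else false) = true))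
        = Finset.univ.filter (fun i : Fin (m + 2) => i.val < D) := by
      ext i
      by_cases hi : i.val < D <;> simp [hi]
    rw [e, card_lt m D (by omega)]
  · right; right; right
    have : (Finset.univ.filter (fun i : Fin (m + 2) => (if i.val < D then true else true) = true))
        = Finset.univ := by
      ext i; simp
    rw [this, Finset.card_univ, Fintype.card_fin]

theorem bound2 (d D1 D2 : ℕ) (hd : 6 ≤ d) (h1 : 1 ≤ D1) (h1' : D1 < d) (h2 : 1 ≤ D2)
    (h2' : D2 < d) (C : Finset (Fin d → Bool))
    (hC : ∀ x ∈ C, ∀ y ∈ C, x ≠ y → hammingDist x y = D1 ∨ hammingDist x y = D2 ∨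
      hammingDist x y = d - D1 ∨ hammingDist x y = d - D2) :
    C.card ≤ 2 ^ (d - 2) := by
  obtain ⟨m, rfl⟩ : ∃ m, d = m + 2 := ⟨d - 2, by omega⟩
  obtain ⟨D, hD1, hD2, hD3⟩ : ∃ D : ℕ, 1 ≤ D ∧ D ≤ 3 ∧
      (D ≠ D1 ∧ D ≠ D2 ∧ D ≠ m + 2 - D1 ∧ D ≠ m + 2 - D2) := by
    by_contra hcon
    push Not at hcon
    have a1 := hcon 1 (by norm_num) (by norm_num)
    have a2 := hcon 2 (by norm_num) (by norm_num)
    have a3 := hcon 3 (by norm_num) (by norm_num)
    omega
  have hinj : Set.InjOn (psi m D) (C : Set (Fin (m + 2) → Bool)) := by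
    intro x hx y hy hxy
    by_contra hne
    have h3 := dist_cases m D hD1 (by omega) x y hxy
    have h4 := hC x hx y hy hne
    have h5 := hammingDist_pos.mpr hne
    omega
  have h6 := Finset.card_le_card_of_injOn (psi m D) (t := Finset.univ)
    (fun _ _ => Finset.mem_coe.mpr (Finset.mem_univ _)) hinj
  simpa using h6

end Pool.Agent.Helper992.Bc2
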