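import Mathlib

set_option autoImplicit false
set_option linter.unusedSectionVars false
open scoped Classical

namespace Pool.Agent.Helper992

open Finset MvPolynomial

variable {F : Type*} [Field F]

/-- substitution of two univariate polynomials -/
noncomputable def sb (u v : Polynomial F) : MvPolynomial (Fin 2) F →ₐ[F] Polynomial F :=
  aeval ![u, v]

theorem sb_X0 (u v : Polynomial F) : sb u v (X 0) = u := by simp [sb]

theorem sb_X1 (u v : Polynomial F) : sb u v (X 1) = v := by simp [sb]

theorem sb_C (u v : Polynomial F) (a : F) : sb u v (C a) = Polynomial.C a := by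
  simp [sb]

theorem sb_deriv (u v : Polynomial F) (p : MvPolynomial (Fin 2) F) :
    Polynomial.derivative (sb u v p)
      = Polynomial.derivative u * sb u v (pderiv 0 p)
        + Polynomial.derivative v * sb u v (pderiv 1 p) := by
  induction p using MvPolynomial.induction_on with
  | C a => simp [sb]
  | add p q hp hq => simp only [map_add, hp, hq]; ring
  | mul_X p i hp =>
    rw [map_mul, Polynomial.derivative_mul, hp, pderiv_mul, pderiv_mul]
    fin_cases i
    · simp only [Fin.zero_eta, Fin.isValue, map_add, map_mul, pderiv_X_self, sb_X0,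
        pderiv_X_of_ne (show (0 : Fin 2) ≠ 1 by decide), map_one, map_zero]
      ring
    · simp only [Fin.mk_one, Fin.isValue, map_add, map_mul, pderiv_X_self, sb_X1,
        pderiv_X_of_ne (show (1 : Fin 2) ≠ 0 by decide), map_one, map_zero]
      ring

theorem sb_deg {u v : Polynomial F} (hu : u.natDegree ≤ 1) (hv : v.natDegree ≤ 1)
    {p : MvPolynomial (Fin 2) F} {n : ℕ} (hp : p.totalDegree ≤ n) :
    (sb u v p).natDegree ≤ n := by
  have := aeval_natDegree_le p hp ![u, v] (n := 1) (by intro i; fin_cases i <;> simpa)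
  rw [mul_one] at this
  exact this

/-- the line substitution -/
noncomputable abbrev rl (x y : F) : MvPolynomial (Fin 2) F →ₐ[F] Polynomial F :=
  sb (Polynomial.C x * Polynomial.X + Polynomial.C y) Polynomial.X

theorem lin_natDegree (x y : F) :
    (Polynomial.C x * Polynomial.X + Polynomial.C y).natDegree ≤ 1 :=
  Polynomial.natDegree_linear_le

theorem rl_deg (x y : F) {p : MvPolynomial (Fin 2) F} {n : ℕ} (hp : p.totalDegree ≤ n) :
    (rl x y p).natDegree ≤ n :=
  sb_deg (lin_natDegree x y) Polynomial.natDegree_X_le hp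

theorem rl_deriv (x y : F) (p : MvPolynomial (Fin 2) F) :
    Polynomial.derivative (rl x y p)
      = Polynomial.C x * rl x y (pderiv 0 p) + rl x y (pderiv 1 p) := by
  rw [sb_deriv]; simp

theorem totalDegree_map_le' (p : MvPolynomial (Fin 2) F) :
    (map (algebraMap F (Polynomial F)) p).totalDegree ≤ p.totalDegree := by
  rw [totalDegree, totalDegree]
  exact Finset.sup_mono (support_map_subset _ _)

theorem vanish {K : Finset F} {f : F → F} {p : MvPolynomial (Fin 2) F}
    (hdeg : p.totalDegree < K.card) (h : ∀ x ∈ K, rl x (f x) p = 0) : p = 0 := by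
  let ψ : MvPolynomial (Fin 2) F →ₐ[F] Polynomial (Polynomial F) :=
    aeval ![Polynomial.X, Polynomial.C Polynomial.X]
  have h1 : (ψ p).natDegree ≤ p.totalDegree := by
    have h2 : aeval ![(Polynomial.X : Polynomial (Polynomial F)), Polynomial.C Polynomial.X]
        (map (algebraMap F (Polynomial F)) p) = ψ p := aeval_map_algebraMap _ _ _
    have h3 := aeval_natDegree_le (map (algebraMap F (Polynomial F)) p)
      (totalDegree_map_le' p)
      ![(Polynomial.X : Polynomial (Polynomial F)), Polynomial.C Polynomial.X] (n := 1)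
      (by
        intro i
        fin_cases i
        · exact Polynomial.natDegree_X_le
        · show (Polynomial.C Polynomial.X : Polynomial (Polynomial F)).natDegree ≤ 1
          rw [Polynomial.natDegree_C]; omega)
    rw [h2, mul_one] at h3
    exact h3
  have h4 : ∀ (g : Polynomial F) (p : MvPolynomial (Fin 2) F),
      Polynomial.eval g (ψ p) = sb g Polynomial.X p := by
    intro g p
    induction p using MvPolynomial.induction_on with
    | C a =>
      simp only [ψ, sb, algHom_C, Polynomial.algebraMap_apply, Polynomial.eval_C]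
    | add p q hp hq => rw [map_add, map_add, Polynomial.eval_add, hp, hq]
    | mul_X p i hp =>
      rw [map_mul, map_mul, Polynomial.eval_mul, hp]
      congr 1
      fin_cases i
      · simp [ψ, sb]
      · simp [ψ, sb]
  have h5 : ψ p = 0 := by
    apply Polynomial.eq_zero_of_natDegree_lt_card_of_eval_eq_zero' _
      (K.image (fun x => Polynomial.C x * Polynomial.X + Polynomial.C (f x)))
    · intro g hg
      obtain ⟨x, hx, rfl⟩ := mem_image.mp hg
      rw [h4]; exact h x hx
    · rw [card_image_of_injective]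
      · omega
      · intro a b hab
        have h6 := congrArg (fun g => Polynomial.coeff g 1) hab
        simpa using h6
  let χ : Polynomial (Polynomial F) →+* MvPolynomial (Fin 2) F :=
    Polynomial.eval₂RingHom (Polynomial.aeval (X 1 : MvPolynomial (Fin 2) F)).toRingHom (X 0)
  have h6 : ∀ p, χ (ψ p) = p := by
    intro p
    induction p using MvPolynomial.induction_on with
    | C a => simp [χ, ψ]
    | add p q hp hq => rw [map_add, map_add, hp, hq]
    | mul_X p i hp =>
      rw [map_mul, map_mul, hp]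
      congr 1
      fin_cases i
      · simp [χ, ψ]
      · simp [χ, ψ]
  rw [← h6 p, h5, map_zero]

theorem dvd_of_sb (l : Polynomial F) {p : MvPolynomial (Fin 2) F}
    (h : sb l Polynomial.X p = 0) :
    (X 0 - Polynomial.aeval (X 1 : MvPolynomial (Fin 2) F) l) ∣ p := by
  set L : MvPolynomial (Fin 2) F := X 0 - Polynomial.aeval (X 1 : MvPolynomial (Fin 2) F) l
  rw [← Ideal.mem_span_singleton, ← Ideal.Quotient.eq_zero_iff_mem]
  let mk : MvPolynomial (Fin 2) F →ₐ[F] (MvPolynomial (Fin 2) F ⧸ Ideal.span {L}) :=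
    Ideal.Quotient.mkₐ F _
  have h1 : mk.comp ((Polynomial.aeval (X 1 : MvPolynomial (Fin 2) F)).comp
      (sb l Polynomial.X)) = mk := by
    apply MvPolynomial.algHom_ext
    intro i
    fin_cases i
    · simp only [Fin.zero_eta, Fin.isValue, AlgHom.comp_apply, sb_X0]
      symm
      rw [← sub_eq_zero, ← map_sub]
      exact Ideal.Quotient.eq_zero_iff_mem.mpr (Ideal.mem_span_singleton_self L)
    · simp only [Fin.mk_one, Fin.isValue, AlgHom.comp_apply, sb_X1, Polynomial.aeval_X]
  have h2 : mk p = 0 := by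
    rw [← h1, AlgHom.comp_apply, AlgHom.comp_apply, h, map_zero, map_zero]
  exact h2

theorem dvd_of_sb1 (a : F) {p : MvPolynomial (Fin 2) F}
    (h : sb Polynomial.X (Polynomial.C a) p = 0) :
    (X 1 - C a) ∣ p := by
  set L : MvPolynomial (Fin 2) F := X 1 - C a
  rw [← Ideal.mem_span_singleton, ← Ideal.Quotient.eq_zero_iff_mem]
  let mk : MvPolynomial (Fin 2) F →ₐ[F] (MvPolynomial (Fin 2) F ⧸ Ideal.span {L}) :=
    Ideal.Quotient.mkₐ F _
  have h1 : mk.comp ((Polynomial.aeval (X 0 : MvPolynomial (Fin 2) F)).comp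
      (sb Polynomial.X (Polynomial.C a))) = mk := by
    apply MvPolynomial.algHom_ext
    intro i
    fin_cases i
    · simp only [Fin.zero_eta, Fin.isValue, AlgHom.comp_apply, sb_X0, Polynomial.aeval_X]
    · simp only [Fin.mk_one, Fin.isValue, AlgHom.comp_apply, sb_X1, Polynomial.aeval_C]
      symm
      rw [← sub_eq_zero, ← map_sub]
      exact Ideal.Quotient.eq_zero_iff_mem.mpr (Ideal.mem_span_singleton_self L)
  have h2 : mk p = 0 := by
    rw [← h1, AlgHom.comp_apply, AlgHom.comp_apply, h, map_zero, map_zero]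
  exact h2

/-- linear form of a point -/
noncomputable def lf (x y : F) : MvPolynomial (Fin 2) F := X 0 - (C x * X 1 + C y)

theorem rl_lf (x y x' y' : F) : rl x y (lf x' y')
    = Polynomial.C (x - x') * Polynomial.X + Polynomial.C (y - y') := by
  rw [lf, map_sub, map_add, map_mul, sb_X0, sb_X1, sb_C, sb_C, map_sub, map_sub]
  ring

theorem rl_lf_self (x y : F) : rl x y (lf x y) = 0 := by
  rw [rl_lf]; simp

theorem lf_dvd_iff (x y : F) (p : MvPolynomial (Fin 2) F) : lf x y ∣ p ↔ rl x y p = 0 := by
  constructor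
  · rintro ⟨g, rfl⟩
    rw [map_mul, rl_lf_self, zero_mul]
  · intro h
    have := dvd_of_sb _ h
    have e : X 0 - Polynomial.aeval (X 1 : MvPolynomial (Fin 2) F)
        (Polynomial.C x * Polynomial.X + Polynomial.C y) = lf x y := by
      rw [lf, map_add, map_mul, Polynomial.aeval_X, Polynomial.aeval_C, Polynomial.aeval_C]
      rfl
    rwa [e] at this

theorem lf_ne_zero (x y : F) : lf x y ≠ 0 := by
  intro h
  have h1 := congrArg (rl (x + 1) y) h
  rw [rl_lf, map_zero] at h1
  have h2 := congrArg (fun g => Polynomial.coeff g 1) h1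
  simp at h2

theorem lf_prime (x y : F) : Prime (lf x y) := by
  refine ⟨lf_ne_zero x y, ?_, ?_⟩
  · intro h
    have := h.map (rl x y)
    rw [rl_lf_self] at this
    exact not_isUnit_zero this
  · intro a b h
    rw [lf_dvd_iff, map_mul, mul_eq_zero] at h
    rcases h with h | h
    · left; rwa [lf_dvd_iff]
    · right; rwa [lf_dvd_iff]

theorem pderiv_deg (i : Fin 2) (p : MvPolynomial (Fin 2) F) :
    (pderiv i p).totalDegree ≤ p.totalDegree - 1 := by
  rw [totalDegree]
  apply Finset.sup_le
  intro m hm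
  rw [mem_support_iff, coeff_pderiv] at hm
  have h1 : coeff (m + Finsupp.single i 1) p ≠ 0 := left_ne_zero_of_mul hm
  have h2 := le_totalDegree (mem_support_iff.mpr h1)
  have h3 : ((m + Finsupp.single i 1).sum fun _ e => e) = (m.sum fun _ e => e) + 1 := by
    rw [Finsupp.sum_add_index' (fun _ => rfl) (fun _ _ _ => rfl)]
    simp
  rw [h3] at h2
  omega

theorem pderiv_eq_zero_of_dvd {i : Fin 2} {g : MvPolynomial (Fin 2) F}
    (h : g ∣ pderiv i g) : pderiv i g = 0 := by
  by_contra hne
  have h1 := totalDegree_le_of_dvd_of_isDomain h hne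
  have h2 := pderiv_deg i g
  have h3 : g.totalDegree = 0 := by omega
  rw [totalDegree_eq_zero_iff_eq_C] at h3
  rw [h3, pderiv_C] at hne
  exact hne rfl

theorem pderiv_comm (p : MvPolynomial (Fin 2) F) :
    pderiv 0 (pderiv 1 p) = pderiv 1 (pderiv 0 p) := by
  ext m
  simp only [coeff_pderiv]
  rw [add_right_comm]
  have h1 : (m + Finsupp.single (0 : Fin 2) 1 : Fin 2 →₀ ℕ) 1 = m 1 := by simp
  have h2 : (m + Finsupp.single (1 : Fin 2) 1 : Fin 2 →₀ ℕ) 0 = m 0 := by simp
  rw [h1, h2]; ring

theorem relprime_dvd {P Q J T : MvPolynomial (Fin 2) F} (h : IsRelPrime P Q)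
    (h1 : J ∣ P * T) (h2 : J ∣ Q * T) : J ∣ T := by
  let _ : GCDMonoid (MvPolynomial (Fin 2) F) := UniqueFactorizationMonoid.toGCDMonoid _
  have h3 := dvd_gcd h1 h2
  have h4 := (gcd_mul_right' T P Q).dvd
  have h5 := h3.trans h4
  exact (gcd_isUnit_iff_isRelPrime.mpr h).dvd_mul_left.mp h5

theorem three_dvd {a b c T : MvPolynomial (Fin 2) F}
    (h : ∀ d, d ∣ a → d ∣ b → d ∣ c → IsUnit d) (h1 : a ∣ b * T) (h2 : a ∣ c * T) :
    a ∣ T := by
  let _ : GCDMonoid (MvPolynomial (Fin 2) F) := UniqueFactorizationMonoid.toGCDMonoid _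
  have h3 := (dvd_gcd h1 h2).trans (gcd_mul_right' T b c).dvd
  have h4 : IsRelPrime a (gcd b c) := by
    intro d hd1 hd2
    exact h d hd1 (hd2.trans (gcd_dvd_left b c)) (hd2.trans (gcd_dvd_right b c))
  exact h4.dvd_of_dvd_mul_left h3

section char2

variable [CharP F 2]

theorem natCast_mul_succ (n : ℕ) : ((n : F) + 1) * ((n : F) + 1 + 1) = 0 := by
  have h2 : (2 : F) = 0 := CharTwo.two_eq_zero
  have h3 : 2 ∣ (n + 1) * (n + 1 + 1) := (Nat.even_mul_succ_self (n + 1)).two_dvd
  obtain ⟨t, ht⟩ := h3
  have h4 : (((n + 1) * (n + 1 + 1) : ℕ) : F) = ((2 * t : ℕ) : F) := by rw [ht]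
  push_cast at h4
  rw [h4, h2, zero_mul]

theorem pderiv_pderiv (i : Fin 2) (p : MvPolynomial (Fin 2) F) :
    pderiv i (pderiv i p) = 0 := by
  ext m
  simp only [coeff_pderiv, coeff_zero]
  have h1 : (m + Finsupp.single i 1 : Fin 2 →₀ ℕ) i = m i + 1 := by simp
  rw [h1]
  push_cast
  have := natCast_mul_succ (F := F) (m i)
  linear_combination (coeff (m + Finsupp.single i 1 + Finsupp.single i 1) p) * this

theorem exists_sqrt (hsq : ∀ a : F, ∃ b, b ^ 2 = a) {p : MvPolynomial (Fin 2) F}
    (h0 : pderiv 0 p = 0) (h1 : pderiv 1 p = 0) : ∃ q, p = q ^ 2 := by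
  have heven : ∀ m ∈ p.support, ∀ i, Even (m i) := by
    intro m hm i
    by_contra hodd
    rw [Nat.not_even_iff_odd] at hodd
    have hd : pderiv i p = 0 := by fin_cases i <;> assumption
    have hmi : 1 ≤ m i := hodd.pos
    set m' : Fin 2 →₀ ℕ := m - Finsupp.single i 1 with hm'
    have e1 : m' + Finsupp.single i 1 = m := by
      rw [hm']
      apply tsub_add_cancel_of_le
      rw [Finsupp.single_le_iff]; exact hmi
    have e2 : m' i + 1 = m i := by
      rw [← e1]; simp
    have h2 := coeff_pderiv (i := i) p m'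
    rw [hd, coeff_zero, e1] at h2
    have h3 : ((m' i : F) + 1) = 1 := by
      have : ((m' i + 1 : ℕ) : F) = ((m i : ℕ) : F) := by rw [e2]
      push_cast at this
      rw [this]
      obtain ⟨t, ht⟩ := hodd
      rw [ht]; push_cast
      rw [CharTwo.two_eq_zero]; ring
    rw [h3, mul_one] at h2
    rw [mem_support_iff] at hm
    exact hm h2.symm
  choose sq hsq' using hsq
  refine ⟨∑ m ∈ p.support, monomial (m.mapRange (fun e => e / 2) (by simp)) (sq (coeff m p)), ?_⟩
  have hc : ExpChar (MvPolynomial (Fin 2) F) 2 := by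
    have : CharP (MvPolynomial (Fin 2) F) 2 := inferInstance
    exact ExpChar.prime Nat.prime_two
  rw [sum_pow_char]
  conv_lhs => rw [p.as_sum]
  refine sum_congr rfl fun m hm => ?_
  have e : 2 • (m.mapRange (fun e => e / 2) (by simp) : Fin 2 →₀ ℕ) = m := by
    ext i
    have := heven m hm i
    simp only [Finsupp.coe_smul, Pi.smul_apply, Finsupp.mapRange_apply, smul_eq_mul]
    obtain ⟨t, ht⟩ := this
    omega
  rw [monomial_pow, hsq', e]

end char2

end Pool.Agent.Helper992
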