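import Pool.Agent.Helper992.Exist

set_option autoImplicit false
set_option linter.unusedSectionVars false
open scoped Classical

namespace Pool.Agent.Helper992

open Finset MvPolynomial Geo

variable (F : Type*) [Field F]

/-- polynomials of total degree at most `n` -/
noncomputable abbrev Vn (n : ℕ) : Submodule F (MvPolynomial (Fin 2) F) :=
  restrictTotalDegree (Fin 2) F n

/-- triangle index set -/
def Tri (n : ℕ) : Finset (Σ _ : ℕ, ℕ) := (range (n + 1)).sigma (fun i => range (n + 1 - i))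

theorem card_Tri (n : ℕ) : 2 * (Tri n).card = (n + 1) * (n + 2) := by
  rw [Tri, card_sigma]
  simp only [card_range]
  have h1 := Finset.sum_range_reflect (fun i => i + 1) (n + 1)
  have h2 : ∑ i ∈ range (n + 1), (n + 1 - i) = ∑ i ∈ range (n + 1), (i + 1) := by
    rw [← h1]
    refine sum_congr rfl fun i hi => ?_
    rw [mem_range] at hi
    omega
  rw [h2]
  clear h1 h2
  induction n with
  | zero => simp
  | succ n ih =>
    rw [sum_range_succ, mul_add, ih]; ring

theorem mem_Tri {n : ℕ} {t : Σ _ : ℕ, ℕ} : t ∈ Tri n ↔ t.1 + t.2 ≤ n := by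
  rw [Tri, mem_sigma, mem_range, mem_range]
  omega

theorem finrank_Vn (n : ℕ) : Module.finrank F (Vn F n) = (Tri n).card := by
  have hb : Module.finrank F (Vn F n)
      = Nat.card {m : Fin 2 →₀ ℕ | (m.sum fun _ e => e) ≤ n} := by
    exact Module.finrank_eq_nat_card_basis (basisRestrictSupport F _)
  rw [hb]
  have e : {m : Fin 2 →₀ ℕ | (m.sum fun _ e => e) ≤ n} ≃ (Tri n) := by
    refine
      { toFun := fun m => ⟨⟨m.1 0, m.1 1⟩, ?_⟩
        invFun := fun t => ⟨Finsupp.single 0 t.1.1 + Finsupp.single 1 t.1.2, ?_⟩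
        left_inv := ?_
        right_inv := ?_ }
    · have hm := m.2
      rw [Set.mem_setOf_eq, Finsupp.sum_fintype _ _ (fun _ => rfl), Fin.sum_univ_two] at hm
      exact mem_Tri.mpr hm
    · have ht := t.2
      rw [mem_Tri] at ht
      rw [Set.mem_setOf_eq, Finsupp.sum_fintype _ _ (fun _ => rfl), Fin.sum_univ_two]
      simp
      omega
    · intro m
      apply Subtype.ext
      ext i
      fin_cases i
      · simp
      · simp
    · intro t
      apply Subtype.ext
      simp
  rw [Nat.card_congr e]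
  simp

variable {F}

/-- evaluation on a finite set -/
noncomputable def evZ (Z : Finset (Fin 2 → F)) (n : ℕ) : Vn F n →ₗ[F] (Z → F) :=
  LinearMap.pi (fun z => ((aeval z.1 : MvPolynomial (Fin 2) F →ₐ[F] F).toLinearMap).comp
    (Vn F n).subtype)

theorem ker_ge (Z : Finset (Fin 2 → F)) (n : ℕ) :
    (Tri n).card ≤ Z.card + Module.finrank F (LinearMap.ker (evZ Z n)) := by
  have h1 := LinearMap.finrank_range_add_finrank_ker (evZ Z n)
  have h2 : Module.finrank F (LinearMap.range (evZ Z n)) ≤ Z.card := by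
    refine (Submodule.finrank_le _).trans ?_
    rw [Module.finrank_fintype_fun_eq_card]
    simp
  rw [finrank_Vn] at h1
  omega

theorem mem_ker_evZ {Z : Finset (Fin 2 → F)} {n : ℕ} {p : Vn F n} :
    p ∈ LinearMap.ker (evZ Z n) ↔ ∀ z ∈ Z, eval z p.1 = 0 := by
  rw [LinearMap.mem_ker, evZ]
  constructor
  · intro h z hz
    have := congrFun h ⟨z, hz⟩
    simpa using this
  · intro h
    funext z
    simpa using h z.1 z.2

theorem exists_Kp (Z : Finset (Fin 2 → F)) (n : ℕ) (h : Z.card < (Tri n).card) :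
    ∃ Kp : MvPolynomial (Fin 2) F, Kp ≠ 0 ∧ Kp.totalDegree ≤ n ∧ ∀ z ∈ Z, eval z Kp = 0 := by
  have h1 := ker_ge Z n
  have h2 : LinearMap.ker (evZ Z n) ≠ ⊥ := by
    intro h3
    rw [h3, finrank_bot] at h1
    omega
  obtain ⟨p, hp, hp0⟩ := Submodule.exists_mem_ne_zero_of_ne_bot h2
  refine ⟨p.1, fun h4 => hp0 (Subtype.ext h4), ?_, mem_ker_evZ.mp hp⟩
  exact (mem_restrictTotalDegree _ _ _).mp p.2

theorem boot (Z : Finset (Fin 2 → F)) (n m : ℕ) (Kp : MvPolynomial (Fin 2) F)
    (h : ∀ p : MvPolynomial (Fin 2) F, p.totalDegree ≤ n → (∀ z ∈ Z, eval z p = 0) →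
      ∃ g : MvPolynomial (Fin 2) F, g.totalDegree ≤ m ∧ p = g * Kp) :
    (Tri n).card ≤ Z.card + (Tri m).card := by
  have h1 := ker_ge Z n
  let μ : Vn F m →ₗ[F] MvPolynomial (Fin 2) F :=
    (LinearMap.mulRight F Kp).comp (Vn F m).subtype
  have h2 : (LinearMap.ker (evZ Z n)).map (Vn F n).subtype ≤ LinearMap.range μ := by
    rintro _ ⟨p, hp, rfl⟩
    obtain ⟨g, hg, hpg⟩ := h p.1 ((mem_restrictTotalDegree _ _ _).mp p.2) (mem_ker_evZ.mp hp)
    refine ⟨⟨g, (mem_restrictTotalDegree _ _ _).mpr hg⟩, ?_⟩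
    simp only [μ, LinearMap.comp_apply, Submodule.subtype_apply, LinearMap.mulRight_apply]
    exact hpg.symm
  have h3 : Module.finrank F ((LinearMap.ker (evZ Z n)).map (Vn F n).subtype)
      = Module.finrank F (LinearMap.ker (evZ Z n)) :=
    Submodule.finrank_map_subtype_eq _ _
  have h4 : Module.finrank F (LinearMap.range μ) ≤ (Tri m).card := by
    rw [← finrank_Vn F m]
    exact LinearMap.finrank_range_le μ
  have h5 := Submodule.finrank_mono h2
  omega

end Pool.Agent.Helper992
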