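import Mathlib

set_option autoImplicit false
open scoped Classical
open Finset

namespace Pool.Agent.Helper992.Ds

variable {G K : Type*} [AddCommGroup G] [Fintype G] [AddCommGroup K] [Fintype K]

/-- Size of the fibre of `π` over `x` in `D`. -/
noncomputable def fib (π : K →+ G) (D : Finset K) (x : G) : ℕ :=
  (D.filter (fun d => π d = x)).card

theorem diag_card (D : Finset K) :
    ((D ×ˢ D).filter (fun p => p.1 - p.2 = (0:K))).card = D.card := by
  have : (D ×ˢ D).filter (fun p => p.1 - p.2 = (0:K)) = D.image (fun d => (d, d)) := by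
    ext ⟨a, b⟩
    simp only [Finset.mem_filter, Finset.mem_product, Finset.mem_image, Prod.mk.injEq, sub_eq_zero]
    constructor
    · rintro ⟨⟨ha, _⟩, rfl⟩
      exact ⟨a, ha, rfl, rfl⟩
    · rintro ⟨d, hd, rfl, rfl⟩
      exact ⟨⟨hd, hd⟩, rfl⟩
  rw [this, Finset.card_image_of_injective]
  intro a b h
  exact (Prod.mk.inj h).1

theorem abs_sq (π : K →+ G) (hπ : Function.Surjective π) (D : Finset K) (l : ℕ)
    (hD : ∀ g : K, g ≠ 0 → ((D ×ˢ D).filter (fun p => p.1 - p.2 = g)).card = l)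
    (ψ : AddChar G ℂ) (hψ : ψ ≠ 0) :
    (∑ d ∈ D, ψ (π d)) * (∑ d ∈ D, ψ (- π d)) = (D.card : ℂ) - l := by
  have h1 : (∑ d ∈ D, ψ (π d)) * (∑ d ∈ D, ψ (- π d)) = ∑ p ∈ D ×ˢ D, ψ (π (p.1 - p.2)) := by
    rw [Finset.sum_mul_sum, ← Finset.sum_product']
    apply Finset.sum_congr rfl
    intro p _
    rw [map_sub, sub_eq_add_neg, AddChar.map_add_eq_mul]
  have h2 : ∑ p ∈ D ×ˢ D, ψ (π (p.1 - p.2))
      = ∑ g : K, (((D ×ˢ D).filter (fun p => p.1 - p.2 = g)).card : ℂ) * ψ (π g) := by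
    rw [← Finset.sum_fiberwise (s := D ×ˢ D) (g := fun p => p.1 - p.2)]
    apply Finset.sum_congr rfl
    intro g _
    rw [Finset.sum_congr rfl (g := fun _ => ψ (π g))]
    · rw [Finset.sum_const, nsmul_eq_mul]
    · intro p hp
      rw [(Finset.mem_filter.mp hp).2]
  have h3 : ∑ g : K, ψ (π g) = 0 := by
    have hne : (ψ.compAddMonoidHom π) ≠ 0 := by
      intro h
      apply hψ
      ext x
      obtain ⟨y, rfl⟩ := hπ x
      have := DFunLike.congr_fun h y
      simpa using this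
    have := AddChar.sum_eq_zero_iff_ne_zero.mpr hne
    simpa using this
  have h4 : ∑ g : K, (((D ×ˢ D).filter (fun p => p.1 - p.2 = g)).card : ℂ) * ψ (π g)
      = ∑ g : K, ((l : ℂ) * ψ (π g) + if g = 0 then ((D.card : ℂ) - l) else 0) := by
    apply Finset.sum_congr rfl
    intro g _
    by_cases hg : g = 0
    · subst hg
      rw [diag_card]
      simp
    · rw [hD g hg]
      simp [hg]
  rw [h1, h2, h4, Finset.sum_add_distrib, ← Finset.mul_sum, h3]
  simp

/-- Real character sums. -/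
theorem sum_sq (π : K →+ G) (hπ : Function.Surjective π) (D : Finset K) (l : ℕ)
    (hD : ∀ g : K, g ≠ 0 → ((D ×ˢ D).filter (fun p => p.1 - p.2 = g)).card = l)
    (τ : K → K) (hτ : ∀ d ∈ D, τ d ∈ D) (hττ : ∀ d ∈ D, τ (τ d) = d)
    (hτπ : ∀ d ∈ D, π (τ d) = - π d)
    (ψ : AddChar G ℂ) (hψ : ψ ≠ 0) :
    (∑ d ∈ D, ψ (π d)) ^ 2 = (D.card : ℂ) - l := by
  rw [← abs_sq π hπ D l hD ψ hψ, sq]
  congr 1
  refine Finset.sum_nbij' τ τ hτ hτ hττ hττ ?_
  intro d hd
  rw [hτπ d hd, neg_neg]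

theorem inversion (π : K →+ G) (D : Finset K) (x : G) :
    ∑ ψ : AddChar G ℂ, (∑ d ∈ D, ψ (π d)) * ψ (-x)
      = (Fintype.card G : ℂ) * (fib π D x : ℕ) := by
  unfold fib
  have h1 : ∀ ψ : AddChar G ℂ, (∑ d ∈ D, ψ (π d)) * ψ (-x) = ∑ d ∈ D, ψ (π d - x) := by
    intro ψ
    rw [Finset.sum_mul]
    apply Finset.sum_congr rfl
    intro d _
    rw [sub_eq_add_neg, AddChar.map_add_eq_mul]
  rw [Finset.sum_congr rfl (fun ψ _ => h1 ψ), Finset.sum_comm]
  have h2 : ∀ d ∈ D, ∑ ψ : AddChar G ℂ, ψ (π d - x)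
      = if π d = x then (Fintype.card G : ℂ) else 0 := by
    intro d _
    rw [AddChar.sum_apply_eq_ite]
    simp only [sub_eq_zero]
  rw [Finset.sum_congr rfl h2, ← Finset.sum_filter, Finset.sum_const, nsmul_eq_mul, mul_comm]

theorem isIntegral_char (ψ : AddChar G ℂ) (x : G) : IsIntegral ℤ (ψ x) := by
  have h : ψ x ^ (Fintype.card G) = 1 := by
    rw [← AddChar.map_nsmul_eq_pow, card_nsmul_eq_zero, AddChar.map_zero_eq_one]
  exact IsIntegral.of_pow (Fintype.card_pos) (by rw [h]; exact isIntegral_one)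

theorem int_of_rat_integral (z : ℂ) (hz : IsIntegral ℤ z) (a b : ℤ) (hb : b ≠ 0)
    (h : (b : ℂ) * z = a) : ∃ c : ℤ, z = c := by
  have hq : z = algebraMap ℚ ℂ ((a : ℚ) / b) := by
    have hb' : (b : ℂ) ≠ 0 := Int.cast_ne_zero.mpr hb
    field_simp
    rw [eq_ratCast]
    push_cast
    field_simp
    rw [← h]
    ring
  rw [hq] at hz
  rw [isIntegral_algebraMap_iff (algebraMap ℚ ℂ).injective] at hz
  obtain ⟨c, hc⟩ := IsIntegrallyClosed.isIntegral_iff.mp hz
  refine ⟨c, ?_⟩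
  rw [hq, ← hc]
  simp

/-- The main Fourier step. -/
theorem fourier (π : K →+ G) (hπ : Function.Surjective π) (D : Finset K) (l : ℕ)
    (hD : ∀ g : K, g ≠ 0 → ((D ×ˢ D).filter (fun p => p.1 - p.2 = g)).card = l)
    (τ : K → K) (hτ : ∀ d ∈ D, τ d ∈ D) (hττ : ∀ d ∈ D, τ (τ d) = d)
    (hτπ : ∀ d ∈ D, π (τ d) = - π d) (hl : l < D.card)
    (h0 : Fintype.card G * fib π D 0 ≠ D.card) :
    ∃ u : ℕ, 0 < u ∧ D.card - l = u ^ 2 ∧
      ∀ x : G, ∃ h : ℤ, (Fintype.card G : ℤ) * (fib π D x : ℕ) - D.card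
        = u * h := by
  obtain ⟨N, hN⟩ : ∃ N : ℕ, D.card = l + N := ⟨D.card - l, by omega⟩
  have hNpos : 0 < N := by omega
  set w : ℂ := ((Real.sqrt N : ℝ) : ℂ) with hw
  have hw2 : w ^ 2 = N := by
    rw [hw, ← Complex.ofReal_pow, Real.sq_sqrt (Nat.cast_nonneg N)]
    simp
  have hw0 : w ≠ 0 := by
    intro h
    rw [h] at hw2
    have : (N : ℂ) ≠ 0 := by exact_mod_cast hNpos.ne'
    apply this
    rw [← hw2]; simp
  -- signs
  have hsign : ∀ ψ : AddChar G ℂ, ∃ e : ℤ, (ψ ≠ 0 → (∑ d ∈ D, ψ (π d)) = w * e) := by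
    intro ψ
    by_cases hψ : ψ = 0
    · exact ⟨0, fun h => absurd hψ h⟩
    · have h := sum_sq π hπ D l hD τ hτ hττ hτπ ψ hψ
      rw [hN] at h
      push_cast at h
      have h' : (∑ d ∈ D, ψ (π d)) ^ 2 = w ^ 2 := by
        rw [h, hw2]; ring
      rcases sq_eq_sq_iff_eq_or_eq_neg.mp h' with h1 | h1
      · exact ⟨1, fun _ => by rw [h1]; simp⟩
      · exact ⟨-1, fun _ => by rw [h1]; simp⟩
  choose e he using hsign
  set α : G → ℂ := fun x => ∑ ψ ∈ (Finset.univ.erase (0 : AddChar G ℂ)), (e ψ : ℂ) * ψ (-x) with hα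
  have hαint : ∀ x, IsIntegral ℤ (α x) := by
    intro x
    apply IsIntegral.sum
    intro ψ _
    exact (isIntegral_algebraMap (R := ℤ) (A := ℂ) (x := e ψ)).mul (isIntegral_char ψ (-x))
  have hkey : ∀ x : G, w * α x
      = (((Fintype.card G : ℤ) * (fib π D x : ℕ) - D.card : ℤ) : ℂ) := by
    intro x
    have h := inversion π D x
    rw [← Finset.add_sum_erase _ _ (Finset.mem_univ (0 : AddChar G ℂ))] at h
    have h1 : ∑ ψ ∈ (Finset.univ.erase (0 : AddChar G ℂ)), (∑ d ∈ D, ψ (π d)) * ψ (-x)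
        = w * α x := by
      rw [hα, Finset.mul_sum]
      apply Finset.sum_congr rfl
      intro ψ hψ
      rw [he ψ (Finset.ne_of_mem_erase hψ)]
      ring
    rw [h1] at h
    simp only [AddChar.zero_apply, Finset.sum_const, nsmul_eq_mul, mul_one] at h
    push_cast
    rw [← h]
    ring
  -- rationality of w
  have hα0 : α 0 = ((∑ ψ ∈ (Finset.univ.erase (0 : AddChar G ℂ)), e ψ : ℤ) : ℂ) := by
    rw [hα]
    push_cast
    apply Finset.sum_congr rfl
    intro ψ _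
    rw [neg_zero, AddChar.map_zero_eq_one, mul_one]
  set m : ℤ := ∑ ψ ∈ (Finset.univ.erase (0 : AddChar G ℂ)), e ψ with hm
  set c : ℤ := (Fintype.card G : ℤ) * (fib π D 0 : ℕ) - D.card with hc
  have hwm : w * m = c := by
    rw [← hα0]; exact hkey 0
  have hc0 : c ≠ 0 := by
    intro h
    apply h0
    have : (Fintype.card G : ℤ) * (fib π D 0 : ℕ) = D.card := by linarith
    exact_mod_cast this
  have hm0 : m ≠ 0 := by
    intro h
    rw [h] at hwm
    apply hc0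
    have : (c : ℂ) = 0 := by rw [← hwm]; simp
    exact_mod_cast this
  have hsq : (N : ℤ) * m ^ 2 = c ^ 2 := by
    have : (N : ℂ) * (m : ℂ) ^ 2 = (c : ℂ) ^ 2 := by
      rw [← hwm, ← hw2]; ring
    exact_mod_cast this
  have hmc : m ∣ c := by
    rw [← Int.pow_dvd_pow_iff (n := 2) (by norm_num)]
    exact ⟨N, by rw [← hsq]; ring⟩
  obtain ⟨c', hc'⟩ := hmc
  have hNc : (N : ℤ) = c' ^ 2 := by
    rw [hc'] at hsq
    have : (m ^ 2) * (N : ℤ) = m ^ 2 * c' ^ 2 := by rw [mul_comm, hsq]; ring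
    exact mul_left_cancel₀ (pow_ne_zero 2 hm0) this
  have hwc : w = c' := by
    have hmC : (m : ℂ) ≠ 0 := Int.cast_ne_zero.mpr hm0
    apply mul_right_cancel₀ hmC
    rw [hwm, hc']; push_cast; ring
  have hc'0 : c' ≠ 0 := by
    intro h
    apply hw0
    rw [hwc, h]; simp
  refine ⟨c'.natAbs, Int.natAbs_pos.mpr hc'0, ?_, ?_⟩
  · have : D.card - l = N := by omega
    rw [this]
    zify
    rw [hNc, sq_abs]
  · intro x
    have h1 := hkey x
    rw [hwc] at h1
    obtain ⟨z, hz⟩ := int_of_rat_integral (α x) (hαint x) _ c' hc'0 h1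
    rw [hz] at h1
    have h2 : c' * z = (Fintype.card G : ℤ) * (fib π D x : ℕ) - D.card := by
      exact_mod_cast h1
    rcases Int.natAbs_eq c' with h3 | h3
    · exact ⟨z, by rw [← h2, ← h3]⟩
    · exact ⟨-z, by rw [← h2]; conv_lhs => rw [h3]
                    ring⟩

end Pool.Agent.Helper992.Ds
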