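import Mathlib

set_option autoImplicit false
open scoped Classical
open Finset

namespace Pool.Agent.Helper992.Ds

/-- Final size argument. -/
theorem size_contra (t j b : ℤ) (ht : 2 ≤ t) (hj : 1 ≤ j) (hb : 1 ≤ b)
    (h : t * (2 + t * j) * (b + j + t * j * b) ^ 2
      = (1 + (2 * b + j + t * j * b) * t) ^ 2 - (2 * b + j + t * j * b) * (1 + t * b)) : False := by
  obtain ⟨T, hT⟩ := Int.eq_ofNat_of_zero_le (by linarith : 0 ≤ t - 2)
  obtain ⟨J, hJ⟩ := Int.eq_ofNat_of_zero_le (by linarith : 0 ≤ j - 1)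
  obtain ⟨B, hB⟩ := Int.eq_ofNat_of_zero_le (by linarith : 0 ≤ b - 1)
  obtain rfl : t = 2 + T := by linarith
  obtain rfl : j = 1 + J := by linarith
  obtain rfl : b = 1 + B := by linarith
  have e : ((2 + T : ℤ)) * (2 + (2 + T) * (1 + J)) * ((1 + B) + (1 + J) + (2 + T) * (1 + J) * (1 + B)) ^ 2
      - ((1 + (2 * (1 + B) + (1 + J) + (2 + T) * (1 + J) * (1 + B)) * (2 + T)) ^ 2
        - (2 * (1 + B) + (1 + J) + (2 + T) * (1 + J) * (1 + B)) * (1 + (2 + T) * (1 + B)))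
      = 22 + 38*B + 16*B^2 + 133*J + 196*J*B + 72*J*B^2 + 132*J^2 + 184*J^2*B + 64*J^2*B^2 + 36*J^3 + 48*J^3*B + 16*J^3*B^2 + 14*T + 26*T*B + 12*T*B^2 + 164*T*J + 262*T*J*B + 104*T*J*B^2 + 194*T*J^2 + 296*T*J^2*B + 112*T*J^2*B^2 + 60*T*J^3 + 88*T*J^3*B + 32*T*J^3*B^2 + 2*T^2 + 4*T^2*B + 2*T^2*B^2 + 73*T^2*J + 126*T^2*J*B + 54*T^2*J*B^2 + 104*T^2*J^2 + 174*T^2*J^2*B + 72*T^2*J^2*B^2 + 37*T^2*J^3 + 60*T^2*J^3*B + 24*T^2*J^3*B^2 + 14*T^3*J + 26*T^3*J*B + 12*T^3*J*B^2 + 24*T^3*J^2 + 44*T^3*J^2*B + 20*T^3*J^2*B^2 + 10*T^3*J^3 + 18*T^3*J^3*B + 8*T^3*J^3*B^2 + 1*T^4*J + 2*T^4*J*B + 1*T^4*J*B^2 + 2*T^4*J^2 + 4*T^4*J^2*B + 2*T^4*J^2*B^2 + 1*T^4*J^3 + 2*T^4*J^3*B + 1*T^4*J^3*B^2 := by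
    ring
  rw [h, sub_self] at e
  have : (0:ℤ) < 22 + 38*B + 16*B^2 + 133*J + 196*J*B + 72*J*B^2 + 132*J^2 + 184*J^2*B + 64*J^2*B^2 + 36*J^3 + 48*J^3*B + 16*J^3*B^2 + 14*T + 26*T*B + 12*T*B^2 + 164*T*J + 262*T*J*B + 104*T*J*B^2 + 194*T*J^2 + 296*T*J^2*B + 112*T*J^2*B^2 + 60*T*J^3 + 88*T*J^3*B + 32*T*J^3*B^2 + 2*T^2 + 4*T^2*B + 2*T^2*B^2 + 73*T^2*J + 126*T^2*J*B + 54*T^2*J*B^2 + 104*T^2*J^2 + 174*T^2*J^2*B + 72*T^2*J^2*B^2 + 37*T^2*J^3 + 60*T^2*J^3*B + 24*T^2*J^3*B^2 + 14*T^3*J + 26*T^3*J*B + 12*T^3*J*B^2 + 24*T^3*J^2 + 44*T^3*J^2*B + 20*T^3*J^2*B^2 + 10*T^3*J^3 + 18*T^3*J^3*B + 8*T^3*J^3*B^2 + 1*T^4*J + 2*T^4*J*B + 1*T^4*J*B^2 + 2*T^4*J^2 + 4*T^4*J^2*B + 2*T^4*J^2*B^2 + 1*T^4*J^3 + 2*T^4*J^3*B + 1*T^4*J^3*B^2 := by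
    positivity
  omega

/-- Endgame. -/
theorem endgame (r k n k0 k1 u : ℕ) (hr : 3 ≤ r) (hrodd : Odd r) (hk : Odd k) (hk1' : 1 < k)
    (hnk : n * k = r ^ 2 - 1) (hkk : k = k0 * k1) (hk0 : k0 ∣ r - 1) (hk1 : k1 ∣ r + 1)
    (hu : 0 < u) (hun : u ^ 2 * n = r ^ 2 - k)
    (hpm : (r : ℤ) * k0 - k = u * (r - 1) ∨ (r : ℤ) * k0 - k = - (u * (r - 1))) : False := by
  obtain ⟨t, ht⟩ := hk0
  obtain ⟨s, hs⟩ := hk1
  have hodd := hk
  rw [hkk, Nat.odd_mul] at hodd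
  obtain ⟨ho0, ho1⟩ := hodd
  have htE : Even t := by
    have h1 : Even (r - 1) := Nat.Odd.sub_odd hrodd odd_one
    rw [ht, Nat.even_mul] at h1
    rcases h1 with h1 | h1
    · exact absurd h1 (Nat.not_even_iff_odd.mpr ho0)
    · exact h1
  have hsE : Even s := by
    have h1 : Even (r + 1) := hrodd.add_one
    rw [hs, Nat.even_mul] at h1
    rcases h1 with h1 | h1
    · exact absurd h1 (Nat.not_even_iff_odd.mpr ho1)
    · exact h1
  have ht2 : 2 ≤ t := by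
    rcases Nat.eq_zero_or_pos t with h | h
    · subst h; simp at ht; omega
    · obtain ⟨a, ha⟩ := htE; omega
  have hs2 : 2 ≤ s := by
    rcases Nat.eq_zero_or_pos s with h | h
    · subst h; simp at hs
    · obtain ⟨a, ha⟩ := hsE; omega
  have hk0pos : 0 < k0 := ho0.pos
  have hk1pos : 0 < k1 := ho1.pos
  have hkr : k ≤ r ^ 2 := by
    have hn : 0 < n := by
      rcases Nat.eq_zero_or_pos n with h | h
      · subst h
        have : 9 ≤ r ^ 2 := by nlinarith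
        omega
      · exact h
    have : k ≤ n * k := Nat.le_mul_of_pos_left k hn
    omega
  -- integers
  have htz : (r : ℤ) = 1 + k0 * t := by
    have : r = 1 + k0 * t := by omega
    exact_mod_cast this
  have hsz : (r : ℤ) + 1 = k1 * s := by exact_mod_cast hs
  have hkz : (k : ℤ) = k0 * k1 := by exact_mod_cast hkk
  have hnkz : (n : ℤ) * k = r ^ 2 - 1 := by
    have h1 : 1 ≤ r ^ 2 := Nat.one_le_pow _ _ (by omega)
    have := congrArg (fun x : ℕ => (x : ℤ)) hnk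
    push_cast [Nat.cast_sub h1] at this
    exact this
  have hunz : (u : ℤ) ^ 2 * n = r ^ 2 - k := by
    have := congrArg (fun x : ℕ => (x : ℤ)) hun
    push_cast [Nat.cast_sub hkr] at this
    exact this
  have hk0z : (0 : ℤ) < k0 := by exact_mod_cast hk0pos
  have hk1z : (0 : ℤ) < k1 := by exact_mod_cast hk1pos
  have ht2z : (2 : ℤ) ≤ t := by exact_mod_cast ht2
  have hs2z : (2 : ℤ) ≤ s := by exact_mod_cast hs2
  have huz : (0 : ℤ) < u := by exact_mod_cast hu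
  have hrz : (3 : ℤ) ≤ r := by exact_mod_cast hr
  have hn : (n : ℤ) = t * s := by
    have h1 : (n : ℤ) * (k0 * k1) = (t * s) * (k0 * k1) := by
      rw [← hkz, hnkz, hkz]
      have : (r : ℤ) ^ 2 - 1 = (r - 1) * (r + 1) := by ring
      rw [this, hsz]
      have : (r : ℤ) - 1 = k0 * t := by rw [htz]; ring
      rw [this]; ring
    exact mul_right_cancel₀ (by positivity) h1
  have hlt : (k1 : ℤ) < r := by nlinarith
  have hrk : (r : ℤ) - k1 = u * t := by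
    have hp : (r : ℤ) * k0 - k = k0 * (r - k1) := by rw [hkz]; ring
    have hq : (u : ℤ) * (r - 1) = k0 * (u * t) := by rw [htz]; ring
    rw [hp, hq] at hpm
    rcases hpm with h | h
    · exact mul_left_cancel₀ hk0z.ne' h
    · exfalso
      have h1 : (0 : ℤ) < k0 * (r - k1) := mul_pos hk0z (by linarith)
      have h2 : (0 : ℤ) < k0 * (u * t) := by positivity
      linarith
  obtain ⟨b, hb⟩ : ∃ b : ℤ, b = k0 - u := ⟨_, rfl⟩
  have hk1b : (k1 : ℤ) = 1 + t * b := by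
    rw [hb]
    linear_combination htz - hrk
  have hb0 : 0 ≤ b := by
    by_contra hneg
    push Not at hneg
    have : (t : ℤ) * b ≤ -2 := by nlinarith
    linarith
  rcases hb0.eq_or_lt with hb0 | hb1
  · rw [← hb0] at hk1b hb
    have hk1one : (k1 : ℤ) = 1 := by rw [hk1b]; ring
    have huk : (u : ℤ) = k := by rw [hkz, hk1one]; linarith
    have hkone : (1 : ℤ) < k := by exact_mod_cast hk1'
    have hnpos : (0 : ℤ) < n := by rw [hn]; positivity
    rw [huk] at hunz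
    have h1 : (n : ℤ) * k * (k - 1) = - (k - 1) := by linear_combination hunz - hnkz
    have h2 : (0 : ℤ) < n * k * (k - 1) := by
      apply mul_pos (mul_pos hnpos (by linarith)) (by linarith)
    linarith
  · obtain ⟨j, hj⟩ : ∃ j : ℤ, j = k0 - s * b := ⟨_, rfl⟩
    have hsj : (s : ℤ) = 2 + t * j := by
      rw [hj]
      have h1 : (k1 : ℤ) * s = k0 * t + 2 := by rw [← hsz, htz]; ring
      rw [hk1b] at h1
      linear_combination h1
    have hj0 : 0 ≤ j := by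
      by_contra hneg
      push Not at hneg
      have : (t : ℤ) * j ≤ -2 := by nlinarith
      linarith
    rcases hj0.eq_or_lt with hj0 | hj1
    · rw [← hj0] at hj hsj
      have h2 : (k0 : ℤ) = 2 * b := by
        have : (s : ℤ) = 2 := by rw [hsj]; ring
        rw [this] at hj
        linarith
      obtain ⟨a, ha⟩ := ho0
      omega
    · have hk0e : (k0 : ℤ) = 2 * b + j + t * j * b := by
        rw [hsj] at hj
        linear_combination -hj
      have hue : (u : ℤ) = b + j + t * j * b := by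
        linear_combination hb + hk0e - 2 * 0
      refine size_contra t j b ht2z (by linarith) (by linarith) ?_
      rw [hn, hsj, hue, hkz, hk1b] at hunz
      rw [htz, hk0e] at hunz
      linear_combination hunz

end Pool.Agent.Helper992.Ds
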