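import Pool.Agent.Helper992.DsA

set_option autoImplicit false
open scoped Classical
open Finset

namespace Pool.Agent.Helper992.Ds

variable {G K : Type*} [AddCommGroup G] [Fintype G] [AddCommGroup K] [Fintype K]

theorem second_moment (π : K →+ G) (D : Finset K) (l : ℕ)
    (hD : ∀ g : K, g ≠ 0 → ((D ×ˢ D).filter (fun p => p.1 - p.2 = g)).card = l) :
    ∑ x : G, (fib π D x) ^ 2 + l = D.card + l * fib π Finset.univ 0 := by
  unfold fib
  have h1 : ∑ x : G, ((D.filter (fun d => π d = x)).card) ^ 2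
      = ((D ×ˢ D).filter (fun p => π (p.1 - p.2) = 0)).card := by
    rw [Finset.card_eq_sum_card_fiberwise (f := fun p : K × K => π p.1) (t := Finset.univ)
      (fun _ _ => Finset.mem_coe.mpr (Finset.mem_univ _))]
    apply Finset.sum_congr rfl
    intro x _
    rw [sq, ← Finset.card_product]
    congr 1
    ext ⟨a, b⟩
    simp only [Finset.mem_filter, Finset.mem_product, map_sub, sub_eq_zero]
    constructor
    · rintro ⟨⟨ha, rfl⟩, ⟨hb, hb'⟩⟩
      exact ⟨⟨⟨ha, hb⟩, hb'.symm⟩, rfl⟩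
    · rintro ⟨⟨⟨ha, hb⟩, hab⟩, rfl⟩
      exact ⟨⟨ha, rfl⟩, hb, hab.symm⟩
  have h2 : ((D ×ˢ D).filter (fun p => π (p.1 - p.2) = 0)).card
      = ∑ g ∈ Finset.univ.filter (fun g : K => π g = 0),
        ((D ×ˢ D).filter (fun p => p.1 - p.2 = g)).card := by
    rw [Finset.card_eq_sum_card_fiberwise (f := fun p : K × K => p.1 - p.2)
      (t := Finset.univ.filter (fun g : K => π g = 0))
      (fun p hp => by
        rw [Finset.mem_coe, Finset.mem_filter] at hp
        exact Finset.mem_coe.mpr (Finset.mem_filter.mpr ⟨Finset.mem_univ _, hp.2⟩))]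
    apply Finset.sum_congr rfl
    intro g hg
    congr 1
    ext p
    simp only [Finset.mem_filter]
    constructor
    · rintro ⟨⟨h1, _⟩, h3⟩
      exact ⟨h1, h3⟩
    · rintro ⟨h1, h3⟩
      refine ⟨⟨h1, ?_⟩, h3⟩
      rw [h3]; exact (Finset.mem_filter.mp hg).2
  have h0 : (0 : K) ∈ Finset.univ.filter (fun g : K => π g = 0) := by
    simp
  rw [h1, h2, ← Finset.add_sum_erase _ _ h0, diag_card,
    Finset.sum_congr rfl (g := fun _ => l) (fun g hg => hD g (Finset.ne_of_mem_erase hg)),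
    Finset.sum_const, smul_eq_mul]
  obtain ⟨m, hm⟩ : ∃ m, (Finset.univ.filter (fun g : K => π g = 0)).card = m + 1 :=
    ⟨_, (Nat.succ_pred_eq_of_pos (Finset.card_pos.mpr ⟨0, h0⟩)).symm⟩
  rw [Finset.card_erase_of_mem h0, hm]
  simp only [Nat.add_sub_cancel]
  ring

theorem sum_fib (π : K →+ G) (D : Finset K) : D.card = ∑ x : G, fib π D x := by
  unfold fib
  exact Finset.card_eq_sum_card_fiberwise (f := π) (t := Finset.univ)
    (fun _ _ => Finset.mem_coe.mpr (Finset.mem_univ _))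

theorem count_pairs (D : Finset K) (l : ℕ)
    (hD : ∀ g : K, g ≠ 0 → ((D ×ˢ D).filter (fun p => p.1 - p.2 = g)).card = l) :
    D.card ^ 2 + l = D.card + l * Fintype.card K := by
  have h1 : D.card ^ 2 = ∑ g : K, ((D ×ˢ D).filter (fun p => p.1 - p.2 = g)).card := by
    rw [sq, ← Finset.card_product,
      Finset.card_eq_sum_card_fiberwise (f := fun p : K × K => p.1 - p.2) (t := Finset.univ)
      (fun _ _ => Finset.mem_coe.mpr (Finset.mem_univ _))]
  rw [h1, ← Finset.add_sum_erase _ _ (Finset.mem_univ (0:K)), diag_card,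
    Finset.sum_congr rfl (g := fun _ => l) (fun g hg => hD g (Finset.ne_of_mem_erase hg)),
    Finset.sum_const, smul_eq_mul, Finset.card_erase_of_mem (Finset.mem_univ _), Finset.card_univ]
  obtain ⟨m, hm⟩ : ∃ m, Fintype.card K = m + 1 :=
    ⟨_, (Nat.succ_pred_eq_of_pos (Fintype.card_pos_iff.mpr ⟨0⟩)).symm⟩
  rw [hm]
  simp only [Nat.add_sub_cancel]
  ring

theorem neg_ne_of_odd (hodd : Odd (Fintype.card G)) (x : G) (h : -x = x) : x = 0 := by
  have h2 : (2 : ℕ) • x = 0 := by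
    rw [two_nsmul]
    nth_rewrite 1 [← h]
    exact neg_add_cancel x
  have h3 : addOrderOf x ∣ 2 := addOrderOf_dvd_of_nsmul_eq_zero h2
  have h4 : addOrderOf x ∣ Fintype.card G := addOrderOf_dvd_card
  have h5 : Nat.Coprime 2 (Fintype.card G) := (Nat.coprime_two_left).mpr hodd
  have h6 : addOrderOf x = 1 := Nat.eq_one_of_dvd_coprimes h5 h3 h4
  exact AddMonoid.addOrderOf_eq_one_iff.mp h6

theorem h_lemma (r : ℕ) (hG : Fintype.card G = r) (hrodd : Odd r) (hr3 : 3 ≤ r)
    (p e : ℕ) (hp : p.Prime) (hrp : r = p ^ e)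
    (h : G → ℤ) (hev : ∀ x, h (-x) = h x) (hs : ∑ x, h x = 0)
    (hs2 : ∑ x, (h x) ^ 2 = r * (r - 1)) (hmod : ∀ x, (r : ℤ) ∣ h x - h 0) :
    h 0 = r - 1 ∨ h 0 = - ((r : ℤ) - 1) := by
  have hrz : (3 : ℤ) ≤ r := by exact_mod_cast hr3
  obtain ⟨c, hc1, hc2, hc3⟩ : ∃ c : ℤ, (r : ℤ) ∣ h 0 - c ∧ -(r : ℤ) < 2 * c ∧ 2 * c < r := by
    have h1 := Int.emod_nonneg (h 0) (by linarith : (r : ℤ) ≠ 0)
    have h2 := Int.emod_lt_of_pos (h 0) (by linarith : (0 : ℤ) < r)
    have h3 : (r : ℤ) ∣ h 0 - h 0 % r := Int.dvd_self_sub_emod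
    obtain ⟨a, ha⟩ := hrodd
    by_cases h4 : 2 * (h 0 % r) < r
    · exact ⟨h 0 % r, h3, by linarith, h4⟩
    · refine ⟨h 0 % r - r, ?_, ?_, ?_⟩
      · have : h 0 - (h 0 % r - r) = (h 0 - h 0 % r) + r := by ring
        rw [this]
        exact dvd_add h3 (dvd_refl _)
      · have : (2 : ℤ) * (h 0 % r) ≠ r := by
          rw [ha]; push_cast; omega
        omega
      · linarith
  have hgex : ∀ x, ∃ g : ℤ, h x = c + r * g := by
    intro x
    obtain ⟨a, ha⟩ := dvd_add (hmod x) hc1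
    exact ⟨a, by linarith⟩
  choose g hg using hgex
  have hrne : (r : ℤ) ≠ 0 := by linarith
  have hS1 : c = - ∑ x, g x := by
    have h1 : ∑ x, h x = r * (c + ∑ x, g x) := by
      rw [Finset.sum_congr rfl (fun x _ => hg x), Finset.sum_add_distrib, ← Finset.mul_sum,
        Finset.sum_const, Finset.card_univ, hG, nsmul_eq_mul]
      ring
    rw [hs] at h1
    have := (mul_eq_zero.mp h1.symm).resolve_left hrne
    linarith
  have hS2 : (r : ℤ) * (∑ x, (g x) ^ 2 - 1) = c ^ 2 - 1 := by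
    have h1 : ∑ x, (h x) ^ 2 = r * (c ^ 2 + 2 * c * ∑ x, g x + r * ∑ x, (g x) ^ 2) := by
      have h2 : ∀ x, (h x) ^ 2 = c ^ 2 + 2 * c * r * g x + r ^ 2 * (g x) ^ 2 := by
        intro x; rw [hg x]; ring
      rw [Finset.sum_congr rfl (fun x _ => h2 x), Finset.sum_add_distrib, Finset.sum_add_distrib,
        ← Finset.mul_sum, ← Finset.mul_sum, Finset.sum_const, Finset.card_univ, hG, nsmul_eq_mul]
      ring
    rw [hs2] at h1
    have h3 := mul_left_cancel₀ hrne h1
    have h4 : ∑ x, g x = -c := by linarith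
    rw [h4] at h3
    linear_combination -h3
  have hdvd : (r : ℤ) ∣ (c - 1) * (c + 1) := ⟨_, by rw [hS2]; ring⟩
  have hpz : Prime (p : ℤ) := Nat.prime_iff_prime_int.mp hp
  have hpodd : p ≠ 2 := by
    rintro rfl
    have he : e ≠ 0 := by
      rintro rfl
      simp at hrp
      omega
    rw [hrp] at hrodd
    exact (Nat.not_even_iff_odd.mpr hrodd) ((Nat.even_pow.mpr ⟨even_two, he⟩))
  have hc : c = 1 ∨ c = -1 := by
    by_cases h1 : (p : ℤ) ∣ c - 1
    · have h2 : ¬ (p : ℤ) ∣ c + 1 := by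
        intro h3
        have h4 : (p : ℤ) ∣ 2 := by
          have := dvd_sub h3 h1
          have e : c + 1 - (c - 1) = 2 := by ring
          rwa [e] at this
        have h5 : p ∣ 2 := by exact_mod_cast h4
        exact hpodd ((Nat.prime_dvd_prime_iff_eq hp Nat.prime_two).mp h5)
      have h3 : IsCoprime (r : ℤ) (c + 1) := by
        rw [hrp]; push_cast
        exact IsCoprime.pow_left ((hpz.coprime_iff_not_dvd).mpr h2)
      have h4 : (r : ℤ) ∣ c - 1 := h3.dvd_of_dvd_mul_right hdvd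
      left
      by_contra hne
      have h5 := Int.le_of_dvd (abs_pos.mpr (sub_ne_zero.mpr hne)) ((dvd_abs _ _).mpr h4)
      rcases abs_cases (c - 1) with ⟨h6, _⟩ | ⟨h6, _⟩ <;> rw [h6] at h5 <;> linarith
    · have h3 : IsCoprime (r : ℤ) (c - 1) := by
        rw [hrp]; push_cast
        exact IsCoprime.pow_left ((hpz.coprime_iff_not_dvd).mpr h1)
      have h4 : (r : ℤ) ∣ c + 1 := h3.dvd_of_dvd_mul_left hdvd
      right
      by_contra hne
      have hne' : c + 1 ≠ 0 := fun h => hne (by linarith)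
      have h5 := Int.le_of_dvd (abs_pos.mpr hne') ((dvd_abs _ _).mpr h4)
      rcases abs_cases (c + 1) with ⟨h6, _⟩ | ⟨h6, _⟩ <;> rw [h6] at h5 <;> linarith
  have hg2 : ∑ x, (g x) ^ 2 = 1 := by
    have h1 : c ^ 2 - 1 = 0 := by rcases hc with h | h <;> rw [h] <;> norm_num
    rw [h1] at hS2
    have := (mul_eq_zero.mp hS2).resolve_left hrne
    linarith
  have hgev : ∀ x, g (-x) = g x := by
    intro x
    have h1 := hev x
    rw [hg, hg] at h1
    exact mul_left_cancel₀ hrne (by linarith)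
  have hg0 : ∀ x, x ≠ 0 → g x = 0 := by
    intro x hx
    by_contra hne
    have hxx : x ≠ -x := fun h => hx (neg_ne_of_odd (hG ▸ hrodd) x h.symm)
    have h1 : ∑ y ∈ ({x, -x} : Finset G), (g y) ^ 2 ≤ ∑ y, (g y) ^ 2 :=
      Finset.sum_le_sum_of_subset_of_nonneg (Finset.subset_univ _) (fun _ _ _ => sq_nonneg _)
    rw [Finset.sum_pair hxx, hgev, hg2] at h1
    have h2 : 0 < (g x) ^ 2 := by positivity
    linarith
  have hs1 : ∑ x, g x = g 0 := Finset.sum_eq_single 0 (fun x _ hx => hg0 x hx)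
    (fun h => absurd (Finset.mem_univ _) h)
  rw [hs1] at hS1
  have := hg 0
  rcases hc with h1 | h1
  · right
    rw [this]
    have : g 0 = -1 := by linarith
    rw [this, h1]; ring
  · left
    rw [this]
    have : g 0 = 1 := by linarith
    rw [this, h1]; ring

end Pool.Agent.Helper992.Ds
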