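import Pool.Agent.Helper992.DsB
import Pool.Agent.Helper992.DsC

set_option autoImplicit false
open scoped Classical
open Finset

namespace Pool.Agent.Helper992.Ds

variable {K : Type*} [Field K] [Fintype K]

theorem exists_prim : ∃ g : K, IsPrimitiveRoot g (Fintype.card K - 1) := by
  obtain ⟨g, hg⟩ := IsCyclic.exists_generator (α := Kˣ)
  refine ⟨(g : K), ?_⟩
  have h1 : orderOf g = Fintype.card K - 1 := by
    rw [orderOf_eq_card_of_forall_mem_zpowers hg, Nat.card_eq_fintype_card, Fintype.card_units]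
  rw [← h1, ← orderOf_units]
  exact IsPrimitiveRoot.orderOf _

theorem card_roots (m : ℕ) (hm : m ∣ Fintype.card K - 1) :
    (Finset.univ.filter (fun x : K => x ^ m = 1)).card = m := by
  obtain ⟨g, hg⟩ := exists_prim (K := K)
  have hq : 0 < Fintype.card K - 1 := by
    have := Fintype.one_lt_card (α := K); omega
  obtain ⟨a, ha⟩ := hm
  have hm0 : 0 < m := by
    rcases Nat.eq_zero_or_pos m with h | h
    · subst h; omega
    · exact h
  have h1 : IsPrimitiveRoot (g ^ a) m := hg.pow hq (by rw [ha, mul_comm])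
  have h2 : Finset.univ.filter (fun x : K => x ^ m = 1) = Polynomial.nthRootsFinset m (1 : K) := by
    ext x
    simp [Polynomial.mem_nthRootsFinset hm0]
  rw [h2, h1.card_nthRootsFinset]

theorem mem_powers (n k : ℕ) (hnk : n * k = Fintype.card K - 1) (x : K) :
    (∃ y : K, y ≠ 0 ∧ y ^ n = x) ↔ x ^ k = 1 := by
  have hq : 0 < Fintype.card K - 1 := by
    have := Fintype.one_lt_card (α := K); omega
  constructor
  · rintro ⟨y, hy, rfl⟩
    rw [← pow_mul, hnk]
    exact FiniteField.pow_card_sub_one_eq_one y hy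
  · intro hx
    obtain ⟨g, hg⟩ := exists_prim (K := K)
    have hx1 : x ^ (Fintype.card K - 1) = 1 := by
      rw [← hnk, mul_comm, pow_mul, hx, one_pow]
    haveI : NeZero (Fintype.card K - 1) := ⟨hq.ne'⟩
    obtain ⟨i, _, rfl⟩ := hg.eq_pow_of_pow_eq_one hx1
    rw [← pow_mul, hg.pow_eq_one_iff_dvd, ← hnk] at hx
    have hk0 : 0 < k := by
      rcases Nat.eq_zero_or_pos k with h | h
      · subst h; omega
      · exact h
    obtain ⟨a, rfl⟩ := Nat.dvd_of_mul_dvd_mul_right hk0 hx
    refine ⟨g ^ a, ?_, by rw [← pow_mul, mul_comm]⟩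
    intro h0
    have h1 : (g ^ a) ^ (Fintype.card K - 1) = 1 := by
      rw [← pow_mul, mul_comm, pow_mul, hg.pow_eq_one, one_pow]
    rw [h0, zero_pow hq.ne'] at h1
    exact zero_ne_one h1

/-- The reversible case: `D = -D` is impossible. -/
theorem reversible (n k l : ℕ) (hnk : n * k = Fintype.card K - 1) (hn : 2 ≤ n) (hk : 1 < k)
    (hneg : ∀ x : K, x ^ k = 1 → (-x) ^ k = 1)
    (hD : ∀ g : K, g ≠ 0 → (((Finset.univ.filter (fun x : K => x ^ k = 1)) ×ˢ
      (Finset.univ.filter (fun x : K => x ^ k = 1))).filter (fun p => p.1 - p.2 = g)).card = l)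
    (hln : l * n + 1 = k) : False := by
  set D := Finset.univ.filter (fun x : K => x ^ k = 1) with hDdef
  have hcard : D.card = k := card_roots k ⟨n, by rw [← hnk, mul_comm]⟩
  have hl : l < D.card := by
    rw [hcard, ← hln]
    nlinarith
  have hq := Fintype.one_lt_card (α := K)
  have hf0 : fib (AddMonoidHom.id K) D 0 = 0 := by
    unfold fib
    rw [Finset.card_eq_zero]
    ext x
    simp only [hDdef, Finset.mem_filter, Finset.mem_univ, true_and, AddMonoidHom.id_apply,
      Finset.notMem_empty, iff_false, not_and]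
    rintro h rfl
    rw [zero_pow (by omega)] at h
    exact zero_ne_one h
  have hf1 : fib (AddMonoidHom.id K) D 1 = 1 := by
    unfold fib
    rw [Finset.card_eq_one]
    refine ⟨1, ?_⟩
    ext x
    simp only [hDdef, Finset.mem_filter, Finset.mem_univ, true_and, AddMonoidHom.id_apply,
      Finset.mem_singleton]
    constructor
    · rintro ⟨_, h⟩; exact h
    · rintro rfl; simp
  obtain ⟨u, hu0, hu, hx⟩ := fourier (AddMonoidHom.id K) (fun x => ⟨x, rfl⟩) D l hD
    (fun x => -x) (by
      intro d hd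
      rw [hDdef, Finset.mem_filter] at hd ⊢
      exact ⟨Finset.mem_univ _, hneg d hd.2⟩) (fun d _ => neg_neg d) (fun d _ => by simp) hl (by
      rw [hf0]; simp; omega)
  obtain ⟨h0, hh0⟩ := hx 0
  obtain ⟨h1, hh1⟩ := hx 1
  rw [hf0] at hh0
  rw [hf1] at hh1
  rw [hcard] at hh0 hh1 hu
  simp only [Nat.cast_zero, Nat.cast_one, mul_zero, mul_one, zero_sub] at hh0 hh1
  have hqz : ((n : ℤ) * k) = Fintype.card K - 1 := by
    have := congrArg (fun x : ℕ => (x : ℤ)) hnk
    push_cast [Nat.cast_sub hq.le] at this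
    exact this
  have hdvd : (u : ℤ) ∣ 1 := by
    refine ⟨(h1 - h0) + n * h0, ?_⟩
    linear_combination hh1 + (n - 1) * hh0 + hqz
  have hu1 : u = 1 := by
    have : u ∣ 1 := by exact_mod_cast hdvd
    exact Nat.dvd_one.mp this
  rw [hu1] at hu
  have h3 : k = l + 1 := by omega
  have h4 : l * n = l := by omega
  have h5 : l = 0 := by
    by_contra h
    have : 0 < l := Nat.pos_of_ne_zero h
    nlinarith
  omega

/-- The odd case over a field of square order `r ^ 2`, `r` odd. -/
theorem odd_case (r n k l : ℕ) (hr : Fintype.card K = r ^ 2) (hrodd : Odd r)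
    (hnk : n * k = Fintype.card K - 1) (hn : 2 ≤ n) (hk : 1 < k) (hkodd : Odd k)
    (hD : ∀ g : K, g ≠ 0 → (((Finset.univ.filter (fun x : K => x ^ k = 1)) ×ˢ
      (Finset.univ.filter (fun x : K => x ^ k = 1))).filter (fun p => p.1 - p.2 = g)).card = l)
    (hln : l * n + 1 = k) : False := by
  set D := Finset.univ.filter (fun x : K => x ^ k = 1) with hDdef
  have hkdvd : k ∣ Fintype.card K - 1 := ⟨n, by rw [← hnk, mul_comm]⟩
  have hcard : D.card = k := card_roots k hkdvd
  have hl : l < D.card := by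
    rw [hcard, ← hln]
    nlinarith
  have hq := Fintype.one_lt_card (α := K)
  have hr3 : 3 ≤ r := by
    obtain ⟨a, ha⟩ := hrodd
    rcases Nat.eq_zero_or_pos a with h | h
    · subst h
      simp at ha
      rw [hr, ha] at hq
      simp at hq
    · omega
  obtain ⟨p, hchar, e', hp, hpe⟩ := FiniteField.card' K
  obtain ⟨e, _, hrp⟩ : ∃ e ≤ (e' : ℕ), r = p ^ e := by
    rw [← Nat.dvd_prime_pow hp, ← hpe, hr]
    exact dvd_pow_self r (by norm_num)
  haveI := hchar
  haveI : Fact p.Prime := ⟨hp⟩
  have hfix : ∀ x : K, (x ^ r) ^ r = x := by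
    intro x
    rw [← pow_mul, ← sq, ← hr]
    exact FiniteField.pow_card x
  let φ : K →+ K := AddMonoidHom.mk' (fun x => x ^ r - x) (by
    intro a b
    have : (a + b) ^ r = a ^ r + b ^ r := by rw [hrp]; exact add_pow_char_pow a b p e
    simp only [this]
    ring)
  have hφ : ∀ x, φ x = x ^ r - x := fun x => rfl
  let π : K →+ φ.range := φ.rangeRestrict
  have hπ : ∀ x, ((π x : φ.range) : K) = x ^ r - x := fun x => rfl
  have hπs : Function.Surjective π := φ.rangeRestrict_surjective
  have hπ0 : ∀ x, π x = 0 ↔ x ^ r = x := by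
    intro x
    rw [← Subtype.coe_inj, hπ]
    simp [sub_eq_zero]
  have hkersize : (Finset.univ.filter (fun x : K => x ^ r = x)).card = r := by
    have h1 : Finset.univ.filter (fun x : K => x ^ r = x)
        = insert 0 (Finset.univ.filter (fun x : K => x ^ (r - 1) = 1)) := by
      ext x
      simp only [Finset.mem_filter, Finset.mem_univ, true_and, Finset.mem_insert]
      obtain ⟨r', hr'⟩ : ∃ r', r = r' + 1 := ⟨r - 1, by omega⟩
      rw [hr', pow_succ, Nat.add_sub_cancel]
      constructor
      · intro h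
        by_cases hx : x = 0
        · left; exact hx
        · right
          exact mul_right_cancel₀ hx (by rw [h, one_mul])
      · rintro (h | h)
        · rw [h]; simp
        · rw [h, one_mul]
    have h2 : (0 : K) ∉ Finset.univ.filter (fun x : K => x ^ (r - 1) = 1) := by
      simp only [Finset.mem_filter, Finset.mem_univ, true_and]
      rw [zero_pow (by omega)]
      exact zero_ne_one
    rw [h1, Finset.card_insert_of_notMem h2, card_roots (r - 1)]
    · omega
    · refine ⟨r + 1, ?_⟩
      rw [hr]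
      have : r ^ 2 - 1 = (r + 1) * (r - 1) := by
        have := Nat.sq_sub_sq r 1
        simpa using this
      rw [this, mul_comm]
  have hGcard : Fintype.card φ.range = r := by
    have h1 := φ.ker.card_mul_index
    rw [AddSubgroup.index_ker, Nat.card_eq_fintype_card (α := K), hr] at h1
    have h2 : Nat.card φ.ker = r := by
      rw [← hkersize, ← Fintype.card_subtype, Nat.card_eq_fintype_card]
      apply Fintype.card_congr
      refine Equiv.subtypeEquivRight ?_
      intro x
      rw [AddMonoidHom.mem_ker, hφ, sub_eq_zero]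
    rw [h2, sq] at h1
    rw [← Nat.card_eq_fintype_card]
    exact Nat.eq_of_mul_eq_mul_left (by omega) h1
  have hkerπ : fib π Finset.univ 0 = r := by
    unfold fib
    rw [← hkersize]
    congr 1
    ext x
    simp only [Finset.mem_filter, Finset.mem_univ, true_and]
    exact hπ0 x
  have hf0 : fib π D 0 = Nat.gcd k (r - 1) := by
    unfold fib
    have hg : Nat.gcd k (r - 1) ∣ Fintype.card K - 1 := (Nat.gcd_dvd_left _ _).trans hkdvd
    rw [← card_roots (K := K) _ hg]
    congr 1
    ext x
    simp only [hDdef, Finset.mem_filter, Finset.mem_univ, true_and, hπ0]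
    constructor
    · rintro ⟨h1, h2⟩
      have hx : x ≠ 0 := by
        rintro rfl
        rw [zero_pow (by omega)] at h1
        exact zero_ne_one h1
      have h3 : x ^ (r - 1) = 1 := by
        obtain ⟨r', hr'⟩ : ∃ r', r = r' + 1 := ⟨r - 1, by omega⟩
        rw [hr', pow_succ] at h2
        rw [hr', Nat.add_sub_cancel]
        exact mul_right_cancel₀ hx (by rw [h2, one_mul])
      exact pow_gcd_eq_one.mpr ⟨h1, h3⟩
    · intro h
      obtain ⟨a, ha⟩ := Nat.gcd_dvd_left k (r - 1)
      obtain ⟨b, hb⟩ := Nat.gcd_dvd_right k (r - 1)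
      refine ⟨?_, ?_⟩
      · rw [ha, pow_mul, h, one_pow]
      · have : r = Nat.gcd k (r - 1) * b + 1 := by omega
        conv_lhs => rw [this]
        rw [pow_succ, pow_mul, h, one_pow, one_mul]
  have hkr : k ≤ r ^ 2 - 1 := by
    rw [← hr, ← hnk]
    exact Nat.le_mul_of_pos_left k (by omega)
  have hr9 : 9 ≤ r ^ 2 := by nlinarith
  -- r does not divide k
  have hnotdvd : ¬ r ∣ k := by
    intro h
    have h1 : r ∣ n * k := Dvd.dvd.mul_left h n
    rw [hnk, hr] at h1
    have h2 : r ∣ r ^ 2 := dvd_pow_self r (by norm_num)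
    have h3 : r ∣ 1 := by
      have := Nat.dvd_sub h2 h1
      have e : r ^ 2 - (r ^ 2 - 1) = 1 := by omega
      rwa [e] at this
    have := Nat.le_of_dvd one_pos h3
    omega
  obtain ⟨u, hu0, hu, hx⟩ := fourier π hπs D l hD (fun x => x ^ r) (by
      intro d hd
      rw [hDdef, Finset.mem_filter] at hd ⊢
      exact ⟨Finset.mem_univ _, by rw [← pow_mul, mul_comm, pow_mul, hd.2, one_pow]⟩)
    (fun d _ => hfix d) (fun d _ => by
      apply Subtype.ext
      rw [hπ, hfix]
      push_cast
      rw [hπ]; ring) hl (by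
      rw [hGcard, hcard]
      intro h
      exact hnotdvd ⟨_, h.symm⟩)
  choose h hh using hx
  rw [hGcard, hcard] at hh
  rw [hcard] at hu
  -- relations
  have hkz : (l : ℤ) * n + 1 = k := by exact_mod_cast hln
  have hqz : ((n : ℤ) * k) = r ^ 2 - 1 := by
    have := congrArg (fun x : ℕ => (x : ℤ)) hnk
    rw [hr] at this
    push_cast [Nat.cast_sub (by omega : 1 ≤ r ^ 2)] at this
    exact this
  have huz : (u : ℤ) ^ 2 = k - l := by
    have h1 : l ≤ k := by rw [hcard] at hl; omega
    have := congrArg (fun x : ℕ => (x : ℤ)) hu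
    push_cast [Nat.cast_sub h1] at this
    linarith
  have hunz : (u : ℤ) ^ 2 * n = r ^ 2 - k := by
    rw [huz]; linear_combination hqz - hkz
  have huZ : (0 : ℤ) < u := by exact_mod_cast hu0
  -- sums
  have hsum1 : ∑ x : φ.range, (fib π D x : ℤ) = k := by
    have h1 : D.card = ∑ x : φ.range, fib π D x :=
      sum_fib π D
    rw [hcard] at h1
    exact_mod_cast h1.symm
  have hsum2 : ∑ x : φ.range, (fib π D x : ℤ) ^ 2 = k + l * (r - 1) := by
    have h1 := second_moment π D l hD
    rw [hkerπ, hcard] at h1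
    have h2 : (∑ x : φ.range, (fib π D x : ℤ) ^ 2) + l = k + l * r := by
      exact_mod_cast h1
    linarith
  have hs0 : ∑ x, h x = 0 := by
    have h1 : (u : ℤ) * ∑ x, h x = 0 := by
      rw [Finset.mul_sum, ← Finset.sum_congr rfl (fun x _ => hh x), Finset.sum_sub_distrib,
        ← Finset.mul_sum, hsum1, Finset.sum_const, Finset.card_univ, hGcard, nsmul_eq_mul]
      ring
    exact (mul_eq_zero.mp h1).resolve_left huZ.ne'
  have hs2 : ∑ x, (h x) ^ 2 = r * (r - 1) := by
    have h1 : (u : ℤ) ^ 2 * ∑ x, (h x) ^ 2 = u ^ 2 * (r * (r - 1)) := by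
      have h2 : ∀ x, (u : ℤ) ^ 2 * (h x) ^ 2
          = r ^ 2 * (fib π D x : ℤ) ^ 2 - 2 * r * k * (fib π D x : ℤ) + k ^ 2 := by
        intro x
        have := hh x
        rw [← mul_pow, ← this]; ring
      rw [Finset.mul_sum, Finset.sum_congr rfl (fun x _ => h2 x), Finset.sum_add_distrib,
        Finset.sum_sub_distrib, ← Finset.mul_sum, ← Finset.mul_sum, hsum1, hsum2,
        Finset.sum_const, Finset.card_univ, hGcard, nsmul_eq_mul]
      have hcp := count_pairs D l hD
      rw [hcard, hr] at hcp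
      have hcpz : (k : ℤ) ^ 2 + l = k + l * r ^ 2 := by exact_mod_cast hcp
      rw [huz]
      linear_combination (-(r : ℤ)) * hcpz
    exact mul_left_cancel₀ (pow_ne_zero 2 huZ.ne') h1
  have hcopr : IsCoprime (r : ℤ) (u : ℤ) := by
    rw [hrp]; push_cast
    apply IsCoprime.pow_left
    rw [(Nat.prime_iff_prime_int.mp hp).coprime_iff_not_dvd]
    intro hdu
    have hpr : (p : ℤ) ∣ r := by
      have he : e ≠ 0 := by
        rintro rfl
        simp at hrp
        omega
      rw [hrp]; push_cast; exact dvd_pow_self _ he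
    have h1 : (p : ℤ) ∣ k := by
      have h2 : (k : ℤ) = r ^ 2 - u ^ 2 * n := by linarith
      rw [h2]
      exact dvd_sub (Dvd.dvd.pow hpr (by norm_num)) (Dvd.dvd.mul_right (Dvd.dvd.pow hdu (by norm_num)) _)
    have h3 : (p : ℤ) ∣ 1 := by
      have h4 : (1 : ℤ) = r ^ 2 - n * k := by linarith
      rw [h4]
      exact dvd_sub (Dvd.dvd.pow hpr (by norm_num)) (Dvd.dvd.mul_left h1 _)
    have h5 : p ∣ 1 := by exact_mod_cast h3
    exact hp.one_lt.ne' (Nat.dvd_one.mp h5)
  have hmod : ∀ x, (r : ℤ) ∣ h x - h 0 := by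
    intro x
    apply hcopr.dvd_of_dvd_mul_left
    refine ⟨(fib π D x : ℤ) - (fib π D 0 : ℤ), ?_⟩
    linear_combination (hh 0) - (hh x)
  have hev : ∀ x, h (-x) = h x := by
    intro x
    have h1 : fib π D (-x) = fib π D x := by
      unfold fib
      refine Finset.card_nbij' (fun d => d ^ r) (fun d => d ^ r) ?_ ?_ ?_ ?_
      · intro d hd
        simp only [hDdef, Finset.coe_filter, Finset.mem_filter, Finset.mem_univ, true_and,
          Set.mem_setOf_eq] at hd ⊢
        refine ⟨by rw [← pow_mul, mul_comm, pow_mul, hd.1, one_pow], ?_⟩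
        have h2 := hd.2
        apply Subtype.ext
        have h3 : ((π d : φ.range) : K) = -((x : φ.range) : K) := by rw [h2]; rfl
        rw [hπ] at h3
        rw [hπ, hfix]
        linear_combination -h3
      · intro d hd
        simp only [hDdef, Finset.coe_filter, Finset.mem_filter, Finset.mem_univ, true_and,
          Set.mem_setOf_eq] at hd ⊢
        refine ⟨by rw [← pow_mul, mul_comm, pow_mul, hd.1, one_pow], ?_⟩
        have h2 := hd.2
        apply Subtype.ext
        have h3 : ((π d : φ.range) : K) = ((x : φ.range) : K) := by rw [h2]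
        rw [hπ] at h3
        have h4 : (((-x : φ.range)) : K) = -((x : φ.range) : K) := rfl
        rw [hπ, hfix, h4]
        linear_combination -h3
      · intro d _; exact hfix d
      · intro d _; exact hfix d
    have h2 := hh (-x)
    rw [h1, hh x] at h2
    exact (mul_left_cancel₀ huZ.ne' h2).symm
  have hfin := h_lemma r hGcard hrodd hr3 p e hp hrp h hev hs0 hs2 hmod
  have hk0 := hh 0
  rw [hf0] at hk0
  obtain ⟨k1, hk1⟩ := Nat.gcd_dvd_left k (r - 1)
  obtain ⟨t, ht⟩ := Nat.gcd_dvd_right k (r - 1)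
  have hgpos : 0 < Nat.gcd k (r - 1) := Nat.gcd_pos_of_pos_left _ (by omega)
  have hk1dvd : k1 ∣ r + 1 := by
    have hcop : Nat.Coprime k1 t := by
      have h1 := Nat.coprime_div_gcd_div_gcd hgpos
      have h2 : k / Nat.gcd k (r - 1) = k1 := Nat.div_eq_of_eq_mul_right hgpos hk1
      have h3 : (r - 1) / Nat.gcd k (r - 1) = t := Nat.div_eq_of_eq_mul_right hgpos ht
      rwa [h2, h3] at h1
    apply hcop.dvd_of_dvd_mul_left
    have h4 : k ∣ (r - 1) * (r + 1) := by
      refine ⟨n, ?_⟩
      rw [mul_comm k n, hnk, hr]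
      have := Nat.sq_sub_sq r 1
      simp at this
      rw [this, mul_comm]
    have h5 : Nat.gcd k (r - 1) * k1 ∣ Nat.gcd k (r - 1) * (t * (r + 1)) := by
      rw [← hk1, ← mul_assoc, ← ht]
      exact h4
    exact Nat.dvd_of_mul_dvd_mul_left hgpos h5
  refine endgame r k n (Nat.gcd k (r - 1)) k1 u hr3 hrodd hkodd hk (by rw [hnk, hr]) hk1
    (Nat.gcd_dvd_right _ _) hk1dvd hu0 ?_ ?_
  · have h1 : (u : ℤ) ^ 2 * n = ((r ^ 2 - k : ℕ) : ℤ) := by
      push_cast [Nat.cast_sub (by omega : k ≤ r ^ 2)]
      exact hunz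
    exact_mod_cast h1
  · rcases hfin with h1 | h1
    · left; rw [hk0, h1]
    · right; rw [hk0, h1]; ring

end Pool.Agent.Helper992.Ds
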