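import Pool.Agent.Helper992.Geo

set_option autoImplicit false
set_option linter.unusedSectionVars false
open scoped Classical

namespace Pool.Agent.Helper992

open Finset MvPolynomial Geo

variable {F : Type*} [Field F]

/-- the main identity -/
def MI (K : Finset F) (k : ℕ) (f : F → F) (P Q Kp : MvPolynomial (Fin 2) F) : Prop :=
  (X 0 ^ (2 ^ k) + X 0) * Q + (X 1 ^ (2 ^ k) + X 1) * P = RR K f * Kp

variable [CharP F 2] {K : Finset F} {k j : ℕ} {f : F → F}

instance : CharP (Polynomial F) 2 := Polynomial.instCharP 2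
instance : CharP (MvPolynomial (Fin 2) F) 2 := inferInstance

theorem uni (hK : ∀ z, z ∈ K ↔ z ^ (2 ^ k) = z) (hc : K.card = 2 ^ k) (hk : 1 ≤ k) :
    ∏ r ∈ K, (Polynomial.X - Polynomial.C r) = Polynomial.X ^ (2 ^ k) + Polynomial.X := by
  have h2 : 2 ≤ 2 ^ k := by
    calc 2 = 2 ^ 1 := rfl
      _ ≤ 2 ^ k := Nat.pow_le_pow_right (by norm_num) hk
  set A : Polynomial F := ∏ r ∈ K, (Polynomial.X - Polynomial.C r)
  have hA : A.Monic := Polynomial.monic_prod_of_monic _ _ fun r _ => Polynomial.monic_X_sub_C r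
  have hAd : A.natDegree = 2 ^ k := by
    rw [Polynomial.natDegree_prod_of_monic _ _ fun r _ => Polynomial.monic_X_sub_C r]
    simp [hc]
  set B : Polynomial F := Polynomial.X ^ (2 ^ k) + Polynomial.X
  have hdlt : (Polynomial.X : Polynomial F).degree < (Polynomial.X ^ (2 ^ k)
      : Polynomial F).degree := by
    rw [Polynomial.degree_X, Polynomial.degree_X_pow]
    exact_mod_cast (by omega : 1 < 2 ^ k)
  have hBm : B.Monic := (Polynomial.monic_X_pow _).add_of_left hdlt
  have hBd : B.natDegree = 2 ^ k := by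
    apply Polynomial.natDegree_eq_of_degree_eq_some
    rw [Polynomial.degree_add_eq_left_of_degree_lt hdlt, Polynomial.degree_X_pow]
  rw [← sub_eq_zero]
  by_contra hne
  have h3 : (A - B).degree < A.degree := by
    apply Polynomial.degree_sub_lt
    · rw [Polynomial.degree_eq_natDegree hA.ne_zero, Polynomial.degree_eq_natDegree hBm.ne_zero,
        hAd, hBd]
    · exact hA.ne_zero
    · rw [hA.leadingCoeff, hBm.leadingCoeff]
  apply hne
  apply Polynomial.eq_zero_of_natDegree_lt_card_of_eval_eq_zero' _ K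
  · intro x hx
    rw [Polynomial.eval_sub]
    have e1 : A.eval x = 0 := by
      simp only [A]
      rw [Polynomial.eval_prod]
      apply prod_eq_zero hx
      simp
    have e2 : B.eval x = 0 := by
      simp only [B, Polynomial.eval_add, Polynomial.eval_pow, Polynomial.eval_X]
      rw [(hK x).mp hx, CharTwo.add_self_eq_zero]
    rw [e1, e2, sub_zero]
  · rw [hc, ← hAd]
    exact Polynomial.natDegree_lt_natDegree hne h3

theorem mprod (hK : ∀ z, z ∈ K ↔ z ^ (2 ^ k) = z) (hc : K.card = 2 ^ k) (hk : 1 ≤ k)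
    (i : Fin 2) :
    ∏ r ∈ K, (X i - C r) = (X i ^ (2 ^ k) + X i : MvPolynomial (Fin 2) F) := by
  have h := congrArg (Polynomial.aeval (X i : MvPolynomial (Fin 2) F)) (uni hK hc hk)
  rw [map_prod] at h
  simp only [map_sub, map_add, map_pow, Polynomial.aeval_X, Polynomial.aeval_C] at h
  exact h

theorem totalDegree_bd (hk : 1 ≤ k) (i : Fin 2) :
    (X i ^ (2 ^ k) + X i : MvPolynomial (Fin 2) F).totalDegree = 2 ^ k := by
  have h2 : 2 ≤ 2 ^ k := by
    calc 2 = 2 ^ 1 := rfl
      _ ≤ 2 ^ k := Nat.pow_le_pow_right (by norm_num) hk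
  rw [totalDegree_add_eq_left_of_totalDegree_lt, totalDegree_X_pow]
  rw [totalDegree_X_pow, totalDegree_X]; omega

theorem bd_ne_zero (hk : 1 ≤ k) (i : Fin 2) :
    (X i ^ (2 ^ k) + X i : MvPolynomial (Fin 2) F) ≠ 0 := by
  intro h
  have h2 := totalDegree_bd (F := F) hk i
  rw [h, totalDegree_zero] at h2
  have : 0 < 2 ^ k := by positivity
  omega

theorem ubd_ne_zero (hk : 1 ≤ k) :
    (Polynomial.X ^ (2 ^ k) + Polynomial.X : Polynomial F) ≠ 0 := by
  intro h
  have h3 := congrArg (fun g => Polynomial.coeff g 1) h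
  have h2 : 2 ≤ 2 ^ k := by
    calc 2 = 2 ^ 1 := rfl
      _ ≤ 2 ^ k := Nat.pow_le_pow_right (by norm_num) hk
  simp only [Polynomial.coeff_add, Polynomial.coeff_X_pow, Polynomial.coeff_X_one,
    Polynomial.coeff_zero] at h3
  rw [if_neg (by omega), zero_add] at h3
  exact one_ne_zero h3

theorem lf_totalDegree (x y : F) : (lf x y).totalDegree = 1 := by
  apply le_antisymm
  · rw [lf]
    refine (totalDegree_sub _ _).trans (max_le ?_ ?_)
    · rw [totalDegree_X]
    · refine (totalDegree_add _ _).trans (max_le ?_ ?_)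
      · refine (totalDegree_mul _ _).trans ?_
        rw [totalDegree_C, totalDegree_X]
      · rw [totalDegree_C]; omega
  · by_contra h
    have h0 : (lf x y).totalDegree = 0 := by omega
    rw [totalDegree_eq_zero_iff_eq_C] at h0
    have h1 := congrArg (pderiv 0) h0
    rw [pderiv_C, lf, map_sub, map_add, pderiv_X_self, pderiv_mul, pderiv_C, pderiv_C,
      pderiv_X_of_ne (show (1 : Fin 2) ≠ 0 by decide)] at h1
    simp at h1

theorem RR_totalDegree (K : Finset F) (f : F → F) : RR K f ≠ 0 ∧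
    (RR K f).totalDegree = K.card := by
  rw [RR]
  induction K using Finset.induction_on with
  | empty => simp
  | insert a s ha ih =>
    rw [prod_insert ha]
    refine ⟨mul_ne_zero (lf_ne_zero _ _) ih.1, ?_⟩
    rw [totalDegree_mul_of_isDomain (lf_ne_zero _ _) ih.1, ih.2, lf_totalDegree,
      card_insert_of_notMem ha, add_comm]

namespace Geo

theorem one_le (G : Geo F K k j f) : 1 ≤ k := by have := G.hj; have := G.lt; omega

theorem rl_bd0 (G : Geo F K k j f) {x : F} (hx : x ∈ K) :
    rl x (f x) (X 0 ^ (2 ^ k) + X 0)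
      = Polynomial.C x * (Polynomial.X ^ (2 ^ k) + Polynomial.X) := by
  rw [map_add, map_pow, sb_X0, add_pow_char_pow, mul_pow, ← Polynomial.C_pow, ← Polynomial.C_pow,
    (G.memK x).mp hx, (G.memK _).mp (G.fK x hx)]
  have e : Polynomial.C x * Polynomial.X ^ 2 ^ k + Polynomial.C (f x)
      + (Polynomial.C x * Polynomial.X + Polynomial.C (f x))
      = Polynomial.C x * (Polynomial.X ^ (2 ^ k) + Polynomial.X)
        + (Polynomial.C (f x) + Polynomial.C (f x)) := by ring
  rw [e, CharTwo.add_self_eq_zero, add_zero]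

theorem rl_bd1 (x : F) :
    rl x (f x) (X 1 ^ (2 ^ k) + X 1) = (Polynomial.X ^ (2 ^ k) + Polynomial.X) := by
  rw [map_add, map_pow, sb_X1]

theorem rl_RR {x : F} (hx : x ∈ K) : rl x (f x) (RR K f) = 0 := by
  rw [RR_erase hx, map_mul, rl_lf_self, zero_mul]

theorem star (G : Geo F K k j f) {P Q Kp : MvPolynomial (Fin 2) F} (h : MI K k f P Q Kp)
    {x : F} (hx : x ∈ K) : rl x (f x) P = Polynomial.C x * rl x (f x) Q := by
  have h1 := congrArg (rl x (f x)) h
  rw [map_add, map_mul, map_mul, map_mul, G.rl_bd0 hx, rl_bd1, rl_RR hx, zero_mul] at h1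
  have h2 : (Polynomial.X ^ (2 ^ k) + Polynomial.X) * (rl x (f x) P
      + Polynomial.C x * rl x (f x) Q) = 0 := by
    rw [← h1]; ring
  have h3 := (mul_eq_zero.mp h2).resolve_left (ubd_ne_zero G.one_le)
  exact CharTwo.add_eq_zero.mp h3

theorem Kp_deg (G : Geo F K k j f) {P Q Kp : MvPolynomial (Fin 2) F} {n : ℕ}
    (h : MI K k f P Q Kp) (hP : P.totalDegree ≤ n) (hQ : Q.totalDegree ≤ n) :
    Kp.totalDegree ≤ n := by
  by_cases hK : Kp = 0
  · rw [hK, totalDegree_zero]; omega
  obtain ⟨hR, hRd⟩ := RR_totalDegree K f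
  have h1 := totalDegree_mul_of_isDomain hR hK
  rw [← h, hRd, G.cardK] at h1
  have h2 : ((X 0 ^ (2 ^ k) + X 0) * Q + (X 1 ^ (2 ^ k) + X 1) * P).totalDegree
      ≤ 2 ^ k + n := by
    refine (totalDegree_add _ _).trans (max_le ?_ ?_)
    · refine (totalDegree_mul _ _).trans ?_
      rw [totalDegree_bd G.one_le]; omega
    · refine (totalDegree_mul _ _).trans ?_
      rw [totalDegree_bd G.one_le]; omega
  omega

theorem ex_PQ (G : Geo F K k j f) {Kp : MvPolynomial (Fin 2) F} {n : ℕ}
    (hn : Kp.totalDegree ≤ n)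
    (hZ : ∀ v : Fin 2 → F, v 0 ∈ K → v 1 ∈ K → (ln K f (v 1) (v 0)).card = 0 →
      eval v Kp = 0) :
    ∃ P Q, P.totalDegree ≤ n ∧ Q.totalDegree ≤ n ∧ MI K k f P Q Kp := by
  have hne : K.Nonempty := ⟨1, G.oneK⟩
  obtain ⟨h, hd, hf⟩ := combinatorial_nullstellensatz_exists_linearCombination
    (fun _ : Fin 2 => K) (fun _ => hne) (RR K f * Kp) (by
      intro v hv
      rw [map_mul]
      by_cases h0 : (ln K f (v 1) (v 0)).card = 0
      · rw [hZ v (hv 0) (hv 1) h0, mul_zero]
      · obtain ⟨x, hx⟩ := card_pos.mp (Nat.pos_of_ne_zero h0)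
        rw [mem_ln] at hx
        have : eval v (RR K f) = 0 := by
          rw [RR, map_prod]
          apply prod_eq_zero hx.1
          rw [lf, map_sub, map_add, map_mul, eval_X, eval_X, eval_C, eval_C, sub_eq_zero]
          apply CharTwo.add_eq_zero.mp
          rw [← hx.2]; ring
        rw [this, zero_mul])
  have hR := RR_totalDegree K f
  have hRK : (RR K f * Kp).totalDegree ≤ 2 ^ k + n := by
    refine (totalDegree_mul _ _).trans ?_
    rw [hR.2, G.cardK]; omega
  have hdeg : ∀ i, (h i).totalDegree ≤ n := by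
    intro i
    by_cases hi : h i = 0
    · rw [hi, totalDegree_zero]; omega
    · have h1 := hd i
      rw [mprod G.memK G.cardK G.one_le,
        totalDegree_mul_of_isDomain (bd_ne_zero G.one_le i) hi, totalDegree_bd G.one_le] at h1
      omega
  refine ⟨h 1, h 0, hdeg 1, hdeg 0, ?_⟩
  have e := Finsupp.sum_fintype h (fun i a => a • ∏ r ∈ K, ((X i : MvPolynomial (Fin 2) F) - C r))
    (by intro i; exact zero_smul _ _)
  rw [MI, hf, Finsupp.linearCombination_apply, e, Fin.sum_univ_two]
  simp only [smul_eq_mul]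
  rw [mprod G.memK G.cardK G.one_le, mprod G.memK G.cardK G.one_le]
  ring

end Geo

end Pool.Agent.Helper992
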