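import Pool.Agent.Helper992.Link

set_option autoImplicit false
set_option linter.unusedSectionVars false
open scoped Classical

namespace Pool.Agent.Helper992

open Finset

section poly

variable {F : Type*} [Field F] [CharP F 2]

theorem pow_expand (r μ₀ : ℕ) (c : F) :
    (Polynomial.X + Polynomial.C c : Polynomial F) ^ (2 ^ r * μ₀)
      = Polynomial.expand F (2 ^ r) ((Polynomial.X + Polynomial.C (c ^ (2 ^ r))) ^ μ₀) := by
  rw [map_pow (Polynomial.expand F (2 ^ r)), map_add, Polynomial.expand_X, Polynomial.expand_C,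
    pow_mul, add_pow_char_pow, Polynomial.C_pow]

theorem two_pow_of_id {c : F} (hc0 : c ≠ 0) (hc1 : c ≠ 1) {μ : ℕ} (hμ : 1 ≤ μ)
    (h : Polynomial.C c * (Polynomial.X + Polynomial.C 1) ^ μ
      + Polynomial.C (c + 1) * (Polynomial.X + Polynomial.C 0) ^ μ
      = (Polynomial.X + Polynomial.C c : Polynomial F) ^ μ) : ∃ r, μ = 2 ^ r := by
  obtain ⟨r, μ₀, hodd, hμr⟩ := Nat.exists_eq_two_pow_mul_odd (n := μ) (by omega)
  refine ⟨r, ?_⟩
  by_contra hne
  have h3 : 3 ≤ μ₀ := by
    obtain ⟨t, ht⟩ := hodd
    rcases Nat.eq_zero_or_pos t with h0 | h0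
    · exfalso; apply hne; rw [hμr, ht, h0]; simp
    · omega
  rw [hμr, pow_expand, pow_expand, pow_expand] at h
  have hCe : ∀ a : F, Polynomial.C a = Polynomial.expand F (2 ^ r) (Polynomial.C a) := by
    intro a; rw [Polynomial.expand_C]
  rw [hCe c, hCe (c + 1), ← map_mul, ← map_mul, ← map_add] at h
  have h4 := Polynomial.expand_injective (R := F) (n := 2 ^ r) (by positivity) h
  rw [one_pow, zero_pow (by positivity)] at h4
  set c' := c ^ (2 ^ r) with hc'
  have h5 := congrArg (Polynomial.eval 0) h4
  have h6 := congrArg (fun p => Polynomial.eval 0 (Polynomial.derivative p)) h4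
  have hm : ((μ₀ : ℕ) : F) = 1 := by
    obtain ⟨t, ht⟩ := hodd
    rw [ht]; push_cast
    rw [CharTwo.two_eq_zero]; ring
  simp only [Polynomial.eval_add, Polynomial.eval_mul, Polynomial.eval_C, Polynomial.eval_pow,
    Polynomial.eval_X, zero_add, one_pow, mul_one] at h5
  rw [zero_pow (by omega), mul_zero, add_zero] at h5
  simp only [Polynomial.derivative_add, Polynomial.derivative_mul, Polynomial.derivative_C,
    Polynomial.derivative_pow, Polynomial.derivative_X, zero_mul, zero_add, add_zero, mul_one,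
    Polynomial.eval_add, Polynomial.eval_mul, Polynomial.eval_C, Polynomial.eval_pow,
    Polynomial.eval_X, one_pow, hm, map_zero] at h6
  rw [zero_pow (by omega)] at h6
  simp only [mul_zero, add_zero, one_mul, mul_one] at h6
  have h7 : c = c * c' := by
    nth_rewrite 1 [h5]
    rw [h6, ← pow_succ]
    congr 1; omega
  have h8 : c' = 1 := by
    have : c * 1 = c * c' := by rw [mul_one]; exact h7
    exact (mul_left_cancel₀ hc0 this).symm
  apply hc1
  have h9 : (c + 1) ^ (2 ^ r) = 0 := by
    rw [add_pow_char_pow, ← hc', h8, one_pow, CharTwo.add_self_eq_zero]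
  have h10 := (pow_eq_zero_iff (by positivity)).mp h9
  exact CharTwo.add_eq_zero.mp h10

theorem monic_aux (a : F) (μ : ℕ) : ((Polynomial.X + Polynomial.C a : Polynomial F) ^ μ).Monic :=
  (Polynomial.monic_X_add_C a).pow μ

theorem natDegree_aux (a : F) (μ : ℕ) :
    ((Polynomial.X + Polynomial.C a : Polynomial F) ^ μ).natDegree = μ := by
  rw [Polynomial.natDegree_pow, Polynomial.natDegree_X_add_C, mul_one]

theorem degree_aux (a : F) (μ : ℕ) :
    ((Polynomial.X + Polynomial.C a : Polynomial F) ^ μ).degree = (μ : WithBot ℕ) := by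
  rw [Polynomial.degree_pow, Polynomial.degree_X_add_C, nsmul_eq_mul, mul_one]

theorem degree_add_aux (a b : F) {μ : ℕ} :
    ((Polynomial.X + Polynomial.C a : Polynomial F) ^ μ
      + (Polynomial.X + Polynomial.C b) ^ μ).degree < (μ : WithBot ℕ) := by
  have h := Polynomial.degree_sub_lt (p := (Polynomial.X + Polynomial.C a : Polynomial F) ^ μ)
    (q := (Polynomial.X + Polynomial.C b) ^ μ) (by rw [degree_aux, degree_aux])
    (monic_aux a μ).ne_zero (by rw [(monic_aux a μ).leadingCoeff, (monic_aux b μ).leadingCoeff])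
  rw [degree_aux, CharTwo.sub_eq_add] at h
  exact h

theorem coprime_aux {a b : F} (hab : a ≠ b) (μ : ℕ) :
    IsCoprime ((Polynomial.X + Polynomial.C a : Polynomial F) ^ μ)
      ((Polynomial.X + Polynomial.C b) ^ μ) := by
  apply IsCoprime.pow
  have h : IsCoprime (Polynomial.X - Polynomial.C (-a)) (Polynomial.X - Polynomial.C (-b)) :=
    Polynomial.pairwise_coprime_X_sub_C (K := F) Function.injective_id
      (show -a ≠ -b from fun h => hab (neg_injective h))
  rw [map_neg, map_neg, sub_neg_eq_add, sub_neg_eq_add] at h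
  exact h

theorem ident {c : F} (hc0 : c ≠ 0) (hc1 : c ≠ 1) {μ : ℕ} (hμ : 1 ≤ μ) {Y : Finset F}
    (hY : 2 * μ < Y.card)
    (h : ∀ y ∈ Y, c * ((y ^ μ + (y + 1) ^ μ) * ((y + c) ^ μ + (y + c + 1) ^ μ))
      = y ^ μ * (y + c + 1) ^ μ + (y + 1) ^ μ * (y + c) ^ μ) : ∃ r, μ = 2 ^ r := by
  set A : Polynomial F := (Polynomial.X + Polynomial.C 0) ^ μ with hA
  set B : Polynomial F := (Polynomial.X + Polynomial.C 1) ^ μ with hB
  set C' : Polynomial F := (Polynomial.X + Polynomial.C c) ^ μ with hC
  set D : Polynomial F := (Polynomial.X + Polynomial.C (c + 1)) ^ μ with hD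
  have hdA : A.natDegree = μ := natDegree_aux 0 μ
  have hdB : B.natDegree = μ := natDegree_aux 1 μ
  have hdC : C'.natDegree = μ := natDegree_aux c μ
  have hdD : D.natDegree = μ := natDegree_aux (c + 1) μ
  have hΦ : Polynomial.C c * ((A + B) * (C' + D)) + (A * D + B * C') = 0 := by
    apply Polynomial.eq_zero_of_natDegree_lt_card_of_eval_eq_zero' _ Y
    · intro y hy
      have h1 := h y hy
      simp only [hA, hB, hC, hD, Polynomial.eval_add, Polynomial.eval_mul, Polynomial.eval_C,
        Polynomial.eval_pow, Polynomial.eval_X, add_zero, ← add_assoc]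
      rw [h1]
      have : y ^ μ * (y + c + 1) ^ μ + (y + 1) ^ μ * (y + c) ^ μ + y ^ μ * (y + c + 1) ^ μ
          + (y + 1) ^ μ * (y + c) ^ μ
          = (y ^ μ * (y + c + 1) ^ μ + y ^ μ * (y + c + 1) ^ μ)
            + ((y + 1) ^ μ * (y + c) ^ μ + (y + 1) ^ μ * (y + c) ^ μ) := by ring
      rw [this, CharTwo.add_self_eq_zero, CharTwo.add_self_eq_zero, add_zero]
    · refine lt_of_le_of_lt ?_ hY
      have h1 : (A + B).natDegree ≤ μ :=
        (Polynomial.natDegree_add_le _ _).trans (max_le hdA.le hdB.le)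
      have h2 : (C' + D).natDegree ≤ μ :=
        (Polynomial.natDegree_add_le _ _).trans (max_le hdC.le hdD.le)
      refine (Polynomial.natDegree_add_le _ _).trans (max_le ?_ ?_)
      · refine (Polynomial.natDegree_C_mul_le _ _).trans (Polynomial.natDegree_mul_le.trans ?_)
        omega
      · refine (Polynomial.natDegree_add_le _ _).trans (max_le ?_ ?_)
        · refine Polynomial.natDegree_mul_le.trans ?_; omega
        · refine Polynomial.natDegree_mul_le.trans ?_; omega
  set Gp : Polynomial F := Polynomial.C c * D + Polynomial.C (c + 1) * C' with hGp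
  have h1 : A * (Polynomial.C c * C' + Polynomial.C (c + 1) * D) = B * Gp := by
    apply CharTwo.add_eq_zero.mp
    rw [← hΦ, hGp, map_add, map_one]
    ring
  have hAG : A ∣ Gp := by
    have h2 : A ∣ B * Gp := by rw [← h1]; exact dvd_mul_right _ _
    exact IsCoprime.dvd_of_dvd_mul_left (coprime_aux zero_ne_one μ) h2
  have hlt : (Gp + A).degree < A.degree := by
    have e : Gp + A = Polynomial.C c * (D + C') + (C' + A) := by
      rw [hGp, map_add, map_one]; ring
    rw [e]
    refine lt_of_le_of_lt (Polynomial.degree_add_le _ _) (max_lt ?_ ?_)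
    · rw [Polynomial.degree_C_mul hc0, hA, degree_aux]
      exact degree_add_aux (c + 1) c
    · rw [hA, degree_aux]
      exact degree_add_aux c 0
  have hGA : Gp = A := by
    apply CharTwo.add_eq_zero.mp
    exact Polynomial.eq_zero_of_dvd_of_degree_lt (dvd_add hAG dvd_rfl) hlt
  apply two_pow_of_id hc0 hc1 hμ
  have h2 := congrArg (fun p => p.comp (Polynomial.X + Polynomial.C c)) hGA
  simp only [hGp, hA, hC, hD, Polynomial.add_comp, Polynomial.mul_comp, Polynomial.pow_comp,
    Polynomial.X_comp, Polynomial.C_comp] at h2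
  have e1 : (Polynomial.X + Polynomial.C c + Polynomial.C (c + 1) : Polynomial F)
      = Polynomial.X + Polynomial.C 1 := by
    rw [add_assoc, ← map_add, ← add_assoc, CharTwo.add_self_eq_zero, zero_add]
  have e2 : (Polynomial.X + Polynomial.C c + Polynomial.C c : Polynomial F)
      = Polynomial.X + Polynomial.C 0 := by
    rw [add_assoc, ← map_add, CharTwo.add_self_eq_zero]
  have e3 : (Polynomial.X + Polynomial.C c + Polynomial.C 0 : Polynomial F)
      = Polynomial.X + Polynomial.C c := by
    rw [map_zero, add_zero]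
  rw [e1, e2, e3] at h2
  exact h2

/-- The ending, on the geometric side. -/
theorem Geo.ending {K : Finset F} {k j : ℕ} {f : F → F} (G : Geo F K k j f)
    (hsq : ∀ a : F, ∃ b, b ^ 2 = a) {σ τ c : F} {μ : ℕ} (hμ : 1 ≤ μ) (hμ2 : μ ≤ 2 ^ (k - 1))
    (hrel : ∀ x ∈ K, (x + σ) * ((f x + τ) ^ μ + (f x + τ + 1) ^ μ) = (f x + τ) ^ μ)
    (hc : c ^ (2 ^ j) = c) (hc0 : c ≠ 0) (hc1 : c ≠ 1) : ∃ r, μ = 2 ^ r := by
  obtain ⟨δ, hδ, ⟨N, D, hN, hD, hD0, hND⟩, Bad, hBad, hgood⟩ := G.geo_main hsq
  have hk := G.one_le
  have hq2 : 2 ^ k = 2 * 2 ^ (k - 1) := by rw [← pow_succ']; congr 1; omega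
  have himg : K.image f = K := by
    apply eq_of_subset_of_card_le
    · intro y hy
      obtain ⟨x, hx, rfl⟩ := mem_image.mp hy
      exact G.fK x hx
    · rw [card_image_of_injOn (fun x hx y hy h => G.inj x hx y hy h)]
  set S : Polynomial F := (Polynomial.X + Polynomial.C τ) ^ μ with hS
  set S1 : Polynomial F := (Polynomial.X + Polynomial.C (τ + 1)) ^ μ with hS1
  have hdS : S.natDegree = μ := natDegree_aux τ μ
  have hdS1 : S1.natDegree = μ := natDegree_aux (τ + 1) μ
  have hdT : (S + S1).natDegree ≤ μ :=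
    (Polynomial.natDegree_add_le _ _).trans (max_le hdS.le hdS1.le)
  have hμδ : μ ≤ δ := by
    have hΦ : (S + S1) * N + (Polynomial.C σ * (S + S1) + S) * D = 0 := by
      apply Polynomial.eq_zero_of_natDegree_lt_card_of_eval_eq_zero' _ K
      · intro y hy
        rw [← himg] at hy
        obtain ⟨x, hx, rfl⟩ := mem_image.mp hy
        have h1 := hND x hx
        have h2 := hrel x hx
        simp only [hS, hS1, Polynomial.eval_add, Polynomial.eval_mul, Polynomial.eval_C,
          Polynomial.eval_pow, Polynomial.eval_X, ← add_assoc]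
        rw [h1]
        set a := (f x + τ) ^ μ
        set b := (f x + τ + 1) ^ μ
        set d := Polynomial.eval (f x) D
        have : (a + b) * (x * d) + (σ * (a + b) + a) * d
            = ((x + σ) * (a + b) + a) * d := by ring
        rw [this, h2, CharTwo.add_self_eq_zero, zero_mul]
      · rw [G.cardK]
        refine lt_of_le_of_lt (b := μ + δ) ?_ (by omega)
        refine (Polynomial.natDegree_add_le _ _).trans (max_le ?_ ?_)
        · refine Polynomial.natDegree_mul_le.trans ?_; omega
        · refine Polynomial.natDegree_mul_le.trans ?_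
          have : (Polynomial.C σ * (S + S1) + S).natDegree ≤ μ := by
            refine (Polynomial.natDegree_add_le _ _).trans (max_le ?_ hdS.le)
            exact (Polynomial.natDegree_C_mul_le _ _).trans hdT
          omega
    have h1 : (S + S1) * (N + Polynomial.C σ * D) = S * D := by
      apply CharTwo.add_eq_zero.mp
      rw [← hΦ]; ring
    have hcop : IsCoprime S (S + S1) := by
      have h2 : IsCoprime S S1 := coprime_aux (fun h => one_ne_zero (left_eq_add.mp h)) μ
      have h3 := IsCoprime.mul_add_left_right h2 1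
      rwa [mul_one] at h3
    have h2 : S ∣ N + Polynomial.C σ * D := by
      have h3 : S ∣ (S + S1) * (N + Polynomial.C σ * D) := by rw [h1]; exact dvd_mul_right _ _
      exact IsCoprime.dvd_of_dvd_mul_left hcop h3
    have h3 : N + Polynomial.C σ * D ≠ 0 := by
      intro h0
      rw [h0, mul_zero] at h1
      exact mul_ne_zero (monic_aux τ μ).ne_zero hD0 h1.symm
    have h4 := Polynomial.natDegree_le_of_dvd h2 h3
    rw [hdS] at h4
    refine h4.trans ((Polynomial.natDegree_add_le _ _).trans (max_le hN ?_))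
    exact (Polynomial.natDegree_C_mul_le _ _).trans hD
  have hcK : c ∈ K := by
    rw [G.memK]
    obtain ⟨t, ht⟩ := G.dvd
    rw [ht, pow_mul]
    clear ht
    induction t with
    | zero => rw [pow_zero, pow_one]
    | succ t ih => rw [pow_succ, pow_mul, ih, hc]
  apply ident hc0 hc1 hμ (Y := (K \ Bad).image (fun x => f x + τ))
  · rw [card_image_of_injOn]
    · have h1 := le_card_sdiff Bad K
      rw [G.cardK] at h1
      omega
    · intro x hx y hy h
      simp only [coe_sdiff, Set.mem_diff, mem_coe] at hx hy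
      exact G.inj x hx.1 y hy.1 (add_right_cancel h)
  · intro y hy
    obtain ⟨x, hx, rfl⟩ := mem_image.mp hy
    rw [mem_sdiff] at hx
    have h1 := hrel x hx.1
    have h2 := hrel (x + c) (G.addK hx.1 hcK)
    rw [hgood x hx.1 hx.2 c hc] at h2
    have e0 : f x + c + τ = f x + τ + c := by ring
    rw [e0] at h2
    set y := f x + τ
    set a := y ^ μ
    set b := (y + 1) ^ μ
    set a' := (y + c) ^ μ
    set b' := (y + c + 1) ^ μ
    have e : c * ((a + b) * (a' + b'))
        = ((x + c + σ) * (a' + b')) * (a + b) + ((x + σ) * (a + b)) * (a' + b')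
          - ((x + σ) * (a + b) * (a' + b') + (x + σ) * (a + b) * (a' + b')) := by ring
    rw [e, h1, h2, CharTwo.add_self_eq_zero, sub_zero]
    have e2 : a' * (a + b) + a * (a' + b') = a * b' + b * a' + (a * a' + a * a') := by ring
    rw [e2, CharTwo.add_self_eq_zero, add_zero]

end poly

end Pool.Agent.Helper992
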