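import Pool.Agent.Helper992.Values

set_option autoImplicit false
set_option linter.unusedSectionVars false
open scoped Classical

namespace Pool.Agent.Helper992

open Finset

/-- Everything the value count gives in the four-valued case. -/
structure FourData (F : Type*) [Field F] [Fintype F] (k : ℕ) (s : ℤ) (j : ℕ) : Prop where
  hj : 1 ≤ j
  dvd : 2 * j ∣ k
  cop0 : IsCoprime s ((2 ^ k + 1 : ℕ) : ℤ)
  cop1 : IsCoprime (1 - s) ((2 ^ k + 1 : ℕ) : ℤ)
  V_eq : V F k s = {0, 1, 2, 2 ^ j + 1}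
  vals : ∀ a : F, NZ k s a = 0 ∨ NZ k s a = 1 ∨ NZ k s a = 2 ∨ NZ k s a = 2 ^ j + 1
  valsK : ∀ a ∈ K F k, NZ k s a = 1 ∨ NZ k s a = 2 ^ j + 1
  val1 : NZ k s (1 : F) = 1
  valsU : ∀ u ∈ U F k, u ≠ 1 → NZ k s u = 2
  cntK : ((K F k).filter (fun a => NZ k s a = 2 ^ j + 1)).card * 2 ^ j = 2 ^ k
  third : (((univ : Finset F).filter (fun a => NZ k s a = 2 ^ j + 1)).card : ℤ)
    * (((2 : ℤ) ^ j + 1) * (2 ^ j * (2 ^ j - 1))) = (2 : ℤ) ^ k * (2 ^ k - 1)

variable {k : ℕ} {F : Type*} [Field F] [Fintype F] [CharP F 2]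

theorem NZ_U_cop (hk : 1 ≤ k) {s : ℤ}
    (hs : IsCoprime (1 - 2 * s) ((2 ^ k + 1 : ℕ) : ℤ))
    (h0 : IsCoprime s ((2 ^ k + 1 : ℕ) : ℤ))
    (h1 : IsCoprime (1 - s) ((2 ^ k + 1 : ℕ) : ℤ)) {u : F} (hu : u ∈ U F k) :
    NZ k s u + (if u = 1 then 1 else 0) = 2 := by
  have h2 : IsCoprime (-2 : ℤ) ((2 ^ k + 1 : ℕ) : ℤ) := (isCoprime_two hk).neg_left
  rw [NZ_U hk hs hu, card_P_coprime (h2.mul_left h0) hu, card_P_coprime (h2.mul_left h1) hu]

theorem four_data (hk : 1 ≤ k) (hF : Fintype.card F = 2 ^ (2 * k)) {s : ℤ}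
    (hs : IsCoprime (1 - 2 * s) ((2 ^ k + 1 : ℕ) : ℤ)) (hV : (V F k s).card = 4) :
    ∃ j : ℕ, FourData F k s j := by
  obtain ⟨h0, h1⟩ := coprime_of_four hk hF hs hV
  have hU1 : NZ k s (1 : F) = 1 := by
    have := NZ_U_cop hk hs h0 h1 (one_mem_U (F := F))
    rw [if_pos rfl] at this
    omega
  have hU2 : ∀ u ∈ U F k, u ≠ 1 → NZ k s u = 2 := by
    intro u hu hu1
    have := NZ_U_cop hk hs h0 h1 hu
    rw [if_neg hu1] at this
    omega
  have hsumK := sum_NZ_K hk hF (F := F) s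
  -- a subfield point with at least three solutions
  obtain ⟨a0, ha0K, ha03⟩ : ∃ a ∈ K F k, 3 ≤ NZ k s a := by
    by_contra hcon
    push Not at hcon
    have h2 : ∀ a ∈ K F k, NZ k s a = 1 := by
      intro a ha
      obtain ⟨c, hc⟩ := NZ_K_odd (s := s) ha
      have := hcon a ha
      omega
    rw [sum_congr rfl h2, sum_const, card_K hk hF, smul_eq_mul] at hsumK
    have : 0 < 2 ^ k := by positivity
    omega
  have ha0U : a0 ∉ U F k := by
    intro h
    by_cases h1 : a0 = 1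
    · rw [h1, hU1] at ha03; omega
    · rw [hU2 a0 h h1] at ha03; omega
  obtain ⟨b, hb⟩ : ∃ b : F, NZ k s b = 0 := by
    by_contra hcon
    push Not at hcon
    have := off_U_of_no_zero hk hF hs hcon a0 ha0U
    omega
  have hb0 : b ≠ 0 := by
    rintro rfl
    rw [NZ_zero hs] at hb
    omega
  have ha00 : a0 ≠ 0 := by
    rintro rfl
    rw [NZ_zero hs] at ha03
    omega
  obtain ⟨ζ, hζ⟩ := exists_zeta hF
  have hζU : ζ ∈ U F k := mem_U.mpr hζ.pow_eq_one
  have hζ1 : ζ ≠ 1 := by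
    intro h4
    have : (2 ^ k + 1) ∣ 1 := by
      rw [← hζ.pow_eq_one_iff_dvd, h4, one_pow]
    have := Nat.le_of_dvd one_pos this
    have : 0 < 2 ^ k := by positivity
    omega
  set m := NZ k s a0 with hm
  have hsub : ({0, 1, 2, m} : Finset ℕ) ⊆ V F k s := by
    intro n hn
    simp only [mem_insert, mem_singleton] at hn
    rcases hn with rfl | rfl | rfl | rfl
    · exact mem_V hb0 hb
    · exact mem_V one_ne_zero hU1
    · exact mem_V (U_ne_zero hζU) (hU2 ζ hζU hζ1)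
    · exact mem_V ha00 hm.symm
  have hcard : ({0, 1, 2, m} : Finset ℕ).card = 4 := by
    rw [card_insert_of_notMem, card_insert_of_notMem, card_insert_of_notMem, card_singleton]
    all_goals simp only [mem_insert, mem_singleton]; omega
  have hVeq : V F k s = {0, 1, 2, m} :=
    (eq_of_subset_of_card_le hsub (by rw [hV, hcard])).symm
  have hall : ∀ a : F, NZ k s a = 0 ∨ NZ k s a = 1 ∨ NZ k s a = 2 ∨ NZ k s a = m := by
    intro a
    by_cases ha : a = 0
    · right; left; rw [ha, NZ_zero hs]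
    · have : NZ k s a ∈ V F k s := mem_V ha rfl
      rw [hVeq] at this
      simpa using this
  have hallK : ∀ a ∈ K F k, NZ k s a = 1 ∨ NZ k s a = m := by
    intro a ha
    obtain ⟨c, hc⟩ := NZ_K_odd (s := s) ha
    rcases hall a with h | h | h | h
    · omega
    · left; exact h
    · omega
    · right; exact h
  have hmodd : Odd m := NZ_K_odd (s := s) ha0K
  -- count on the subfield
  have hcnt : ((K F k).filter (fun a => NZ k s a = m)).card * (m - 1) = 2 ^ k := by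
    have h2 : ∑ a ∈ K F k, NZ k s a
        = ∑ a ∈ K F k, (1 + if NZ k s a = m then (m - 1) else 0) := by
      refine sum_congr rfl fun a ha => ?_
      rcases hallK a ha with h | h
      · rw [h, if_neg (by omega)]
      · rw [h, if_pos rfl]; omega
    rw [hsumK, sum_add_distrib, sum_const, card_K hk hF, ← sum_filter, sum_const,
      smul_eq_mul, smul_eq_mul] at h2
    omega
  obtain ⟨j, hjk, hj⟩ : ∃ j ≤ k, m - 1 = 2 ^ j :=
    (Nat.dvd_prime_pow Nat.prime_two).mp (Dvd.intro_left _ hcnt)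
  have hj1 : 1 ≤ j := by
    by_contra hcon
    have : j = 0 := by omega
    rw [this] at hj
    simp at hj
    omega
  have hmj : m = 2 ^ j + 1 := by omega
  -- third moment
  have hm2 := moment2 hF (F := F) s
  have hm3 := moment3 hk hF (F := F) hs
  rw [C2_diag hk hF h0 h1] at hm3
  have hthird : (((univ : Finset F).filter (fun a => NZ k s a = 2 ^ j + 1)).card : ℤ)
      * (((2 : ℤ) ^ j + 1) * (2 ^ j * (2 ^ j - 1))) = (2 : ℤ) ^ k * (2 ^ k - 1) := by
    have h2 : ∑ a : F, (NZ k s a : ℤ) * ((NZ k s a : ℤ) - 1) * ((NZ k s a : ℤ) - 2)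
        = (2 : ℤ) ^ k * (2 ^ k - 1) := by
      have h3 : ∑ a : F, (NZ k s a : ℤ) * ((NZ k s a : ℤ) - 1) * ((NZ k s a : ℤ) - 2)
          = ∑ a : F, (NZ k s a : ℤ) * ((NZ k s a : ℤ) - 1) ^ 2
            - ∑ a : F, (NZ k s a : ℤ) * ((NZ k s a : ℤ) - 1) := by
        rw [← sum_sub_distrib]
        refine sum_congr rfl fun a _ => ?_
        ring
      rw [h3, hm2, hm3]
      push_cast
      ring
    rw [← h2]
    have h3 : ∀ a : F, (NZ k s a : ℤ) * ((NZ k s a : ℤ) - 1) * ((NZ k s a : ℤ) - 2)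
        = if NZ k s a = 2 ^ j + 1 then ((2 : ℤ) ^ j + 1) * (2 ^ j * (2 ^ j - 1)) else 0 := by
      intro a
      rcases hall a with h | h | h | h
      · rw [h, if_neg (by omega)]; simp
      · rw [h, if_neg (by omega)]; simp
      · rw [h, if_neg (by omega)]; simp
      · rw [h, hmj, if_pos rfl]; push_cast; ring
    rw [sum_congr rfl fun a _ => h3 a, ← sum_filter, sum_const, nsmul_eq_mul]
  -- divisibility
  have hdvd : 2 * j ∣ k := by
    have h2 : ((2 ^ (2 * j) - 1 : ℕ) : ℤ) ∣ ((2 ^ k * (2 ^ k - 1) : ℕ) : ℤ) := by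
      have e1 : ((2 ^ (2 * j) - 1 : ℕ) : ℤ) = 2 ^ (2 * j) - 1 := by
        rw [Nat.cast_sub Nat.one_le_two_pow]; push_cast; ring
      have e2 : ((2 ^ k * (2 ^ k - 1) : ℕ) : ℤ) = 2 ^ k * (2 ^ k - 1) := by
        rw [Nat.cast_mul, Nat.cast_sub Nat.one_le_two_pow]; push_cast; ring
      rw [e1, e2, ← hthird]
      have e3 : (2 : ℤ) ^ (2 * j) = 2 ^ j * 2 ^ j := by rw [← pow_add]; congr 1; ring
      rw [e3]
      refine ⟨(((univ : Finset F).filter (fun a => NZ k s a = 2 ^ j + 1)).card : ℤ) * 2 ^ j, ?_⟩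
      ring
    have h3 : (2 ^ (2 * j) - 1) ∣ 2 ^ k * (2 ^ k - 1) := by exact_mod_cast h2
    have h4 : Nat.Coprime (2 ^ (2 * j) - 1) (2 ^ k) := by
      apply Nat.Coprime.pow_right
      rw [Nat.coprime_two_right]
      have : Even (2 ^ (2 * j)) := (Nat.even_pow.mpr ⟨even_two, by omega⟩)
      obtain ⟨c, hc⟩ := this
      have : 0 < 2 ^ (2 * j) := by positivity
      exact ⟨c - 1, by omega⟩
    have h5 := h4.dvd_of_dvd_mul_left h3
    have h6 := Nat.pow_sub_one_gcd_pow_sub_one 2 (2 * j) k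
    rw [Nat.gcd_eq_left h5] at h6
    have h7 : 2 ^ (2 * j) = 2 ^ (Nat.gcd (2 * j) k) := by
      have : 0 < 2 ^ (2 * j) := by positivity
      have : 0 < 2 ^ (Nat.gcd (2 * j) k) := by positivity
      omega
    have h8 := Nat.pow_right_injective (le_refl 2) h7
    rw [h8]; exact Nat.gcd_dvd_right _ _
  refine ⟨j, hj1, hdvd, h0, h1, ?_, ?_, ?_, hU1, hU2, ?_, hthird⟩
  · rw [hVeq, hmj]
  · rw [hmj] at hall; exact hall
  · rw [hmj] at hallK; exact hallK
  · rw [hmj] at hcnt; simpa using hcnt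

end Pool.Agent.Helper992
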