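import Pool.Agent.Helper992.YOne

set_option autoImplicit false
set_option linter.unusedSectionVars false
open scoped Classical

namespace Pool.Agent.Helper992

open Finset

/-- the quadruple case: every line has 0, 1 or 4 points of the graph -/
structure Ge (F : Type*) [Field F] (K : Finset F) (k : ℕ) (f : F → F) : Prop where
  hk : 4 ≤ k
  dvd : 2 ∣ k
  memK : ∀ z, z ∈ K ↔ z ^ (2 ^ k) = z
  cardK : K.card = 2 ^ k
  fK : ∀ x ∈ K, f x ∈ K
  inj : ∀ x ∈ K, ∀ y ∈ K, f x = f y → x = y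
  lines : ∀ α ∈ K, ∀ β ∈ K, (ln K f α β).card = 0 ∨ (ln K f α β).card = 1 ∨
    (ln K f α β).card = 4
  one : ∀ x ∈ K, f (x + 1) = f x + 1
  full : ∀ x ∈ K, (K.filter (fun y => f y + y = f x + x)).card = 4

/-- slopes of the full lines through a point -/
noncomputable def A4 {F : Type*} [Field F] (K : Finset F) (f : F → F) (x : F) : Finset F :=
  K.filter (fun α => (ln K f α (α * x + f x)).card = 4)

/-- the full lines -/
noncomputable def MP {F : Type*} [Field F] (K : Finset F) (f : F → F) : Finset (F × F) :=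
  (K ×ˢ K).filter (fun p => (ln K f p.1 p.2).card = 4)

/-- the number of full lines through a point -/
def EE (k : ℕ) : ℕ := (2 ^ k - 1) / 3

variable {F : Type*} [Field F] [CharP F 2] {K : Finset F} {k : ℕ} {f : F → F}

namespace Ge

theorem three_EE (G : Ge F K k f) : 3 * EE k = 2 ^ k - 1 := by
  rw [EE]
  apply Nat.mul_div_cancel'
  obtain ⟨t, ht⟩ := G.dvd
  rw [ht, pow_mul]
  have := Nat.sub_one_dvd_pow_sub_one (2 ^ 2) t
  simpa using this

theorem q_ge (G : Ge F K k f) : 16 ≤ 2 ^ k := by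
  calc 16 = 2 ^ 4 := by norm_num
    _ ≤ 2 ^ k := Nat.pow_le_pow_right (by norm_num) G.hk

theorem addK (G : Ge F K k f) {x y : F} (hx : x ∈ K) (hy : y ∈ K) : x + y ∈ K := by
  rw [G.memK] at *
  rw [add_pow_char_pow, hx, hy]

theorem mulK (G : Ge F K k f) {x y : F} (hx : x ∈ K) (hy : y ∈ K) : x * y ∈ K := by
  rw [G.memK] at *
  rw [mul_pow, hx, hy]

theorem divK (G : Ge F K k f) {x y : F} (hx : x ∈ K) (hy : y ∈ K) : x / y ∈ K := by
  rw [G.memK] at *
  rw [div_pow, hx, hy]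

theorem oneK (G : Ge F K k f) : (1 : F) ∈ K := by
  rw [G.memK, one_pow]

theorem sum_ln_sq (G : Ge F K k f) :
    ∑ p ∈ K ×ˢ K, (ln K f p.1 p.2).card * ((ln K f p.1 p.2).card - 1)
      = K.card * (K.card - 1) := by
  have h1 : ∀ p : F × F, (ln K f p.1 p.2).card * ((ln K f p.1 p.2).card - 1)
      = ((ln K f p.1 p.2).offDiag).card := by
    intro p
    rw [offDiag_card, Nat.mul_sub, mul_one]
  have h2 : K.card * (K.card - 1) = (K.offDiag).card := by
    rw [offDiag_card, Nat.mul_sub, mul_one]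
  rw [h2]
  have hmaps : ∀ u ∈ K.offDiag, ((f u.1 + f u.2) / (u.1 + u.2),
      f u.1 + (f u.1 + f u.2) / (u.1 + u.2) * u.1) ∈ K ×ˢ K := by
    intro u hu
    rw [mem_offDiag] at hu
    rw [mem_product]
    have h3 := G.divK (G.addK (G.fK _ hu.1) (G.fK _ hu.2.1)) (G.addK hu.1 hu.2.1)
    exact ⟨h3, G.addK (G.fK _ hu.1) (G.mulK h3 hu.1)⟩
  rw [card_eq_sum_card_fiberwise hmaps]
  refine sum_congr rfl fun p _ => ?_
  rw [h1]
  congr 1
  ext u
  rw [mem_offDiag, mem_filter, mem_offDiag, mem_ln, mem_ln]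
  constructor
  · rintro ⟨⟨h3, h4⟩, ⟨h5, h6⟩, h7⟩
    have h8 : u.1 + u.2 ≠ 0 := fun h => h7 (CharTwo.add_eq_zero.mp h)
    have h9 : (f u.1 + f u.2) / (u.1 + u.2) = p.1 := by
      rw [div_eq_iff h8]
      have h10 := CharTwo.add_eq_zero.mp (show (f u.1 + f u.2) + p.1 * (u.1 + u.2) = 0 by
        have e : (f u.1 + f u.2) + p.1 * (u.1 + u.2)
          = (f u.1 + p.1 * u.1 + p.2) + (f u.2 + p.1 * u.2 + p.2) - (p.2 + p.2) := by ring
        rw [e, h4, h6, add_zero, CharTwo.add_self_eq_zero, sub_zero])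
      exact h10
    refine ⟨⟨h3, h5, h7⟩, ?_⟩
    rw [h9]
    apply Prod.ext
    · rfl
    · exact CharTwo.add_eq_zero.mp h4
  · rintro ⟨⟨h3, h5, h7⟩, h8⟩
    have h8' : u.1 + u.2 ≠ 0 := fun h => h7 (CharTwo.add_eq_zero.mp h)
    rw [← h8]
    simp only
    refine ⟨⟨h3, CharTwo.add_self_eq_zero _⟩, ⟨h5, ?_⟩, h7⟩
    have e : f u.2 + (f u.1 + f u.2) / (u.1 + u.2) * u.2
        + (f u.1 + (f u.1 + f u.2) / (u.1 + u.2) * u.1)
        = (f u.1 + f u.2) + (f u.1 + f u.2) / (u.1 + u.2) * (u.1 + u.2) := by ring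
    rw [e, div_mul_cancel₀ _ h8', CharTwo.add_self_eq_zero]

theorem card_MP (G : Ge F K k f) : 12 * (MP K f).card = 2 ^ k * (2 ^ k - 1) := by
  rw [← G.cardK, ← G.sum_ln_sq, MP, card_filter, mul_sum]
  refine sum_congr rfl fun p hp => ?_
  rw [mem_product] at hp
  rcases G.lines _ hp.1 _ hp.2 with h | h | h
  · rw [h]; simp
  · rw [h]; simp
  · rw [h]; simp

theorem self_mem_ln (x : F) (hx : x ∈ K) (α : F) : x ∈ ln K f α (α * x + f x) := by
  rw [mem_ln]
  refine ⟨hx, ?_⟩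
  have : f x + α * x + (α * x + f x) = (f x + f x) + (α * x + α * x) := by ring
  rw [this, CharTwo.add_self_eq_zero, CharTwo.add_self_eq_zero, add_zero]

theorem card_A4 (G : Ge F K k f) {x : F} (hx : x ∈ K) : (A4 K f x).card = EE k := by
  have h1 : ∑ α ∈ K, ((ln K f α (α * x + f x)).card - 1) = 2 ^ k - 1 := by
    rw [← G.cardK, ← card_erase_of_mem hx]
    have hmaps : ∀ y ∈ K.erase x, (f y + f x) / (y + x) ∈ K := by
      intro y hy
      rw [mem_erase] at hy
      exact G.divK (G.addK (G.fK _ hy.2) (G.fK _ hx)) (G.addK hy.2 hx)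
    rw [card_eq_sum_card_fiberwise hmaps]
    refine sum_congr rfl fun α _ => ?_
    rw [← card_erase_of_mem (self_mem_ln x hx α)]
    congr 1
    ext y
    rw [mem_erase, mem_filter, mem_erase, mem_ln]
    constructor
    · rintro ⟨h2, h3, h4⟩
      refine ⟨⟨h2, h3⟩, ?_⟩
      have h8 : y + x ≠ 0 := fun h => h2 (CharTwo.add_eq_zero.mp h)
      rw [div_eq_iff h8]
      apply CharTwo.add_eq_zero.mp
      rw [← h4]; ring
    · rintro ⟨⟨h2, h3⟩, h4⟩
      refine ⟨h2, h3, ?_⟩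
      have h8 : y + x ≠ 0 := fun h => h2 (CharTwo.add_eq_zero.mp h)
      rw [div_eq_iff h8] at h4
      have : f y + α * y + (α * x + f x) = (f y + f x) + α * (y + x) := by ring
      rw [this, h4, CharTwo.add_self_eq_zero]
  have h5 : (A4 K f x).card * 3 = 2 ^ k - 1 := by
    rw [← h1, A4, card_filter, sum_mul]
    refine sum_congr rfl fun α hα => ?_
    have h2 := G.lines α hα (α * x + f x) (G.addK (G.mulK hα hx) (G.fK x hx))
    have h3 : 0 < (ln K f α (α * x + f x)).card := card_pos.mpr ⟨x, self_mem_ln x hx α⟩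
    rcases h2 with h | h | h
    · omega
    · rw [h]; simp
    · rw [h]; simp
  have h6 := G.three_EE
  omega

/-- the four points on a full line -/
theorem four_pts (G : Ge F K k f) {x α : F} (hx : x ∈ K) (hα : α ∈ A4 K f x) :
    α ∈ K ∧ x ∈ ln K f α (α * x + f x) ∧ (ln K f α (α * x + f x)).card = 4 ∧
      ∀ y ∈ ln K f α (α * x + f x), y ∈ K ∧ y * α + f y = x * α + f x := by
  rw [A4, mem_filter] at hα
  refine ⟨hα.1, self_mem_ln x hx α, hα.2, ?_⟩
  intro y hy
  rw [mem_ln] at hy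
  refine ⟨hy.1, ?_⟩
  have h1 := CharTwo.add_eq_zero.mp hy.2
  rw [mul_comm y, mul_comm x, add_comm (α * y), h1]

end Ge

end Pool.Agent.Helper992
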