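import Pool.Agent.Helper992.Bi

set_option autoImplicit false
set_option linter.unusedSectionVars false
open scoped Classical

namespace Pool.Agent.Helper992

open Finset

/-- points of the graph on a line -/
noncomputable def ln {F : Type*} [Field F] (K : Finset F) (f : F → F) (α β : F) : Finset F :=
  K.filter (fun x => f x + α * x + β = 0)

structure Geo (F : Type*) [Field F] (K : Finset F) (k j : ℕ) (f : F → F) : Prop where
  hj : 3 ≤ j
  dvd : j ∣ k
  lt : j < k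
  memK : ∀ z, z ∈ K ↔ z ^ (2 ^ k) = z
  cardK : K.card = 2 ^ k
  fK : ∀ x ∈ K, f x ∈ K
  inj : ∀ x ∈ K, ∀ y ∈ K, f x = f y → x = y
  lines : ∀ α ∈ K, ∀ β ∈ K, (ln K f α β).card = 0 ∨ (ln K f α β).card = 1 ∨
    (ln K f α β).card = 2 ^ j
  one : ∀ x ∈ K, f (x + 1) = f x + 1
  full : ∀ x ∈ K, (K.filter (fun y => f y + y = f x + x)).card = 2 ^ j

variable {F : Type*} [Field F] [CharP F 2] {K : Finset F} {k j : ℕ} {f : F → F}

theorem mem_ln {α β x : F} : x ∈ ln K f α β ↔ x ∈ K ∧ f x + α * x + β = 0 := by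
  rw [ln, mem_filter]

namespace Geo

theorem addK (G : Geo F K k j f) {x y : F} (hx : x ∈ K) (hy : y ∈ K) : x + y ∈ K := by
  rw [G.memK] at *
  rw [add_pow_char_pow, hx, hy]

theorem mulK (G : Geo F K k j f) {x y : F} (hx : x ∈ K) (hy : y ∈ K) : x * y ∈ K := by
  rw [G.memK] at *
  rw [mul_pow, hx, hy]

theorem divK (G : Geo F K k j f) {x y : F} (hx : x ∈ K) (hy : y ∈ K) : x / y ∈ K := by
  rw [G.memK] at *
  rw [div_pow, hx, hy]

theorem oneK (G : Geo F K k j f) : (1 : F) ∈ K := by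
  rw [G.memK, one_pow]

theorem powK (G : Geo F K k j f) {x : F} (hx : x ∈ K) (n : ℕ) : x ^ n ∈ K := by
  rw [G.memK] at *
  rw [← pow_mul, mul_comm, pow_mul, hx]

theorem sum_ln (G : Geo F K k j f) {α : F} (hα : α ∈ K) :
    ∑ β ∈ K, (ln K f α β).card = K.card := by
  have hmaps : ∀ x ∈ K, f x + α * x ∈ K := fun x hx => G.addK (G.fK x hx) (G.mulK hα hx)
  rw [card_eq_sum_card_fiberwise hmaps]
  refine sum_congr rfl fun β _ => ?_
  congr 1
  ext x
  rw [mem_ln, mem_filter, CharTwo.add_eq_zero]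

theorem sum_ln_sq (G : Geo F K k j f) :
    ∑ p ∈ K ×ˢ K, (ln K f p.1 p.2).card * ((ln K f p.1 p.2).card - 1)
      = K.card * (K.card - 1) := by
  have h1 : ∀ p : F × F, (ln K f p.1 p.2).card * ((ln K f p.1 p.2).card - 1)
      = ((ln K f p.1 p.2).offDiag).card := by
    intro p
    rw [offDiag_card, Nat.mul_sub, mul_one]
  have h2 : K.card * (K.card - 1) = (K.offDiag).card := by
    rw [offDiag_card, Nat.mul_sub, mul_one]
  rw [h2]
  have hmaps : ∀ u ∈ K.offDiag, ((f u.1 + f u.2) / (u.1 + u.2),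
      f u.1 + (f u.1 + f u.2) / (u.1 + u.2) * u.1) ∈ K ×ˢ K := by
    intro u hu
    rw [mem_offDiag] at hu
    rw [mem_product]
    have h3 := G.divK (G.addK (G.fK _ hu.1) (G.fK _ hu.2.1)) (G.addK hu.1 hu.2.1)
    exact ⟨h3, G.addK (G.fK _ hu.1) (G.mulK h3 hu.1)⟩
  rw [card_eq_sum_card_fiberwise hmaps]
  refine sum_congr rfl fun p _ => ?_
  rw [h1]
  congr 1
  ext u
  rw [mem_offDiag, mem_filter, mem_offDiag, mem_ln, mem_ln]
  constructor
  · rintro ⟨⟨h3, h4⟩, ⟨h5, h6⟩, h7⟩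
    have h8 : u.1 + u.2 ≠ 0 := fun h => h7 (CharTwo.add_eq_zero.mp h)
    have h9 : (f u.1 + f u.2) / (u.1 + u.2) = p.1 := by
      rw [div_eq_iff h8]
      have h10 := CharTwo.add_eq_zero.mp (show (f u.1 + f u.2) + p.1 * (u.1 + u.2) = 0 by
        have e : (f u.1 + f u.2) + p.1 * (u.1 + u.2)
          = (f u.1 + p.1 * u.1 + p.2) + (f u.2 + p.1 * u.2 + p.2) - (p.2 + p.2) := by ring
        rw [e, h4, h6, add_zero, CharTwo.add_self_eq_zero, sub_zero])
      exact h10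
    refine ⟨⟨h3, h5, h7⟩, ?_⟩
    rw [h9]
    apply Prod.ext
    · rfl
    · exact CharTwo.add_eq_zero.mp h4
  · rintro ⟨⟨h3, h5, h7⟩, h8⟩
    have h8' : u.1 + u.2 ≠ 0 := fun h => h7 (CharTwo.add_eq_zero.mp h)
    rw [← h8]
    simp only
    refine ⟨⟨h3, CharTwo.add_self_eq_zero _⟩, ⟨h5, ?_⟩, h7⟩
    have e : f u.2 + (f u.1 + f u.2) / (u.1 + u.2) * u.2
        + (f u.1 + (f u.1 + f u.2) / (u.1 + u.2) * u.1)
        = (f u.1 + f u.2) + (f u.1 + f u.2) / (u.1 + u.2) * (u.1 + u.2) := by ring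
    rw [e, div_mul_cancel₀ _ h8', CharTwo.add_self_eq_zero]

/-- the lines missing the graph -/
noncomputable def Z0 (K : Finset F) (f : F → F) : Finset (F × F) :=
  (K ×ˢ K).filter (fun p => (ln K f p.1 p.2).card = 0)

theorem card_Z0 (G : Geo F K k j f) : 2 ^ j * (Z0 K f).card = 2 ^ k * (2 ^ k - 1) := by
  have h1 : ∀ p ∈ K ×ˢ K, (2 : ℤ) ^ j * (if (ln K f p.1 p.2).card = 0 then 1 else 0)
      = 2 ^ j - 2 ^ j * ((ln K f p.1 p.2).card : ℤ)
        + (((ln K f p.1 p.2).card * ((ln K f p.1 p.2).card - 1) : ℕ) : ℤ) := by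
    intro p hp
    rw [mem_product] at hp
    rcases G.lines _ hp.1 _ hp.2 with h | h | h
    · rw [h]; simp
    · rw [h]; simp
    · rw [h]
      have h2 : (2 : ℕ) ^ j ≠ 0 := by positivity
      rw [if_neg h2, Nat.cast_mul, Nat.cast_sub Nat.one_le_two_pow]
      push_cast; ring
  have h2 : ((Z0 K f).card : ℤ)
      = ∑ p ∈ K ×ˢ K, (if (ln K f p.1 p.2).card = 0 then (1 : ℤ) else 0) := by
    rw [Z0, card_filter]; push_cast; rfl
  have h3 : (2 : ℤ) ^ j * ((Z0 K f).card : ℤ) = 2 ^ k * (2 ^ k - 1) := by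
    rw [h2, mul_sum, sum_congr rfl h1, sum_add_distrib, sum_sub_distrib, ← mul_sum, sum_const,
      ← Nat.cast_sum, ← Nat.cast_sum, G.sum_ln_sq, sum_product,
      sum_congr rfl (fun α hα => G.sum_ln hα), sum_const, card_product, G.cardK]
    have h4 : 1 ≤ 2 ^ k := Nat.one_le_two_pow
    simp only [smul_eq_mul, nsmul_eq_mul]
    rw [Nat.cast_mul, Nat.cast_mul, Nat.cast_sub h4]
    push_cast; ring
  have h4 : 1 ≤ 2 ^ k := Nat.one_le_two_pow
  zify [h4]
  exact h3

/-- slopes of the full lines through a point -/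
noncomputable def Ax (K : Finset F) (j : ℕ) (f : F → F) (x : F) : Finset F :=
  K.filter (fun α => (ln K f α (α * x + f x)).card = 2 ^ j)

theorem self_mem_ln (x : F) (hx : x ∈ K) (α : F) : x ∈ ln K f α (α * x + f x) := by
  rw [mem_ln]
  refine ⟨hx, ?_⟩
  have : f x + α * x + (α * x + f x) = (f x + f x) + (α * x + α * x) := by ring
  rw [this, CharTwo.add_self_eq_zero, CharTwo.add_self_eq_zero, add_zero]

theorem card_Ax (G : Geo F K k j f) {x : F} (hx : x ∈ K) :
    (Ax K j f x).card * (2 ^ j - 1) = 2 ^ k - 1 := by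
  have h1 : ∑ α ∈ K, ((ln K f α (α * x + f x)).card - 1) = 2 ^ k - 1 := by
    rw [← G.cardK, ← card_erase_of_mem hx]
    have hmaps : ∀ y ∈ K.erase x, (f y + f x) / (y + x) ∈ K := by
      intro y hy
      rw [mem_erase] at hy
      exact G.divK (G.addK (G.fK _ hy.2) (G.fK _ hx)) (G.addK hy.2 hx)
    rw [card_eq_sum_card_fiberwise hmaps]
    refine sum_congr rfl fun α _ => ?_
    rw [← card_erase_of_mem (self_mem_ln x hx α)]
    congr 1
    ext y
    rw [mem_erase, mem_filter, mem_erase, mem_ln]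
    constructor
    · rintro ⟨h2, h3, h4⟩
      refine ⟨⟨h2, h3⟩, ?_⟩
      have h8 : y + x ≠ 0 := fun h => h2 (CharTwo.add_eq_zero.mp h)
      rw [div_eq_iff h8]
      apply CharTwo.add_eq_zero.mp
      rw [← h4]; ring
    · rintro ⟨⟨h2, h3⟩, h4⟩
      refine ⟨h2, h3, ?_⟩
      have h8 : y + x ≠ 0 := fun h => h2 (CharTwo.add_eq_zero.mp h)
      rw [div_eq_iff h8] at h4
      have : f y + α * y + (α * x + f x) = (f y + f x) + α * (y + x) := by ring
      rw [this, h4, CharTwo.add_self_eq_zero]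
  rw [← h1, Ax, card_filter, sum_mul]
  refine sum_congr rfl fun α hα => ?_
  have h2 := G.lines α hα (α * x + f x) (G.addK (G.mulK hα hx) (G.fK x hx))
  have h3 : 0 < (ln K f α (α * x + f x)).card := card_pos.mpr ⟨x, self_mem_ln x hx α⟩
  have hj := G.hj
  have h4 : 2 ^ 3 ≤ 2 ^ j := Nat.pow_le_pow_right (by norm_num) hj
  rcases h2 with h | h | h
  · omega
  · rw [h, if_neg (by omega)]; simp
  · rw [h, if_pos rfl, one_mul]

theorem ln_of_not_Ax (G : Geo F K k j f) {x α : F} (hx : x ∈ K) (hα : α ∈ K)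
    (h : α ∉ Ax K j f x) : ∀ y ∈ K, y ≠ x → f y + α * y + (α * x + f x) ≠ 0 := by
  intro y hy hyx h0
  apply h
  rw [Ax, mem_filter]
  refine ⟨hα, ?_⟩
  have h2 := G.lines α hα (α * x + f x) (G.addK (G.mulK hα hx) (G.fK x hx))
  have h3 : ({x, y} : Finset F) ⊆ ln K f α (α * x + f x) := by
    intro z hz
    rw [mem_insert, mem_singleton] at hz
    rcases hz with rfl | rfl
    · exact self_mem_ln _ hx α
    · rw [mem_ln]; exact ⟨hy, h0⟩
  have h4 := card_le_card h3
  rw [card_pair (Ne.symm hyx)] at h4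
  omega

/-- the polynomial of the dual arrangement -/
noncomputable def RR (K : Finset F) (f : F → F) : MvPolynomial (Fin 2) F :=
  ∏ x ∈ K, lf x (f x)

theorem RR_erase {x : F} (hx : x ∈ K) :
    RR K f = lf x (f x) * ∏ y ∈ K.erase x, lf y (f y) := by
  exact (mul_prod_erase K (fun y => lf y (f y)) hx).symm

theorem pow_dvd_prod {x α : F} (hx : x ∈ K) (hα : α ∈ Ax K j f x) :
    (Polynomial.X - Polynomial.C α) ^ (2 ^ j - 1)
      ∣ rl x (f x) (∏ y ∈ K.erase x, lf y (f y)) := by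
  rw [Ax, mem_filter] at hα
  rw [map_prod]
  have hsub : (ln K f α (α * x + f x)).erase x ⊆ K.erase x := by
    intro y hy
    rw [mem_erase, mem_ln] at hy
    rw [mem_erase]; exact ⟨hy.1, hy.2.1⟩
  refine dvd_trans ?_ (prod_dvd_prod_of_subset _ _ _ hsub)
  have hcard : ((ln K f α (α * x + f x)).erase x).card = 2 ^ j - 1 := by
    rw [card_erase_of_mem (self_mem_ln x hx α), hα.2]
  rw [← hcard, ← prod_const]
  apply prod_dvd_prod_of_dvd
  intro y hy
  rw [mem_erase, mem_ln] at hy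
  rw [rl_lf]
  refine ⟨Polynomial.C (x - y), ?_⟩
  have h1 : f x - f y = (x - y) * α := by
    have h2 := CharTwo.add_eq_zero.mp (show (f y + f x) + α * (y + x) = 0 by
      rw [← hy.2.2]; ring)
    rw [CharTwo.sub_eq_add, CharTwo.sub_eq_add, add_comm (f x), h2]; ring
  rw [h1, Polynomial.C_mul, sub_mul, CharTwo.sub_eq_add (Polynomial.X * _)]
  ring

end Geo

end Pool.Agent.Helper992
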