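import Mathlib

set_option autoImplicit false
set_option linter.unusedSectionVars false
open scoped Classical

namespace Pool.Agent.Helper992

open Finset

/-- A set of `M ^ 2` points on `M` vertical lines such that every non-vertical secant is full,
invariant under `X ↦ X + 1`, lies on a curve `X ^ M + X = b0 + b1 * κ`. -/
theorem plane_lemma {F : Type*} [Field F] [Fintype F] [CharP F 2] {j : ℕ} (hj : 2 ≤ j)
    (KK : Finset F) (Ξ : F → Finset F)
    (hKK : KK.card = 2 ^ j) (hΞ : ∀ κ ∈ KK, (Ξ κ).card = 2 ^ j)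
    (hP : ∀ κ ∈ KK, ∀ κ' ∈ KK, κ ≠ κ' → ∀ X ∈ Ξ κ, ∀ X' ∈ Ξ κ', ∀ κ'' ∈ KK,
      X + (κ'' + κ) * ((X' + X) / (κ' + κ)) ∈ Ξ κ'')
    (hI : ∀ κ ∈ KK, ∀ X ∈ Ξ κ, X + 1 ∈ Ξ κ) :
    ∃ b0 b1 : F, ∀ κ ∈ KK, ∀ X ∈ Ξ κ, X ^ (2 ^ j) + X = b0 + b1 * κ := by
  have hp : Fact (Nat.Prime 2) := ⟨Nat.prime_two⟩
  have hM4 : 4 ≤ 2 ^ j := by
    calc 4 = 2 ^ 2 := by norm_num
      _ ≤ 2 ^ j := Nat.pow_le_pow_right (by norm_num) hj
  have haa : ∀ x : F, x + x = 0 := CharTwo.add_self_eq_zero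
  have hcancel : ∀ x y : F, x + y + y = x := fun x y => by rw [add_assoc, haa, add_zero]
  have hne : ∀ {x y : F}, x ≠ y → x + y ≠ 0 := fun h h' => h (CharTwo.add_eq_zero.mp h')
  obtain ⟨κ0, hκ0⟩ : KK.Nonempty := card_pos.mp (by omega)
  obtain ⟨κ1, hκ1⟩ : (KK.erase κ0).Nonempty := by
    apply card_pos.mp; rw [card_erase_of_mem hκ0]; omega
  rw [mem_erase] at hκ1
  obtain ⟨hκ1ne, hκ1⟩ := hκ1
  obtain ⟨X0, hX0⟩ : (Ξ κ0).Nonempty := card_pos.mp (by rw [hΞ κ0 hκ0]; omega)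
  have hc1 : κ1 + κ0 ≠ 0 := hne hκ1ne
  -- slopes at a point of the base level
  have fact1 : ∀ Y ∈ Ξ κ0, ∀ κ ∈ KK, κ ≠ κ0 → ∀ κ' ∈ KK, ∀ σ : F,
      Y + (κ + κ0) * σ ∈ Ξ κ → Y + (κ' + κ0) * σ ∈ Ξ κ' := by
    intro Y hY κ hκ hκne κ' hκ' σ hσ
    have hc : κ + κ0 ≠ 0 := hne hκne
    have := hP κ0 hκ0 κ hκ (Ne.symm hκne) Y hY _ hσ κ' hκ'
    have e : (Y + (κ + κ0) * σ + Y) / (κ + κ0) = σ := by
      have : Y + (κ + κ0) * σ + Y = (κ + κ0) * σ := by
        rw [add_comm Y, hcancel]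
      rw [this, mul_div_cancel_left₀ _ hc]
    rwa [e] at this
  set S : Finset F := univ.filter (fun σ => X0 + (κ1 + κ0) * σ ∈ Ξ κ1) with hS
  have memS : ∀ σ, σ ∈ S ↔ X0 + (κ1 + κ0) * σ ∈ Ξ κ1 := fun σ => by simp [hS]
  have hScard : S.card = 2 ^ j := by
    rw [← hΞ κ1 hκ1]
    refine card_nbij' (fun σ => X0 + (κ1 + κ0) * σ) (fun X => (X + X0) / (κ1 + κ0)) ?_ ?_ ?_ ?_
    · intro σ hσ; exact (memS σ).mp hσ
    · intro X hX
      simp only [mem_coe] at hX ⊢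
      rw [memS]
      have e : X0 + (κ1 + κ0) * ((X + X0) / (κ1 + κ0)) = X := by
        rw [mul_div_cancel₀ _ hc1, add_comm X0, hcancel]
      rw [e]; exact hX
    · intro σ _
      show (X0 + (κ1 + κ0) * σ + X0) / (κ1 + κ0) = σ
      rw [add_comm X0, hcancel, mul_div_cancel_left₀ _ hc1]
    · intro X _
      show X0 + (κ1 + κ0) * ((X + X0) / (κ1 + κ0)) = X
      rw [mul_div_cancel₀ _ hc1, add_comm X0, hcancel]
  have memS' : ∀ κ ∈ KK, κ ≠ κ0 → ∀ σ, σ ∈ S ↔ X0 + (κ + κ0) * σ ∈ Ξ κ := by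
    intro κ hκ hκne σ
    rw [memS]
    exact ⟨fact1 X0 hX0 κ1 hκ1 hκ1ne κ hκ σ, fact1 X0 hX0 κ hκ hκne κ1 hκ1 σ⟩
  obtain ⟨σ0, hσ0⟩ : S.Nonempty := card_pos.mp (by omega)
  -- the stabiliser
  set A : Finset F := univ.filter (fun a => ∀ σ ∈ S, σ + a ∈ S) with hA
  have memA : ∀ a, a ∈ A ↔ ∀ σ ∈ S, σ + a ∈ S := fun a => by simp [hA]
  have hAle : A.card ≤ 2 ^ j := by
    rw [← hScard]
    apply card_le_card_of_injOn (fun a => σ0 + a)
    · intro a ha; exact (memA a).mp ha σ0 hσ0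
    · intro a _ b _ h; exact add_left_cancel h
  have hA0 : (0 : F) ∈ A := by rw [memA]; intro σ hσ; rwa [add_zero]
  have hAadd : ∀ a ∈ A, ∀ b ∈ A, a + b ∈ A := by
    intro a ha b hb
    rw [memA] at *
    intro σ hσ
    rw [← add_assoc]; exact hb _ (ha σ hσ)
  have hAinv : ∀ κ ∈ KK, κ ≠ κ0 → (κ + κ0)⁻¹ ∈ A := by
    intro κ hκ hκne
    have hc : κ + κ0 ≠ 0 := hne hκne
    rw [memA]
    intro σ hσ
    rw [memS' κ hκ hκne] at hσ ⊢
    have := hI κ hκ _ hσ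
    have e : X0 + (κ + κ0) * (σ + (κ + κ0)⁻¹) = X0 + (κ + κ0) * σ + 1 := by
      rw [mul_add, mul_inv_cancel₀ hc, add_assoc]
    rw [e]; exact this
  set A1 : Finset F := insert 0 ((KK.erase κ0).image (fun κ => (κ + κ0)⁻¹)) with hA1
  have hA1card : A1.card = 2 ^ j := by
    rw [hA1, card_insert_of_notMem, card_image_of_injOn, card_erase_of_mem hκ0, hKK]
    · omega
    · intro a _ b _ h
      have := inv_injective h
      exact add_right_cancel this
    · intro h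
      rw [mem_image] at h
      obtain ⟨κ, hκ, h⟩ := h
      rw [mem_erase] at hκ
      exact (inv_ne_zero (hne hκ.1)) h
  have hA1sub : A1 ⊆ A := by
    intro a ha
    rw [hA1, mem_insert, mem_image] at ha
    rcases ha with rfl | ⟨κ, hκ, rfl⟩
    · exact hA0
    · rw [mem_erase] at hκ; exact hAinv κ hκ.2 hκ.1
  have hAA1 : A1 = A := eq_of_subset_of_card_le hA1sub (by rw [hA1card]; exact hAle)
  have hAcard : A.card = 2 ^ j := by rw [← hAA1, hA1card]
  have hAform : ∀ a ∈ A, a ≠ 0 → ∃ κ ∈ KK, κ ≠ κ0 ∧ a = (κ + κ0)⁻¹ := by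
    intro a ha ha0
    rw [← hAA1, hA1, mem_insert, mem_image] at ha
    rcases ha with ha | ⟨κ, hκ, h⟩
    · exact absurd ha ha0
    · rw [mem_erase] at hκ; exact ⟨κ, hκ.2, hκ.1, h.symm⟩
  -- differences in the base level act on A
  have fact2 : ∀ Y ∈ Ξ κ0, ∀ κ ∈ KK, κ ≠ κ0 → ∀ κ' ∈ KK, κ' ≠ κ0 →
      (Y + X0) * ((κ + κ0)⁻¹ + (κ' + κ0)⁻¹) ∈ A := by
    intro Y hY κ hκ hκne κ' hκ' hκ'ne
    have hc : κ + κ0 ≠ 0 := hne hκne
    have hc' : κ' + κ0 ≠ 0 := hne hκ'ne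
    rw [memA]
    intro σ hσ
    have h1 := (memS' κ hκ hκne σ).mp hσ
    have e1 : X0 + (κ + κ0) * σ = Y + (κ + κ0) * (σ + (Y + X0) * (κ + κ0)⁻¹) := by
      have : (κ + κ0) * (σ + (Y + X0) * (κ + κ0)⁻¹) = (κ + κ0) * σ + (Y + X0) := by
        field_simp
      rw [this]
      have : Y + ((κ + κ0) * σ + (Y + X0)) = X0 + (κ + κ0) * σ + (Y + Y) := by ring
      rw [this, haa, add_zero]
    rw [e1] at h1
    have h2 := fact1 Y hY κ hκ hκne κ' hκ' _ h1
    rw [memS' κ' hκ' hκ'ne]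
    have e2 : Y + (κ' + κ0) * (σ + (Y + X0) * (κ + κ0)⁻¹)
        = X0 + (κ' + κ0) * (σ + (Y + X0) * ((κ + κ0)⁻¹ + (κ' + κ0)⁻¹)) := by
      have : (κ' + κ0) * (σ + (Y + X0) * ((κ + κ0)⁻¹ + (κ' + κ0)⁻¹))
          = (κ' + κ0) * (σ + (Y + X0) * (κ + κ0)⁻¹) + (Y + X0) := by
        field_simp
        ring
      rw [this]
      have : X0 + ((κ' + κ0) * (σ + (Y + X0) * (κ + κ0)⁻¹) + (Y + X0))
          = Y + (κ' + κ0) * (σ + (Y + X0) * (κ + κ0)⁻¹) + (X0 + X0) := by ring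
      rw [this, haa, add_zero]
    rw [← e2]; exact h2
  have fact3 : ∀ Y ∈ Ξ κ0, ∀ b ∈ A, (Y + X0) * b ∈ A := by
    intro Y hY b hb
    by_cases hb0 : b = 0
    · rw [hb0, mul_zero]; exact hA0
    · obtain ⟨a, ha⟩ : (A \ {0, b}).Nonempty := by
        apply card_pos.mp
        have h1 : ({0, b} : Finset F).card ≤ 2 := card_le_two
        have h2 := le_card_sdiff ({0, b} : Finset F) A
        omega
      rw [mem_sdiff, mem_insert, mem_singleton] at ha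
      push Not at ha
      obtain ⟨haA, ha0, hab⟩ := ha
      have hab' : a + b ∈ A := hAadd a haA b hb
      have hab0 : a + b ≠ 0 := hne hab
      obtain ⟨κ, hκ, hκne, e⟩ := hAform a haA ha0
      obtain ⟨κ', hκ', hκ'ne, e'⟩ := hAform (a + b) hab' hab0
      have h1 := fact2 Y hY κ hκ hκne κ' hκ' hκ'ne
      rw [← e, ← e'] at h1
      have e3 : a + (a + b) = b := by rw [← add_assoc, haa, zero_add]
      rwa [e3] at h1
  -- the multiplier ring
  set R : Finset F := univ.filter (fun x => ∀ a ∈ A, x * a ∈ A) with hR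
  have memR : ∀ x, x ∈ R ↔ ∀ a ∈ A, x * a ∈ A := fun a => by simp [hR]
  have ha1 : (κ1 + κ0)⁻¹ ∈ A := hAinv κ1 hκ1 hκ1ne
  set a1 := (κ1 + κ0)⁻¹ with ha1def
  have ha10 : a1 ≠ 0 := inv_ne_zero hc1
  have hRle : R.card ≤ 2 ^ j := by
    rw [← hAcard]
    apply card_le_card_of_injOn (fun x => x * a1)
    · intro x hx; exact (memR x).mp hx a1 ha1
    · intro x _ y _ h; exact mul_right_cancel₀ ha10 h
  have hRmul : ∀ x ∈ R, ∀ y ∈ R, x * y ∈ R := by
    intro x hx y hy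
    rw [memR] at *
    intro a ha
    rw [mul_assoc]; exact hx _ (hy a ha)
  have hR0 : (0 : F) ∈ R := by rw [memR]; intro a _; rw [zero_mul]; exact hA0
  have hΔ : (Ξ κ0).image (fun Y => Y + X0) ⊆ R := by
    intro x hx
    rw [mem_image] at hx
    obtain ⟨Y, hY, rfl⟩ := hx
    rw [memR]; exact fact3 Y hY
  have hΔcard : ((Ξ κ0).image (fun Y => Y + X0)).card = 2 ^ j := by
    rw [card_image_of_injective _ (add_left_injective X0), hΞ κ0 hκ0]
  have hΔR : (Ξ κ0).image (fun Y => Y + X0) = R :=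
    eq_of_subset_of_card_le hΔ (by rw [hΔcard]; exact hRle)
  have hRcard : R.card = 2 ^ j := by rw [← hΔR, hΔcard]
  have hRpow : ∀ x ∈ R, x ^ (2 ^ j) = x := by
    intro x hx
    by_cases hx0 : x = 0
    · rw [hx0, zero_pow (by positivity)]
    · have h1 : (R.erase 0).image (fun y => x * y) = R.erase 0 := by
        apply eq_of_subset_of_card_le
        · intro z hz
          rw [mem_image] at hz
          obtain ⟨y, hy, rfl⟩ := hz
          rw [mem_erase] at hy ⊢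
          exact ⟨mul_ne_zero hx0 hy.1, hRmul x hx y hy.2⟩
        · rw [card_image_of_injective _ (mul_right_injective₀ hx0)]
      have h2 : ∏ y ∈ R.erase 0, y = x ^ (2 ^ j - 1) * ∏ y ∈ R.erase 0, y := by
        conv_lhs => rw [← h1]
        rw [prod_image (fun a _ b _ h => mul_right_injective₀ hx0 h), prod_mul_distrib,
          prod_const, card_erase_of_mem hR0, hRcard]
      have h3 : ∏ y ∈ R.erase 0, y ≠ 0 := by
        rw [prod_ne_zero_iff]; intro y hy; exact (mem_erase.mp hy).1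
      have h4 : x ^ (2 ^ j - 1) = 1 := by
        have : (1 : F) * ∏ y ∈ R.erase 0, y = x ^ (2 ^ j - 1) * ∏ y ∈ R.erase 0, y := by
          rw [one_mul]; exact h2
        exact (mul_right_cancel₀ h3 this).symm
      calc x ^ (2 ^ j) = x ^ (2 ^ j - 1) * x := by
            rw [← pow_succ, Nat.sub_add_cancel (by omega)]
        _ = x := by rw [h4, one_mul]
  have hAR : R.image (fun x => x * a1) = A := by
    apply eq_of_subset_of_card_le
    · intro z hz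
      rw [mem_image] at hz
      obtain ⟨x, hx, rfl⟩ := hz
      exact (memR x).mp hx a1 ha1
    · rw [card_image_of_injective _ (mul_left_injective₀ ha10), hAcard, hRcard]
  have hSA : A.image (fun a => σ0 + a) = S := by
    apply eq_of_subset_of_card_le
    · intro z hz
      rw [mem_image] at hz
      obtain ⟨a, ha, rfl⟩ := hz
      exact (memA a).mp ha σ0 hσ0
    · rw [card_image_of_injective _ (add_right_injective σ0), hAcard, hScard]
  -- conclusion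
  have hadd : ∀ x y : F, (x + y) ^ (2 ^ j) = x ^ (2 ^ j) + y ^ (2 ^ j) :=
    fun x y => add_pow_char_pow x y 2 j
  set β : F := a1 * ((σ0 / a1) ^ (2 ^ j) + σ0 / a1) with hβ
  refine ⟨X0 ^ (2 ^ j) + X0 + β * κ0, β, ?_⟩
  intro κ hκ X hX
  by_cases hκne : κ = κ0
  · rw [hκne] at hX ⊢
    have h1 : X + X0 ∈ R := by
      rw [← hΔR, mem_image]; exact ⟨X, hX, rfl⟩
    have h2 := hRpow _ h1
    rw [hadd] at h2
    have h3 : X ^ (2 ^ j) + X = X0 ^ (2 ^ j) + X0 := by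
      have : X ^ (2 ^ j) + X0 ^ (2 ^ j) + (X0 ^ (2 ^ j) + X) = X + X0 + (X0 ^ (2 ^ j) + X) := by
        rw [h2]
      have e1 : X ^ (2 ^ j) + X0 ^ (2 ^ j) + (X0 ^ (2 ^ j) + X)
          = X ^ (2 ^ j) + X + (X0 ^ (2 ^ j) + X0 ^ (2 ^ j)) := by ring
      have e2 : X + X0 + (X0 ^ (2 ^ j) + X) = X0 ^ (2 ^ j) + X0 + (X + X) := by ring
      rw [e1, e2, haa, haa, add_zero, add_zero] at this
      exact this
    rw [h3, add_assoc, haa, add_zero]
  · have hc : κ + κ0 ≠ 0 := hne hκne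
    -- X = X0 + (κ + κ0) σ
    have hσ : (X + X0) / (κ + κ0) ∈ S := by
      rw [memS' κ hκ hκne, mul_div_cancel₀ _ hc, add_comm X0, hcancel]; exact hX
    rw [← hSA, mem_image] at hσ
    obtain ⟨a, ha, hσa⟩ := hσ
    rw [← hAR, mem_image] at ha
    obtain ⟨f, hf, rfl⟩ := ha
    have hinv := hAinv κ hκ hκne
    rw [← hAR, mem_image] at hinv
    obtain ⟨f', hf', hinv⟩ := hinv
    have hf'0 : f' ≠ 0 := by
      rintro rfl
      rw [zero_mul] at hinv
      exact inv_ne_zero hc hinv.symm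
    have hκf : κ + κ0 = (f' * a1)⁻¹ := by rw [hinv, inv_inv]
    have hXeq : X = X0 + (f'⁻¹ * (σ0 / a1) + f / f') := by
      have h1 : X + X0 = (κ + κ0) * (σ0 + f * a1) := by
        rw [hσa, mul_div_cancel₀ _ hc]
      have h2 : X = X0 + (X + X0) := by
        rw [add_comm X0, hcancel]
      rw [h2, h1, hκf]
      congr 1
      field_simp
    have hfM := hRpow f hf
    have hf'M := hRpow f' hf'
    have hβκ : β * κ + β * κ0 = f'⁻¹ * ((σ0 / a1) ^ (2 ^ j) + σ0 / a1) := by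
      rw [← mul_add, hκf, hβ]
      field_simp
    have e1 : X ^ (2 ^ j) + X = X0 ^ (2 ^ j) + X0 + f'⁻¹ * ((σ0 / a1) ^ (2 ^ j) + σ0 / a1)
        + (f / f' + f / f') := by
      rw [hXeq, hadd, hadd, mul_pow, inv_pow, div_pow f f', hfM, hf'M]
      ring
    rw [e1, haa, add_zero, ← hβκ]; ring

end Pool.Agent.Helper992
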