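import Pool.Agent.Helper992.TwoEnd
import Pool.Agent.Helper992.Plane

set_option autoImplicit false
set_option linter.unusedSectionVars false
open scoped Classical

namespace Pool.Agent.Helper992

open Finset

variable {k : ℕ} {F : Type*} [Field F] [Fintype F]

/-- The coordinate on the punctured circle. -/
noncomputable def XX (k : ℕ) (y : F) : F := y / T k y

/-- first coordinate of the dual point -/
noncomputable def kap (k : ℕ) (s : ℤ) (p : F) : F := T k p / (T k (p ^ s) * T k (p ^ (s - 1)))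

/-- second coordinate of the dual point -/
noncomputable def Xp (k : ℕ) (s : ℤ) (p : F) : F := XX k (p ^ (s - 1))

variable [CharP F 2]

theorem T_frob (i : ℕ) (x : F) : T k (x ^ (2 ^ i)) = (T k x) ^ (2 ^ i) := by
  rw [T, T, add_pow_q, ← pow_mul, ← pow_mul, mul_comm (2 ^ i)]

theorem XX_frob (i : ℕ) (x : F) : XX k (x ^ (2 ^ i)) = (XX k x) ^ (2 ^ i) := by
  rw [XX, XX, T_frob, div_pow]

theorem XX_conj (hF : Fintype.card F = 2 ^ (2 * k)) {y : F} (hy : y ∈ (U F k).erase 1) :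
    XX k y + (XX k y) ^ (2 ^ k) = 1 := by
  have hT := T_ne_zero hy
  rw [XX, div_pow, mem_K.mp (T_mem_K hF y), ← add_div]
  exact div_self hT

theorem XX_inv {y : F} (hy : y ∈ (U F k).erase 1) : XX k y⁻¹ = XX k y + 1 := by
  have hT := T_ne_zero hy
  rw [mem_erase] at hy
  rw [XX, XX, T_inv hy.2, div_add_one hT]
  congr 1
  rw [T_U hy.2, ← add_assoc, CharTwo.add_self_eq_zero, zero_add]

theorem XX_add {a b : F} (ha : a ∈ (U F k).erase 1) (hb : b ∈ (U F k).erase 1) :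
    XX k a + XX k b = T k (a / b) / (T k a * T k b) := by
  have hTa := T_ne_zero ha
  have hTb := T_ne_zero hb
  rw [mem_erase] at ha hb
  have ha0 := U_ne_zero ha.2
  have hb0 := U_ne_zero hb.2
  have hab : a / b ∈ U F k := by rw [div_eq_mul_inv]; exact mul_mem_U ha.2 (inv_mem_U hb.2)
  rw [XX, XX, div_add_div _ _ hTa hTb, T_U hab, inv_div]
  congr 1
  rw [T_U ha.2, T_U hb.2]
  have h2 : (2 : F) = 0 := CharTwo.two_eq_zero
  have : a * (b + b⁻¹) + (a + a⁻¹) * b = 2 * (a * b) + (a / b + b / a) := by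
    field_simp; ring
  rw [this, h2, zero_mul, zero_add]

theorem zpow_mem_erase {m : ℤ} (hm : IsCoprime m ((2 ^ k + 1 : ℕ) : ℤ)) {p : F}
    (hp : p ∈ (U F k).erase 1) : p ^ m ∈ (U F k).erase 1 := by
  rw [mem_erase] at *
  refine ⟨fun h => hp.1 ?_, zpow_mem_U hp.2 m⟩
  exact U_zpow_inj hm hp.2 one_mem_U (by rw [h, one_zpow])

theorem XX_inj {a b : F} (ha : a ∈ (U F k).erase 1) (hb : b ∈ (U F k).erase 1)
    (h : XX k a = XX k b) : a = b := by
  have h1 := XX_add ha hb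
  rw [h, CharTwo.add_self_eq_zero] at h1
  have hTa := T_ne_zero ha
  have hTb := T_ne_zero hb
  have h2 := (div_eq_zero_iff.mp h1.symm).resolve_right (mul_ne_zero hTa hTb)
  rw [mem_erase] at ha hb
  have hab : a / b ∈ U F k := by rw [div_eq_mul_inv]; exact mul_mem_U ha.2 (inv_mem_U hb.2)
  have h3 := (T_U_eq_zero hab).mp h2
  rwa [div_eq_one_iff_eq (U_ne_zero hb.2)] at h3

section coords

variable {s : ℤ}

theorem kap_ne_zero (h0 : IsCoprime s ((2 ^ k + 1 : ℕ) : ℤ))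
    (h1 : IsCoprime (s - 1) ((2 ^ k + 1 : ℕ) : ℤ)) {p : F} (hp : p ∈ (U F k).erase 1) :
    kap k s p ≠ 0 :=
  div_ne_zero (T_ne_zero hp)
    (mul_ne_zero (T_ne_zero (zpow_mem_erase h0 hp)) (T_ne_zero (zpow_mem_erase h1 hp)))

theorem kap_mem_K (hF : Fintype.card F = 2 ^ (2 * k)) (p : F) : kap k s p ∈ K F k :=
  div_mem_K (T_mem_K hF _) (mul_mem_K (T_mem_K hF _) (T_mem_K hF _))

theorem kap_eq (h0 : IsCoprime s ((2 ^ k + 1 : ℕ) : ℤ))
    (h1 : IsCoprime (s - 1) ((2 ^ k + 1 : ℕ) : ℤ)) {p : F} (hp : p ∈ (U F k).erase 1) :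
    kap k s p = XX k (p ^ s) + XX k (p ^ (s - 1)) := by
  rw [XX_add (zpow_mem_erase h0 hp) (zpow_mem_erase h1 hp), kap]
  congr 2
  have hp0 := U_ne_zero (mem_erase.mp hp).2
  rw [← zpow_sub₀ hp0, sub_sub_cancel, zpow_one]

theorem kap_inv {p : F} (hp : p ∈ (U F k).erase 1) : kap k s p⁻¹ = kap k s p := by
  rw [mem_erase] at hp
  rw [kap, kap, inv_zpow, inv_zpow, T_inv hp.2, T_inv (zpow_mem_U hp.2 _),
    T_inv (zpow_mem_U hp.2 _)]

theorem kap_frob (p : F) : kap k s (p ^ 2) = (kap k s p) ^ 2 := by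
  have h : ∀ m : ℤ, (p ^ 2) ^ m = (p ^ m) ^ (2 ^ 1) := by
    intro m
    rw [pow_one, ← zpow_natCast p 2, ← zpow_natCast (p ^ m) 2, ← zpow_mul, ← zpow_mul, mul_comm]
  have h1 : T k (p ^ 2) = (T k p) ^ 2 := T_frob 1 p
  rw [kap, kap, h1, h, h, T_frob, T_frob]
  ring

theorem Xp_frob (p : F) : Xp k s (p ^ 2) = (Xp k s p) ^ 2 := by
  have h : (p ^ 2) ^ (s - 1) = (p ^ (s - 1)) ^ (2 ^ 1) := by
    rw [pow_one, ← zpow_natCast p 2, ← zpow_natCast (p ^ (s - 1)) 2, ← zpow_mul, ← zpow_mul,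
      mul_comm]
  rw [Xp, Xp, h, XX_frob]; rfl

/-- The line equation. -/
theorem mem_L_iff (hF : Fintype.card F = 2 ^ (2 * k)) (h0 : IsCoprime s ((2 ^ k + 1 : ℕ) : ℤ))
    (h1 : IsCoprime (s - 1) ((2 ^ k + 1 : ℕ) : ℤ)) {p θ ρ : F} (hp : p ∈ (U F k).erase 1)
    (hθ : θ ∈ (U F k).erase 1) :
    p ∈ L k s θ ρ ↔ Xp k s p + XX k θ = kap k s p * (ρ / T k θ) := by
  have hTp := T_ne_zero hp
  have hTθ := T_ne_zero hθ
  have hps := zpow_mem_erase h0 hp
  have hps1 := zpow_mem_erase h1 hp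
  have hTs := T_ne_zero hps
  have hTs1 := T_ne_zero hps1
  have hpU := (mem_erase.mp hp).2
  have hθU := (mem_erase.mp hθ).2
  have hp0 := U_ne_zero hpU
  have hK : T k (p ^ s) / T k p ∈ K F k := div_mem_K (T_mem_K hF _) (T_mem_K hF _)
  rw [L, mem_filter, gg_mul hpU, and_iff_right hp]
  have e1 : θ * (p ^ (1 - s) * (T k (p ^ s) / T k p))
      = (T k (p ^ s) / T k p) * (p ^ (s - 1) / θ)⁻¹ := by
    have : p ^ (1 - s) = (p ^ (s - 1))⁻¹ := by rw [← zpow_neg]; congr 1; ring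
    rw [this, inv_div]; field_simp
  have hdivU : p ^ (s - 1) / θ ∈ U F k := by
    rw [div_eq_mul_inv]; exact mul_mem_U (zpow_mem_U hpU _) (inv_mem_U hθU)
  rw [e1, T_K_mul hK, T_inv hdivU, Xp, XX_add hps1 hθ, kap]
  rw [div_mul_eq_mul_div, div_eq_iff hTp, div_eq_iff (mul_ne_zero hTs1 hTθ)]
  have e2 : T k p / (T k (p ^ s) * T k (p ^ (s - 1))) * (ρ / T k θ) * (T k (p ^ (s - 1)) * T k θ)
      = ρ * T k p / T k (p ^ s) := by
    field_simp
  rw [e2, eq_div_iff hTs, mul_comm (T k (p ^ (s - 1) / θ))]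

theorem mem_L_one (hF : Fintype.card F = 2 ^ (2 * k)) {p ρ : F} (hp : p ∈ (U F k).erase 1) :
    p ∈ L k s 1 ρ ↔ (kap k s p)⁻¹ = ρ := by
  have hpU := (mem_erase.mp hp).2
  have hK : T k (p ^ s) / T k p ∈ K F k := div_mem_K (T_mem_K hF _) (T_mem_K hF _)
  rw [L, mem_filter, gg_mul hpU, and_iff_right hp, one_mul, mul_comm, T_K_mul hK, kap, inv_div]
  have e1 : T k (p ^ (1 - s)) = T k (p ^ (s - 1)) := by
    have : p ^ (1 - s) = (p ^ (s - 1))⁻¹ := by rw [← zpow_neg]; congr 1; ring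
    rw [this, T_inv (zpow_mem_U hpU _)]
  rw [e1, div_mul_eq_mul_div]

end coords

theorem exists_theta (hk : 1 ≤ k) (hF : Fintype.card F = 2 ^ (2 * k)) {ξ : F}
    (hξ : ξ + ξ ^ (2 ^ k) = 1) : ∃ θ ∈ (U F k).erase 1, XX k θ = ξ := by
  have hξ0 : ξ ≠ 0 := by
    rintro rfl
    rw [zero_pow (by positivity), add_zero] at hξ
    exact zero_ne_one hξ
  have hξq : ξ ^ (2 ^ k) ≠ 0 := pow_ne_zero _ hξ0
  have hvU : ξ / ξ ^ (2 ^ k) ∈ U F k := by
    rw [mem_U, pow_succ, div_pow, pow_qq hF]; field_simp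
  have h := hvU
  rw [← image_zpow_U (F := F) (isCoprime_two hk)] at h
  obtain ⟨θ, hθ, hθv⟩ := mem_image.mp h
  have hθ0 := U_ne_zero hθ
  have hθ2 : θ * θ = ξ / ξ ^ (2 ^ k) := by
    rw [← hθv]; exact (sq θ).symm.trans (zpow_ofNat θ 2).symm
  have hθ1 : θ ≠ 1 := by
    rintro rfl
    rw [one_mul] at hθ2
    have : ξ ^ (2 ^ k) = ξ := by
      rw [eq_div_iff hξq, one_mul] at hθ2; exact hθ2
    rw [this, CharTwo.add_self_eq_zero] at hξ
    exact zero_ne_one hξ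
  have hmem : θ ∈ (U F k).erase 1 := mem_erase.mpr ⟨hθ1, hθ⟩
  refine ⟨θ, hmem, ?_⟩
  have hT := T_ne_zero hmem
  rw [XX, div_eq_iff hT, T_U hθ]
  have e : ξ * (θ + θ⁻¹) = θ := by
    have h3 : θ * θ * ξ ^ (2 ^ k) = ξ := by rw [hθ2, div_mul_cancel₀ _ hξq]
    have h4 : ξ ^ (2 ^ k) = 1 + ξ := by
      rw [← hξ]
      have : ξ + ξ ^ 2 ^ k + ξ = ξ ^ 2 ^ k + (ξ + ξ) := by ring
      rw [this, CharTwo.add_self_eq_zero, add_zero]
    rw [h4] at h3
    have h5 : ξ * (θ * θ + 1) = θ * θ := by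
      have e5 : ξ * (θ * θ + 1) = θ * θ * (1 + ξ) + ξ - θ * θ := by ring
      rw [e5, h3]
      have e6 : ξ + ξ - θ * θ = θ * θ := by
        rw [CharTwo.add_self_eq_zero, zero_sub, CharTwo.neg_eq]
      exact e6
    have h6 : ξ * (θ + θ⁻¹) = ξ * (θ * θ + 1) / θ := by field_simp
    rw [h6, h5, mul_div_cancel_right₀ _ hθ0]
  exact e.symm

/-- The case `2 j = k`. -/
theorem square_case {j : ℕ} (hj : 2 ≤ j) (hF : Fintype.card F = 2 ^ (2 * k)) {s : ℤ}
    (hs : IsCoprime (1 - 2 * s) ((2 ^ k + 1 : ℕ) : ℤ)) (hkj : k = 2 * j)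
    (hD : FourData F k s j) : Concl k s := by
  have hk : 1 ≤ k := by omega
  have h0 := hD.cop0
  have h1 : IsCoprime (s - 1) ((2 ^ k + 1 : ℕ) : ℤ) := by
    have := hD.cop1.neg_left
    rwa [neg_sub] at this
  have hM4 : 4 ≤ 2 ^ j := by
    calc 4 = 2 ^ 2 := by norm_num
      _ ≤ 2 ^ j := Nat.pow_le_pow_right (by norm_num) hj
  have hqM : 2 ^ k = 2 ^ j * 2 ^ j := by rw [hkj, ← pow_add]; congr 1; ring
  set E := (U F k).erase 1 with hE
  have hEcard : E.card = 2 ^ k := card_U_erase hF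
  -- levels
  set KK := E.image (kap k s) with hKKdef
  have hfib : ∀ κ ∈ KK, (E.filter (fun p => kap k s p = κ)).card = 2 ^ j := by
    intro κ hκ
    obtain ⟨p, hp, hpκ⟩ := mem_image.mp hκ
    have hκK : κ ∈ K F k := hpκ ▸ kap_mem_K hF p
    have hκi : κ⁻¹ ∈ K F k := inv_mem_K hκK
    have e1 : E.filter (fun p => kap k s p = κ) = L k s 1 κ⁻¹ := by
      ext x
      rw [mem_filter]
      constructor
      · rintro ⟨hx, hxκ⟩
        rw [mem_L_one hF hx, hxκ]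
      · intro hx
        have hxE : x ∈ E := (mem_filter.mp hx).1
        rw [mem_L_one hF hxE] at hx
        exact ⟨hxE, inv_injective hx⟩
    have hN := NZ_line hF (s := s) (one_mem_U (F := F) (k := k)) hκi
    rw [one_zpow, div_one] at hN
    have hpos : 0 < (L k s 1 κ⁻¹).card := by
      apply card_pos.mpr
      exact ⟨p, by rw [mem_L_one hF hp, hpκ]⟩
    rw [e1]
    rcases hD.valsK (κ⁻¹ + 1) (add_mem_K hκi one_mem_K) with h | h <;> omega
  have hKKcard : KK.card = 2 ^ j := by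
    have h2 : E.card = ∑ κ ∈ KK, (E.filter (fun p => kap k s p = κ)).card :=
      card_eq_sum_card_image (kap k s) E
    rw [hEcard, sum_congr rfl hfib, sum_const, smul_eq_mul, hqM] at h2
    exact (Nat.eq_of_mul_eq_mul_right (by positivity) h2).symm
  set Ξ : F → Finset F := fun κ => (E.filter (fun p => kap k s p = κ)).image (Xp k s) with hΞdef
  have hXinj : ∀ p ∈ E, ∀ p' ∈ E, Xp k s p = Xp k s p' → p = p' := by
    intro p hp p' hp' h
    have h2 := XX_inj (zpow_mem_erase h1 hp) (zpow_mem_erase h1 hp') h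
    exact U_zpow_inj h1 (mem_erase.mp hp).2 (mem_erase.mp hp').2 h2
  have hΞcard : ∀ κ ∈ KK, (Ξ κ).card = 2 ^ j := by
    intro κ hκ
    rw [hΞdef]
    simp only
    rw [card_image_of_injOn, hfib κ hκ]
    intro p hp p' hp' h
    simp only [coe_filter, Set.mem_ofPred_eq] at hp hp'
    exact hXinj p hp.1 p' hp'.1 h
  have memΞ : ∀ κ X, X ∈ Ξ κ ↔ ∃ p ∈ E, kap k s p = κ ∧ Xp k s p = X := by
    intro κ X
    rw [hΞdef]
    simp only [mem_image, mem_filter]
    constructor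
    · rintro ⟨p, ⟨hp, h2⟩, h3⟩; exact ⟨p, hp, h2, h3⟩
    · rintro ⟨p, hp, h2, h3⟩; exact ⟨p, ⟨hp, h2⟩, h3⟩
  have hXconj : ∀ p ∈ E, Xp k s p + (Xp k s p) ^ (2 ^ k) = 1 := by
    intro p hp
    exact XX_conj hF (zpow_mem_erase h1 hp)
  -- full secants
  have hP : ∀ κ ∈ KK, ∀ κ' ∈ KK, κ ≠ κ' → ∀ X ∈ Ξ κ, ∀ X' ∈ Ξ κ', ∀ κ'' ∈ KK,
      X + (κ'' + κ) * ((X' + X) / (κ' + κ)) ∈ Ξ κ'' := by
    intro κ hκ κ' hκ' hne X hX X' hX' κ'' hκ''
    obtain ⟨p, hp, hpκ, hpX⟩ := (memΞ κ X).mp hX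
    obtain ⟨p', hp', hpκ', hpX'⟩ := (memΞ κ' X').mp hX'
    have hc : κ' + κ ≠ 0 := fun h => hne (CharTwo.add_eq_zero.mp h).symm
    have hXX' : X' + X ∈ K F k := by
      rw [mem_K, add_pow_q]
      have e1 := hXconj p hp
      have e2 := hXconj p' hp'
      rw [hpX] at e1
      rw [hpX'] at e2
      have : X' + X + (X' ^ (2 ^ k) + X ^ (2 ^ k)) = 0 := by
        have e3 : X' + X + (X' ^ (2 ^ k) + X ^ (2 ^ k))
            = (X' + X' ^ (2 ^ k)) + (X + X ^ (2 ^ k)) := by ring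
        rw [e3, e1, e2, CharTwo.add_self_eq_zero]
      exact (CharTwo.add_eq_zero.mp this).symm
    have hκK : κ ∈ K F k := hpκ ▸ kap_mem_K hF p
    have hκK' : κ' ∈ K F k := hpκ' ▸ kap_mem_K hF p'
    set σ := (X' + X) / (κ' + κ) with hσ
    have hσK : σ ∈ K F k := div_mem_K hXX' (add_mem_K hκK' hκK)
    have hξ : (X + κ * σ) + (X + κ * σ) ^ (2 ^ k) = 1 := by
      have e1 := hXconj p hp
      rw [hpX] at e1
      rw [add_pow_q, mem_K.mp (mul_mem_K hκK hσK)]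
      have e3 : X + κ * σ + (X ^ (2 ^ k) + κ * σ) = (X + X ^ (2 ^ k)) + (κ * σ + κ * σ) := by ring
      rw [e3, e1, CharTwo.add_self_eq_zero, add_zero]
    obtain ⟨θ, hθ, hθξ⟩ := exists_theta hk hF hξ
    have hTθ := T_ne_zero hθ
    have hθU := (mem_erase.mp hθ).2
    set ρ := σ * T k θ with hρ
    have hρK : ρ ∈ K F k := mul_mem_K hσK (T_mem_K hF _)
    have hρT : ρ / T k θ = σ := by rw [hρ, mul_div_cancel_right₀ _ hTθ]
    have hpL : p ∈ L k s θ ρ := by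
      rw [mem_L_iff hF h0 h1 hp hθ, hρT, hpX, hθξ, hpκ, ← add_assoc, CharTwo.add_self_eq_zero,
        zero_add]
    have hpL' : p' ∈ L k s θ ρ := by
      rw [mem_L_iff hF h0 h1 hp' hθ, hρT, hpX', hθξ, hpκ', ← add_assoc]
      have : X' + X = (κ' + κ) * σ := by rw [hσ, mul_div_cancel₀ _ hc]
      rw [this, add_mul, add_assoc, CharTwo.add_self_eq_zero, add_zero]
    have hpp' : p ≠ p' := by
      rintro rfl
      exact hne (hpκ.symm.trans hpκ')
    have hL2 : 2 ≤ (L k s θ ρ).card := by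
      have : ({p, p'} : Finset F) ⊆ L k s θ ρ := by
        intro x hx
        rw [mem_insert, mem_singleton] at hx
        rcases hx with rfl | rfl
        · exact hpL
        · exact hpL'
      have h2 := card_le_card this
      rwa [card_pair hpp'] at h2
    have hLM : (L k s θ ρ).card = 2 ^ j := by
      have h2 := hθU
      rw [← image_zpow_U hs] at h2
      obtain ⟨w, hw, hwθ⟩ := mem_image.mp h2
      have hN := NZ_line hF (s := s) hw hρK
      rw [hwθ] at hN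
      rcases hD.vals ((ρ + θ) / w) with h | h | h | h <;> omega
    have hinj : Set.InjOn (kap k s) (L k s θ ρ : Set F) := by
      intro x hx y hy hxy
      have hxE : x ∈ E := (mem_filter.mp hx).1
      have hyE : y ∈ E := (mem_filter.mp hy).1
      have e1 := (mem_L_iff hF h0 h1 hxE hθ).mp hx
      have e2 := (mem_L_iff hF h0 h1 hyE hθ).mp hy
      rw [← hxy, ← e1] at e2
      exact (hXinj y hyE x hxE (add_right_cancel e2)).symm
    have himg : (L k s θ ρ).image (kap k s) = KK := by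
      apply eq_of_subset_of_card_le
      · intro z hz
        obtain ⟨x, hx, rfl⟩ := mem_image.mp hz
        exact mem_image_of_mem _ (mem_filter.mp hx).1
      · rw [card_image_of_injOn hinj, hLM, hKKcard]
    rw [← himg] at hκ''
    obtain ⟨y, hy, hyκ⟩ := mem_image.mp hκ''
    have hyE : y ∈ E := (mem_filter.mp hy).1
    have e1 := (mem_L_iff hF h0 h1 hyE hθ).mp hy
    rw [hρT, hθξ, hyκ] at e1
    rw [memΞ]
    refine ⟨y, hyE, hyκ, ?_⟩
    have e2 : Xp k s y = Xp k s y + (X + κ * σ) + (X + κ * σ) := by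
      rw [add_assoc, CharTwo.add_self_eq_zero, add_zero]
    rw [e2, e1]; ring
  have hI : ∀ κ ∈ KK, ∀ X ∈ Ξ κ, X + 1 ∈ Ξ κ := by
    intro κ _ X hX
    obtain ⟨p, hp, hpκ, hpX⟩ := (memΞ κ X).mp hX
    rw [memΞ]
    have hp' := mem_erase.mp hp
    refine ⟨p⁻¹, ?_, ?_, ?_⟩
    · rw [hE, mem_erase]
      refine ⟨fun h => hp'.1 ?_, inv_mem_U hp'.2⟩
      rw [← inv_inv p, h, inv_one]
    · rw [kap_inv hp, hpκ]
    · rw [Xp, inv_zpow, XX_inv (zpow_mem_erase h1 hp), ← hpX]; rfl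
  obtain ⟨b0, b1, hb⟩ := plane_lemma hj KK Ξ hKKcard hΞcard hP hI
  have hcurve : ∀ p ∈ E, (Xp k s p) ^ (2 ^ j) + Xp k s p = b0 + b1 * kap k s p := by
    intro p hp
    exact hb _ (mem_image_of_mem _ hp) _ ((memΞ _ _).mpr ⟨p, hp, rfl, rfl⟩)
  -- Frobenius
  have hsqE : ∀ p ∈ E, p ^ 2 ∈ E := by
    intro p hp
    have := zpow_mem_erase (isCoprime_two hk) hp
    rwa [zpow_ofNat] at this
  have hfrob : ∀ κ ∈ KK, (b0 ^ 2 + b0) + (b1 ^ 2 + b1) * κ ^ 2 = 0 := by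
    intro κ hκ
    obtain ⟨p, hp, rfl⟩ := mem_image.mp hκ
    have e1 := hcurve p hp
    have e2 := hcurve _ (hsqE p hp)
    rw [Xp_frob, kap_frob] at e2
    have e3 : ((Xp k s p) ^ (2 ^ j) + Xp k s p) ^ 2 = (b0 + b1 * kap k s p) ^ 2 := by rw [e1]
    rw [CharTwo.add_sq, CharTwo.add_sq] at e3
    have e4 : ((Xp k s p) ^ 2) ^ (2 ^ j) = ((Xp k s p) ^ (2 ^ j)) ^ 2 := by
      rw [← pow_mul, ← pow_mul, mul_comm]
    rw [e4, e3] at e2
    have e5 : (b0 ^ 2 + b0) + (b1 ^ 2 + b1) * (kap k s p) ^ 2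
        = (b0 ^ 2 + (b1 * kap k s p) ^ 2) + (b0 + b1 * (kap k s p) ^ 2) := by ring
    rw [e5, e2, CharTwo.add_self_eq_zero]
  obtain ⟨κ, hκ, κ', hκ', hκκ'⟩ : ∃ κ ∈ KK, ∃ κ' ∈ KK, κ ≠ κ' := by
    have : 1 < KK.card := by omega
    exact one_lt_card.mp this
  have hb1 : b1 ^ 2 + b1 = 0 := by
    have e1 := hfrob κ hκ
    have e2 := hfrob κ' hκ'
    have e3 : (b1 ^ 2 + b1) * (κ + κ') ^ 2 = 0 := by
      rw [CharTwo.add_sq]
      have : (b1 ^ 2 + b1) * (κ ^ 2 + κ' ^ 2)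
          = ((b0 ^ 2 + b0) + (b1 ^ 2 + b1) * κ ^ 2) + ((b0 ^ 2 + b0) + (b1 ^ 2 + b1) * κ' ^ 2)
            - ((b0 ^ 2 + b0) + (b0 ^ 2 + b0)) := by ring
      rw [this, e1, e2, add_zero, CharTwo.add_self_eq_zero, sub_zero]
    rcases mul_eq_zero.mp e3 with h | h
    · exact h
    · exfalso
      apply hκκ'
      have : κ + κ' = 0 := by simpa using h
      exact CharTwo.add_eq_zero.mp this
  have hb0 : b0 ^ 2 + b0 = 0 := by
    have e1 := hfrob κ hκ
    rw [hb1, zero_mul, add_zero] at e1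
    exact e1
  have h01 : ∀ b : F, b ^ 2 + b = 0 → b = 0 ∨ b = 1 := by
    intro b hb
    have : b * (b + 1) = 0 := by rw [← hb]; ring
    rcases mul_eq_zero.mp this with h | h
    · left; exact h
    · right; exact CharTwo.add_eq_zero.mp h
  have hb11 : b1 = 1 := by
    rcases h01 b1 hb1 with h | h
    · exfalso
      -- X would be a root of a small polynomial
      let Q : Polynomial F := Polynomial.X ^ (2 ^ j) + Polynomial.X + Polynomial.C b0
      have hQdeg : Q.natDegree = 2 ^ j := by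
        simp only [Q]
        rw [add_assoc, Polynomial.natDegree_add_eq_left_of_natDegree_lt]
        · exact Polynomial.natDegree_X_pow _
        · rw [Polynomial.natDegree_X_pow, Polynomial.natDegree_X_add_C]; omega
      have hQ0 : Q = 0 := by
        apply Polynomial.eq_zero_of_natDegree_lt_card_of_eval_eq_zero' Q (E.image (Xp k s))
        · intro x hx
          obtain ⟨p, hp, rfl⟩ := mem_image.mp hx
          have e1 := hcurve p hp
          rw [h, zero_mul, add_zero] at e1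
          simp only [Q, Polynomial.eval_add, Polynomial.eval_pow, Polynomial.eval_X,
            Polynomial.eval_C]
          rw [e1, CharTwo.add_self_eq_zero]
        · rw [hQdeg, card_image_of_injOn (fun p hp p' hp' h => hXinj p hp p' hp' h), hEcard, hqM]
          nlinarith
      rw [hQ0, Polynomial.natDegree_zero] at hQdeg
      omega
    · exact h
  -- final comparison
  have hfinal : ∀ p ∈ E, XX k (p ^ s) = XX k (p ^ ((s - 1) * 2 ^ j)) + b0 := by
    intro p hp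
    have e1 := hcurve p hp
    rw [hb11, one_mul, kap_eq h0 h1 hp] at e1
    have e2 : Xp k s p ^ (2 ^ j) = XX k (p ^ ((s - 1) * 2 ^ j)) := by
      rw [Xp, ← XX_frob, zpow_mul]
      congr 1
      rw [← zpow_natCast]; norm_cast
    rw [e2, Xp, ← add_assoc] at e1
    have e3 := add_right_cancel e1
    rw [e3]
    have : b0 + XX k (p ^ s) + b0 = XX k (p ^ s) + (b0 + b0) := by ring
    rw [this, CharTwo.add_self_eq_zero, add_zero]
  obtain ⟨ζ, hζ⟩ := exists_zeta hF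
  have hζU : ζ ∈ U F k := mem_U.mpr hζ.pow_eq_one
  have hζ0 := U_ne_zero hζU
  have hζE : ζ ∈ E := by
    rw [hE, mem_erase]
    refine ⟨?_, hζU⟩
    intro h4
    have : (2 ^ k + 1) ∣ 1 := by
      rw [← hζ.pow_eq_one_iff_dvd, h4, one_pow]
    have := Nat.le_of_dvd one_pos this
    have : 0 < 2 ^ k := by positivity
    omega
  have hcj : IsCoprime ((s - 1) * 2 ^ j) ((2 ^ k + 1 : ℕ) : ℤ) :=
    h1.mul_left (isCoprime_two_pow hk j)
  have hfz := hfinal ζ hζE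
  rcases h01 b0 hb0 with hb | hb
  · rw [hb, add_zero] at hfz
    have e1 := XX_inj (zpow_mem_erase h0 hζE) (zpow_mem_erase hcj hζE) hfz
    apply concl_of hk hs (r := j) (by omega) (ε := -1) (Or.inr rfl)
    have e2 : ζ ^ (s - (s - 1) * 2 ^ j) = 1 := by
      rw [zpow_sub₀ hζ0, e1, div_self (zpow_ne_zero _ hζ0)]
    rw [hζ.zpow_eq_one_iff_dvd] at e2
    have e3 : s * (2 ^ j + -1) - 2 ^ j = -(s - (s - 1) * 2 ^ j) := by ring
    rw [e3]; exact (dvd_neg).mpr e2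
  · rw [hb, ← XX_inv (zpow_mem_erase hcj hζE)] at hfz
    have hmem : (ζ ^ ((s - 1) * 2 ^ j))⁻¹ ∈ (U F k).erase 1 := by
      rw [← zpow_neg]
      exact zpow_mem_erase hcj.neg_left hζE
    have e1 := XX_inj (zpow_mem_erase h0 hζE) hmem hfz
    apply concl_of hk hs (r := j) (by omega) (ε := 1) (Or.inl rfl)
    have e2 : ζ ^ (s + (s - 1) * 2 ^ j) = 1 := by
      rw [zpow_add₀ hζ0, e1, inv_mul_cancel₀ (zpow_ne_zero _ hζ0)]
    rw [hζ.zpow_eq_one_iff_dvd] at e2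
    have e3 : s * (2 ^ j + 1) - 2 ^ j = s + (s - 1) * 2 ^ j := by ring
    rw [e3]; exact e2

end Pool.Agent.Helper992
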