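import Pool.Agent.Helper992.YMain
import Pool.Agent.Helper992.Square

set_option autoImplicit false
set_option linter.unusedSectionVars false
open scoped Classical

namespace Pool.Agent.Helper992

open Finset

variable {k : ℕ} {F : Type*} [Field F] [Fintype F] [CharP F 2]

theorem shift_mem_K (hF : Fintype.card F = 2 ^ (2 * k)) {τ y : F} (hτ : τ + τ ^ (2 ^ k) = 1)
    (hy : y ∈ (U F k).erase 1) : XX k y + τ ∈ K F k := by
  rw [mem_K, add_pow_q]
  have h1 := XX_conj hF hy
  have h2 : (XX k y + τ) + (XX k y ^ 2 ^ k + τ ^ 2 ^ k) = 0 := by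
    have : (XX k y + τ) + (XX k y ^ 2 ^ k + τ ^ 2 ^ k)
        = (XX k y + XX k y ^ 2 ^ k) + (τ + τ ^ 2 ^ k) := by ring
    rw [this, h1, hτ, CharTwo.add_self_eq_zero]
  exact (CharTwo.add_eq_zero.mp h2).symm

theorem exists_shift (hk : 1 ≤ k) (hF : Fintype.card F = 2 ^ (2 * k)) {m : ℤ}
    (hm : IsCoprime m ((2 ^ k + 1 : ℕ) : ℤ)) {τ x : F} (hτ : τ + τ ^ (2 ^ k) = 1)
    (hx : x ∈ K F k) : ∃ p ∈ (U F k).erase 1, XX k (p ^ m) + τ = x := by
  have h1 : (x + τ) + (x + τ) ^ (2 ^ k) = 1 := by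
    rw [add_pow_q, mem_K.mp hx]
    have : x + τ + (x + τ ^ 2 ^ k) = (x + x) + (τ + τ ^ 2 ^ k) := by ring
    rw [this, CharTwo.add_self_eq_zero, zero_add, hτ]
  obtain ⟨θ, hθ, hθx⟩ := exists_theta hk hF h1
  rw [mem_erase] at hθ
  have h2 := hθ.2
  rw [← image_zpow_U (F := F) hm] at h2
  obtain ⟨p, hp, hpθ⟩ := mem_image.mp h2
  refine ⟨p, ?_, ?_⟩
  · rw [mem_erase]
    refine ⟨?_, hp⟩
    rintro rfl
    simp only [one_zpow] at hpθ
    exact hθ.1 hpθ.symm
  · rw [hpθ, hθx, add_assoc, CharTwo.add_self_eq_zero, add_zero]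

theorem exists_fun {s : ℤ} (h0 : IsCoprime s ((2 ^ k + 1 : ℕ) : ℤ)) (τ : F) :
    ∃ f : F → F, ∀ p ∈ (U F k).erase 1, f (XX k (p ^ s) + τ) = XX k (p ^ (s - 1)) + τ := by
  refine ⟨fun x => if h : ∃ p ∈ (U F k).erase 1, XX k (p ^ s) + τ = x then
    XX k (h.choose ^ (s - 1)) + τ else 0, ?_⟩
  intro p hp
  have hex : ∃ p' ∈ (U F k).erase 1, XX k (p' ^ s) + τ = XX k (p ^ s) + τ := ⟨p, hp, rfl⟩
  simp only
  rw [dif_pos hex]
  have h1 := hex.choose_spec.1
  have h2 := hex.choose_spec.2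
  have h3 := XX_inj (zpow_mem_erase h0 h1) (zpow_mem_erase h0 hp) (add_right_cancel h2)
  have h4 := U_zpow_inj h0 (mem_erase.mp h1).2 (mem_erase.mp hp).2 h3
  rw [h4]

theorem exists_geo (hk : 1 ≤ k) (hF : Fintype.card F = 2 ^ (2 * k)) {s : ℤ}
    (hs : IsCoprime (1 - 2 * s) ((2 ^ k + 1 : ℕ) : ℤ)) {j : ℕ} (hj : 3 ≤ j)
    (hD : FourData F k s j) {τ : F} (hτ : τ + τ ^ (2 ^ k) = 1) :
    ∃ f : F → F, Geo F (K F k) k j f ∧
      ∀ p ∈ (U F k).erase 1, f (XX k (p ^ s) + τ) = XX k (p ^ (s - 1)) + τ := by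
  have h0 := hD.cop0
  have h1 : IsCoprime (s - 1) ((2 ^ k + 1 : ℕ) : ℤ) := by
    have := hD.cop1.neg_left
    rwa [neg_sub] at this
  obtain ⟨f, hf⟩ := exists_fun (F := F) h0 τ
  set E := (U F k).erase 1 with hE
  have hxK : ∀ p ∈ E, XX k (p ^ s) + τ ∈ K F k :=
    fun p hp => shift_mem_K hF hτ (zpow_mem_erase h0 hp)
  have hyK : ∀ p ∈ E, XX k (p ^ (s - 1)) + τ ∈ K F k :=
    fun p hp => shift_mem_K hF hτ (zpow_mem_erase h1 hp)
  have hsurj : ∀ x ∈ K F k, ∃ p ∈ E, XX k (p ^ s) + τ = x :=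
    fun x hx => exists_shift hk hF h0 hτ hx
  have hinj : ∀ p ∈ E, ∀ p' ∈ E, XX k (p ^ s) + τ = XX k (p' ^ s) + τ → p = p' := by
    intro p hp p' hp' h
    have h3 := XX_inj (zpow_mem_erase h0 hp) (zpow_mem_erase h0 hp') (add_right_cancel h)
    exact U_zpow_inj h0 (mem_erase.mp hp).2 (mem_erase.mp hp').2 h3
  have hfinj : ∀ x ∈ K F k, ∀ y ∈ K F k, f x = f y → x = y := by
    intro x hx y hy h
    obtain ⟨p, hp, rfl⟩ := hsurj x hx
    obtain ⟨p', hp', rfl⟩ := hsurj y hy
    rw [hf p hp, hf p' hp'] at h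
    have h3 := XX_inj (zpow_mem_erase h1 hp) (zpow_mem_erase h1 hp') (add_right_cancel h)
    rw [U_zpow_inj h1 (mem_erase.mp hp).2 (mem_erase.mp hp').2 h3]
  have hcard : ∀ α β : F, (ln (K F k) f α β).card = (E.filter (fun p =>
      (XX k (p ^ (s - 1)) + τ) + α * (XX k (p ^ s) + τ) + β = 0)).card := by
    intro α β
    symm
    have himg : ln (K F k) f α β = (E.filter (fun p =>
        (XX k (p ^ (s - 1)) + τ) + α * (XX k (p ^ s) + τ) + β = 0)).image
          (fun p => XX k (p ^ s) + τ) := by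
      ext x
      rw [mem_ln, mem_image]
      constructor
      · rintro ⟨hx, h⟩
        obtain ⟨p, hp, rfl⟩ := hsurj x hx
        refine ⟨p, ?_, rfl⟩
        rw [mem_filter]
        rw [hf p hp] at h
        exact ⟨hp, h⟩
      · rintro ⟨p, hp, rfl⟩
        rw [mem_filter] at hp
        refine ⟨hxK p hp.1, ?_⟩
        rw [hf p hp.1]
        exact hp.2
    rw [himg, card_image_of_injOn]
    intro p hp p' hp' h
    rw [mem_coe, mem_filter] at hp hp'
    exact hinj p hp.1 p' hp'.1 h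
  -- the lines of slope one
  have hone : ∀ β ∈ K F k, (ln (K F k) f 1 β).card = 0 ∨ (ln (K F k) f 1 β).card = 2 ^ j := by
    intro β hβ
    rw [hcard]
    have hset : ∀ p ∈ E, ((XX k (p ^ (s - 1)) + τ) + 1 * (XX k (p ^ s) + τ) + β = 0 ↔
        kap k s p = β) := by
      intro p hp
      have e : (XX k (p ^ (s - 1)) + τ) + 1 * (XX k (p ^ s) + τ) + β = kap k s p + β := by
        rw [kap_eq h0 h1 hp]
        have : XX k (p ^ (s - 1)) + τ + 1 * (XX k (p ^ s) + τ) + β
          = XX k (p ^ s) + XX k (p ^ (s - 1)) + β + (τ + τ) := by ring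
        rw [this, CharTwo.add_self_eq_zero, add_zero]
      rw [e, CharTwo.add_eq_zero]
    by_cases hβ0 : β = 0
    · left
      rw [card_eq_zero, filter_eq_empty_iff]
      intro p hp h
      rw [hset p hp, hβ0] at h
      exact kap_ne_zero h0 h1 hp h
    · have hβi : β⁻¹ ∈ K F k := inv_mem_K hβ
      have e1 : E.filter (fun p => (XX k (p ^ (s - 1)) + τ) + 1 * (XX k (p ^ s) + τ) + β = 0)
          = L k s 1 β⁻¹ := by
        ext x
        rw [mem_filter]
        constructor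
        · rintro ⟨hx, h⟩
          rw [mem_L_one hF hx, (hset x hx).mp h]
        · intro hx
          have hxE : x ∈ E := (mem_filter.mp hx).1
          rw [mem_L_one hF hxE] at hx
          exact ⟨hxE, (hset x hxE).mpr (inv_injective hx)⟩
      have hN := NZ_line hF (s := s) (one_mem_U (F := F) (k := k)) hβi
      rw [one_zpow, div_one] at hN
      rw [e1]
      rcases hD.valsK (β⁻¹ + 1) (add_mem_K hβi one_mem_K) with h | h <;> omega
  have hk2 : 2 * j ≤ k := Nat.le_of_dvd (by omega) hD.dvd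
  refine ⟨f, ⟨hj, dvd_trans (Dvd.intro_left 2 rfl) hD.dvd, by omega, fun z => mem_K,
    card_K hk hF, ?_, hfinj, ?_, ?_, ?_⟩, hf⟩
  · intro x hx
    obtain ⟨p, hp, rfl⟩ := hsurj x hx
    rw [hf p hp]
    exact hyK p hp
  · intro α hα β hβ
    by_cases hα1 : α = 1
    · rw [hα1]
      rcases hone β hβ with h | h
      · left; exact h
      · right; right; exact h
    · have hα1' : 1 + α ≠ 0 := by
        intro h
        exact hα1 (CharTwo.add_eq_zero.mp h).symm
      have hα1K : 1 + α ∈ K F k := add_mem_K one_mem_K hα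
      set γ := β / (1 + α) with hγ
      have hγK : γ ∈ K F k := div_mem_K hβ hα1K
      have hξ : (γ + τ) + (γ + τ) ^ (2 ^ k) = 1 := by
        rw [add_pow_q, mem_K.mp hγK]
        have : γ + τ + (γ + τ ^ 2 ^ k) = (γ + γ) + (τ + τ ^ 2 ^ k) := by ring
        rw [this, CharTwo.add_self_eq_zero, zero_add, hτ]
      obtain ⟨θ, hθ, hθξ⟩ := exists_theta hk hF hξ
      have hTθ := T_ne_zero hθ
      have hθU := (mem_erase.mp hθ).2
      set ρ := (α / (1 + α)) * T k θ with hρ
      have hρK : ρ ∈ K F k := mul_mem_K (div_mem_K hα hα1K) (T_mem_K hF _)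
      have hρT : ρ / T k θ = α / (1 + α) := by rw [hρ, mul_div_cancel_right₀ _ hTθ]
      have e1 : E.filter (fun p => (XX k (p ^ (s - 1)) + τ) + α * (XX k (p ^ s) + τ) + β = 0)
          = L k s θ ρ := by
        ext x
        rw [mem_filter]
        have key : x ∈ E → ((XX k (x ^ (s - 1)) + τ) + α * (XX k (x ^ s) + τ) + β = 0 ↔
            x ∈ L k s θ ρ) := by
          intro hx
          rw [mem_L_iff hF h0 h1 hx hθ, hρT, hθξ, kap_eq h0 h1 hx, Xp]
          set Y := XX k (x ^ (s - 1))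
          set X := XX k (x ^ s)
          have e2 : (Y + τ) + α * (X + τ) + β
              = (1 + α) * ((Y + (γ + τ)) + (X + Y) * (α / (1 + α))) - (α * Y + α * Y) := by
            have hγ' : (1 + α) * γ = β := by rw [hγ, mul_div_cancel₀ _ hα1']
            have hαα : (1 + α) * (α / (1 + α)) = α := mul_div_cancel₀ _ hα1'
            linear_combination (-1 : F) * hγ' - (X + Y) * hαα
          rw [e2, CharTwo.add_self_eq_zero, sub_zero, mul_eq_zero, or_iff_right hα1',
            CharTwo.add_eq_zero]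
        constructor
        · rintro ⟨hx, h⟩
          exact (key hx).mp h
        · intro hx
          have hxE : x ∈ E := (mem_filter.mp hx).1
          exact ⟨hxE, (key hxE).mpr hx⟩
      rw [hcard, e1]
      have h2 := hθU
      rw [← image_zpow_U hs] at h2
      obtain ⟨w, hw, hwθ⟩ := mem_image.mp h2
      have hN := NZ_line hF (s := s) hw hρK
      rw [hwθ] at hN
      rcases hD.vals ((ρ + θ) / w) with h | h | h | h <;> omega
  · intro x hx
    obtain ⟨p, hp, rfl⟩ := hsurj x hx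
    have hp' := mem_erase.mp hp
    have hpi : p⁻¹ ∈ E := by
      rw [hE, mem_erase]
      refine ⟨fun h => hp'.1 ?_, inv_mem_U hp'.2⟩
      rw [← inv_inv p, h, inv_one]
    have e1 : XX k (p ^ s) + τ + 1 = XX k (p⁻¹ ^ s) + τ := by
      rw [inv_zpow, XX_inv (zpow_mem_erase h0 hp)]; ring
    rw [e1, hf _ hpi, hf p hp, inv_zpow, XX_inv (zpow_mem_erase h1 hp)]
    ring
  · intro x hx
    have hfx : f x ∈ K F k := by
      obtain ⟨p, hp, rfl⟩ := hsurj x hx
      rw [hf p hp]; exact hyK p hp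
    have hv : f x + x ∈ K F k := add_mem_K hfx hx
    have e1 : (K F k).filter (fun y => f y + y = f x + x) = ln (K F k) f 1 (f x + x) := by
      ext y
      rw [mem_filter, mem_ln, one_mul, CharTwo.add_eq_zero]
    rw [e1]
    rcases hone _ hv with h | h
    · exfalso
      rw [card_eq_zero] at h
      have : x ∈ ln (K F k) f 1 (f x + x) := by
        rw [mem_ln, one_mul, CharTwo.add_self_eq_zero]
        exact ⟨hx, rfl⟩
      rw [h] at this
      exact absurd this (notMem_empty _)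
    · exact h

end Pool.Agent.Helper992
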