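import Pool.Agent.Helper992.Walsh

set_option autoImplicit false
set_option linter.unusedSectionVars false
open scoped Classical

namespace Pool.Agent.Helper992

open Finset

variable {F : Type*} [Field F] [Fintype F]

/-- Solution set on the unit circle, integral Niho parameter. -/
noncomputable def SolZ (k : ℕ) (s : ℤ) (a : F) : Finset F :=
  (U F k).filter (fun z => T k (a * z + z ^ (1 - 2 * s)) = 0)

/-- Number of solutions, integral Niho parameter. -/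
noncomputable def NZ (k : ℕ) (s : ℤ) (a : F) : ℕ := (SolZ k s a).card

/-- The points of the dual arrangement. -/
noncomputable def gg (k : ℕ) (s : ℤ) (x : F) : F := (x + x ^ (1 - 2 * s)) / T k x

/-- Points on a line. -/
noncomputable def L (k : ℕ) (s : ℤ) (θ ρ : F) : Finset F :=
  ((U F k).erase 1).filter (fun x => T k (θ * gg k s x) = ρ)

variable {k : ℕ}

theorem U_zpow_eq_of_dvd {z : F} (hz : z ∈ U F k) {m m' : ℤ}
    (h : ((2 ^ k + 1 : ℕ) : ℤ) ∣ m - m') : z ^ m = z ^ m' := by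
  have hz0 := U_ne_zero hz
  obtain ⟨c, hc⟩ := h
  have h1 : m = m' + ((2 ^ k + 1 : ℕ) : ℤ) * c := by linarith
  rw [h1, zpow_add₀ hz0, zpow_mul, zpow_natCast, mem_U.mp hz, one_zpow, mul_one]

theorem U_pow_niho {s : ℕ} {z : F} (hz : z ∈ U F k) :
    z ^ (s * (2 ^ k - 1) + 1) = z ^ (1 - 2 * (s : ℤ)) := by
  rw [← zpow_natCast]
  apply U_zpow_eq_of_dvd hz
  refine ⟨s, ?_⟩
  have : ((2 ^ k - 1 : ℕ) : ℤ) = 2 ^ k - 1 := by
    rw [Nat.cast_sub Nat.one_le_two_pow]; push_cast; ring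
  push_cast
  rw [this]; ring

theorem N_eq_NZ (s : ℕ) (a : F) : N k (s * (2 ^ k - 1) + 1) a = NZ k (s : ℤ) a := by
  rw [N, NZ, Sol, SolZ]
  congr 1
  apply filter_congr
  intro z hz
  rw [U_pow_niho hz]

theorem coprime_of {s : ℕ} (h : Nat.Coprime (s * (2 ^ k - 1) + 1) (2 ^ (2 * k) - 1)) :
    IsCoprime (1 - 2 * (s : ℤ)) ((2 ^ k + 1 : ℕ) : ℤ) := by
  have h1 : (2 ^ k + 1) ∣ 2 ^ (2 * k) - 1 := by
    refine ⟨2 ^ k - 1, ?_⟩
    have h1 : 1 ≤ 2 ^ k := Nat.one_le_two_pow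
    have h2 : 2 ^ (2 * k) = 2 ^ k * 2 ^ k := by rw [← pow_add]; congr 1; ring
    rw [h2]
    obtain ⟨m, hm⟩ := Nat.exists_eq_add_of_le h1
    rw [hm]
    simp only [Nat.add_sub_cancel_left]
    have : (1 + m) * (1 + m) = (1 + m + 1) * m + 1 := by ring
    omega
  have h2 : Nat.Coprime (s * (2 ^ k - 1) + 1) (2 ^ k + 1) := Nat.Coprime.coprime_dvd_right h1 h
  have h3 : IsCoprime ((s * (2 ^ k - 1) + 1 : ℕ) : ℤ) ((2 ^ k + 1 : ℕ) : ℤ) :=
    Nat.isCoprime_iff_coprime.mpr h2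
  have h4 : ((s * (2 ^ k - 1) + 1 : ℕ) : ℤ)
      = (1 - 2 * (s : ℤ)) + ((2 ^ k + 1 : ℕ) : ℤ) * s := by
    have : ((2 ^ k - 1 : ℕ) : ℤ) = 2 ^ k - 1 := by
      rw [Nat.cast_sub Nat.one_le_two_pow]; push_cast; ring
    push_cast
    rw [this]; ring
  rw [h4] at h3
  exact (IsCoprime.add_mul_left_left_iff).mp h3

theorem U_zpow_inj {m : ℤ} (hm : IsCoprime m ((2 ^ k + 1 : ℕ) : ℤ)) {x y : F}
    (hx : x ∈ U F k) (hy : y ∈ U F k) (h : x ^ m = y ^ m) : x = y := by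
  have hx0 := U_ne_zero hx
  have hy0 := U_ne_zero hy
  obtain ⟨a, b, hab⟩ := hm
  have key : ∀ z : F, z ∈ U F k → z = (z ^ m) ^ a := by
    intro z hz
    rw [← zpow_mul]
    nth_rewrite 1 [← zpow_one z]
    apply U_zpow_eq_of_dvd hz
    exact ⟨b, by rw [← hab]; ring⟩
  rw [key x hx, key y hy, h]

theorem image_zpow_U {m : ℤ} (hm : IsCoprime m ((2 ^ k + 1 : ℕ) : ℤ)) :
    (U F k).image (fun z => z ^ m) = U F k := by
  apply eq_of_subset_of_card_le
  · intro x hx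
    obtain ⟨z, hz, rfl⟩ := mem_image.mp hx
    exact zpow_mem_U hz m
  · rw [card_image_of_injOn]
    intro x hx y hy h
    exact U_zpow_inj hm hx hy h

theorem sum_zpow_U {R : Type*} [AddCommMonoid R] {m : ℤ}
    (hm : IsCoprime m ((2 ^ k + 1 : ℕ) : ℤ)) (f : F → R) :
    ∑ z ∈ U F k, f (z ^ m) = ∑ z ∈ U F k, f z := by
  conv_rhs => rw [← image_zpow_U hm]
  rw [sum_image]
  intro x hx y hy h
  exact U_zpow_inj hm hx hy h

theorem coprime_two : IsCoprime (2 : ℤ) ((2 ^ k + 1 : ℕ) : ℤ) ∨ k = 0 := by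
  by_cases hk : k = 0
  · right; exact hk
  · left
    refine ⟨-2 ^ (k - 1), 1, ?_⟩
    have : (2 : ℤ) ^ k = 2 ^ (k - 1) * 2 := by
      rw [← pow_succ]; congr 1; omega
    push_cast
    rw [this]; ring

theorem isCoprime_two (hk : 1 ≤ k) : IsCoprime (2 : ℤ) ((2 ^ k + 1 : ℕ) : ℤ) := by
  rcases coprime_two (k := k) with h | h
  · exact h
  · omega

variable [CharP F 2]

theorem T_ne_zero {x : F} (hx : x ∈ (U F k).erase 1) : T k x ≠ 0 := by
  rw [mem_erase] at hx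
  intro h
  exact hx.1 ((T_U_eq_zero hx.2).mp h)

theorem T_div_K {c : F} (hc : c ∈ K F k) (x : F) : T k (x / c) = T k x / c := by
  rw [div_eq_inv_mul, T_K_mul (inv_mem_K hc), div_eq_inv_mul]

theorem mem_L (hF : Fintype.card F = 2 ^ (2 * k)) {s : ℤ} {θ ρ x : F}
    (hx : x ∈ (U F k).erase 1) :
    x ∈ L k s θ ρ ↔ ρ * T k x = T k (θ * (x + x ^ (1 - 2 * s))) := by
  have hT := T_ne_zero hx
  rw [L, mem_filter, gg]
  have : T k (θ * ((x + x ^ (1 - 2 * s)) / T k x))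
      = T k (θ * (x + x ^ (1 - 2 * s))) / T k x := by
    rw [← mul_div_assoc, T_div_K (T_mem_K hF x)]
  rw [this]
  constructor
  · rintro ⟨_, h⟩
    rw [← h, div_mul_cancel₀ _ hT]
  · intro h
    refine ⟨hx, ?_⟩
    rw [← h, mul_div_cancel_right₀ _ hT]

theorem T_swap {ρ : F} (hρ : ρ ∈ K F k) (w x s : F) : T k ((ρ + w) * x + w * s)
    = ρ * T k x + T k (w * (x + s)) := by
  have : (ρ + w) * x + w * s = ρ * x + w * (x + s) := by ring
  rw [this, T_add, T_K_mul hρ]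

theorem NZ_line (hF : Fintype.card F = 2 ^ (2 * k)) {s : ℤ} {w ρ : F} (hw : w ∈ U F k)
    (hρ : ρ ∈ K F k) :
    NZ k s ((ρ + w ^ (1 - 2 * s)) / w) = 1 + (L k s (w ^ (1 - 2 * s)) ρ).card := by
  have hw0 := U_ne_zero hw
  have h1 : SolZ k s ((ρ + w ^ (1 - 2 * s)) / w)
      = (insert 1 (L k s (w ^ (1 - 2 * s)) ρ)).image (fun x => w * x) := by
    ext z
    rw [SolZ, mem_filter, mem_image]
    have key : ∀ x : F, x ∈ U F k → T k ((ρ + w ^ (1 - 2 * s)) / w * (w * x)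
        + (w * x) ^ (1 - 2 * s)) = ρ * T k x
          + T k (w ^ (1 - 2 * s) * (x + x ^ (1 - 2 * s))) := by
      intro x _
      rw [← T_swap hρ]
      congr 1
      rw [mul_zpow]
      field_simp
    constructor
    · rintro ⟨hz, hT⟩
      refine ⟨w⁻¹ * z, ?_, by field_simp⟩
      have hx : w⁻¹ * z ∈ U F k := mul_mem_U (inv_mem_U hw) hz
      have hzz : z = w * (w⁻¹ * z) := by field_simp
      set x := w⁻¹ * z
      rw [mem_insert]
      by_cases hx1 : x = 1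
      · left; exact hx1
      · right
        rw [mem_L hF (mem_erase.mpr ⟨hx1, hx⟩)]
        rw [hzz, key x hx] at hT
        exact CharTwo.add_eq_zero.mp hT
    · rintro ⟨x, hx, rfl⟩
      rw [mem_insert] at hx
      rcases hx with rfl | hx
      · refine ⟨by rw [mul_one]; exact hw, ?_⟩
        rw [key 1 one_mem_U, one_zpow, CharTwo.add_self_eq_zero, mul_zero, T_zero,
          T_K one_mem_K, mul_zero, add_zero]
      · have hx' : x ∈ (U F k).erase 1 := (mem_filter.mp hx).1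
        have hxU := (mem_erase.mp hx').2
        refine ⟨mul_mem_U hw hxU, ?_⟩
        rw [key x hxU, (mem_L hF hx').mp hx, CharTwo.add_self_eq_zero]
  rw [NZ, h1, card_image_of_injective _ (mul_right_injective₀ hw0), card_insert_of_notMem,
    add_comm]
  intro h
  have := (mem_filter.mp h).1
  rw [mem_erase] at this
  exact this.1 rfl

theorem mem_SolZ_iff {s : ℤ} {w a : F} (hw : w ∈ U F k) :
    w ∈ SolZ k s a ↔ ∃ ρ ∈ K F k, (ρ + w ^ (1 - 2 * s)) / w = a := by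
  have hw0 := U_ne_zero hw
  rw [SolZ, mem_filter]
  constructor
  · rintro ⟨_, h⟩
    refine ⟨a * w + w ^ (1 - 2 * s), T_eq_zero.mp h, ?_⟩
    rw [add_assoc, CharTwo.add_self_eq_zero, add_zero, mul_div_cancel_right₀ _ hw0]
  · rintro ⟨ρ, hρ, rfl⟩
    refine ⟨hw, ?_⟩
    rw [div_mul_cancel₀ _ hw0, add_assoc, CharTwo.add_self_eq_zero, add_zero]
    exact T_K hρ

theorem sum_NZ_mul (hF : Fintype.card F = 2 ^ (2 * k)) (s : ℤ) (f : ℕ → ℤ) :
    ∑ a : F, (NZ k s a : ℤ) * f (NZ k s a)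
      = ∑ w ∈ U F k, ∑ ρ ∈ K F k, f (1 + (L k s (w ^ (1 - 2 * s)) ρ).card) := by
  have h1 : ∀ a : F, (NZ k s a : ℤ) * f (NZ k s a)
      = ∑ w ∈ U F k, if w ∈ SolZ k s a then f (NZ k s a) else 0 := by
    intro a
    rw [← sum_filter, sum_const, nsmul_eq_mul]
    congr 2
    have : filter (fun w => w ∈ SolZ k s a) (U F k) = SolZ k s a := by
      ext z
      rw [mem_filter]
      constructor
      · exact fun h => h.2
      · intro h
        exact ⟨(mem_filter.mp h).1, h⟩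
    rw [NZ, this]
  rw [sum_congr rfl fun a _ => h1 a, sum_comm]
  refine sum_congr rfl fun w hw => ?_
  have hw0 := U_ne_zero hw
  rw [← sum_filter]
  have h2 : filter (fun a => w ∈ SolZ k s a) univ
      = (K F k).image (fun ρ => (ρ + w ^ (1 - 2 * s)) / w) := by
    ext a
    rw [mem_filter, mem_SolZ_iff hw, mem_image]
    simp
  rw [h2, sum_image]
  · refine sum_congr rfl fun ρ hρ => ?_
    rw [NZ_line hF hw hρ]
  · intro x _ y _ h
    simp only at h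
    rw [div_left_inj' hw0] at h
    exact add_right_cancel h

theorem sum_NZ_mul' (hF : Fintype.card F = 2 ^ (2 * k)) {s : ℤ}
    (hs : IsCoprime (1 - 2 * s) ((2 ^ k + 1 : ℕ) : ℤ)) (f : ℕ → ℤ) :
    ∑ a : F, (NZ k s a : ℤ) * f (NZ k s a)
      = ∑ θ ∈ U F k, ∑ ρ ∈ K F k, f (1 + (L k s θ ρ).card) := by
  rw [sum_NZ_mul hF]
  exact sum_zpow_U hs (fun θ => ∑ ρ ∈ K F k, f (1 + (L k s θ ρ).card))

theorem L_maps (hF : Fintype.card F = 2 ^ (2 * k)) (s : ℤ) (θ : F) :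
    ∀ x ∈ (U F k).erase 1, T k (θ * gg k s x) ∈ K F k := fun _ _ => T_mem_K hF _

theorem card_U_erase (hF : Fintype.card F = 2 ^ (2 * k)) : ((U F k).erase 1).card = 2 ^ k := by
  rw [card_erase_of_mem one_mem_U, card_U hF, Nat.add_sub_cancel]

theorem sum_L (hF : Fintype.card F = 2 ^ (2 * k)) (s : ℤ) (θ : F) :
    ∑ ρ ∈ K F k, (L k s θ ρ).card = 2 ^ k := by
  rw [← card_U_erase hF]
  exact (card_eq_sum_card_fiberwise (L_maps hF s θ)).symm

theorem sum_L_sq (hF : Fintype.card F = 2 ^ (2 * k)) (s : ℤ) (θ : F) :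
    ∑ ρ ∈ K F k, (L k s θ ρ).card ^ 2
      = ((((U F k).erase 1) ×ˢ ((U F k).erase 1)).filter
        (fun p => T k (θ * (gg k s p.1 + gg k s p.2)) = 0)).card := by
  have hmaps : ∀ p ∈ (((U F k).erase 1) ×ˢ ((U F k).erase 1)).filter
        (fun p => T k (θ * (gg k s p.1 + gg k s p.2)) = 0),
        T k (θ * gg k s p.1) ∈ K F k := fun _ _ => T_mem_K hF _
  rw [card_eq_sum_card_fiberwise hmaps]
  refine sum_congr rfl fun ρ _ => ?_
  rw [sq, ← card_product]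
  congr 1
  ext p
  rw [mem_filter, mem_filter, mem_product, mem_product, L, mem_filter, mem_filter]
  rw [mul_add, T_add, CharTwo.add_eq_zero]
  constructor
  · rintro ⟨⟨h1, h2⟩, h3, h4⟩
    exact ⟨⟨⟨h1, h3⟩, by rw [h2, h4]⟩, h2⟩
  · rintro ⟨⟨⟨h1, h3⟩, h5⟩, h2⟩
    exact ⟨⟨h1, h2⟩, h3, by rw [← h5, h2]⟩

theorem card_theta (hk : 1 ≤ k) (hF : Fintype.card F = 2 ^ (2 * k)) {b : F} (hb : b ≠ 0) :
    ((U F k).filter (fun θ => T k (θ * b) = 0)).card = 1 := by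
  rw [card_eq_one]
  set v : F := b ^ (2 ^ k) / b with hv
  have hb' : b ^ (2 ^ k) ≠ 0 := pow_ne_zero _ hb
  have hvU : v ∈ U F k := by
    rw [mem_U, pow_succ, hv, div_pow, pow_qq hF]
    field_simp
  obtain ⟨θ0, hθ0, hθ0v⟩ : ∃ θ ∈ U F k, θ ^ (2 : ℤ) = v := by
    have := image_zpow_U (F := F) (isCoprime_two hk)
    rw [← this] at hvU
    obtain ⟨θ, hθ, h⟩ := mem_image.mp hvU
    exact ⟨θ, hθ, h⟩
  have key : ∀ θ ∈ U F k, (T k (θ * b) = 0 ↔ θ ^ (2 : ℤ) = v) := by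
    intro θ hθ
    have hθ0 := U_ne_zero hθ
    rw [T, mul_pow, U_pow_q hθ, CharTwo.add_eq_zero, hv, eq_div_iff hb]
    constructor
    · intro h
      have : θ ^ (2 : ℤ) * b = θ * (θ * b) := by
        rw [zpow_ofNat]; ring
      rw [this, h]; field_simp
    · intro h
      have : θ ^ (2 : ℤ) * b = θ * (θ * b) := by
        rw [zpow_ofNat]; ring
      rw [this] at h
      rw [← h]; field_simp
  refine ⟨θ0, ?_⟩
  ext θ
  rw [mem_filter, mem_singleton]
  constructor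
  · rintro ⟨h1, h2⟩
    rw [key θ h1, ← hθ0v] at h2
    exact U_zpow_inj (isCoprime_two hk) h1 hθ0 h2
  · rintro rfl
    exact ⟨hθ0, (key _ hθ0).mpr hθ0v⟩

/-- coincidences among the points -/
noncomputable def C2 (F : Type*) [Field F] [Fintype F] (k : ℕ) (s : ℤ) : Finset (F × F) :=
  (((U F k).erase 1) ×ˢ ((U F k).erase 1)).filter (fun p => gg k s p.1 = gg k s p.2)

theorem sum_sum_L_sq (hk : 1 ≤ k) (hF : Fintype.card F = 2 ^ (2 * k)) (s : ℤ) :
    ∑ θ ∈ U F k, ∑ ρ ∈ K F k, (L k s θ ρ).card ^ 2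
      = 2 ^ k * 2 ^ k + 2 ^ k * (C2 F k s).card := by
  have h1 : ∀ θ ∈ U F k, ∑ ρ ∈ K F k, (L k s θ ρ).card ^ 2
      = ∑ p ∈ (((U F k).erase 1) ×ˢ ((U F k).erase 1)),
        if T k (θ * (gg k s p.1 + gg k s p.2)) = 0 then 1 else 0 := by
    intro θ _
    rw [sum_L_sq hF, card_filter]
  rw [sum_congr rfl h1, sum_comm]
  have h2 : ∀ p ∈ (((U F k).erase 1) ×ˢ ((U F k).erase 1)),
      (∑ θ ∈ U F k, if T k (θ * (gg k s p.1 + gg k s p.2)) = 0 then 1 else 0)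
        = 1 + if gg k s p.1 = gg k s p.2 then 2 ^ k else 0 := by
    intro p _
    rw [← card_filter]
    split_ifs with h
    · rw [h, CharTwo.add_self_eq_zero]
      have : filter (fun θ : F => T k (θ * 0) = 0) (U F k) = U F k := by
        apply filter_true_of_mem
        intro θ _
        rw [mul_zero, T_zero]
      rw [this, card_U hF, add_comm]
    · rw [card_theta hk hF]
      intro h'
      exact h (CharTwo.add_eq_zero.mp h')
  rw [sum_congr rfl h2, sum_add_distrib, sum_const, card_product, card_U_erase hF,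
    ← sum_filter, sum_const]
  simp only [smul_eq_mul, mul_one]
  rw [mul_comm (filter _ _).card, C2]

/-- First moment. -/
theorem moment1 (hk : 1 ≤ k) (hF : Fintype.card F = 2 ^ (2 * k)) (s : ℤ) :
    ∑ a : F, (NZ k s a : ℤ) = 2 ^ k * (2 ^ k + 1) := by
  have := sum_NZ_mul hF (F := F) s (fun _ => 1)
  simp only [mul_one] at this
  rw [this]
  simp only [sum_const, card_U hF, card_K hk hF, nsmul_eq_mul, mul_one]
  push_cast; ring

/-- Second moment. -/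
theorem moment2 (hF : Fintype.card F = 2 ^ (2 * k)) (s : ℤ) :
    ∑ a : F, (NZ k s a : ℤ) * ((NZ k s a : ℤ) - 1) = 2 ^ k * (2 ^ k + 1) := by
  rw [sum_NZ_mul hF (F := F) s (fun n => (n : ℤ) - 1)]
  have h : ∀ w ∈ U F k, ∑ ρ ∈ K F k, (((1 + (L k s (w ^ (1 - 2 * s)) ρ).card : ℕ) : ℤ) - 1)
      = 2 ^ k := by
    intro w _
    have := sum_L hF s (w ^ (1 - 2 * s))
    have h2 : ∑ ρ ∈ K F k, (((1 + (L k s (w ^ (1 - 2 * s)) ρ).card : ℕ) : ℤ) - 1)
        = ((∑ ρ ∈ K F k, (L k s (w ^ (1 - 2 * s)) ρ).card : ℕ) : ℤ) := by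
      rw [Nat.cast_sum]
      refine sum_congr rfl fun ρ _ => ?_
      push_cast; ring
    rw [h2, this]; push_cast; ring
  rw [sum_congr rfl h, sum_const, card_U hF, nsmul_eq_mul]
  push_cast; ring

/-- Third moment. -/
theorem moment3 (hk : 1 ≤ k) (hF : Fintype.card F = 2 ^ (2 * k)) {s : ℤ}
    (hs : IsCoprime (1 - 2 * s) ((2 ^ k + 1 : ℕ) : ℤ)) :
    ∑ a : F, (NZ k s a : ℤ) * ((NZ k s a : ℤ) - 1) ^ 2
      = (2 : ℤ) ^ k * 2 ^ k + 2 ^ k * ((C2 F k s).card : ℤ) := by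
  rw [sum_NZ_mul' hF (F := F) hs (fun n => ((n : ℤ) - 1) ^ 2)]
  have := sum_sum_L_sq hk hF (F := F) s
  have h2 : ((∑ θ ∈ U F k, ∑ ρ ∈ K F k, (L k s θ ρ).card ^ 2 : ℕ) : ℤ)
      = ((2 ^ k * 2 ^ k + 2 ^ k * (C2 F k s).card : ℕ) : ℤ) := by rw [this]
  push_cast at h2
  rw [← h2]
  refine sum_congr rfl fun θ _ => sum_congr rfl fun ρ _ => ?_
  push_cast; ring

end Pool.Agent.Helper992
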