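import Pool.Agent.Helper992.Square

set_option autoImplicit false
set_option linter.unusedSectionVars false
open scoped Classical

namespace Pool.Agent.Helper992

open Finset

/-- The value set of the Walsh transform off zero. -/
noncomputable def WV (F : Type*) [Field F] [Fintype F] (k d : ℕ) : Finset ℤ :=
  (univ.filter (fun a : F => a ≠ 0)).image (fun a : F =>
    ∑ x : F, (if (∑ i ∈ range (2 * k), (a * x + x ^ d) ^ (2 ^ i)) = 0 then (1 : ℤ) else -1))

theorem WV_eq {k : ℕ} {F : Type*} [Field F] [Fintype F] [CharP F 2] (hk : 1 ≤ k)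
    (hF : Fintype.card F = 2 ^ (2 * k)) (s : ℕ) :
    WV F k (s * (2 ^ k - 1) + 1)
      = (V F k (s : ℤ)).image (fun n : ℕ => (2 : ℤ) ^ k * ((n : ℤ) - 1)) := by
  rw [WV, V, image_image]
  apply image_congr
  intro a _
  have h := walsh hk hF s a
  rw [N_eq_NZ] at h
  exact h

theorem WV_card {k : ℕ} {F : Type*} [Field F] [Fintype F] [CharP F 2] (hk : 1 ≤ k)
    (hF : Fintype.card F = 2 ^ (2 * k)) (s : ℕ) :
    (WV F k (s * (2 ^ k - 1) + 1)).card = (V F k (s : ℤ)).card := by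
  rw [WV_eq hk hF, card_image_of_injective]
  intro a b h
  have h2 : ((2 : ℤ) ^ k) ≠ 0 := by positivity
  have h3 := mul_left_cancel₀ h2 h
  have h4 : (a : ℤ) = b := by linarith
  exact_mod_cast h4

theorem main_structure {k : ℕ} {F : Type*} [Field F] [Fintype F] (hk : 1 ≤ k)
    (hF : Fintype.card F = 2 ^ (2 * k)) {s : ℕ}
    (hd : Nat.Coprime (s * (2 ^ k - 1) + 1) (2 ^ (2 * k) - 1))
    (hW : (WV F k (s * (2 ^ k - 1) + 1)).card = 4) :
    ∃ j : ℕ, 0 < j ∧ 2 * j ∣ k ∧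
      WV F k (s * (2 ^ k - 1) + 1) = {-(2 : ℤ) ^ k, 0, (2 : ℤ) ^ k, (2 : ℤ) ^ (k + j)} ∧
      ((j = 1 ∨ 2 * j = k) → Concl k (s : ℤ)) := by
  have hchar : CharP F 2 := charTwo hF
  rw [WV_card hk hF] at hW
  have hs := coprime_of hd
  obtain ⟨j, hD⟩ := four_data hk hF hs hW
  refine ⟨j, hD.hj, hD.dvd, ?_, ?_⟩
  · rw [WV_eq hk hF, hD.V_eq]
    simp only [image_insert, image_singleton]
    have e1 : (2 : ℤ) ^ k * (((0 : ℕ) : ℤ) - 1) = -(2 : ℤ) ^ k := by push_cast; ring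
    have e2 : (2 : ℤ) ^ k * (((1 : ℕ) : ℤ) - 1) = 0 := by push_cast; ring
    have e3 : (2 : ℤ) ^ k * (((2 : ℕ) : ℤ) - 1) = (2 : ℤ) ^ k := by push_cast; ring
    have e4 : (2 : ℤ) ^ k * (((2 ^ j + 1 : ℕ) : ℤ) - 1) = (2 : ℤ) ^ (k + j) := by
      push_cast; ring
    rw [e1, e2, e3, e4]
  · intro h
    rcases h with h | h
    · subst h
      exact two_case hk hF hs hD
    · by_cases hj1 : j = 1
      · subst hj1
        exact two_case hk hF hs hD
      · have := hD.hj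
        exact square_case (by omega) hF hs h.symm hD

end Pool.Agent.Helper992
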