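import Pool.Agent.Helper992.Dim

set_option autoImplicit false
set_option linter.unusedSectionVars false
open scoped Classical

namespace Pool.Agent.Helper992

open Finset MvPolynomial Geo

variable {F : Type*} [Field F] [CharP F 2] {K : Finset F} {k j : ℕ} {f : F → F}

/-- points of the dual plane missing the arrangement -/
noncomputable def Zp (K : Finset F) (f : F → F) : Finset (Fin 2 → F) :=
  (Z0 K f).image (fun p => ![p.2, p.1])

namespace Geo

theorem eight (G : Geo F K k j f) : 8 ≤ 2 ^ j := by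
  calc 8 = 2 ^ 3 := by norm_num
    _ ≤ 2 ^ j := Nat.pow_le_pow_right (by norm_num) G.hj

theorem q_ge (G : Geo F K k j f) : 16 ≤ 2 ^ k := by
  have h1 := G.hj
  have h2 := G.lt
  calc 16 = 2 ^ 4 := by norm_num
    _ ≤ 2 ^ k := Nat.pow_le_pow_right (by norm_num) (by omega)

theorem card_Zp (G : Geo F K k j f) : 8 * (Zp K f).card ≤ 2 ^ k * (2 ^ k - 1) := by
  rw [← G.card_Z0]
  have h1 : (Zp K f).card ≤ (Z0 K f).card := card_image_le
  exact Nat.mul_le_mul G.eight h1

theorem mem_Zp {v : Fin 2 → F} (h0 : v 0 ∈ K) (h1 : v 1 ∈ K)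
    (h : (ln K f (v 1) (v 0)).card = 0) : v ∈ Zp K f := by
  rw [Zp, mem_image]
  refine ⟨(v 1, v 0), ?_, ?_⟩
  · rw [Z0, mem_filter, mem_product]; exact ⟨⟨h1, h0⟩, h⟩
  · funext i
    fin_cases i
    · rfl
    · rfl

theorem Q_ne (G : Geo F K k j f) {P Q Kp : MvPolynomial (Fin 2) F} (h : MI K k f P Q Kp)
    (hK : Kp ≠ 0) (hP : P.totalDegree < 2 ^ k) : Q ≠ 0 := by
  rintro rfl
  have h1 : P = 0 := by
    apply vanish (K := K) (f := f)
    · rw [G.cardK]; exact hP
    · intro x hx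
      rw [G.star h hx, map_zero, mul_zero]
  rw [MI, h1, mul_zero, mul_zero, add_zero] at h
  have := mul_ne_zero (RR_totalDegree K f).1 hK
  exact this h.symm

/-- solutions of bounded degree -/
def good (K : Finset F) (k : ℕ) (f : F → F) (n : ℕ) : Prop :=
  ∃ P Q Kp : MvPolynomial (Fin 2) F, MI K k f P Q Kp ∧ Q ≠ 0 ∧ P.totalDegree ≤ n ∧
    Q.totalDegree ≤ n

theorem good_half (G : Geo F K k j f) : good K k f (2 ^ (k - 1) - 1) := by
  have hq := G.q_ge
  have hk := G.one_le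
  set h := 2 ^ (k - 1) with hh
  have hq2 : 2 ^ k = 2 * h := by
    rw [hh, ← pow_succ']; congr 1; omega
  have h8 := G.card_Zp
  have hT := card_Tri (h - 1)
  have hlt : (Zp K f).card < (Tri (h - 1)).card := by
    rw [hq2] at h8
    have e1 : h - 1 + 1 = h := by omega
    have e2 : h - 1 + 2 = h + 1 := by omega
    rw [e1, e2] at hT
    have e3 : 2 * h * (2 * h - 1) + 2 * h = 4 * (h * h) := by
      have : 2 * h - 1 + 1 = 2 * h := by omega
      calc 2 * h * (2 * h - 1) + 2 * h = 2 * h * (2 * h - 1 + 1) := by ring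
        _ = 2 * h * (2 * h) := by rw [this]
        _ = 4 * (h * h) := by ring
    have e4 : h * (h + 1) = h * h + h := by ring
    rw [e4] at hT
    omega
  obtain ⟨Kp, hK0, hKd, hKZ⟩ := exists_Kp (Zp K f) (h - 1) hlt
  obtain ⟨P, Q, hP, hQ, hM⟩ := G.ex_PQ hKd (fun v h0 h1 h2 => hKZ v (mem_Zp h0 h1 h2))
  exact ⟨P, Q, Kp, hM, G.Q_ne hM hK0 (by omega), hP, hQ⟩

theorem card_Ax_le (G : Geo F K k j f) {x : F} (hx : x ∈ K) :
    7 * (Ax K j f x).card ≤ 2 ^ k - 1 := by
  rw [← G.card_Ax hx]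
  have := G.eight
  rw [mul_comm]
  exact Nat.mul_le_mul_left _ (by omega)

theorem reduce_lf (G : Geo F K k j f) {x : F} (hx : x ∈ K) {P Q Kp : MvPolynomial (Fin 2) F}
    (h : MI K k f (lf x (f x) * P) (lf x (f x) * Q) Kp)
    (hd : 2 * Kp.totalDegree < 2 ^ k) : ∃ K', MI K k f P Q K' := by
  have hl := lf_ne_zero x (f x)
  have h1 : (X 0 ^ (2 ^ k) + X 0) * Q + (X 1 ^ (2 ^ k) + X 1) * P
      = (∏ y ∈ K.erase x, lf y (f y)) * Kp := by
    rw [MI, RR_erase hx] at h
    apply mul_left_cancel₀ hl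
    rw [← mul_assoc, ← h]; ring
  have h2 := congrArg (rl x (f x)) h1
  rw [map_add, map_mul, map_mul, map_mul, G.rl_bd0 hx, rl_bd1] at h2
  have h3 : rl x (f x) Kp = 0 := by
    apply Polynomial.eq_zero_of_natDegree_lt_card_of_eval_eq_zero' _ (K \ Ax K j f x)
    · intro β hβ
      rw [mem_sdiff] at hβ
      have h4 := congrArg (Polynomial.eval β) h2
      rw [Polynomial.eval_add, Polynomial.eval_mul, Polynomial.eval_mul, Polynomial.eval_mul,
        Polynomial.eval_mul, Polynomial.eval_add, Polynomial.eval_pow, Polynomial.eval_X,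
        (G.memK β).mp hβ.1, CharTwo.add_self_eq_zero, mul_zero, zero_mul, zero_mul,
        zero_add] at h4
      refine (mul_eq_zero.mp h4.symm).resolve_left ?_
      rw [map_prod, Polynomial.eval_prod]
      apply prod_ne_zero_iff.mpr
      intro y hy
      rw [mem_erase] at hy
      rw [rl_lf]
      simp only [Polynomial.eval_add, Polynomial.eval_mul, Polynomial.eval_C, Polynomial.eval_X]
      have h5 := G.ln_of_not_Ax hx hβ.1 hβ.2 y hy.2 hy.1
      intro h6
      apply h5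
      rw [← h6, CharTwo.sub_eq_add, CharTwo.sub_eq_add]; ring
    · have h4 := rl_deg x (f x) (le_refl Kp.totalDegree)
      have h5 := G.card_Ax_le hx
      have h6 : (K \ Ax K j f x).card + (Ax K j f x).card = 2 ^ k := by
        rw [card_sdiff_add_card_eq_card, G.cardK]
        exact filter_subset _ _
      omega
  rw [← lf_dvd_iff] at h3
  obtain ⟨K', rfl⟩ := h3
  refine ⟨K', ?_⟩
  rw [MI, h1, RR_erase hx]; ring

theorem relprime_of_min (G : Geo F K k j f) {P Q Kp : MvPolynomial (Fin 2) F} {δ : ℕ}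
    (hM : MI K k f P Q Kp) (hQ0 : Q ≠ 0) (hP : P.totalDegree ≤ δ) (hQ : Q.totalDegree ≤ δ)
    (hδ : 2 * δ < 2 ^ k) (hmin : ∀ n, good K k f n → δ ≤ n) : IsRelPrime P Q := by
  intro d hdP hdQ
  by_contra hu
  have hd0 : d ≠ 0 := by
    rintro rfl
    exact hQ0 (zero_dvd_iff.mp hdQ)
  obtain ⟨π, hπ, hπd⟩ := WfDvdMonoid.exists_irreducible_factor hu hd0
  have hπp : Prime π := hπ.prime
  have hKd := G.Kp_deg hM hP hQ
  -- a general descent
  have key : ∀ l P' Q' K' : MvPolynomial (Fin 2) F, 1 ≤ l.totalDegree → P = l * P' →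
      Q = l * Q' → MI K k f P' Q' K' → False := by
    intro l P' Q' K' hl hPl hQl hM'
    have hl0 : l ≠ 0 := by
      rintro rfl
      rw [totalDegree_zero] at hl; omega
    have hQ'0 : Q' ≠ 0 := by
      rintro rfl
      rw [mul_zero] at hQl; exact hQ0 hQl
    have hQ' : Q'.totalDegree + 1 ≤ δ := by
      have := totalDegree_mul_of_isDomain hl0 hQ'0
      rw [← hQl] at this; omega
    have hP' : P'.totalDegree ≤ δ - 1 := by
      by_cases hP0 : P' = 0
      · rw [hP0, totalDegree_zero]; omega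
      · have := totalDegree_mul_of_isDomain hl0 hP0
        rw [← hPl] at this; omega
    have := hmin (δ - 1) ⟨P', Q', K', hM', hQ'0, hP', by omega⟩
    omega
  have hdeg1 : ∀ l : MvPolynomial (Fin 2) F, Irreducible l → 1 ≤ l.totalDegree := by
    intro l hl
    by_contra h0
    have h0' : l.totalDegree = 0 := by omega
    rw [totalDegree_eq_zero_iff_eq_C] at h0'
    have hc : coeff 0 l ≠ 0 := by
      intro hc
      rw [hc, map_zero] at h0'
      exact hl.ne_zero h0'
    apply hl.not_isUnit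
    rw [h0']
    exact (IsUnit.mk0 _ hc).map C
  obtain ⟨P', hP'⟩ := hπd.trans hdP
  obtain ⟨Q', hQ'⟩ := hπd.trans hdQ
  have hdvd : π ∣ RR K f * Kp := by
    rw [MI] at hM
    rw [← hM, hP', hQ']
    exact dvd_add (Dvd.dvd.mul_left (dvd_mul_right _ _) _) (Dvd.dvd.mul_left (dvd_mul_right _ _) _)
  rcases hπp.dvd_or_dvd hdvd with h | h
  · rw [RR] at h
    obtain ⟨x, hx, hxπ⟩ := (hπp.dvd_finset_prod_iff _).mp h
    have has : Associated π (lf x (f x)) :=
      hπ.associated_of_dvd (lf_prime x (f x)).irreducible hxπ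
    have h1 : lf x (f x) ∣ P := has.symm.dvd.trans (hπd.trans hdP)
    have h2 : lf x (f x) ∣ Q := has.symm.dvd.trans (hπd.trans hdQ)
    obtain ⟨P2, hP2⟩ := h1
    obtain ⟨Q2, hQ2⟩ := h2
    rw [hP2, hQ2] at hM
    obtain ⟨K2, hK2⟩ := G.reduce_lf hx hM (by omega)
    exact key _ P2 Q2 K2 (by rw [lf_totalDegree]) hP2 hQ2 hK2
  · obtain ⟨K2, hK2⟩ := h
    refine key π P' Q' K2 (hdeg1 π hπ) hP' hQ' ?_
    rw [MI] at hM ⊢
    rw [hP', hQ', hK2] at hM
    apply mul_left_cancel₀ hπ.ne_zero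
    calc π * ((X 0 ^ 2 ^ k + X 0) * Q' + (X 1 ^ 2 ^ k + X 1) * P')
        = (X 0 ^ 2 ^ k + X 0) * (π * Q') + (X 1 ^ 2 ^ k + X 1) * (π * P') := by ring
      _ = RR K f * (π * K2) := hM
      _ = π * (RR K f * K2) := by ring

/-- two solutions of small degree are proportional -/
theorem prop_of (G : Geo F K k j f) {P Q Kp P' Q' K' : MvPolynomial (Fin 2) F} {δ n : ℕ}
    (hM : MI K k f P Q Kp) (hQ0 : Q ≠ 0) (hP : P.totalDegree ≤ δ) (hQ : Q.totalDegree ≤ δ)
    (hcop : IsRelPrime P Q) (hM' : MI K k f P' Q' K')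
    (hP' : P'.totalDegree ≤ n) (hQ' : Q'.totalDegree ≤ n) (hn : δ + n < 2 ^ k) :
    ∃ g, P' = g * P ∧ Q' = g * Q ∧ K' = g * Kp := by
  have h1 : P * Q' + P' * Q = 0 := by
    apply vanish (K := K) (f := f)
    · rw [G.cardK]
      refine lt_of_le_of_lt ((totalDegree_add _ _).trans (max_le ?_ ?_)) hn
      · exact (totalDegree_mul _ _).trans (by omega)
      · exact (totalDegree_mul _ _).trans (by omega)
    · intro x hx
      rw [map_add, map_mul, map_mul, G.star hM hx, G.star hM' hx]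
      have e : Polynomial.C x * rl x (f x) Q * rl x (f x) Q'
          + Polynomial.C x * rl x (f x) Q' * rl x (f x) Q
          = Polynomial.C x * rl x (f x) Q * rl x (f x) Q'
          + Polynomial.C x * rl x (f x) Q * rl x (f x) Q' := by ring
      rw [e, CharTwo.add_self_eq_zero]
  have h2 : P * Q' = P' * Q := CharTwo.add_eq_zero.mp h1
  have h3 : Q ∣ Q' :=
    hcop.symm.dvd_of_dvd_mul_left (h2 ▸ dvd_mul_left Q P')
  obtain ⟨g, rfl⟩ := h3
  have h4 : P' = g * P := by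
    apply mul_right_cancel₀ hQ0
    rw [← h2]; ring
  refine ⟨g, h4, mul_comm _ _, ?_⟩
  rw [MI] at hM hM'
  apply mul_left_cancel₀ (RR_totalDegree K f).1
  rw [← hM', h4]
  calc (X 0 ^ 2 ^ k + X 0) * (Q * g) + (X 1 ^ 2 ^ k + X 1) * (g * P)
      = g * ((X 0 ^ 2 ^ k + X 0) * Q + (X 1 ^ 2 ^ k + X 1) * P) := by ring
    _ = RR K f * (g * Kp) := by rw [hM]; ring

theorem six (G : Geo F K k j f) {P Q Kp : MvPolynomial (Fin 2) F} {δ : ℕ}
    (hM : MI K k f P Q Kp) (hQ0 : Q ≠ 0) (hP : P.totalDegree ≤ δ) (hQ : Q.totalDegree ≤ δ)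
    (hcop : IsRelPrime P Q) (hδ : 2 * δ + 2 ≤ 2 ^ k) (hmin : ∀ n, good K k f n → δ ≤ n) :
    6 * δ < 2 ^ k := by
  set q := 2 ^ k with hq
  have h1 := boot (Zp K f) (q - δ - 1) (q - 2 * δ - 1) Kp (by
    intro p hp hpZ
    obtain ⟨P', Q', hP', hQ', hM'⟩ := G.ex_PQ hp (fun v h0 h1 h2 => hpZ v (mem_Zp h0 h1 h2))
    obtain ⟨g, hg1, hg2, hg3⟩ := G.prop_of hM hQ0 hP hQ hcop hM' hP' hQ' (by omega)
    refine ⟨g, ?_, hg3⟩
    by_cases hg0 : g = 0
    · rw [hg0, totalDegree_zero]; omega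
    have hgQ := totalDegree_mul_of_isDomain hg0 hQ0
    rw [← hg2] at hgQ
    by_cases hQδ : Q.totalDegree = δ
    · omega
    · have hPδ : P.totalDegree = δ := by
        have hlt : Q.totalDegree ≤ max P.totalDegree Q.totalDegree := le_max_right _ _
        have := hmin (max P.totalDegree Q.totalDegree)
          ⟨P, Q, Kp, hM, hQ0, le_max_left _ _, le_max_right _ _⟩
        rcases le_total P.totalDegree Q.totalDegree with h | h
        · rw [max_eq_right h] at this; omega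
        · rw [max_eq_left h] at this; omega
      by_cases hP0 : P = 0
      · rw [hP0, totalDegree_zero] at hPδ
        omega
      have hgP := totalDegree_mul_of_isDomain hg0 hP0
      rw [← hg1] at hgP
      omega)
  have h2 := card_Tri (q - δ - 1)
  have h3 := card_Tri (q - 2 * δ - 1)
  have h4 := G.card_Zp
  rw [← hq] at h4
  have hq16 := G.q_ge
  rw [← hq] at hq16
  have e1 : q - δ - 1 + 1 = q - δ := by omega
  have e2 : q - δ - 1 + 2 = q - δ + 1 := by omega
  have e3 : q - 2 * δ - 1 + 1 = q - 2 * δ := by omega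
  have e4 : q - 2 * δ - 1 + 2 = q - 2 * δ + 1 := by omega
  rw [e1, e2] at h2
  rw [e3, e4] at h3
  by_contra hcon
  push Not at hcon
  have hd1 : δ ≤ q := by omega
  have hd2 : 2 * δ ≤ q := by omega
  have hd3 : 1 ≤ q := by omega
  zify [hd1, hd2, hd3] at h1 h2 h3 h4 hcon hδ hq16
  nlinarith [mul_nonneg (sub_nonneg.mpr hcon) (sub_nonneg.mpr hδ)]

theorem exists_min (G : Geo F K k j f) :
    ∃ (δ : ℕ) (P Q Kp : MvPolynomial (Fin 2) F), MI K k f P Q Kp ∧ Q ≠ 0 ∧
      P.totalDegree ≤ δ ∧ Q.totalDegree ≤ δ ∧ (∀ n, good K k f n → δ ≤ n) ∧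
      IsRelPrime P Q ∧ 6 * δ < 2 ^ k := by
  have hex : ∃ n, good K k f n := ⟨_, G.good_half⟩
  obtain ⟨P, Q, Kp, hM, hQ0, hP, hQ⟩ := Nat.find_spec hex
  set δ := Nat.find hex with hδ
  have hmin : ∀ n, good K k f n → δ ≤ n := fun n hn => Nat.find_min' hex hn
  have hhalf := hmin _ G.good_half
  have hq := G.q_ge
  have hk := G.one_le
  have hq2 : 2 ^ k = 2 * 2 ^ (k - 1) := by
    rw [← pow_succ']; congr 1; omega
  have hcop := G.relprime_of_min hM hQ0 hP hQ (by omega) hmin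
  exact ⟨δ, P, Q, Kp, hM, hQ0, hP, hQ, hmin, hcop,
    G.six hM hQ0 hP hQ hcop (by omega) hmin⟩

end Geo

end Pool.Agent.Helper992
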