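import Mathlib

set_option autoImplicit false
open scoped LinearAlgebra.Projectivization Classical
open Finset

namespace Pool.Agent.Helper992.Nh

variable {F : Type*} [Field F] [Fintype F]

theorem card_nonsq (hodd : ringChar F ≠ 2) :
    2 * (Finset.univ.filter (fun x : F => ¬ IsSquare x)).card + 1 = Fintype.card F := by
  have h := quadraticChar_sum_zero hodd
  have h1 : ∑ a : F, quadraticChar F a
      = ∑ a : F, (((if a ≠ 0 ∧ IsSquare a then 1 else 0) : ℤ) - (if ¬ IsSquare a then 1 else 0)) := by
    apply Finset.sum_congr rfl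
    intro a _
    by_cases ha : a = 0
    · subst ha; simp
    · by_cases hs : IsSquare a
      · rw [(quadraticChar_one_iff_isSquare ha).mpr hs]; simp [ha, hs]
      · rw [quadraticChar_neg_one_iff_not_isSquare.mpr hs]; simp [ha, hs]
  rw [h1, Finset.sum_sub_distrib, Finset.sum_boole, Finset.sum_boole] at h
  have h2 : (Finset.univ.filter (fun a : F => a ≠ 0 ∧ IsSquare a)).card
      = (Finset.univ.filter (fun a : F => ¬ IsSquare a)).card := by
    have : ((Finset.univ.filter (fun a : F => a ≠ 0 ∧ IsSquare a)).card : ℤ)
      = (Finset.univ.filter (fun a : F => ¬ IsSquare a)).card := by linarith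
    exact_mod_cast this
  have h3 : (Finset.univ.filter (fun a : F => IsSquare a)).card
      = (Finset.univ.filter (fun a : F => a ≠ 0 ∧ IsSquare a)).card + 1 := by
    rw [← Finset.card_insert_of_notMem (a := (0:F))]
    · congr 1
      ext a
      simp only [Finset.mem_filter, Finset.mem_univ, true_and, Finset.mem_insert]
      constructor
      · intro h
        by_cases ha : a = 0
        · left; exact ha
        · right; exact ⟨ha, h⟩
      · rintro (h | h)
        · rw [h]; exact IsSquare.zero
        · exact h.2
    · simp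
  have h4 := Finset.card_filter_add_card_filter_not (s := (Finset.univ : Finset F)) (fun a => IsSquare a)
  rw [Finset.card_univ] at h4
  omega

theorem ne1 (x : F) : (![x, x ^ 2, 1] : Fin 3 → F) ≠ 0 := by
  intro h
  have := congrFun h 2
  simp at this

theorem ne2 : (![0, 1, 0] : Fin 3 → F) ≠ 0 := by
  intro h
  have := congrFun h 1
  simp at this

theorem ne3 : (![1, 0, 0] : Fin 3 → F) ≠ 0 := by
  intro h
  have := congrFun h 0
  simp at this

theorem neL (p : F × F) : (![p.1, -1, p.2] : Fin 3 → F) ≠ 0 := by
  intro h
  have := congrFun h 1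
  simp at this

/-- Point `(x, x ^ 2)` of the conic. -/
noncomputable def pt (x : F) : ℙ F (Fin 3 → F) := Projectivization.mk F ![x, x ^ 2, 1] (ne1 x)

noncomputable def pInf : ℙ F (Fin 3 → F) := Projectivization.mk F ![0, 1, 0] ne2

noncomputable def pExt : ℙ F (Fin 3 → F) := Projectivization.mk F ![1, 0, 0] ne3

/-- The line `y = a x + b`. -/
noncomputable def ln (p : F × F) : ℙ F (Fin 3 → F) := Projectivization.mk F ![p.1, -1, p.2] (neL p)

theorem pt_inj : Function.Injective (pt (F := F)) := by
  intro x y h
  unfold pt at h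
  rw [Projectivization.mk_eq_mk_iff'] at h
  obtain ⟨a, ha⟩ := h
  have h0 := congrFun ha 0
  have h2 := congrFun ha 2
  simp at h0 h2
  rw [h2] at h0
  simpa using h0.symm

theorem ln_inj : Function.Injective (ln (F := F)) := by
  intro x y h
  unfold ln at h
  rw [Projectivization.mk_eq_mk_iff'] at h
  obtain ⟨a, ha⟩ := h
  have h0 := congrFun ha 0
  have h1 := congrFun ha 1
  have h2 := congrFun ha 2
  simp at h0 h1 h2
  rw [h1] at h0 h2
  ext
  · simpa using h0.symm
  · simpa using h2.symm

theorem pt_ne_inf (x : F) : pt x ≠ pInf := by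
  intro h
  unfold pt pInf at h
  rw [Projectivization.mk_eq_mk_iff'] at h
  obtain ⟨a, ha⟩ := h
  have h2 := congrFun ha 2
  simp at h2

theorem pt_ne_ext (x : F) : pt x ≠ pExt := by
  intro h
  unfold pt pExt at h
  rw [Projectivization.mk_eq_mk_iff'] at h
  obtain ⟨a, ha⟩ := h
  have h2 := congrFun ha 2
  simp at h2

theorem inf_ne_ext : (pInf : ℙ F (Fin 3 → F)) ≠ pExt := by
  intro h
  unfold pInf pExt at h
  rw [Projectivization.mk_eq_mk_iff'] at h
  obtain ⟨a, ha⟩ := h
  have h1 := congrFun ha 1
  simp at h1

/-- The conic minus one point, plus one external point. -/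
noncomputable def S : Finset (ℙ F (Fin 3 → F)) :=
  insert pInf (insert pExt ((Finset.univ.filter (fun x : F => x ≠ 1)).image pt))

theorem card_S : (S (F := F)).card = Fintype.card F + 1 := by
  have h1 : (pExt : ℙ F (Fin 3 → F)) ∉ (Finset.univ.filter (fun x : F => x ≠ 1)).image pt := by
    intro h
    obtain ⟨x, _, hx⟩ := Finset.mem_image.mp h
    exact pt_ne_ext x hx
  have h2 : (pInf : ℙ F (Fin 3 → F)) ∉
      insert pExt ((Finset.univ.filter (fun x : F => x ≠ 1)).image pt) := by
    intro h
    rcases Finset.mem_insert.mp h with h | h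
    · exact inf_ne_ext h
    · obtain ⟨x, _, hx⟩ := Finset.mem_image.mp h
      exact pt_ne_inf x hx
  have h3 : (Finset.univ.filter (fun x : F => x ≠ 1)).card = Fintype.card F - 1 := by
    rw [Finset.filter_ne' , Finset.card_erase_of_mem (Finset.mem_univ _), Finset.card_univ]
  have h4 := Fintype.one_lt_card (α := F)
  unfold S
  rw [Finset.card_insert_of_notMem h2, Finset.card_insert_of_notMem h1,
    Finset.card_image_of_injective _ pt_inj, h3]
  omega

/-- Parameters of the missed lines. -/
noncomputable def T : Finset (F × F) :=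
  insert ((2 : F), (-1 : F)) (Finset.univ.filter (fun p : F × F => p.1 ≠ 0 ∧ ¬ IsSquare (p.1 ^ 2 + 4 * p.2)))

theorem two_ne (hodd : ringChar F ≠ 2) : (2 : F) ≠ 0 := Ring.two_ne_zero hodd

theorem card_T (hodd : ringChar F ≠ 2) :
    (T (F := F)).card = (Fintype.card F - 1) ^ 2 / 2 + 1 := by
  have h2 := two_ne hodd
  have h1 : ((2 : F), (-1 : F)) ∉
      Finset.univ.filter (fun p : F × F => p.1 ≠ 0 ∧ ¬ IsSquare (p.1 ^ 2 + 4 * p.2)) := by
    simp only [Finset.mem_filter, Finset.mem_univ, true_and, not_and, not_not]
    intro _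
    refine ⟨0, by ring⟩
  unfold T
  rw [Finset.card_insert_of_notMem h1]
  congr 1
  have h3 : (Finset.univ.filter (fun p : F × F => p.1 ≠ 0 ∧ ¬ IsSquare (p.1 ^ 2 + 4 * p.2))).card
      = ((Finset.univ.filter (fun a : F => a ≠ 0)) ×ˢ
        (Finset.univ.filter (fun x : F => ¬ IsSquare x))).card := by
    refine Finset.card_nbij' (fun p => (p.1, p.1 ^ 2 + 4 * p.2))
      (fun p => (p.1, (p.2 - p.1 ^ 2) / 4)) ?_ ?_ ?_ ?_
    · intro p hp
      simpa using hp
    · intro p hp
      have h4 : (4 : F) ≠ 0 := by
        have : (4 : F) = 2 * 2 := by norm_num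
        rw [this]; exact mul_ne_zero h2 h2
      have e : p.1 ^ 2 + 4 * ((p.2 - p.1 ^ 2) / 4) = p.2 := by field_simp; ring
      simp only [Finset.coe_filter, Finset.mem_univ, true_and, Set.mem_setOf_eq, e]
      simpa using hp
    · intro p _
      have h4 : (4 : F) ≠ 0 := by
        have : (4 : F) = 2 * 2 := by norm_num
        rw [this]; exact mul_ne_zero h2 h2
      ext
      · rfl
      · simp only; field_simp; ring
    · intro p _
      have h4 : (4 : F) ≠ 0 := by
        have : (4 : F) = 2 * 2 := by norm_num
        rw [this]; exact mul_ne_zero h2 h2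
      ext
      · rfl
      · simp only; field_simp; ring
  rw [h3, Finset.card_product, Finset.filter_ne', Finset.card_erase_of_mem (Finset.mem_univ _),
    Finset.card_univ]
  have h5 := card_nonsq hodd
  set N := (Finset.univ.filter (fun x : F => ¬ IsSquare x)).card
  have h6 : Fintype.card F - 1 = 2 * N := by omega
  rw [h6]
  have : (2 * N) ^ 2 = 2 * (2 * N * N) := by ring
  rw [this, Nat.mul_div_cancel_left _ (by norm_num)]

theorem missed_iff (hodd : ringChar F ≠ 2) (ℓ : ℙ F (Fin 3 → F)) :
    (∀ P ∈ S, ¬ P.orthogonal ℓ) ↔ ℓ ∈ T.image ln := by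
  have h2 := two_ne hodd
  induction ℓ with | h w hw =>
  constructor
  · intro h
    have hi := h pInf (by unfold S; simp)
    have he := h pExt (by unfold S; simp)
    have hp : ∀ x : F, x ≠ 1 → x * w 0 + x ^ 2 * w 1 + w 2 ≠ 0 := by
      intro x hx
      have := h (pt x) (by
        unfold S
        rw [Finset.mem_insert, Finset.mem_insert]
        right; right
        exact Finset.mem_image_of_mem _ (Finset.mem_filter.mpr ⟨Finset.mem_univ _, hx⟩))
      unfold pt at this
      rw [Projectivization.orthogonal_mk] at this
      simpa [dotProduct, Fin.sum_univ_three] using this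
    unfold pInf at hi
    unfold pExt at he
    rw [Projectivization.orthogonal_mk] at hi he
    simp only [dotProduct, Fin.sum_univ_three] at hi he
    simp at hi he
    rw [Finset.mem_image]
    refine ⟨(-(w 0) / w 1, -(w 2) / w 1), ?_, ?_⟩
    · unfold T
      rw [Finset.mem_insert, Finset.mem_filter]
      by_cases hs : IsSquare ((-(w 0) / w 1) ^ 2 + 4 * (-(w 2) / w 1))
      · left
        obtain ⟨s, hs⟩ := hs
        have hroot : ∀ x : F, (2 * x - (-(w 0) / w 1)) ^ 2 = s * s → x = 1 := by
          intro x hx
          by_contra hne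
          apply hp x hne
          rw [← hs] at hx
          have h4 : (4 : F) ≠ 0 := by
            have : (4 : F) = 2 * 2 := by norm_num
            rw [this]; exact mul_ne_zero h2 h2
          field_simp at hx
          have h5 : 4 * (w 1) * (x * w 0 + x ^ 2 * w 1 + w 2) = 0 := by
            linear_combination hx
          rcases mul_eq_zero.mp h5 with h6 | h6
          · exact absurd h6 (mul_ne_zero h4 hi)
          · exact h6
        have r1 := hroot ((-(w 0) / w 1 + s) / 2) (by field_simp; ring)
        have r2 := hroot ((-(w 0) / w 1 - s) / 2) (by field_simp; ring)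
        rw [div_eq_iff h2] at r1 r2
        have e1 : -(w 0) / w 1 = 2 := by
          apply mul_left_cancel₀ h2
          linear_combination r1 + r2
        have e2 : s = 0 := by
          apply mul_left_cancel₀ h2
          linear_combination r1 - r2
        rw [e2, e1] at hs
        have h4 : (4 : F) ≠ 0 := by
          have : (4 : F) = 2 * 2 := by norm_num
          rw [this]; exact mul_ne_zero h2 h2
        have e3 : -(w 2) / w 1 = -1 := by
          apply mul_left_cancel₀ h4
          linear_combination hs
        rw [e1, e3]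
      · right
        refine ⟨Finset.mem_univ _, ?_, hs⟩
        exact div_ne_zero (neg_ne_zero.mpr he) hi
    · unfold ln
      rw [Projectivization.mk_eq_mk_iff']
      refine ⟨-(w 1)⁻¹, ?_⟩
      ext i
      fin_cases i
      · simp; field_simp
      · simp; field_simp
      · simp; field_simp
  · intro h
    rw [Finset.mem_image] at h
    obtain ⟨⟨a, b⟩, hT, hl⟩ := h
    rw [← hl]
    unfold T at hT
    rw [Finset.mem_insert, Finset.mem_filter] at hT
    intro P hP
    unfold S at hP
    rw [Finset.mem_insert, Finset.mem_insert, Finset.mem_image] at hP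
    unfold ln
    rcases hP with rfl | rfl | ⟨x, hx, rfl⟩
    · unfold pInf
      rw [Projectivization.orthogonal_mk]
      simp [dotProduct, Fin.sum_univ_three]
    · unfold pExt
      rw [Projectivization.orthogonal_mk]
      simp only [dotProduct, Fin.sum_univ_three]
      rcases hT with hT | hT
      · rw [Prod.mk.injEq] at hT
        simp [hT.1, h2]
      · simpa using hT.2.1
    · unfold pt
      rw [Projectivization.orthogonal_mk]
      simp only [dotProduct, Fin.sum_univ_three]
      have hx1 : x ≠ 1 := (Finset.mem_filter.mp hx).2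
      intro h0
      simp at h0
      rcases hT with hT | hT
      · rw [Prod.mk.injEq] at hT
        rw [hT.1, hT.2] at h0
        have : (x - 1) ^ 2 = 0 := by linear_combination -h0
        exact hx1 (sub_eq_zero.mp (pow_eq_zero_iff (by norm_num) |>.mp this))
      · apply hT.2.2
        refine ⟨2 * x - a, ?_⟩
        simp only
        linear_combination 4 * h0

end Pool.Agent.Helper992.Nh
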