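import Pool.Agent.Helper992.Local

set_option autoImplicit false
set_option linter.unusedSectionVars false
open scoped Classical

namespace Pool.Agent.Helper992

open Finset

variable {F : Type*} [Field F] [Fintype F] {k : ℕ}

/-- fibre of a power map on the unit circle -/
noncomputable def P (k : ℕ) (m : ℤ) (u : F) : Finset F := (U F k).filter (fun z => z ^ m = u)

theorem card_ker (hF : Fintype.card F = 2 ^ (2 * k)) (m : ℤ) :
    (P k m (1 : F)).card = Int.gcd m ((2 ^ k + 1 : ℕ) : ℤ) := by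
  obtain ⟨ζ, hζ⟩ := exists_zeta hF
  set G := Int.gcd m ((2 ^ k + 1 : ℕ) : ℤ) with hG
  have hGn : G ∣ 2 ^ k + 1 := by
    have := Int.gcd_dvd_right m ((2 ^ k + 1 : ℕ) : ℤ)
    exact_mod_cast this
  have hGm : (G : ℤ) ∣ m := Int.gcd_dvd_left m _
  have hGpos : 0 < G := Nat.pos_of_dvd_of_pos hGn (by positivity)
  obtain ⟨c, hc⟩ := hGn
  have hη : IsPrimitiveRoot (ζ ^ c) G := hζ.pow (by positivity) (by rw [hc, mul_comm])
  rw [← hη.card_nthRootsFinset]
  congr 1
  ext z
  rw [P, mem_filter, Polynomial.mem_nthRootsFinset hGpos]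
  constructor
  · rintro ⟨hz, hm⟩
    have hz0 := U_ne_zero hz
    have h1 := Int.gcd_eq_gcd_ab m ((2 ^ k + 1 : ℕ) : ℤ)
    have h2 : z ^ (G : ℤ) = 1 := by
      rw [hG, h1, zpow_add₀ hz0, zpow_mul, zpow_mul, hm, zpow_natCast, mem_U.mp hz, one_zpow,
        one_zpow, one_mul]
    rw [zpow_natCast] at h2; exact h2
  · intro h
    constructor
    · rw [mem_U, hc, pow_mul, h, one_pow]
    · obtain ⟨e, he⟩ := hGm
      rw [he, zpow_mul, zpow_natCast, h, one_zpow]

theorem card_P (m : ℤ) {u : F} :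
    (P k m u).card = 0 ∨ (P k m u).card = (P k m (1 : F)).card := by
  by_cases h : (P k m u).Nonempty
  · right
    obtain ⟨z0, hz0⟩ := h
    rw [P, mem_filter] at hz0
    obtain ⟨hz0U, hz0m⟩ := hz0
    have h00 := U_ne_zero hz0U
    refine card_nbij' (fun z => z / z0) (fun z => z * z0) ?_ ?_ ?_ ?_
    · intro z hz
      simp only [P, coe_filter, Set.mem_ofPred_eq] at hz ⊢
      refine ⟨?_, ?_⟩
      · rw [div_eq_mul_inv]; exact mul_mem_U hz.1 (inv_mem_U hz0U)
      · rw [div_zpow, hz.2, hz0m, div_self]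
        rw [← hz0m]; exact zpow_ne_zero _ h00
    · intro z hz
      simp only [P, coe_filter, Set.mem_ofPred_eq] at hz ⊢
      refine ⟨mul_mem_U hz.1 hz0U, ?_⟩
      rw [mul_zpow, hz.2, hz0m, one_mul]
    · intro z _; show z / z0 * z0 = z
      exact div_mul_cancel₀ _ h00
    · intro z _; show z * z0 / z0 = z
      exact mul_div_cancel_right₀ _ h00
  · left
    rw [not_nonempty_iff_eq_empty] at h
    rw [h, card_empty]

theorem sum_P (hF : Fintype.card F = 2 ^ (2 * k)) (m : ℤ) :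
    ∑ u ∈ U F k, (P k m u).card = 2 ^ k + 1 := by
  rw [← card_U hF]
  exact (card_eq_sum_card_fiberwise (f := fun z : F => z ^ m)
    (fun z hz => zpow_mem_U hz m)).symm

theorem card_P_coprime {m : ℤ} (hm : IsCoprime m ((2 ^ k + 1 : ℕ) : ℤ)) {u : F}
    (hu : u ∈ U F k) : (P k m u).card = 1 := by
  rw [card_eq_one]
  have h := hu
  rw [← image_zpow_U hm] at h
  obtain ⟨z, hz, hzu⟩ := mem_image.mp h
  refine ⟨z, ?_⟩
  ext y
  rw [P, mem_filter, mem_singleton]
  constructor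
  · rintro ⟨h1, h2⟩
    exact U_zpow_inj hm h1 hz (by rw [h2, hzu])
  · rintro rfl; exact ⟨hz, hzu⟩

variable [CharP F 2]

theorem SolZ_symm (s : ℤ) (a : F) : SolZ k (1 - s) a = SolZ k s a := by
  rw [SolZ, SolZ]
  apply filter_congr
  intro z hz
  have : z ^ (1 - 2 * (1 - s)) = (z ^ (1 - 2 * s))⁻¹ := by
    rw [← zpow_neg]; congr 1; ring
  rw [T_add, T_add, this, T_inv (zpow_mem_U hz _)]

theorem NZ_symm (s : ℤ) (a : F) : NZ k (1 - s) a = NZ k s a := by
  rw [NZ, NZ, SolZ_symm]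

theorem coprime_symm {s : ℤ} {n : ℤ} (hs : IsCoprime (1 - 2 * s) n) :
    IsCoprime (1 - 2 * (1 - s)) n := by
  have : 1 - 2 * (1 - s) = -(1 - 2 * s) := by ring
  rw [this]; exact IsCoprime.neg_left hs

/-- Values on the unit circle. -/
theorem NZ_U (hk : 1 ≤ k) {s : ℤ}
    (hs : IsCoprime (1 - 2 * s) ((2 ^ k + 1 : ℕ) : ℤ)) {u : F} (hu : u ∈ U F k) :
    NZ k s u + (if u = 1 then 1 else 0)
      = (P k (-2 * s) u).card + (P k (-2 * (1 - s)) u).card := by
  rw [← card_union_add_card_inter]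
  congr 1
  · rw [NZ]
    congr 1
    ext z
    rw [SolZ, mem_filter, mem_union, P, P, mem_filter, mem_filter, ← and_or_left]
    apply and_congr_right
    intro hz
    have hz0 := U_ne_zero hz
    rw [T_add, CharTwo.add_eq_zero, T_U_eq (mul_mem_U hu hz) (zpow_mem_U hz _), ← zpow_neg]
    have e1 : z ^ (1 - 2 * s) = z ^ (-2 * s) * z := by
      rw [← zpow_add_one₀ hz0]; congr 1; ring
    have e2 : z ^ (-(1 - 2 * s)) = z ^ (-2 * (1 - s)) * z := by
      rw [← zpow_add_one₀ hz0]; congr 1; ring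
    rw [e1, e2, mul_left_inj' hz0, mul_left_inj' hz0, eq_comm, eq_comm (a := u)]
  · symm
    split_ifs with h1
    · rw [card_eq_one]
      refine ⟨1, ?_⟩
      ext z
      rw [mem_inter, P, P, mem_filter, mem_filter, mem_singleton, h1]
      constructor
      · rintro ⟨⟨hz, ha⟩, -, hb⟩
        have hz0 := U_ne_zero hz
        have h2 : z ^ (1 - 2 * s) = 1 := by
          apply U_zpow_inj (isCoprime_two hk) (zpow_mem_U hz _) one_mem_U
          rw [one_zpow, ← zpow_mul]
          have : (1 - 2 * s) * 2 = (-2 * s) - (-2 * (1 - s)) := by ring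
          rw [this, zpow_sub₀ hz0, ha, hb, div_one]
        exact U_zpow_inj hs hz one_mem_U (by rw [h2, one_zpow])
      · rintro rfl
        exact ⟨⟨one_mem_U, one_zpow _⟩, one_mem_U, one_zpow _⟩
    · rw [card_eq_zero]
      ext z
      rw [mem_inter, P, P, mem_filter, mem_filter]
      constructor
      · rintro ⟨⟨hz, ha⟩, -, hb⟩
        exfalso
        have hz0 := U_ne_zero hz
        have hu0 := U_ne_zero hu
        have h2 : z ^ (1 - 2 * s) = 1 := by
          apply U_zpow_inj (isCoprime_two hk) (zpow_mem_U hz _) one_mem_U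
          rw [one_zpow, ← zpow_mul]
          have : (1 - 2 * s) * 2 = (-2 * s) - (-2 * (1 - s)) := by ring
          rw [this, zpow_sub₀ hz0, ha, hb, div_self hu0]
        have h3 : z = 1 := U_zpow_inj hs hz one_mem_U (by rw [h2, one_zpow])
        rw [h3, one_zpow] at ha
        exact h1 ha.symm
      · intro h; exact absurd h (notMem_empty _)

theorem sum_NZ_U (hk : 1 ≤ k) (hF : Fintype.card F = 2 ^ (2 * k)) {s : ℤ}
    (hs : IsCoprime (1 - 2 * s) ((2 ^ k + 1 : ℕ) : ℤ)) :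
    ∑ u ∈ U F k, NZ k s u + 1 = 2 * (2 ^ k + 1) := by
  have h1 : ∑ u ∈ U F k, (NZ k s u + (if u = 1 then 1 else 0))
      = ∑ u ∈ U F k, ((P k (-2 * s) u).card + (P k (-2 * (1 - s)) u).card) :=
    sum_congr rfl fun u hu => NZ_U hk hs hu
  rw [sum_add_distrib, sum_add_distrib, sum_P hF, sum_P hF] at h1
  rw [sum_ite_eq' (U F k) (1 : F), if_pos one_mem_U] at h1
  omega

theorem one_mem_SolZ_K {s : ℤ} {a : F} (ha : a ∈ K F k) : (1 : F) ∈ SolZ k s a := by
  rw [SolZ, mem_filter]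
  refine ⟨one_mem_U, ?_⟩
  rw [mul_one, one_zpow]
  exact T_K (add_mem_K ha one_mem_K)

/-- On the subfield the number of solutions is odd. -/
theorem NZ_K_odd {s : ℤ} {a : F} (ha : a ∈ K F k) : Odd (NZ k s a) := by
  have h1 : Even ((SolZ k s a).erase 1).card := by
    have h2 : ∑ x ∈ (SolZ k s a).erase 1, (1 : F) = 0 := by
      refine sum_involution (fun x _ => x⁻¹) ?_ ?_ ?_ ?_
      · intro x _; exact CharTwo.add_self_eq_zero 1
      · intro x hx _ hcon
        rw [mem_erase] at hx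
        have hxU : x ∈ U F k := (mem_filter.mp hx.2).1
        have hx0 := U_ne_zero hxU
        apply hx.1
        have h3 : T k x = 0 := by
          rw [T_U hxU, hcon, CharTwo.add_self_eq_zero]
        exact (T_U_eq_zero hxU).mp h3
      · intro x hx
        rw [mem_erase] at hx ⊢
        have hxU : x ∈ U F k := (mem_filter.mp hx.2).1
        have hx0 := U_ne_zero hxU
        constructor
        · intro h
          apply hx.1
          rw [← inv_inv x, h, inv_one]
        · rw [SolZ, mem_filter]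
          refine ⟨inv_mem_U hxU, ?_⟩
          have h4 := (mem_filter.mp hx.2).2
          rw [T_add, T_K_mul ha, T_inv hxU, inv_zpow, T_inv (zpow_mem_U hxU _), ← T_K_mul ha,
            ← T_add]
          exact h4
      · intro x _; exact inv_inv x
    rw [sum_const, nsmul_eq_mul, mul_one] at h2
    have := (CharP.cast_eq_zero_iff F 2 _).mp h2
    exact even_iff_two_dvd.mpr this
  rw [card_erase_of_mem (one_mem_SolZ_K ha)] at h1
  have hpos : 0 < (SolZ k s a).card := card_pos.mpr ⟨1, one_mem_SolZ_K ha⟩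
  rw [NZ]
  obtain ⟨c, hc⟩ := h1
  exact ⟨c, by omega⟩

theorem sum_NZ_K (hk : 1 ≤ k) (hF : Fintype.card F = 2 ^ (2 * k)) (s : ℤ) :
    ∑ a ∈ K F k, NZ k s a = 2 * 2 ^ k := by
  have h1 : ∀ a ∈ K F k, NZ k s a
      = ∑ z ∈ U F k, if T k (a * z + z ^ (1 - 2 * s)) = 0 then 1 else 0 := by
    intro a _
    rw [NZ, SolZ, card_filter]
  rw [sum_congr rfl h1, sum_comm, ← add_sum_erase (U F k) _ one_mem_U]
  have h2 : ∑ a ∈ K F k, (if T k (a * (1 : F) + 1 ^ (1 - 2 * s)) = 0 then 1 else 0) = 2 ^ k := by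
    have : ∀ a ∈ K F k, (if T k (a * (1 : F) + 1 ^ (1 - 2 * s)) = 0 then 1 else 0) = 1 := by
      intro a ha
      rw [if_pos]
      rw [mul_one, one_zpow]; exact T_K (add_mem_K ha one_mem_K)
    rw [sum_congr rfl this, sum_const, card_K hk hF]; simp
  have h3 : ∀ z ∈ (U F k).erase 1,
      ∑ a ∈ K F k, (if T k (a * z + z ^ (1 - 2 * s)) = 0 then 1 else 0) = 1 := by
    intro z hz
    have hT := T_ne_zero hz
    rw [← card_filter, card_eq_one]
    refine ⟨T k (z ^ (1 - 2 * s)) / T k z, ?_⟩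
    ext a
    rw [mem_filter, mem_singleton]
    constructor
    · rintro ⟨ha, h⟩
      rw [T_add, T_K_mul ha, CharTwo.add_eq_zero] at h
      rw [← h, mul_div_cancel_right₀ _ hT]
    · rintro rfl
      have hK : T k (z ^ (1 - 2 * s)) / T k z ∈ K F k := div_mem_K (T_mem_K hF _) (T_mem_K hF _)
      refine ⟨hK, ?_⟩
      rw [T_add, T_K_mul hK, div_mul_cancel₀ _ hT, CharTwo.add_self_eq_zero]
  rw [h2, sum_congr rfl h3, sum_const, card_U_erase hF]
  simp only [smul_eq_mul, mul_one]; ring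

theorem NZ_zero {s : ℤ} (hs : IsCoprime (1 - 2 * s) ((2 ^ k + 1 : ℕ) : ℤ)) :
    NZ k s (0 : F) = 1 := by
  rw [NZ, card_eq_one]
  refine ⟨1, ?_⟩
  ext z
  rw [SolZ, mem_filter, mem_singleton]
  constructor
  · rintro ⟨hz, h⟩
    rw [zero_mul, zero_add, T_U_eq_zero (zpow_mem_U hz _)] at h
    exact U_zpow_inj hs hz one_mem_U (by rw [h, one_zpow])
  · rintro rfl
    refine ⟨one_mem_U, ?_⟩
    rw [zero_mul, zero_add, one_zpow]; exact T_K one_mem_K

/-- identity behind collinearity -/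
theorem T_cross {m x y : F} (hm : m ∈ U F k) (hx : x ∈ U F k) (hy : y ∈ U F k) :
    T k (m * x) * T k y + T k (m * y) * T k x = T k m * T k (x / y) := by
  have hm0 := U_ne_zero hm
  have hx0 := U_ne_zero hx
  have hy0 := U_ne_zero hy
  have hxy : x / y ∈ U F k := by rw [div_eq_mul_inv]; exact mul_mem_U hx (inv_mem_U hy)
  rw [T_U (mul_mem_U hm hx), T_U (mul_mem_U hm hy), T_U hx, T_U hy, T_U hm, T_U hxy]
  have h2 : (2 : F) = 0 := CharTwo.two_eq_zero
  field_simp
  ring_nf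
  simp only [h2, mul_zero, zero_add, add_zero]

theorem gg_mul {s : ℤ} {x : F} (hx : x ∈ U F k) :
    gg k s x = x ^ (1 - s) * (T k (x ^ s) / T k x) := by
  have hx0 := U_ne_zero hx
  rw [gg, ← mul_div_assoc, T_U (zpow_mem_U hx s), mul_add, ← zpow_neg, ← zpow_add₀ hx0,
    ← zpow_add₀ hx0]
  congr 2
  · rw [sub_add_cancel, zpow_one]
  · congr 1; ring

theorem gg_conj (hF : Fintype.card F = 2 ^ (2 * k)) {s : ℤ} {x : F} (hx : x ∈ U F k) :
    (gg k s x) ^ (2 ^ k) = x ^ (s - 1) * (T k (x ^ s) / T k x) := by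
  have hx0 := U_ne_zero hx
  have hK : T k (x ^ s) / T k x ∈ K F k := div_mem_K (T_mem_K hF _) (T_mem_K hF _)
  rw [gg_mul hx, mul_pow, mem_K.mp hK, U_pow_q (zpow_mem_U hx _), ← zpow_neg, neg_sub]

theorem gg_eq (hk : 1 ≤ k) (hF : Fintype.card F = 2 ^ (2 * k)) {s : ℤ} {x y : F}
    (hx : x ∈ (U F k).erase 1) (hy : y ∈ (U F k).erase 1) (h : gg k s x = gg k s y) :
    x = y ∨ (x ^ s = 1 ∧ y ^ s = 1) ∨ (x ^ (1 - s) = 1 ∧ y ^ (1 - s) = 1) := by
  have hTx := T_ne_zero hx
  have hTy := T_ne_zero hy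
  rw [mem_erase] at hx hy
  have hxU := hx.2
  have hyU := hy.2
  have hx0 := U_ne_zero hxU
  have hy0 := U_ne_zero hyU
  by_cases h0 : T k (x ^ s) = 0
  · right; left
    refine ⟨(T_U_eq_zero (zpow_mem_U hxU s)).mp h0, ?_⟩
    rw [gg_mul hxU, gg_mul hyU, h0, zero_div, mul_zero] at h
    have h1 := h.symm
    rw [mul_eq_zero, div_eq_zero_iff] at h1
    rcases h1 with h1 | h1 | h1
    · exact absurd h1 (zpow_ne_zero _ hy0)
    · exact (T_U_eq_zero (zpow_mem_U hyU s)).mp h1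
    · exact absurd h1 hTy
  · have hc : (gg k s x) ^ (2 ^ k) = (gg k s y) ^ (2 ^ k) := by rw [h]
    rw [gg_conj hF hxU, gg_conj hF hyU] at hc
    rw [gg_mul hxU, gg_mul hyU] at h
    set A := T k (x ^ s) / T k x with hA
    set B := T k (y ^ s) / T k y with hB
    have hA0 : A ≠ 0 := div_ne_zero h0 hTx
    have hxs : x ^ (s - 1) ≠ 0 := zpow_ne_zero _ hx0
    have hys : y ^ (s - 1) ≠ 0 := zpow_ne_zero _ hy0
    have ex : x ^ (1 - s) = (x ^ (s - 1))⁻¹ := by rw [← zpow_neg]; congr 1; ring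
    have ey : y ^ (1 - s) = (y ^ (s - 1))⁻¹ := by rw [← zpow_neg]; congr 1; ring
    rw [ex, ey] at h
    have hB0 : B ≠ 0 := by
      intro hB0
      rw [hB0, mul_zero] at hc
      exact (mul_ne_zero hxs hA0) hc
    -- squares agree
    have hsq : (x ^ (s - 1)) ^ (2 : ℤ) = (y ^ (s - 1)) ^ (2 : ℤ) := by
      rw [zpow_ofNat, zpow_ofNat]
      have h1 : x ^ (s - 1) * A * ((y ^ (s - 1))⁻¹ * B) = y ^ (s - 1) * B * ((x ^ (s - 1))⁻¹ * A) := by
        rw [hc, h]
      field_simp at h1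
      exact h1
    have hm : x ^ (s - 1) = y ^ (s - 1) :=
      U_zpow_inj (isCoprime_two hk) (zpow_mem_U hxU _) (zpow_mem_U hyU _) hsq
    have hAB : A = B := by
      rw [hm] at hc
      exact mul_left_cancel₀ hys hc
    have hcross : T k (x ^ s) * T k y + T k (y ^ s) * T k x = 0 := by
      rw [hA, hB, div_eq_div_iff hTx hTy] at hAB
      rw [hAB, CharTwo.add_self_eq_zero]
    have e1 : x ^ s = x ^ (s - 1) * x := by rw [← zpow_add_one₀ hx0]; congr 1; ring
    have e2 : y ^ s = x ^ (s - 1) * y := by rw [hm, ← zpow_add_one₀ hy0]; congr 1; ring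
    rw [e1, e2, T_cross (zpow_mem_U hxU _) hxU hyU, mul_eq_zero] at hcross
    rcases hcross with h1 | h1
    · right; right
      have h2 := (T_U_eq_zero (zpow_mem_U hxU _)).mp h1
      rw [ex, ey, ← hm, h2, inv_one]
      exact ⟨rfl, rfl⟩
    · left
      have hxy : x / y ∈ U F k := by rw [div_eq_mul_inv]; exact mul_mem_U hxU (inv_mem_U hyU)
      have h2 := (T_U_eq_zero hxy).mp h1
      rwa [div_eq_one_iff_eq hy0] at h2

end Pool.Agent.Helper992
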