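import Pool.Agent.Helper992.Ge
import Pool.Agent.Helper992.Dim

set_option autoImplicit false
set_option linter.unusedSectionVars false
open scoped Classical

namespace Pool.Agent.Helper992

open Finset MvPolynomial

variable {F : Type*} [Field F]

/-- evaluation at a point -/
noncomputable def ev (v0 v1 : F) : MvPolynomial (Fin 2) F →ₐ[F] F := aeval ![v0, v1]

theorem ev_rl (x y t : F) (p : MvPolynomial (Fin 2) F) :
    Polynomial.eval t (rl x y p) = ev (x * t + y) t p := by
  induction p using MvPolynomial.induction_on with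
  | C a => rw [sb_C, Polynomial.eval_C, ev, algHom_C]; rfl
  | add p q hp hq => rw [map_add, map_add, Polynomial.eval_add, hp, hq]
  | mul_X p i hp =>
    rw [map_mul, map_mul, Polynomial.eval_mul, hp]
    congr 1
    fin_cases i
    · simp [sb_X0, ev]
    · simp [sb_X1, ev]

theorem ev_ro (s t : F) (p : MvPolynomial (Fin 2) F) :
    Polynomial.eval s (ro t p) = ev s t p := by
  induction p using MvPolynomial.induction_on with
  | C a => rw [sb_C, Polynomial.eval_C, ev, algHom_C]; rfl
  | add p q hp hq => rw [map_add, map_add, Polynomial.eval_add, hp, hq]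
  | mul_X p i hp =>
    rw [map_mul, map_mul, Polynomial.eval_mul, hp]
    congr 1
    fin_cases i
    · simp [sb_X0, ev]
    · simp [sb_X1, ev]

/-- relations along the lines of the arrangement, with roots of level `i` -/
def Sec (K : Finset F) (f : F → F) (i : ℕ) (a b c : MvPolynomial (Fin 2) F) : Prop :=
  ∀ x ∈ K, ∀ z w : F, z ^ (2 ^ i) = x → w ^ (2 ^ i) = f x →
    rl x (f x) a = Polynomial.C z * rl x (f x) b + Polynomial.C w * rl x (f x) c

/-- there is a nonzero relation of degree at most `n` -/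
def gd (K : Finset F) (f : F → F) (n : ℕ) : Prop :=
  ∃ a b c : MvPolynomial (Fin 2) F, (a ≠ 0 ∨ b ≠ 0 ∨ c ≠ 0) ∧
    a.totalDegree ≤ n ∧ b.totalDegree ≤ n ∧ c.totalDegree ≤ n ∧ Sec K f 1 a b c

variable [CharP F 2] {K : Finset F} {k : ℕ} {f : F → F}

theorem sq_eq_zero_of {a b c z w α β : F} (h1 : a ^ 2 = β) (h2 : c ^ 2 = α) (h3 : z ^ 2 = b)
    (h4 : w ^ 2 + b * α + β = 0) : a + z * c + w = 0 := by
  have h5 : (a + z * c + w) ^ 2 = 0 := by
    rw [CharTwo.add_sq, CharTwo.add_sq, mul_pow, h1, h2, h3, ← h4]; ring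
  exact (pow_eq_zero_iff (by norm_num)).mp h5

theorem Ge.ex_gd (G : Ge F K k f) (hsq : ∀ a : F, ∃ b, b ^ 2 = a) : gd K f (EE k - 1) := by
  choose sq hs using hsq
  set N := EE k - 1 with hN
  have he3 := G.three_EE
  have hq := G.q_ge
  have hMP := G.card_MP
  have he : EE k = N + 1 := by omega
  let V := Vn F N
  let ι : V →ₗ[F] MvPolynomial (Fin 2) F := V.subtype
  let pa : (V × V × V) →ₗ[F] MvPolynomial (Fin 2) F := ι.comp (LinearMap.fst F V (V × V))
  let pb : (V × V × V) →ₗ[F] MvPolynomial (Fin 2) F :=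
    ι.comp ((LinearMap.fst F V V).comp (LinearMap.snd F V (V × V)))
  let pc : (V × V × V) →ₗ[F] MvPolynomial (Fin 2) F :=
    ι.comp ((LinearMap.snd F V V).comp (LinearMap.snd F V (V × V)))
  let Ψ1 : (V × V × V) →ₗ[F] (MP K f → F) := LinearMap.pi (fun p =>
    (ev p.1.2 p.1.1).toLinearMap.comp pa + (sq p.1.2) • ((ev p.1.2 p.1.1).toLinearMap.comp pc))
  let Ψ2 : (V × V × V) →ₗ[F] (MP K f → F) := LinearMap.pi (fun p =>
    (ev p.1.2 p.1.1).toLinearMap.comp pb + (sq p.1.1) • ((ev p.1.2 p.1.1).toLinearMap.comp pc))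
  have hker : LinearMap.ker (Ψ1.prod Ψ2) ≠ ⊥ := by
    apply LinearMap.ker_ne_bot_of_finrank_lt
    rw [Module.finrank_prod, Module.finrank_prod, Module.finrank_prod,
      Module.finrank_fintype_fun_eq_card, finrank_Vn, Fintype.card_coe]
    have h1 := card_Tri N
    have h2 : 4 * (MP K f).card = (3 * EE k + 1) * EE k := by
      have h3 : 2 ^ k = 3 * EE k + 1 := by omega
      rw [h3] at hMP
      have h4 : (3 * EE k + 1) * (3 * EE k + 1 - 1) = 3 * ((3 * EE k + 1) * EE k) := by
        rw [Nat.add_sub_cancel]; ring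
      rw [h4] at hMP
      omega
    rw [he] at h2
    nlinarith
  obtain ⟨⟨a, b, c⟩, hmem, hne⟩ := Submodule.exists_mem_ne_zero_of_ne_bot hker
  rw [LinearMap.mem_ker, LinearMap.prod_apply] at hmem
  have hm1 : Ψ1 (a, b, c) = 0 := (Prod.mk.inj hmem).1
  have hm2 : Ψ2 (a, b, c) = 0 := (Prod.mk.inj hmem).2
  have hda := (mem_restrictTotalDegree _ _ _).mp a.2
  have hdb := (mem_restrictTotalDegree _ _ _).mp b.2
  have hdc := (mem_restrictTotalDegree _ _ _).mp c.2
  refine ⟨a.1, b.1, c.1, ?_, hda, hdb, hdc, ?_⟩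
  · by_contra hcon
    push Not at hcon
    apply hne
    have ha : a = 0 := Subtype.ext hcon.1
    have hb : b = 0 := Subtype.ext hcon.2.1
    have hc : c = 0 := Subtype.ext hcon.2.2
    rw [ha, hb, hc]; rfl
  · intro x hx z w hz hw
    rw [pow_one] at hz hw
    have key : rl x (f x) a.1 + (Polynomial.C z * rl x (f x) b.1
        + Polynomial.C w * rl x (f x) c.1) = 0 := by
      apply Polynomial.eq_zero_of_natDegree_lt_card_of_eval_eq_zero' _ (A4 K f x)
      · intro α hα
        have h4 := hα
        rw [A4, mem_filter] at h4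
        have hβK : α * x + f x ∈ K := G.addK (G.mulK h4.1 hx) (G.fK x hx)
        have hp : (α, α * x + f x) ∈ MP K f := by
          rw [MP, mem_filter, mem_product]
          exact ⟨⟨h4.1, hβK⟩, h4.2⟩
        have e1 := congrFun hm1 ⟨(α, α * x + f x), hp⟩
        have e2 := congrFun hm2 ⟨(α, α * x + f x), hp⟩
        have e1' : ev (α * x + f x) α a.1 + sq (α * x + f x) * ev (α * x + f x) α c.1 = 0 := e1
        have e2' : ev (α * x + f x) α b.1 + sq α * ev (α * x + f x) α c.1 = 0 := e2
        rw [Polynomial.eval_add, Polynomial.eval_add, Polynomial.eval_mul, Polynomial.eval_mul,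
          Polynomial.eval_C, Polynomial.eval_C, ev_rl, ev_rl, ev_rl, mul_comm x α,
          CharTwo.add_eq_zero.mp e1', CharTwo.add_eq_zero.mp e2']
        have e3 : sq (α * x + f x) + z * sq α + w = 0 := by
          apply sq_eq_zero_of (hs _) (hs _) hz
          rw [hw]
          have : f x + x * α + (α * x + f x) = (f x + f x) + (x * α + x * α) := by ring
          rw [this, CharTwo.add_self_eq_zero, CharTwo.add_self_eq_zero, add_zero]
        have e4 : sq (α * x + f x) * ev (α * x + f x) α c.1
            + (z * (sq α * ev (α * x + f x) α c.1) + w * ev (α * x + f x) α c.1)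
            = (sq (α * x + f x) + z * sq α + w) * ev (α * x + f x) α c.1 := by ring
        rw [e4, e3, zero_mul]
      · rw [G.card_A4 hx, he]
        refine Nat.lt_succ_of_le ?_
        refine (Polynomial.natDegree_add_le _ _).trans (max_le (rl_deg x (f x) hda) ?_)
        refine (Polynomial.natDegree_add_le _ _).trans (max_le ?_ ?_)
        · exact (Polynomial.natDegree_C_mul_le _ _).trans (rl_deg x (f x) hdb)
        · exact (Polynomial.natDegree_C_mul_le _ _).trans (rl_deg x (f x) hdc)
    exact CharTwo.add_eq_zero.mp key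

end Pool.Agent.Helper992
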