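import Pool.Agent.Helper992.Quad1

set_option autoImplicit false
set_option linter.unusedSectionVars false
open scoped Classical

namespace Pool.Agent.Helper992

open Finset MvPolynomial

variable {F : Type*} [Field F] [CharP F 2] {K : Finset F} {k : ℕ} {f : F → F}

theorem sq_inj' {R : Type*} [CommRing R] [IsDomain R] [CharP R 2] {A B : R} (h : A ^ 2 = B ^ 2) :
    A = B := by
  have h1 : (A + B) ^ 2 = 0 := by
    rw [CharTwo.add_sq, h, CharTwo.add_self_eq_zero]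
  exact CharTwo.add_eq_zero.mp ((pow_eq_zero_iff (by norm_num)).mp h1)

theorem sec_of_sq {i : ℕ} {a b c : MvPolynomial (Fin 2) F} (h : Sec K f i (a ^ 2) (b ^ 2) (c ^ 2)) :
    Sec K f (i + 1) a b c := by
  intro x hx z w hz hw
  have e : ∀ u : F, (u ^ 2) ^ (2 ^ i) = u ^ (2 ^ (i + 1)) := by
    intro u; rw [← pow_mul, ← pow_succ']
  have h1 := h x hx (z ^ 2) (w ^ 2) (by rw [e, hz]) (by rw [e, hw])
  apply sq_inj'
  rw [CharTwo.add_sq, mul_pow, mul_pow]
  simp only [← map_pow]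
  exact h1

theorem sec_sq (hsq : ∀ a : F, ∃ b, b ^ 2 = a) {i : ℕ} {a b c : MvPolynomial (Fin 2) F}
    (h : Sec K f (i + 1) a b c) : Sec K f i (a ^ 2) (b ^ 2) (c ^ 2) := by
  intro x hx z w hz hw
  obtain ⟨z', hz'⟩ := hsq z
  obtain ⟨w', hw'⟩ := hsq w
  have e : ∀ u : F, u ^ (2 ^ (i + 1)) = (u ^ 2) ^ (2 ^ i) := by
    intro u; rw [← pow_mul, ← pow_succ']
  have h1 := h x hx z' w' (by rw [e, hz', hz]) (by rw [e, hw', hw])
  rw [map_pow, map_pow, map_pow, h1, CharTwo.add_sq, mul_pow, mul_pow, ← Polynomial.C_pow,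
    ← Polynomial.C_pow, hz', hw']

theorem sq_deg (q : MvPolynomial (Fin 2) F) : (q ^ 2).totalDegree = 2 * q.totalDegree := by
  by_cases h : q = 0
  · rw [h]; simp
  · rw [sq, totalDegree_mul_of_isDomain h h]; ring

/-- the Hamiltonian lemma -/
theorem ham (hsq : ∀ a : F, ∃ b, b ^ 2 = a) {g : MvPolynomial (Fin 2) F} {N : ℕ} (hN : 1 ≤ N)
    (hdeg : g.totalDegree ≤ 2 * N) (hg : ∀ x ∈ K, Polynomial.derivative (rl x (f x) g) = 0)
    (hne : pderiv 0 g ≠ 0 ∨ pderiv 1 g ≠ 0) : gd K f (N - 1) := by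
  set D0 := pderiv 0 g with hD0
  set D1 := pderiv 1 g with hD1
  set D2 := pderiv 0 D1 with hD2
  have h10 : pderiv 1 D0 = D2 := by rw [hD0, hD2, hD1, pderiv_comm]
  have h02 : pderiv 0 D2 = 0 := by rw [hD2, pderiv_pderiv]
  have h12 : pderiv 1 D2 = 0 := by rw [← h10, pderiv_pderiv]
  have h01 : pderiv 0 D0 = 0 := pderiv_pderiv 0 g
  have h11 : pderiv 1 D1 = 0 := pderiv_pderiv 1 g
  obtain ⟨G3, hG3⟩ := exists_sqrt hsq h02 h12
  obtain ⟨G1, hG1⟩ := exists_sqrt hsq (p := D0 + X 1 * D2)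
    (by rw [map_add, pderiv_mul, h01, h02, pderiv_X_of_ne (show (1 : Fin 2) ≠ 0 by decide)]; ring)
    (by
      rw [map_add, pderiv_mul, h10, h12, pderiv_X_self]
      have : D2 + (1 * D2 + X 1 * 0) = D2 + D2 := by ring
      rw [this, CharTwo.add_self_eq_zero])
  obtain ⟨G2, hG2⟩ := exists_sqrt hsq (p := D1 + X 0 * D2)
    (by
      rw [map_add, pderiv_mul, ← hD2, h02, pderiv_X_self]
      have : D2 + (1 * D2 + X 0 * 0) = D2 + D2 := by ring
      rw [this, CharTwo.add_self_eq_zero])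
    (by rw [map_add, pderiv_mul, h11, h12, pderiv_X_of_ne (show (0 : Fin 2) ≠ 1 by decide)]; ring)
  have d0 : D0.totalDegree ≤ 2 * N - 1 := by
    have := pderiv_deg 0 g
    rw [← hD0] at this; omega
  have d1 : D1.totalDegree ≤ 2 * N - 1 := by
    have := pderiv_deg 1 g
    rw [← hD1] at this; omega
  have d2 : D2.totalDegree ≤ 2 * N - 2 := by
    have := pderiv_deg 0 D1
    rw [← hD2] at this; omega
  have dX : ∀ i : Fin 2, (X i * D2 : MvPolynomial (Fin 2) F).totalDegree ≤ 2 * N - 1 := by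
    intro i
    refine (totalDegree_mul _ _).trans ?_
    rw [totalDegree_X]; omega
  refine ⟨G2, G1, G3, ?_, ?_, ?_, ?_, ?_⟩
  · by_contra hcon
    push Not at hcon
    obtain ⟨hg2, hg1, hg3⟩ := hcon
    rw [hg3] at hG3
    rw [hg1, hG3] at hG1
    rw [hg2, hG3] at hG2
    rcases hne with h | h
    · apply h; simpa using hG1
    · apply h; simpa using hG2
  · have h1 := sq_deg G2
    rw [← hG2] at h1
    have h2 := (totalDegree_add D1 (X 0 * D2)).trans (max_le d1 (dX 0))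
    omega
  · have h1 := sq_deg G1
    rw [← hG1] at h1
    have h2 := (totalDegree_add D0 (X 1 * D2)).trans (max_le d0 (dX 1))
    omega
  · have h1 := sq_deg G3
    rw [← hG3] at h1
    omega
  · intro x hx z w hz hw
    rw [pow_one] at hz hw
    apply sq_inj'
    rw [CharTwo.add_sq, mul_pow, mul_pow]
    simp only [← map_pow]
    rw [hz, hw, ← hG2, ← hG1, ← hG3]
    have h1 := hg x hx
    rw [rl_deriv, ← hD0, ← hD1] at h1
    simp only [map_add, map_mul, sb_X0, sb_X1]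
    apply CharTwo.add_eq_zero.mp
    rw [← h1]
    set r0 := rl x (f x) D0
    set r1 := rl x (f x) D1
    set r2 := rl x (f x) D2
    have e : r1 + (Polynomial.C x * Polynomial.X + Polynomial.C (f x)) * r2
        + (Polynomial.C x * (r0 + Polynomial.X * r2) + Polynomial.C (f x) * r2)
        = (Polynomial.C x * r0 + r1) + (Polynomial.C x * Polynomial.X * r2
          + Polynomial.C x * Polynomial.X * r2)
          + (Polynomial.C (f x) * r2 + Polynomial.C (f x) * r2) := by ring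
    rw [e, CharTwo.add_self_eq_zero, CharTwo.add_self_eq_zero, add_zero, add_zero]

/-- relation on one line -/
def SecAt (f : F → F) (i : ℕ) (a b c : MvPolynomial (Fin 2) F) (x : F) : Prop :=
  ∀ z w : F, z ^ (2 ^ i) = x → w ^ (2 ^ i) = f x →
    rl x (f x) a = Polynomial.C z * rl x (f x) b + Polynomial.C w * rl x (f x) c

theorem root_it (hsq : ∀ a : F, ∃ b, b ^ 2 = a) (i : ℕ) (a : F) : ∃ b, b ^ (2 ^ i) = a := by
  induction i generalizing a with
  | zero => exact ⟨a, by simp⟩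
  | succ i ih =>
    obtain ⟨b, hb⟩ := ih a
    obtain ⟨c, hc⟩ := hsq b
    exact ⟨c, by rw [pow_succ', pow_mul, hc, hb]⟩

theorem mpt_two (hsq : ∀ a : F, ∃ b, b ^ 2 = a) {i : ℕ} {a b c : MvPolynomial (Fin 2) F}
    {y1 y2 α β ρ0 ρ1 : F} (h1 : SecAt f i a b c y1) (h2 : SecAt f i a b c y2) (hne : y1 ≠ y2)
    (e1 : y1 * α + f y1 = β) (e2 : y2 * α + f y2 = β) (h0 : ρ0 ^ (2 ^ i) = β)
    (h1' : ρ1 ^ (2 ^ i) = α) :
    ev β α a = ρ0 * ev β α c ∧ ev β α b = ρ1 * ev β α c := by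
  have key : ∀ y, SecAt f i a b c y → y * α + f y = β → ∃ z, z ^ (2 ^ i) = y ∧
      ev β α a = z * ev β α b + (ρ0 + z * ρ1) * ev β α c := by
    intro y hy hyβ
    obtain ⟨z, hz⟩ := root_it hsq i y
    refine ⟨z, hz, ?_⟩
    have hw : (ρ0 + z * ρ1) ^ (2 ^ i) = f y := by
      rw [add_pow_char_pow, mul_pow, h0, h1', hz, ← hyβ]
      have : y * α + f y + y * α = f y + (y * α + y * α) := by ring
      rw [this, CharTwo.add_self_eq_zero, add_zero]
    have h3 := congrArg (Polynomial.eval α) (hy z _ hz hw)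
    rw [Polynomial.eval_add, Polynomial.eval_mul, Polynomial.eval_mul, Polynomial.eval_C,
      Polynomial.eval_C, ev_rl, ev_rl, ev_rl, hyβ] at h3
    exact h3
  obtain ⟨z1, hz1, k1⟩ := key y1 h1 e1
  obtain ⟨z2, hz2, k2⟩ := key y2 h2 e2
  have hz : z1 ≠ z2 := by
    rintro rfl
    exact hne (hz1.symm.trans hz2)
  have hz' : z1 + z2 ≠ 0 := fun h => hz (CharTwo.add_eq_zero.mp h)
  set A := ev β α a
  set B := ev β α b
  set C' := ev β α c
  have h3 : (z1 + z2) * (B + ρ1 * C') = 0 := by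
    have e : (z1 + z2) * (B + ρ1 * C') = (z1 * B + (ρ0 + z1 * ρ1) * C')
        + (z2 * B + (ρ0 + z2 * ρ1) * C') - (ρ0 * C' + ρ0 * C') := by ring
    rw [e, ← k1, ← k2, CharTwo.add_self_eq_zero, CharTwo.add_self_eq_zero, sub_zero]
  have h4 : B = ρ1 * C' := CharTwo.add_eq_zero.mp ((mul_eq_zero.mp h3).resolve_left hz')
  refine ⟨?_, h4⟩
  rw [k1, h4]
  have : z1 * (ρ1 * C') + (ρ0 + z1 * ρ1) * C' = ρ0 * C' + (z1 * (ρ1 * C') + z1 * (ρ1 * C')) := by
    ring
  rw [this, CharTwo.add_self_eq_zero, add_zero]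

/-- evaluation at a full line -/
theorem Ge.mpt (G : Ge F K k f) (hsq : ∀ a : F, ∃ b, b ^ 2 = a) {i : ℕ}
    {a b c : MvPolynomial (Fin 2) F} (S : Sec K f i a b c) {x α ρ0 ρ1 : F} (hx : x ∈ K)
    (hα : α ∈ A4 K f x) (h0 : ρ0 ^ (2 ^ i) = x * α + f x) (h1 : ρ1 ^ (2 ^ i) = α) :
    ev (x * α + f x) α a = ρ0 * ev (x * α + f x) α c ∧
      ev (x * α + f x) α b = ρ1 * ev (x * α + f x) α c := by
  obtain ⟨_, h3, h4, h5⟩ := G.four_pts hx hα
  obtain ⟨y, hy, hyx⟩ := exists_mem_ne (by omega : 1 < (ln K f α (α * x + f x)).card) x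
  have h6 := h5 y hy
  exact mpt_two hsq (fun z w => S x hx z w) (fun z w => S y h6.1 z w) (Ne.symm hyx) rfl h6.2 h0 h1

end Pool.Agent.Helper992
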