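import Pool.Agent.Helper992.Quad2

set_option autoImplicit false
set_option linter.unusedSectionVars false
open scoped Classical

namespace Pool.Agent.Helper992

open Finset MvPolynomial

variable {F : Type*} [Field F] [CharP F 2] {K : Finset F} {k : ℕ} {f : F → F}

/-- a minimal relation -/
structure MQ (K : Finset F) (k : ℕ) (f : F → F) (n : ℕ) (a b c : MvPolynomial (Fin 2) F) :
    Prop where
  ne : a ≠ 0 ∨ b ≠ 0 ∨ c ≠ 0
  da : a.totalDegree ≤ n
  db : b.totalDegree ≤ n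
  dc : c.totalDegree ≤ n
  sec : Sec K f 1 a b c
  min : ∀ m, gd K f m → n ≤ m
  le : n + 1 ≤ EE k

theorem exists_two_ne {s : Finset F} (h : 3 ≤ s.card) (x : F) :
    ∃ y ∈ s, ∃ y' ∈ s, y ≠ x ∧ y' ≠ x ∧ y ≠ y' := by
  have h1 : 2 ≤ (s.erase x).card := by
    have := pred_card_le_card_erase (s := s) (a := x)
    omega
  obtain ⟨y, hy⟩ := card_pos.mp (by omega : 0 < (s.erase x).card)
  obtain ⟨y', hy', hne⟩ := exists_mem_ne (by omega : 1 < (s.erase x).card) y
  rw [mem_erase] at hy hy'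
  exact ⟨y, hy.2, y', hy'.2, hy.1, hy'.1, Ne.symm hne⟩

theorem Ge.sec_of_others (G : Ge F K k f) (hsq : ∀ a : F, ∃ b, b ^ 2 = a) {i : ℕ}
    {a b c : MvPolynomial (Fin 2) F} {n : ℕ} (hn : n + 1 ≤ EE k) (da : a.totalDegree ≤ n)
    (db : b.totalDegree ≤ n) (dc : c.totalDegree ≤ n) (x : F)
    (h : ∀ y ∈ K, y ≠ x → SecAt f i a b c y) : Sec K f i a b c := by
  intro y hy z w hz hw
  by_cases hyx : y ≠ x
  · exact h y hy hyx z w hz hw
  · push Not at hyx
    subst hyx
    apply CharTwo.add_eq_zero.mp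
    apply Polynomial.eq_zero_of_natDegree_lt_card_of_eval_eq_zero' _ (A4 K f y)
    · intro α hα
      obtain ⟨_, h3, h4, h5⟩ := G.four_pts hy hα
      obtain ⟨y1, hy1, y2, hy2, n1, n2, n3⟩ := exists_two_ne (by omega :
        3 ≤ (ln K f α (α * y + f y)).card) y
      have h6 := h5 y1 hy1
      have h7 := h5 y2 hy2
      obtain ⟨ρ0, h0⟩ := root_it hsq i (y * α + f y)
      obtain ⟨ρ1, h1⟩ := root_it hsq i α
      obtain ⟨k1, k2⟩ := mpt_two hsq (h y1 h6.1 n1) (h y2 h7.1 n2) n3 h6.2 h7.2 h0 h1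
      rw [Polynomial.eval_add, Polynomial.eval_add, Polynomial.eval_mul, Polynomial.eval_mul,
        Polynomial.eval_C, Polynomial.eval_C, ev_rl, ev_rl, ev_rl, k1, k2]
      have e3 : ρ0 + z * ρ1 + w = 0 := by
        have e4 : (ρ0 + z * ρ1 + w) ^ (2 ^ i) = 0 := by
          rw [add_pow_char_pow, add_pow_char_pow, mul_pow, h0, h1, hz, hw]
          have : y * α + f y + y * α + f y = (y * α + y * α) + (f y + f y) := by ring
          rw [this, CharTwo.add_self_eq_zero, CharTwo.add_self_eq_zero, add_zero]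
        exact (pow_eq_zero_iff (by positivity)).mp e4
      have e4 : ρ0 * ev (y * α + f y) α c
          + (z * (ρ1 * ev (y * α + f y) α c) + w * ev (y * α + f y) α c)
          = (ρ0 + z * ρ1 + w) * ev (y * α + f y) α c := by ring
      rw [e4, e3, zero_mul]
    · rw [G.card_A4 hy]
      refine lt_of_le_of_lt ?_ (by omega : n < EE k)
      refine (Polynomial.natDegree_add_le _ _).trans (max_le (rl_deg y (f y) da) ?_)
      refine (Polynomial.natDegree_add_le _ _).trans (max_le ?_ ?_)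
      · exact (Polynomial.natDegree_C_mul_le _ _).trans (rl_deg y (f y) db)
      · exact (Polynomial.natDegree_C_mul_le _ _).trans (rl_deg y (f y) dc)

theorem irr_deg {l : MvPolynomial (Fin 2) F} (hl : Irreducible l) : 1 ≤ l.totalDegree := by
  by_contra h0
  have h0' : l.totalDegree = 0 := by omega
  rw [totalDegree_eq_zero_iff_eq_C] at h0'
  have hc : coeff 0 l ≠ 0 := by
    intro hc
    rw [hc, map_zero] at h0'
    exact hl.ne_zero h0'
  apply hl.not_isUnit
  rw [h0']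
  exact (IsUnit.mk0 _ hc).map C

theorem Ge.prim (G : Ge F K k f) (hsq : ∀ a : F, ∃ b, b ^ 2 = a) {n : ℕ}
    {a b c : MvPolynomial (Fin 2) F} (H : MQ K k f n a b c) :
    ∀ d, d ∣ a → d ∣ b → d ∣ c → IsUnit d := by
  intro d hda hdb hdc
  by_contra hu
  have hd0 : d ≠ 0 := by
    rintro rfl
    rcases H.ne with h | h | h
    · exact h (zero_dvd_iff.mp hda)
    · exact h (zero_dvd_iff.mp hdb)
    · exact h (zero_dvd_iff.mp hdc)
  obtain ⟨π, hπ, hπd⟩ := WfDvdMonoid.exists_irreducible_factor hu hd0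
  obtain ⟨a', ha'⟩ := hπd.trans hda
  obtain ⟨b', hb'⟩ := hπd.trans hdb
  obtain ⟨c', hc'⟩ := hπd.trans hdc
  have hdeg : ∀ p p' : MvPolynomial (Fin 2) F, p = π * p' → p.totalDegree ≤ n → p' ≠ 0 →
      p'.totalDegree + 1 ≤ n := by
    intro p p' hp hpn hp0
    have h1 := totalDegree_mul_of_isDomain hπ.ne_zero hp0
    have h2 := irr_deg hπ
    rw [← hp] at h1
    omega
  have hne : a' ≠ 0 ∨ b' ≠ 0 ∨ c' ≠ 0 := by
    by_contra hcon
    push Not at hcon
    obtain ⟨h1, h2, h3⟩ := hcon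
    rw [h1, mul_zero] at ha'
    rw [h2, mul_zero] at hb'
    rw [h3, mul_zero] at hc'
    rcases H.ne with h | h | h
    · exact h ha'
    · exact h hb'
    · exact h hc'
  have hn1 : 1 ≤ n := by
    rcases hne with h | h | h
    · have := hdeg a a' ha' H.da h; omega
    · have := hdeg b b' hb' H.db h; omega
    · have := hdeg c c' hc' H.dc h; omega
  have hdeg' : ∀ p p' : MvPolynomial (Fin 2) F, p = π * p' → p.totalDegree ≤ n →
      p'.totalDegree ≤ n - 1 := by
    intro p p' hp hpn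
    by_cases h : p' = 0
    · rw [h, totalDegree_zero]; omega
    · have := hdeg p p' hp hpn h; omega
  have hx : ∃ x, ∀ y ∈ K, y ≠ x → rl y (f y) π ≠ 0 := by
    by_cases hex : ∃ x ∈ K, rl x (f x) π = 0
    · obtain ⟨x, _, hxπ⟩ := hex
      refine ⟨x, fun y _ hyx h0 => hyx ?_⟩
      rw [← lf_dvd_iff] at hxπ h0
      have has : Associated π (lf x (f x)) :=
        (hπ.associated_of_dvd (lf_prime x (f x)).irreducible
          ((lf_prime x (f x)).irreducible.associated_of_dvd hπ hxπ).symm.dvd)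
      have h1 : lf y (f y) ∣ lf x (f x) := h0.trans has.dvd
      rw [lf_dvd_iff, rl_lf] at h1
      have h2 := congrArg (fun g => Polynomial.coeff g 1) h1
      simp at h2
      exact sub_eq_zero.mp h2
    · push Not at hex
      exact ⟨0, fun y hy _ => hex y hy⟩
  obtain ⟨x, hx⟩ := hx
  have hS : Sec K f 1 a' b' c' := by
    apply G.sec_of_others hsq (n := n - 1) (by have := H.le; omega) (hdeg' a a' ha' H.da)
      (hdeg' b b' hb' H.db) (hdeg' c c' hc' H.dc) x
    intro y hy hyx z w hz hw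
    have h1 := H.sec y hy z w hz hw
    apply mul_left_cancel₀ (hx y hy hyx)
    rw [ha', hb', hc', map_mul, map_mul, map_mul] at h1
    rw [h1]; ring
  have := H.min (n - 1) ⟨a', b', c', hne, hdeg' a a' ha' H.da, hdeg' b b' hb' H.db,
    hdeg' c c' hc' H.dc, hS⟩
  omega

theorem cubic_coeff {p3 p2 p1 p0 : F}
    (h : Polynomial.C p3 * Polynomial.X ^ 3 + Polynomial.C p2 * Polynomial.X ^ 2
      + Polynomial.C p1 * Polynomial.X + Polynomial.C p0 = 0) :
    p3 = 0 ∧ p2 = 0 ∧ p1 = 0 ∧ p0 = 0 := by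
  have c3 := congrArg (fun g => Polynomial.coeff g 3) h
  have c2 := congrArg (fun g => Polynomial.coeff g 2) h
  have c1 := congrArg (fun g => Polynomial.coeff g 1) h
  have c0 := congrArg (fun g => Polynomial.coeff g 0) h
  simp [Polynomial.coeff_X, Polynomial.coeff_C, Polynomial.coeff_X_pow] at c3 c2 c1 c0
  exact ⟨c3, c2, c1, c0⟩

/-- first order relations at a full line -/
theorem Ge.four_rel (G : Ge F K k f) (hsq : ∀ a : F, ∃ b, b ^ 2 = a)
    {a b c : MvPolynomial (Fin 2) F} (S : Sec K f 1 a b c) {x α ρ0 ρ1 : F} (hx : x ∈ K)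
    (hα : α ∈ A4 K f x) (h0 : ρ0 ^ 2 = x * α + f x) (h1 : ρ1 ^ 2 = α) :
    (ev (x * α + f x) α (pderiv 0 a) = ρ0 * ev (x * α + f x) α (pderiv 0 c) ∧
      ev (x * α + f x) α (pderiv 0 b) = ρ1 * ev (x * α + f x) α (pderiv 0 c)) ∧
    (ev (x * α + f x) α (pderiv 1 a) = ρ0 * ev (x * α + f x) α (pderiv 1 c) ∧
      ev (x * α + f x) α (pderiv 1 b) = ρ1 * ev (x * α + f x) α (pderiv 1 c)) := by
  obtain ⟨_, h3, h4, h5⟩ := G.four_pts hx hα
  choose sq hs using hsq
  set β := x * α + f x with hβ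
  set A0 := ev β α (pderiv 0 a) with hA0
  set A1 := ev β α (pderiv 1 a) with hA1
  set B0 := ev β α (pderiv 0 b) with hB0
  set B1 := ev β α (pderiv 1 b) with hB1
  set C0 := ev β α (pderiv 0 c) with hC0
  set C1 := ev β α (pderiv 1 c) with hC1
  set P : Polynomial F := Polynomial.C (B0 + ρ1 * C0) * Polynomial.X ^ 3
    + Polynomial.C (A0 + ρ0 * C0) * Polynomial.X ^ 2
    + Polynomial.C (B1 + ρ1 * C1) * Polynomial.X + Polynomial.C (A1 + ρ0 * C1) with hP
  have hP0 : P = 0 := by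
    apply Polynomial.eq_zero_of_natDegree_lt_card_of_eval_eq_zero' _
      ((ln K f α (α * x + f x)).image sq)
    · intro z hz
      obtain ⟨y, hy, rfl⟩ := mem_image.mp hz
      have h6 := h5 y hy
      set z := sq y with hzdef
      have hz2 : z ^ 2 = y := hs y
      have hw : (ρ0 + z * ρ1) ^ (2 ^ 1) = f y := by
        rw [pow_one, CharTwo.add_sq, mul_pow, h0, h1, hz2, ← h6.2]
        have : y * α + f y + y * α = f y + (y * α + y * α) := by ring
        rw [this, CharTwo.add_self_eq_zero, add_zero]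
      have h7 := congrArg Polynomial.derivative (S y h6.1 z _ (by rw [pow_one, hz2]) hw)
      rw [map_add, Polynomial.derivative_C_mul, Polynomial.derivative_C_mul, rl_deriv, rl_deriv,
        rl_deriv] at h7
      have h8 := congrArg (Polynomial.eval α) h7
      simp only [Polynomial.eval_add, Polynomial.eval_mul, Polynomial.eval_C, ev_rl] at h8
      rw [h6.2] at h8
      rw [← hA0, ← hA1, ← hB0, ← hB1, ← hC0, ← hC1] at h8
      rw [hP]
      simp only [Polynomial.eval_add, Polynomial.eval_mul, Polynomial.eval_C,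
        Polynomial.eval_pow, Polynomial.eval_X]
      have h9 := CharTwo.add_eq_zero.mpr h8
      rw [← h9, ← hz2]; ring
    · rw [card_image_of_injective _ (fun u v huv => by rw [← hs u, ← hs v, huv]), h4]
      exact lt_of_le_of_lt Polynomial.natDegree_cubic_le (by norm_num)
  obtain ⟨c3, c2, c1, c0⟩ := cubic_coeff hP0
  exact ⟨⟨CharTwo.add_eq_zero.mp c2, CharTwo.add_eq_zero.mp c3⟩,
    ⟨CharTwo.add_eq_zero.mp c0, CharTwo.add_eq_zero.mp c1⟩⟩

theorem dd_zero (g : Polynomial F) : Polynomial.derivative (Polynomial.derivative g) = 0 := by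
  ext m
  rw [Polynomial.coeff_derivative, Polynomial.coeff_derivative, Polynomial.coeff_zero]
  have := natCast_mul_succ (F := F) m
  push_cast
  linear_combination (Polynomial.coeff g (m + 1 + 1)) * this

theorem Ge.der_zero (G : Ge F K k f) {g : MvPolynomial (Fin 2) F}
    (hdeg : g.totalDegree ≤ 2 * EE k)
    (h : ∀ x ∈ K, ∀ α ∈ A4 K f x, ev (x * α + f x) α (pderiv 0 g) = 0 ∧
      ev (x * α + f x) α (pderiv 1 g) = 0) :
    ∀ x ∈ K, Polynomial.derivative (rl x (f x) g) = 0 := by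
  intro x hx
  by_contra hne
  have h1 : ∀ α ∈ A4 K f x, (Polynomial.X - Polynomial.C α) ^ 2 ∣
      Polynomial.derivative (rl x (f x) g) := by
    intro α hα
    apply Geo.sq_dvd
    · rw [rl_deriv, Polynomial.eval_add, Polynomial.eval_mul, Polynomial.eval_C, ev_rl, ev_rl,
        (h x hx α hα).1, (h x hx α hα).2]; ring
    · rw [dd_zero, Polynomial.eval_zero]
  have h2 := dvd_prod_pow h1 hne
  rw [G.card_A4 hx] at h2
  have h3 := Polynomial.natDegree_derivative_le (rl x (f x) g)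
  have h4 := rl_deg x (f x) hdeg
  have h5 := G.three_EE
  have h6 := G.q_ge
  omega

theorem pderiv_of_deg {i : Fin 2} {g : MvPolynomial (Fin 2) F} (h : g.totalDegree = 0) :
    pderiv i g = 0 := by
  rw [totalDegree_eq_zero_iff_eq_C] at h
  rw [h, pderiv_C]

theorem Ge.pd_zero (G : Ge F K k f) (hsq : ∀ a : F, ∃ b, b ^ 2 = a) {n : ℕ}
    {a b c : MvPolynomial (Fin 2) F} (H : MQ K k f n a b c) {g : MvPolynomial (Fin 2) F}
    (hdeg : g.totalDegree ≤ 2 * n)
    (h : ∀ x ∈ K, ∀ α ∈ A4 K f x, ev (x * α + f x) α (pderiv 0 g) = 0 ∧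
      ev (x * α + f x) α (pderiv 1 g) = 0) (i : Fin 2) : pderiv i g = 0 := by
  by_cases hn : n = 0
  · exact pderiv_of_deg (by omega)
  · by_contra hne
    have h1 := G.der_zero (by have := H.le; omega) h
    have h2 : pderiv 0 g ≠ 0 ∨ pderiv 1 g ≠ 0 := by
      fin_cases i
      · exact Or.inl hne
      · exact Or.inr hne
    have h3 := H.min _ (ham hsq (by omega) hdeg h1 h2)
    omega

theorem Ge.pds (G : Ge F K k f) (hsq : ∀ a : F, ∃ b, b ^ 2 = a) {n : ℕ}
    {a b c : MvPolynomial (Fin 2) F} (H : MQ K k f n a b c) (i : Fin 2) :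
    pderiv i a = 0 ∧ pderiv i b = 0 ∧ pderiv i c = 0 := by
  have hev : ∀ x ∈ K, ∀ α ∈ A4 K f x, ∃ ρ0 ρ1 : F,
      (ev (x * α + f x) α a = ρ0 * ev (x * α + f x) α c ∧
        ev (x * α + f x) α b = ρ1 * ev (x * α + f x) α c) ∧
      (ev (x * α + f x) α (pderiv 0 a) = ρ0 * ev (x * α + f x) α (pderiv 0 c) ∧
        ev (x * α + f x) α (pderiv 0 b) = ρ1 * ev (x * α + f x) α (pderiv 0 c)) ∧
      (ev (x * α + f x) α (pderiv 1 a) = ρ0 * ev (x * α + f x) α (pderiv 1 c) ∧
        ev (x * α + f x) α (pderiv 1 b) = ρ1 * ev (x * α + f x) α (pderiv 1 c)) := by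
    intro x hx α hα
    obtain ⟨ρ0, h0⟩ := hsq (x * α + f x)
    obtain ⟨ρ1, h1⟩ := hsq α
    exact ⟨ρ0, ρ1, G.mpt hsq H.sec hx hα (by rw [pow_one, h0]) (by rw [pow_one, h1]),
      G.four_rel hsq H.sec hx hα h0 h1⟩
  have hdm : ∀ u v : MvPolynomial (Fin 2) F, u.totalDegree ≤ n → v.totalDegree ≤ n →
      (u * v).totalDegree ≤ 2 * n := by
    intro u v hu hv
    have := tdm hu hv
    omega
  have hbc : pderiv i (b * c) = 0 := by
    apply G.pd_zero hsq H (hdm b c H.db H.dc)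
    intro x hx α hα
    obtain ⟨ρ0, ρ1, ⟨a1, a2⟩, ⟨a3, a4⟩, ⟨a5, a6⟩⟩ := hev x hx α hα
    simp only [pderiv_mul, map_add, map_mul]
    rw [a2, a4, a6]
    constructor
    · apply CharTwo.add_eq_zero.mpr; ring
    · apply CharTwo.add_eq_zero.mpr; ring
  have hac : pderiv i (a * c) = 0 := by
    apply G.pd_zero hsq H (hdm a c H.da H.dc)
    intro x hx α hα
    obtain ⟨ρ0, ρ1, ⟨a1, a2⟩, ⟨a3, a4⟩, ⟨a5, a6⟩⟩ := hev x hx α hα
    simp only [pderiv_mul, map_add, map_mul]
    rw [a1, a3, a5]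
    constructor
    · apply CharTwo.add_eq_zero.mpr; ring
    · apply CharTwo.add_eq_zero.mpr; ring
  have hab : pderiv i (a * b) = 0 := by
    apply G.pd_zero hsq H (hdm a b H.da H.db)
    intro x hx α hα
    obtain ⟨ρ0, ρ1, ⟨a1, a2⟩, ⟨a3, a4⟩, ⟨a5, a6⟩⟩ := hev x hx α hα
    simp only [pderiv_mul, map_add, map_mul]
    rw [a1, a2, a3, a4, a5, a6]
    constructor
    · apply CharTwo.add_eq_zero.mpr; ring
    · apply CharTwo.add_eq_zero.mpr; ring
  rw [pderiv_mul] at hbc hac hab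
  have hbc' : pderiv i b * c = b * pderiv i c := CharTwo.add_eq_zero.mp hbc
  have hac' : pderiv i a * c = a * pderiv i c := CharTwo.add_eq_zero.mp hac
  have hab' : pderiv i a * b = a * pderiv i b := CharTwo.add_eq_zero.mp hab
  have hp := G.prim hsq H
  refine ⟨?_, ?_, ?_⟩
  · apply pderiv_eq_zero_of_dvd
    apply three_dvd (b := b) (c := c) hp
    · exact ⟨pderiv i b, by rw [← hab']; ring⟩
    · exact ⟨pderiv i c, by rw [← hac']; ring⟩
  · apply pderiv_eq_zero_of_dvd
    apply three_dvd (b := a) (c := c) (fun d h1 h2 h3 => hp d h2 h1 h3)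
    · exact ⟨pderiv i a, by rw [← hab']; ring⟩
    · exact ⟨pderiv i c, by rw [← hbc']; ring⟩
  · apply pderiv_eq_zero_of_dvd
    apply three_dvd (b := a) (c := b) (fun d h1 h2 h3 => hp d h2 h3 h1)
    · exact ⟨pderiv i a, by rw [← hac']; ring⟩
    · exact ⟨pderiv i b, by rw [← hbc']; ring⟩

/-- the level two relation -/
structure M2 (K : Finset F) (k : ℕ) (f : F → F) (n : ℕ) (a b c : MvPolynomial (Fin 2) F) :
    Prop where
  prim : ∀ d, d ∣ a → d ∣ b → d ∣ c → IsUnit d
  da : a.totalDegree ≤ n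
  db : b.totalDegree ≤ n
  dc : c.totalDegree ≤ n
  sec : Sec K f 2 a b c
  min : ∀ m, gd K f m → 2 * n ≤ m
  le : 2 * n + 1 ≤ EE k

theorem Ge.exists_M2 (G : Ge F K k f) (hsq : ∀ a : F, ∃ b, b ^ 2 = a) :
    ∃ n a b c, M2 K k f n a b c := by
  have hex : ∃ n, gd K f n := ⟨_, G.ex_gd hsq⟩
  obtain ⟨a, b, c, hne, da, db, dc, S⟩ := Nat.find_spec hex
  set n := Nat.find hex with hn
  have hmin : ∀ m, gd K f m → n ≤ m := fun m hm => Nat.find_min' hex hm
  have hle := hmin _ (G.ex_gd hsq)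
  have h5 := G.three_EE
  have h6 := G.q_ge
  have H : MQ K k f n a b c := ⟨hne, da, db, dc, S, hmin, by omega⟩
  have p0 := G.pds hsq H 0
  have p1 := G.pds hsq H 1
  obtain ⟨a2, ha⟩ := exists_sqrt hsq p0.1 p1.1
  obtain ⟨b2, hb⟩ := exists_sqrt hsq p0.2.1 p1.2.1
  obtain ⟨c2, hc⟩ := exists_sqrt hsq p0.2.2 p1.2.2
  have ea := sq_deg a2
  have eb := sq_deg b2
  have ec := sq_deg c2
  rw [← ha] at ea
  rw [← hb] at eb
  rw [← hc] at ec
  refine ⟨max a2.totalDegree (max b2.totalDegree c2.totalDegree), a2, b2, c2, ?_, le_max_left _ _,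
    (le_max_left _ _).trans (le_max_right _ _), (le_max_right _ _).trans (le_max_right _ _),
    ?_, ?_, ?_⟩
  · intro d h1 h2 h3
    refine G.prim hsq H d ?_ ?_ ?_
    · rw [ha]; exact h1.trans (dvd_pow_self _ (by norm_num))
    · rw [hb]; exact h2.trans (dvd_pow_self _ (by norm_num))
    · rw [hc]; exact h3.trans (dvd_pow_self _ (by norm_num))
  · apply sec_of_sq
    rw [← ha, ← hb, ← hc]; exact S
  · intro m hm
    have := hmin m hm
    omega
  · omega

end Pool.Agent.Helper992
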