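import Pool.Agent.Helper992.Quad3

set_option autoImplicit false
set_option linter.unusedSectionVars false
open scoped Classical

namespace Pool.Agent.Helper992

open Finset MvPolynomial

variable {F : Type*} [Field F] [CharP F 2] {K : Finset F} {k : ℕ} {f : F → F}

theorem small_zero {B D : Polynomial F} {m : ℕ} (hB : B.natDegree < m)
    (h : B + Polynomial.X ^ m * D = 0) : B = 0 ∧ D = 0 := by
  have h1 : B = Polynomial.X ^ m * D := CharTwo.add_eq_zero.mp h
  have hD : D = 0 := by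
    by_contra hD
    have h2 := congrArg Polynomial.natDegree h1
    rw [Polynomial.natDegree_mul (pow_ne_zero _ Polynomial.X_ne_zero) hD,
      Polynomial.natDegree_X_pow] at h2
    omega
  rw [hD, mul_zero] at h1
  exact ⟨h1, hD⟩

theorem pow2_inj {R : Type*} [CommRing R] [IsDomain R] [CharP R 2] (i : ℕ) {A B : R}
    (h : A ^ (2 ^ i) = B ^ (2 ^ i)) : A = B := by
  induction i with
  | zero => simpa using h
  | succ i ih =>
    apply ih
    rw [pow_succ, pow_mul, pow_mul] at h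
    exact sq_inj' h

theorem Ge.r4 (G : Ge F K k f) {x : F} (hx : x ∈ K) : (x ^ (2 ^ (k - 2))) ^ (2 ^ 2) = x := by
  have := G.hk
  rw [← pow_mul, ← pow_add, show k - 2 + 2 = k by omega]
  exact (G.memK x).mp hx

theorem Ge.r8 (G : Ge F K k f) {x : F} (hx : x ∈ K) : (x ^ (2 ^ (k - 3))) ^ (2 ^ 3) = x := by
  have := G.hk
  rw [← pow_mul, ← pow_add, show k - 3 + 3 = k by omega]
  exact (G.memK x).mp hx

theorem Ge.Qs (G : Ge F K k f) : 2 ^ k = 8 * 2 ^ (k - 3) ∧ 2 ^ (k - 2) = 2 * 2 ^ (k - 3) ∧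
    2 ≤ 2 ^ (k - 3) := by
  have := G.hk
  refine ⟨?_, ?_, ?_⟩
  · rw [show (8 : ℕ) = 2 ^ 3 by norm_num, ← pow_add]; congr 1; omega
  · rw [← pow_succ']; congr 1; omega
  · calc 2 = 2 ^ 1 := rfl
      _ ≤ 2 ^ (k - 3) := Nat.pow_le_pow_right (by norm_num) (by omega)

theorem Ge.sec4 (G : Ge F K k f) {a b c : MvPolynomial (Fin 2) F} (S : Sec K f 2 a b c) {x : F}
    (hx : x ∈ K) : rl x (f x) a = Polynomial.C (x ^ (2 ^ (k - 2))) * rl x (f x) b
      + Polynomial.C ((f x) ^ (2 ^ (k - 2))) * rl x (f x) c :=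
  S x hx _ _ (G.r4 hx) (G.r4 (G.fK x hx))

theorem Ge.no_line (G : Ge F K k f) {n : ℕ} {a b c : MvPolynomial (Fin 2) F}
    (H : M2 K k f n a b c) {x : F} (hx : x ∈ K) (hb : rl x (f x) b = 0)
    (hc : rl x (f x) c = 0) : False := by
  have ha := G.sec4 H.sec hx
  rw [hb, hc, mul_zero, mul_zero, add_zero] at ha
  exact (lf_prime x (f x)).not_unit (H.prim _ ((lf_dvd_iff _ _ _).mpr ha)
    ((lf_dvd_iff _ _ _).mpr hb) ((lf_dvd_iff _ _ _).mpr hc))

/-- the auxiliary polynomial -/
noncomputable def PP (k : ℕ) (a b c : MvPolynomial (Fin 2) F) : MvPolynomial (Fin 2) F :=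
  a * b + X 1 ^ (2 ^ (k - 2)) * (a * c) + X 0 ^ (2 ^ (k - 2)) * (b * c)

theorem Ge.rlP (G : Ge F K k f) {a b c : MvPolynomial (Fin 2) F} (S : Sec K f 2 a b c) {x : F}
    (hx : x ∈ K) (i : Fin 2) : rl x (f x) (pderiv i (PP k a b c))
      = (rl x (f x) b + Polynomial.X ^ (2 ^ (k - 2)) * rl x (f x) c)
        * (rl x (f x) (pderiv i a) + Polynomial.C (x ^ (2 ^ (k - 2))) * rl x (f x) (pderiv i b)
          + Polynomial.C ((f x) ^ (2 ^ (k - 2))) * rl x (f x) (pderiv i c)) := by
  have hk := G.hk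
  have he : Even (2 ^ (k - 2)) := (even_two).pow_of_ne_zero (by omega)
  rw [PP]
  simp only [map_add, pderiv_mul, pd_even i _ he, map_mul, map_pow, sb_X0, sb_X1,
    G.sec4 S hx]
  rw [add_pow_char_pow, mul_pow, ← Polynomial.C_pow, ← Polynomial.C_pow]
  simp only [map_zero]
  set b' := rl x (f x) b
  set c' := rl x (f x) c
  set A := rl x (f x) (pderiv i a)
  set B := rl x (f x) (pderiv i b)
  set D := rl x (f x) (pderiv i c)
  set z := Polynomial.C (x ^ 2 ^ (k - 2))
  set w := Polynomial.C (f x ^ 2 ^ (k - 2))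
  set T : Polynomial F := Polynomial.X ^ 2 ^ (k - 2)
  linear_combination (B * w * c' + D * z * T * b') * (CharTwo.two_eq_zero (R := Polynomial F))

theorem Ge.n_small (G : Ge F K k f) (hsq : ∀ a : F, ∃ b, b ^ 2 = a) {n : ℕ}
    {a b c : MvPolynomial (Fin 2) F} (H : M2 K k f n a b c) : n + 1 ≤ 2 ^ (k - 3) := by
  obtain ⟨q1, q2, q3⟩ := G.Qs
  have h3 := G.three_EE
  have hle := H.le
  have h1 : ∀ x ∈ K, Polynomial.derivative (rl x (f x) (PP k a b c)) = 0 := by
    intro x hx
    rw [rl_deriv, G.rlP H.sec hx, G.rlP H.sec hx]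
    have h4 := congrArg Polynomial.derivative (G.sec4 H.sec hx)
    rw [map_add, Polynomial.derivative_C_mul, Polynomial.derivative_C_mul, rl_deriv, rl_deriv,
      rl_deriv] at h4
    have h5 := CharTwo.add_eq_zero.mpr h4
    linear_combination (rl x (f x) b + Polynomial.X ^ (2 ^ (k - 2)) * rl x (f x) c) * h5
  have hd : (PP k a b c).totalDegree ≤ 2 * (n + 2 ^ (k - 3)) := by
    have hX : ∀ i : Fin 2, (X i ^ (2 ^ (k - 2)) : MvPolynomial (Fin 2) F).totalDegree
        ≤ 2 ^ (k - 2) := by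
      intro i; rw [tdpow, totalDegree_X, mul_one]
    have e1 := tdm H.da H.db
    have e2 := tdm (hX 1) (tdm H.da H.dc)
    have e3 := tdm (hX 0) (tdm H.db H.dc)
    rw [PP]
    exact tda (tda (by omega) (by omega)) (by omega)
  by_contra hcon
  by_cases hne : pderiv 0 (PP k a b c) ≠ 0 ∨ pderiv 1 (PP k a b c) ≠ 0
  · have := H.min _ (ham hsq (by omega) hd h1 hne)
    omega
  · push Not at hne
    have hz : ∀ i : Fin 2, pderiv i (PP k a b c) = 0 := by
      intro i
      fin_cases i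
      · exact hne.1
      · exact hne.2
    have hS : ∀ i : Fin 2, Sec K f 2 (pderiv i a) (pderiv i b) (pderiv i c) := by
      intro i x hx z w hz' hw'
      have ez : z = x ^ (2 ^ (k - 2)) := pow2_inj 2 (by rw [hz', G.r4 hx])
      have ew : w = (f x) ^ (2 ^ (k - 2)) := pow2_inj 2 (by rw [hw', G.r4 (G.fK x hx)])
      have h4 := G.rlP H.sec hx i
      rw [hz i, map_zero] at h4
      have h5 : rl x (f x) b + Polynomial.X ^ (2 ^ (k - 2)) * rl x (f x) c ≠ 0 := by
        intro h6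
        have h7 := small_zero (lt_of_le_of_lt (rl_deg x (f x) H.db) (by omega)) h6
        exact G.no_line H hx h7.1 h7.2
      have h6 := (mul_eq_zero.mp h4.symm).resolve_left h5
      rw [ez, ew]
      apply CharTwo.add_eq_zero.mp
      rw [← h6]; ring
    have hz' : ∀ i : Fin 2, pderiv i a = 0 ∧ pderiv i b = 0 ∧ pderiv i c = 0 := by
      intro i
      by_contra hc
      have hdd : ∀ p : MvPolynomial (Fin 2) F, p.totalDegree ≤ n →
          ((pderiv i p) ^ 2).totalDegree ≤ 2 * (n - 1) := by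
        intro p hp
        rw [sq_deg]
        have := pderiv_deg i p
        omega
      have hne' : (pderiv i a) ^ 2 ≠ 0 ∨ (pderiv i b) ^ 2 ≠ 0 ∨ (pderiv i c) ^ 2 ≠ 0 := by
        by_contra hcc
        push Not at hcc
        apply hc
        exact ⟨(pow_eq_zero_iff (by norm_num)).mp hcc.1,
          (pow_eq_zero_iff (by norm_num)).mp hcc.2.1,
          (pow_eq_zero_iff (by norm_num)).mp hcc.2.2⟩
      have := H.min _ ⟨_, _, _, hne', hdd a H.da, hdd b H.db, hdd c H.dc,
        sec_sq hsq (hS i)⟩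
      have hn0 : n = 0 := by omega
      apply hc
      have hda := H.da
      have hdb := H.db
      have hdc := H.dc
      exact ⟨pderiv_of_deg (by omega), pderiv_of_deg (by omega), pderiv_of_deg (by omega)⟩
    obtain ⟨a3, ha⟩ := exists_sqrt hsq (hz' 0).1 (hz' 1).1
    obtain ⟨b3, hb⟩ := exists_sqrt hsq (hz' 0).2.1 (hz' 1).2.1
    obtain ⟨c3, hc⟩ := exists_sqrt hsq (hz' 0).2.2 (hz' 1).2.2
    have S3 : Sec K f 3 a3 b3 c3 := by
      apply sec_of_sq
      rw [← ha, ← hb, ← hc]; exact H.sec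
    have db3 : 2 * b3.totalDegree ≤ n := by rw [← sq_deg, ← hb]; exact H.db
    have dc3 : 2 * c3.totalDegree ≤ n := by rw [← sq_deg, ← hc]; exact H.dc
    have h1K := G.oneK
    have hrb : (rl 1 (f 1) b3).natDegree ≤ b3.totalDegree := rl_deg 1 (f 1) le_rfl
    have hrc : (rl 1 (f 1) c3).natDegree ≤ c3.totalDegree := rl_deg 1 (f 1) le_rfl
    have h4 : rl 1 (f 1) b3 + Polynomial.X ^ (2 ^ (k - 3)) * rl 1 (f 1) c3 = 0 := by
      apply Polynomial.eq_zero_of_natDegree_lt_card_of_eval_eq_zero' _ (A4 K f 1)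
      · intro α hα
        have hαK := (G.four_pts h1K hα).1
        have hβK : 1 * α + f 1 ∈ K := G.addK (G.mulK h1K hαK) (G.fK 1 h1K)
        have h5 := G.mpt hsq S3 h1K hα (G.r8 hβK) (G.r8 hαK)
        rw [Polynomial.eval_add, Polynomial.eval_mul, Polynomial.eval_pow, Polynomial.eval_X,
          ev_rl, ev_rl, h5.2, CharTwo.add_self_eq_zero]
      · rw [G.card_A4 h1K]
        have e1 : (Polynomial.X ^ (2 ^ (k - 3)) * rl 1 (f 1) c3).natDegree
            ≤ 2 ^ (k - 3) + c3.totalDegree := by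
          refine Polynomial.natDegree_mul_le.trans ?_
          rw [Polynomial.natDegree_X_pow]; omega
        have e2 := Polynomial.natDegree_add_le (rl 1 (f 1) b3)
          (Polynomial.X ^ (2 ^ (k - 3)) * rl 1 (f 1) c3)
        have e3 : (rl 1 (f 1) b3).natDegree ≤ EE k - 1 := by omega
        have e4 : (Polynomial.X ^ (2 ^ (k - 3)) * rl 1 (f 1) c3).natDegree ≤ EE k - 1 := by omega
        have e5 := e2.trans (max_le e3 e4)
        omega
    have h5 := small_zero (lt_of_le_of_lt hrb (by omega)) h4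
    apply G.no_line H h1K
    · rw [hb, map_pow, h5.1]; simp
    · rw [hc, map_pow, h5.2]; simp

end Pool.Agent.Helper992
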