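import Pool.Agent.Helper992.Quad4

set_option autoImplicit false
set_option linter.unusedSectionVars false
open scoped Classical

namespace Pool.Agent.Helper992

open Finset MvPolynomial
open Pool.Agent.Helper992.Geo (VV sq_dvd)

variable {F : Type*} [Field F] [CharP F 2] {K : Finset F} {k : ℕ} {f : F → F}

namespace Ge

theorem card_V (G : Ge F K k f) : (VV K f).card = 2 ^ (k - 2) := by
  have h1 : (VV K f).card * 4 = 2 ^ k := by
    rw [← G.cardK, card_eq_sum_card_image (fun x => f x + x) K]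
    symm
    apply Finset.sum_const_nat
    intro v hv
    obtain ⟨x, hx, rfl⟩ := mem_image.mp hv
    exact G.full x hx
  have := G.Qs
  omega

theorem one_A4 (G : Ge F K k f) {x : F} (hx : x ∈ K) : (1 : F) ∈ A4 K f x := by
  rw [A4, mem_filter]
  refine ⟨G.oneK, ?_⟩
  rw [← G.full x hx]
  congr 1
  ext y
  rw [mem_ln, mem_filter, one_mul, one_mul]
  constructor
  · rintro ⟨h1, h2⟩
    refine ⟨h1, ?_⟩
    rw [CharTwo.add_eq_zero.mp h2, add_comm]
  · rintro ⟨h1, h2⟩
    refine ⟨h1, ?_⟩
    rw [h2, add_comm x, CharTwo.add_self_eq_zero]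

theorem atV (G : Ge F K k f) (hsq : ∀ a : F, ∃ b, b ^ 2 = a) {n : ℕ}
    {a b c : MvPolynomial (Fin 2) F} (H : M2 K k f n a b c) {v : F} (hv : v ∈ VV K f) :
    Polynomial.eval v (ro 1 a) = v ^ (2 ^ (k - 2)) * Polynomial.eval v (ro 1 c) ∧
      Polynomial.eval v (ro 1 b) = Polynomial.eval v (ro 1 c) := by
  obtain ⟨x, hx, rfl⟩ := mem_image.mp hv
  have hvK : x * 1 + f x ∈ K := G.addK (G.mulK hx G.oneK) (G.fK x hx)
  have h1 := G.mpt hsq H.sec hx (G.one_A4 hx) (G.r4 hvK) (one_pow _)
  rw [mul_one, one_mul, add_comm x (f x)] at h1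
  rw [ev_ro, ev_ro, ev_ro]
  exact h1

theorem F3' (G : Ge F K k f) (hsq : ∀ a : F, ∃ b, b ^ 2 = a) {n : ℕ}
    {a b c : MvPolynomial (Fin 2) F} (H : M2 K k f n a b c) : ro 1 b = ro 1 c := by
  have hn := G.n_small hsq H
  have hQ := G.Qs
  apply CharTwo.add_eq_zero.mp
  apply Polynomial.eq_zero_of_natDegree_lt_card_of_eval_eq_zero' _ (VV K f)
  · intro v hv
    rw [Polynomial.eval_add, (G.atV hsq H hv).2, CharTwo.add_self_eq_zero]
  · rw [G.card_V]
    have e1 := Polynomial.natDegree_add_le (ro 1 b) (ro 1 c)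
    have e2 : (ro 1 b).natDegree ≤ n := ro_deg 1 H.db
    have e3 : (ro 1 c).natDegree ≤ n := ro_deg 1 H.dc
    have e4 := e1.trans (max_le e2 e3)
    omega

theorem not_both (G : Ge F K k f) (hsq : ∀ a : F, ∃ b, b ^ 2 = a) {n : ℕ}
    {a b c : MvPolynomial (Fin 2) F} (H : M2 K k f n a b c) (ha : ro 1 a = 0)
    (hc : ro 1 c = 0) : False := by
  have hb := G.F3' hsq H
  rw [hc] at hb
  exact not_unit_h 1 (H.prim _ (dvd_of_sb1 (1 : F) ha) (dvd_of_sb1 (1 : F) hb)
    (dvd_of_sb1 (1 : F) hc))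

theorem F5' (G : Ge F K k f) (hsq : ∀ a : F, ∃ b, b ^ 2 = a) {n : ℕ}
    {a b c : MvPolynomial (Fin 2) F} (H : M2 K k f n a b c) :
    Polynomial.derivative (ro 1 a * ro 1 c) ≠ 0 := by
  intro hω
  have hn := G.n_small hsq H
  have hQ := G.Qs
  have hV := G.card_V
  have hda : (ro 1 a).natDegree ≤ n := ro_deg 1 H.da
  have hdc : (ro 1 c).natDegree ≤ n := ro_deg 1 H.dc
  have hnb := G.not_both hsq H
  have hat := fun v hv => (G.atV hsq H (v := v) hv).1
  generalize ro 1 c = cb at *
  generalize ro 1 a = ab at *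
  by_cases hc0 : cb = 0
  · apply hnb _ hc0
    apply Polynomial.eq_zero_of_natDegree_lt_card_of_eval_eq_zero' _ (VV K f)
    · intro v hv
      rw [hat v hv, hc0, Polynomial.eval_zero, mul_zero]
    · omega
  · have hΦne : Polynomial.X ^ (2 ^ (k - 2)) * cb + ab ≠ 0 := by
      intro h0
      rw [add_comm] at h0
      exact hc0 (small_zero (by omega) h0).2
    let _ : GCDMonoid (Polynomial F) := UniqueFactorizationMonoid.toGCDMonoid _
    obtain ⟨a1, c1, ha1, hc1, hu⟩ := extract_gcd ab cb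
    generalize gcd ab cb = g at *
    have hg0 : g ≠ 0 := by
      rintro rfl
      rw [zero_mul] at hc1
      exact hc0 hc1
    have hc10 : c1 ≠ 0 := by
      rintro rfl
      rw [mul_zero] at hc1
      exact hc0 hc1
    have hrel := gcd_isUnit_iff_isRelPrime.mp hu
    have h1 : Polynomial.derivative (a1 * c1) = 0 := by
      rw [ha1, hc1] at hω
      have e : g * a1 * (g * c1) = g ^ 2 * (a1 * c1) := by ring
      have e2 : Polynomial.derivative (g ^ 2) = 0 := by
        rw [sq, Polynomial.derivative_mul, mul_comm g, CharTwo.add_self_eq_zero]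
      rw [e, Polynomial.derivative_mul, e2, zero_mul, zero_add] at hω
      exact (mul_eq_zero.mp hω).resolve_left (pow_ne_zero _ hg0)
    rw [Polynomial.derivative_mul] at h1
    have h2 : Polynomial.derivative a1 * c1 = a1 * Polynomial.derivative c1 :=
      CharTwo.add_eq_zero.mp h1
    have h3 : Polynomial.derivative a1 = 0 := by
      rw [← Polynomial.dvd_derivative_iff]
      exact hrel.dvd_of_dvd_mul_right ⟨Polynomial.derivative c1, h2⟩
    have h4 : Polynomial.derivative c1 = 0 := by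
      rw [← Polynomial.dvd_derivative_iff]
      exact hrel.symm.dvd_of_dvd_mul_left ⟨Polynomial.derivative a1, by rw [← h2]; ring⟩
    set Φ := Polynomial.X ^ (2 ^ (k - 2)) * c1 + a1 with hΦ
    have hgΦ : g * Φ = Polynomial.X ^ (2 ^ (k - 2)) * cb + ab := by
      rw [hΦ, ha1, hc1]; ring
    have hΦ0 : Φ ≠ 0 := by
      intro h0
      rw [h0, mul_zero] at hgΦ
      exact hΦne hgΦ.symm
    have hdX : Polynomial.derivative (Polynomial.X ^ (2 ^ (k - 2)) : Polynomial F) = 0 := by
      rw [Polynomial.derivative_X_pow]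
      have hk := G.hk
      have : ((2 ^ (k - 2) : ℕ) : F) = 0 := by
        rw [CharP.cast_eq_zero_iff F 2]
        exact dvd_pow_self 2 (by omega)
      rw [this, map_zero, zero_mul]
    have hdΦ : Polynomial.derivative Φ = 0 := by
      rw [hΦ, map_add, Polynomial.derivative_mul, hdX, h3, h4]; ring
    set V1 := (VV K f).filter (fun v => Polynomial.eval v g ≠ 0) with hV1
    have h5 : ∀ v ∈ V1, (Polynomial.X - Polynomial.C v) ^ 2 ∣ Φ := by
      intro v hv
      rw [hV1, mem_filter] at hv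
      apply sq_dvd
      · have h6 := congrArg (Polynomial.eval v) hgΦ
        rw [Polynomial.eval_mul] at h6
        simp only [Polynomial.eval_mul (p := Polynomial.X ^ (2 ^ (k - 2))) (q := cb),
          Polynomial.eval_add (p := Polynomial.X ^ (2 ^ (k - 2)) * cb), Polynomial.eval_pow,
          Polynomial.eval_X, hat v hv.1, CharTwo.add_self_eq_zero] at h6
        exact (mul_eq_zero.mp h6).resolve_left hv.2
      · rw [hdΦ, Polynomial.eval_zero]
    have h6 := dvd_prod_pow h5 hΦ0
    have h7 : g.natDegree + Φ.natDegree ≤ 2 ^ (k - 2) + n := by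
      rw [← Polynomial.natDegree_mul hg0 hΦ0, hgΦ]
      have e1 : (Polynomial.X ^ (2 ^ (k - 2)) * cb).natDegree ≤ 2 ^ (k - 2) + n := by
        refine Polynomial.natDegree_mul_le.trans ?_
        rw [Polynomial.natDegree_X_pow]; omega
      exact (Polynomial.natDegree_add_le _ _).trans (max_le e1 (by omega))
    have h8 : ((VV K f).filter (fun v => ¬ Polynomial.eval v g ≠ 0)).card ≤ g.natDegree := by
      by_contra hlt2
      push Not at hlt2
      apply hg0
      apply Polynomial.eq_zero_of_natDegree_lt_card_of_eval_eq_zero' _ _ _ hlt2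
      intro v hv
      have hv2 := (mem_filter.mp hv).2
      simpa using hv2
    have h9 := card_filter_add_card_filter_not (s := VV K f) (fun v => Polynomial.eval v g ≠ 0)
    rw [← hV1, hV] at h9
    have h10 : g.natDegree ≤ n := by
      have := Polynomial.natDegree_mul hg0 hc10
      rw [← hc1] at this
      omega
    omega

theorem key1' (G : Ge F K k f) (hsq : ∀ a : F, ∃ b, b ^ 2 = a) {n : ℕ}
    {a b c : MvPolynomial (Fin 2) F} (H : M2 K k f n a b c) {v y : F} (hy : y ∈ K)
    (hv : f y + y = v) :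
    y * (Polynomial.eval v (ro 1 (pderiv 0 a)) + v ^ (2 ^ (k - 2)) *
      Polynomial.eval v (ro 1 (pderiv 0 c))) + y ^ (2 ^ (k - 2)) *
      (Polynomial.eval v (ro 1 (pderiv 1 b)) + Polynomial.eval v (ro 1 (pderiv 1 c)))
      + (Polynomial.eval v (ro 1 (pderiv 1 a)) + v ^ (2 ^ (k - 2)) *
      Polynomial.eval v (ro 1 (pderiv 1 c))) = 0 := by
  have hjk := G.hk
  have hexp : ∀ z ∈ K, (z ^ (2 ^ (k - 2))) ^ (2 ^ 2) = z := by
    intro z hz
    rw [← pow_mul, ← pow_add, show k - 2 + 2 = k by omega]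
    exact (G.memK z).mp hz
  have h1 := CharTwo.add_eq_zero.mpr (G.sec4 H.sec hy)
  have h2 := congrArg Polynomial.derivative h1
  rw [map_add, map_add, Polynomial.derivative_C_mul, Polynomial.derivative_C_mul, rl_deriv,
    rl_deriv, rl_deriv, map_zero] at h2
  have h3 := congrArg (Polynomial.eval 1) h2
  simp only [Polynomial.eval_add, Polynomial.eval_mul, Polynomial.eval_C, eval_rl, mul_one] at h3
  have hyv : y + f y = v := by rw [add_comm]; exact hv
  rw [hyv] at h3
  have hbc : ro 1 (pderiv 0 b) = ro 1 (pderiv 0 c) := by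
    rw [← ro_deriv, ← ro_deriv, G.F3' hsq H]
  rw [hbc] at h3
  have hw : (f y) ^ (2 ^ (k - 2)) = y ^ (2 ^ (k - 2)) + v ^ (2 ^ (k - 2)) := by
    rw [← hv, add_pow_char_pow]
    have : y ^ 2 ^ (k - 2) + (f y ^ 2 ^ (k - 2) + y ^ 2 ^ (k - 2))
      = f y ^ 2 ^ (k - 2) + (y ^ 2 ^ (k - 2) + y ^ 2 ^ (k - 2)) := by ring
    rw [this, CharTwo.add_self_eq_zero, add_zero]
  rw [hw] at h3
  set A0 := Polynomial.eval v (ro 1 (pderiv 0 a))
  set A1 := Polynomial.eval v (ro 1 (pderiv 1 a))
  set C0 := Polynomial.eval v (ro 1 (pderiv 0 c))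
  set C1 := Polynomial.eval v (ro 1 (pderiv 1 c))
  set B1 := Polynomial.eval v (ro 1 (pderiv 1 b))
  set z := y ^ (2 ^ (k - 2))
  set V := v ^ (2 ^ (k - 2))
  have e : y * (A0 + V * C0) + z * (B1 + C1) + (A1 + V * C1)
      = ((y * A0 + A1) + (z * (y * C0 + B1) + (z + V) * (y * C0 + C1)))
        - (z * y * C0 + z * y * C0) := by ring
  rw [e, CharTwo.add_self_eq_zero, sub_zero, h3, Polynomial.eval_zero]

theorem F6' (G : Ge F K k f) (hsq : ∀ a : F, ∃ b, b ^ 2 = a) {n : ℕ}
    {a b c : MvPolynomial (Fin 2) F} (H : M2 K k f n a b c) {x : F} (hx : x ∈ K)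
    (hω : Polynomial.eval (f x + x) (Polynomial.derivative (ro 1 a * ro 1 c)) ≠ 0) {u : F} (hu : u ^ (2 ^ 2) = u) :
    f (x + u) = f x + u := by
  have hjk := G.hk
  obtain ⟨v, hv⟩ : ∃ v, f x + x = v := ⟨_, rfl⟩
  have hvV : v ∈ VV K f := by
    rw [VV, mem_image]; exact ⟨x, hx, hv⟩
  rw [hv] at hω
  set l1 := Polynomial.eval v (ro 1 (pderiv 0 a)) + v ^ (2 ^ (k - 2)) *
      Polynomial.eval v (ro 1 (pderiv 0 c)) with hl1
  set l4 := Polynomial.eval v (ro 1 (pderiv 1 b)) + Polynomial.eval v (ro 1 (pderiv 1 c)) with hl4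
  set l2 := Polynomial.eval v (ro 1 (pderiv 1 a)) + v ^ (2 ^ (k - 2)) *
      Polynomial.eval v (ro 1 (pderiv 1 c)) with hl2
  have hkey : ∀ y ∈ K, f y + y = v → y * l1 + y ^ (2 ^ (k - 2)) * l4 + l2 = 0 :=
    fun y hy hyv => G.key1' hsq H hy hyv
  have h4' := (G.atV hsq H hvV).1.symm
  have hl1ne : l1 ≠ 0 := by
    intro h0
    apply hω
    rw [Polynomial.derivative_mul, Polynomial.eval_add, Polynomial.eval_mul,
      Polynomial.eval_mul, ← h4', ro_deriv, ro_deriv]
    have : Polynomial.eval v (ro 1 (pderiv 0 a)) * Polynomial.eval v (ro 1 c)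
        + v ^ 2 ^ (k - 2) * Polynomial.eval v (ro 1 c) * Polynomial.eval v (ro 1 (pderiv 0 c))
        = Polynomial.eval v (ro 1 c) * l1 := by rw [hl1]; ring
    rw [this, h0, mul_zero]
  have hx1 : x + 1 ∈ K := G.addK hx G.oneK
  have hfx1 : f (x + 1) + (x + 1) = v := by
    rw [G.one x hx, ← hv]
    have : f x + 1 + (x + 1) = f x + x + (1 + 1) := by ring
    rw [this, CharTwo.add_self_eq_zero, add_zero]
  have h5 := hkey x hx hv
  have h6 := hkey (x + 1) hx1 hfx1
  rw [add_pow_char_pow, one_pow] at h6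
  have h7 : l1 + l4 = 0 := by
    have e : l1 + l4 = ((x + 1) * l1 + (x ^ 2 ^ (k - 2) + 1) * l4 + l2)
        - (x * l1 + x ^ 2 ^ (k - 2) * l4 + l2) := by ring
    rw [e, h5, h6, sub_zero]
  have h8 : l4 = l1 := (CharTwo.add_eq_zero.mp h7).symm
  have h9 : ∀ y ∈ K, f y + y = v → (y + x) ^ (2 ^ (k - 2)) = y + x := by
    intro y hy hyv
    have h10 := hkey y hy hyv
    rw [h8] at h10 h5
    have h11 : l1 * ((y + x) + (y + x) ^ (2 ^ (k - 2))) = 0 := by
      rw [add_pow_char_pow]
      have e : l1 * (y + x + (y ^ 2 ^ (k - 2) + x ^ 2 ^ (k - 2)))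
          = (y * l1 + y ^ 2 ^ (k - 2) * l1 + l2) + (x * l1 + x ^ 2 ^ (k - 2) * l1 + l2)
            - (l2 + l2) := by ring
      rw [e, h10, h5, CharTwo.add_self_eq_zero, CharTwo.add_self_eq_zero, sub_zero]
    exact (CharTwo.add_eq_zero.mp ((mul_eq_zero.mp h11).resolve_left hl1ne)).symm
  have h10 : ∀ y ∈ K, f y + y = v → (y + x) ^ (2 ^ 2) = y + x := by
    intro y hy hyv
    have h11 := h9 y hy hyv
    have h12 := (G.memK (y + x)).mp (G.addK hy hx)
    rw [show k = k - 2 + 2 by omega, pow_add, pow_mul, h11] at h12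
    exact h12
  set pol : Polynomial F := Polynomial.X ^ (2 ^ 2) - Polynomial.X with hpol
  have h8' : 4 ≤ 2 ^ 2 := by norm_num
  have hpd : pol.natDegree = 2 ^ 2 := by
    rw [hpol]
    apply Polynomial.natDegree_eq_of_degree_eq_some
    rw [Polynomial.degree_sub_eq_left_of_degree_lt]
    · rw [Polynomial.degree_X_pow]
    · rw [Polynomial.degree_X_pow, Polynomial.degree_X]
      exact_mod_cast (by omega : 1 < 2 ^ 2)
  have hpne : pol ≠ 0 := by
    intro h
    rw [h, Polynomial.natDegree_zero] at hpd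
    omega
  have hroot : ∀ t : F, t ∈ pol.roots.toFinset ↔ t ^ (2 ^ 2) = t := by
    intro t
    rw [Multiset.mem_toFinset, Polynomial.mem_roots hpne, Polynomial.IsRoot.def, hpol,
      Polynomial.eval_sub, Polynomial.eval_pow, Polynomial.eval_X, sub_eq_zero]
  have hcard : pol.roots.toFinset.card ≤ 2 ^ 2 := by
    refine (Multiset.toFinset_card_le _).trans ?_
    rw [← hpd]
    exact Polynomial.card_roots' _
  have himg : (K.filter (fun y => f y + y = v)).image (fun y => y + x) ⊆ pol.roots.toFinset := by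
    intro t ht
    rw [mem_image] at ht
    obtain ⟨y, hy, rfl⟩ := ht
    rw [mem_filter] at hy
    rw [hroot]
    exact h10 y hy.1 hy.2
  have hcimg : ((K.filter (fun y => f y + y = v)).image (fun y => y + x)).card = 2 ^ 2 := by
    rw [card_image_of_injective _ (add_left_injective x), ← hv]
    exact G.full x hx
  have heq := eq_of_subset_of_card_le himg (by rw [hcimg]; exact hcard)
  have hu' := (hroot u).mpr hu
  rw [← heq, mem_image] at hu'
  obtain ⟨y, hy, hyu⟩ := hu'
  rw [mem_filter] at hy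
  have hyx : y = x + u := by
    rw [← hyu]
    have : x + (y + x) = y + (x + x) := by ring
    rw [this, CharTwo.add_self_eq_zero, add_zero]
  have h13 := hy.2
  rw [hyx, ← hv] at h13
  have h14 : f (x + u) + (f x + u) = 0 := by
    have e : f (x + u) + (f x + u) = (f (x + u) + (x + u)) - (f x + x) + (f x + f x) := by ring
    rw [e, h13, sub_self, zero_add, CharTwo.add_self_eq_zero]
  exact CharTwo.add_eq_zero.mp h14


/-- the bad points -/
theorem bad (G : Ge F K k f) (hsq : ∀ a : F, ∃ b, b ^ 2 = a) {n : ℕ}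
    {a b c : MvPolynomial (Fin 2) F} (H : M2 K k f n a b c) :
    ∃ Bad : Finset F, Bad.card + 4 ≤ 4 * n ∧
      ∀ x ∈ K, x ∉ Bad → ∀ u : F, u ^ (2 ^ 2) = u → f (x + u) = f x + u := by
  have hω0 := G.F5' hsq H
  set ω := Polynomial.derivative (ro 1 a * ro 1 c) with hω
  refine ⟨K.filter (fun x => Polynomial.eval (f x + x) ω = 0), ?_, ?_⟩
  · have hsub : K.filter (fun x => Polynomial.eval (f x + x) ω = 0) ⊆
        (ω.roots.toFinset).biUnion (fun v => K.filter (fun y => f y + y = v)) := by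
      intro x hx
      rw [mem_filter] at hx
      rw [mem_biUnion]
      refine ⟨f x + x, ?_, ?_⟩
      · rw [Multiset.mem_toFinset, Polynomial.mem_roots hω0]
        exact hx.2
      · rw [mem_filter]; exact ⟨hx.1, rfl⟩
    have hfib : ∀ v ∈ ω.roots.toFinset, (K.filter (fun y => f y + y = v)).card ≤ 4 := by
      intro v _
      by_cases he : K.filter (fun y => f y + y = v) = ∅
      · rw [he, card_empty]; omega
      · obtain ⟨x, hx⟩ := nonempty_iff_ne_empty.mpr he
        rw [mem_filter] at hx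
        rw [← hx.2]
        exact (G.full x hx.1).le
    have hdeg : ω.natDegree + 1 ≤ 2 * n := by
      have ha' : (ro 1 a).natDegree ≤ n := ro_deg 1 H.da
      have hc' : (ro 1 c).natDegree ≤ n := ro_deg 1 H.dc
      have h1 := Polynomial.natDegree_mul_le (p := ro 1 a) (q := ro 1 c)
      have h2 := Polynomial.natDegree_derivative_le (ro 1 a * ro 1 c)
      have h3 : (ro 1 a * ro 1 c).natDegree ≠ 0 := by
        intro h0
        apply hω0
        rw [hω]
        exact Polynomial.derivative_of_natDegree_zero h0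
      rw [← hω] at h2
      omega
    have hdd : ∀ v ∈ ω.roots.toFinset, (Polynomial.X - Polynomial.C v) ^ 2 ∣ ω := by
      intro v hv
      rw [Multiset.mem_toFinset, Polynomial.mem_roots hω0] at hv
      apply sq_dvd hv
      rw [hω, dd_zero, Polynomial.eval_zero]
    have hr := dvd_prod_pow hdd hω0
    have h5 := (card_le_card hsub).trans (card_biUnion_le_card_mul _ _ _ hfib)
    omega
  · intro x hx hxB u hu
    rw [mem_filter, not_and] at hxB
    exact G.F6' hsq H hx (hxB hx) hu

end Ge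

end Pool.Agent.Helper992
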