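import Pool.Agent.Helper992.Quad5
import Pool.Agent.Helper992.Final

set_option autoImplicit false
set_option linter.unusedSectionVars false
open scoped Classical

namespace Pool.Agent.Helper992

open Finset MvPolynomial

variable {F : Type*} [Field F] [CharP F 2] {K : Finset F} {k : ℕ} {f : F → F}

theorem pow_four {c : F} (hc : c ^ (2 ^ 2) = c) (t : ℕ) : c ^ (2 ^ (2 * t)) = c := by
  induction t with
  | zero => simp
  | succ t ih => rw [show 2 * (t + 1) = 2 * t + 2 by ring, pow_add, pow_mul, ih, hc]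

theorem natDegree_T {τ : F} {r μ₀ : ℕ} (hodd : Odd μ₀) :
    2 ^ r * (μ₀ - 1) ≤ ((Polynomial.X + Polynomial.C τ : Polynomial F) ^ (2 ^ r * μ₀)
      + (Polynomial.X + Polynomial.C (τ + 1)) ^ (2 ^ r * μ₀)).natDegree := by
  rw [pow_expand, pow_expand, ← map_add, Polynomial.natDegree_expand, mul_comm]
  apply Nat.mul_le_mul_right
  apply Polynomial.le_natDegree_of_ne_zero
  have h1 : 1 ≤ μ₀ := hodd.pos
  rw [Polynomial.coeff_add, Polynomial.coeff_X_add_C_pow, Polynomial.coeff_X_add_C_pow,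
    show μ₀ - (μ₀ - 1) = 1 by omega, pow_one, pow_one, add_pow_char_pow, one_pow]
  have h2 : μ₀.choose (μ₀ - 1) = μ₀ := by
    obtain ⟨m, rfl⟩ : ∃ m, μ₀ = m + 1 := ⟨μ₀ - 1, by omega⟩
    rw [Nat.add_sub_cancel, Nat.choose_succ_self_right]
  have hm : ((μ₀ : ℕ) : F) = 1 := by
    obtain ⟨t, ht⟩ := hodd
    rw [ht]; push_cast
    rw [CharTwo.two_eq_zero]; ring
  rw [h2, hm, mul_one, mul_one, ← add_assoc, CharTwo.add_self_eq_zero, zero_add]
  exact one_ne_zero

/-- the ending in the quadruple case -/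
theorem Ge.ending (G : Ge F K k f) (hsq : ∀ a : F, ∃ b, b ^ 2 = a) {σ τ c : F} {μ : ℕ}
    (hμ : 1 ≤ μ) (hμ2 : μ ≤ 2 ^ (k - 1))
    (hrel : ∀ x ∈ K, (x ^ (2 ^ (k - 2)) + σ) * ((f x + τ) ^ μ + (f x + τ + 1) ^ μ)
      = (f x + τ) ^ μ)
    (hc : c ^ (2 ^ 2) = c) (hc0 : c ≠ 0) (hc1 : c ≠ 1) : ∃ r, μ = 2 ^ r := by
  obtain ⟨n, a, b, e, H⟩ := G.exists_M2 hsq
  obtain ⟨Bad, hBad, hgood⟩ := G.bad hsq H
  have hn := G.n_small hsq H
  obtain ⟨q1, q2, q3⟩ := G.Qs
  have hk := G.hk
  have hq2 : 2 ^ k = 2 * 2 ^ (k - 1) := by rw [← pow_succ']; congr 1; omega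
  have himg : K.image f = K := by
    apply eq_of_subset_of_card_le
    · intro y hy
      obtain ⟨x, hx, rfl⟩ := mem_image.mp hy
      exact G.fK x hx
    · rw [card_image_of_injOn (fun x hx y hy h => G.inj x hx y hy h)]
  set S : Polynomial F := (Polynomial.X + Polynomial.C τ) ^ μ with hS
  set S1 : Polynomial F := (Polynomial.X + Polynomial.C (τ + 1)) ^ μ with hS1
  have hdS : S.natDegree = μ := natDegree_aux τ μ
  have hdS1 : S1.natDegree = μ := natDegree_aux (τ + 1) μ
  have hdT : (S + S1).natDegree ≤ μ :=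
    (Polynomial.natDegree_add_le _ _).trans (max_le hdS.le hdS1.le)
  have hda : (ro 0 a).natDegree ≤ n := ro_deg 0 H.da
  have hdb : (ro 0 b).natDegree ≤ n := ro_deg 0 H.db
  have hde : (ro 0 e).natDegree ≤ n := ro_deg 0 H.dc
  have hcop : IsCoprime S (S + S1) := by
    have h2 : IsCoprime S S1 := coprime_aux (fun h => one_ne_zero (left_eq_add.mp h)) μ
    have h3 := IsCoprime.mul_add_left_right h2 1
    rwa [mul_one] at h3
  have hT0 : S + S1 ≠ 0 := by
    intro h0
    rw [h0, isCoprime_zero_right] at hcop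
    have := Polynomial.natDegree_eq_zero_of_isUnit hcop
    omega
  have hΦ : (S + S1) * (ro 0 a + Polynomial.X ^ (2 ^ (k - 2)) * ro 0 e
      + Polynomial.C σ * ro 0 b) + S * ro 0 b = 0 := by
    apply Polynomial.eq_zero_of_natDegree_lt_card_of_eval_eq_zero' _ K
    · intro y hy
      rw [← himg] at hy
      obtain ⟨x, hx, rfl⟩ := mem_image.mp hy
      have h1 := congrArg (Polynomial.eval 0) (G.sec4 H.sec hx)
      rw [Polynomial.eval_add, Polynomial.eval_mul, Polynomial.eval_mul, Polynomial.eval_C,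
        Polynomial.eval_C, ev_rl, ev_rl, ev_rl, mul_zero, zero_add] at h1
      have h2 := hrel x hx
      simp only [hS, hS1, Polynomial.eval_add, Polynomial.eval_mul, Polynomial.eval_C,
        Polynomial.eval_pow, Polynomial.eval_X, ev_ro, ← add_assoc]
      rw [h1]
      set s := (f x + τ) ^ μ
      set s1 := (f x + τ + 1) ^ μ
      set b0 := ev (f x) 0 b
      set e0 := ev (f x) 0 e
      have : (s + s1) * (x ^ 2 ^ (k - 2) * b0 + f x ^ 2 ^ (k - 2) * e0
          + f x ^ 2 ^ (k - 2) * e0 + σ * b0) + s * b0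
          = ((x ^ 2 ^ (k - 2) + σ) * (s + s1)) * b0 + s * b0
            + (s + s1) * (f x ^ 2 ^ (k - 2) * e0 + f x ^ 2 ^ (k - 2) * e0) := by ring
      rw [this, h2, CharTwo.add_self_eq_zero, CharTwo.add_self_eq_zero, mul_zero, add_zero]
    · rw [G.cardK]
      refine lt_of_le_of_lt (b := μ + (2 ^ (k - 2) + n)) ?_ (by omega)
      have e1 : (Polynomial.X ^ (2 ^ (k - 2)) * ro 0 e).natDegree ≤ 2 ^ (k - 2) + n := by
        refine Polynomial.natDegree_mul_le.trans ?_
        rw [Polynomial.natDegree_X_pow]; omega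
      have e2 : (Polynomial.C σ * ro 0 b).natDegree ≤ 2 ^ (k - 2) + n :=
        (Polynomial.natDegree_C_mul_le _ _).trans (by omega)
      have e3 : (ro 0 a + Polynomial.X ^ (2 ^ (k - 2)) * ro 0 e
          + Polynomial.C σ * ro 0 b).natDegree ≤ 2 ^ (k - 2) + n :=
        (Polynomial.natDegree_add_le _ _).trans (max_le
          ((Polynomial.natDegree_add_le _ _).trans (max_le (by omega) e1)) e2)
      refine (Polynomial.natDegree_add_le _ _).trans (max_le ?_ ?_)
      · refine Polynomial.natDegree_mul_le.trans ?_; omega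
      · refine Polynomial.natDegree_mul_le.trans ?_; omega
  have hΦ' : (S + S1) * (ro 0 a + Polynomial.X ^ (2 ^ (k - 2)) * ro 0 e
      + Polynomial.C σ * ro 0 b) = S * ro 0 b := CharTwo.add_eq_zero.mp hΦ
  have hb0 : ro 0 b ≠ 0 := by
    intro h0
    rw [h0, mul_zero, mul_zero, add_zero] at hΦ'
    have h1 := (mul_eq_zero.mp hΦ').resolve_left hT0
    have h2 := small_zero (by omega) h1
    exact not_unit_h 0 (H.prim _ (dvd_of_sb1 (0 : F) h2.1) (dvd_of_sb1 (0 : F) h0)
      (dvd_of_sb1 (0 : F) h2.2))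
  have hTd : (S + S1).natDegree ≤ n := by
    have h2 : (S + S1) ∣ ro 0 b := by
      apply IsCoprime.dvd_of_dvd_mul_left hcop.symm
      rw [← hΦ']; exact dvd_mul_right _ _
    exact (Polynomial.natDegree_le_of_dvd h2 hb0).trans hdb
  obtain ⟨r, μ₀, hodd, hμr⟩ := Nat.exists_eq_two_pow_mul_odd (n := μ) (by omega)
  by_cases h10 : μ₀ = 1
  · exact ⟨r, by rw [hμr, h10, mul_one]⟩
  have h30 : 3 ≤ μ₀ := by
    obtain ⟨t, ht⟩ := hodd
    omega
  have hμn : 2 * μ ≤ 3 * n := by
    have h1 := natDegree_T (τ := τ) (r := r) hodd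
    rw [← hμr, ← hS, ← hS1] at h1
    have h2 : 2 ^ r * (μ₀ - 1) ≤ n := h1.trans hTd
    have h3 : 2 * μ₀ ≤ 3 * (μ₀ - 1) := by omega
    calc 2 * μ = 2 ^ r * (2 * μ₀) := by rw [hμr]; ring
      _ ≤ 2 ^ r * (3 * (μ₀ - 1)) := Nat.mul_le_mul_left _ h3
      _ = 3 * (2 ^ r * (μ₀ - 1)) := by ring
      _ ≤ 3 * n := Nat.mul_le_mul_left _ h2
  obtain ⟨t, ht⟩ := G.dvd
  have hcK : c ∈ K := by
    rw [G.memK, ht]
    exact pow_four hc t
  have hcQ : c ^ (2 ^ (k - 2)) = c := by
    have : k - 2 = 2 * (t - 1) := by omega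
    rw [this]
    exact pow_four hc (t - 1)
  apply ident hc0 hc1 hμ (Y := (K \ Bad).image (fun x => f x + τ))
  · rw [card_image_of_injOn]
    · have h1 := le_card_sdiff Bad K
      rw [G.cardK] at h1
      omega
    · intro x hx y hy h
      simp only [coe_sdiff, Set.mem_diff, mem_coe] at hx hy
      exact G.inj x hx.1 y hy.1 (add_right_cancel h)
  · intro y hy
    obtain ⟨x, hx, rfl⟩ := mem_image.mp hy
    rw [mem_sdiff] at hx
    have h1 := hrel x hx.1
    have h2 := hrel (x + c) (G.addK hx.1 hcK)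
    rw [hgood x hx.1 hx.2 c hc, add_pow_char_pow, hcQ] at h2
    have e0 : f x + c + τ = f x + τ + c := by ring
    rw [e0] at h2
    set y := f x + τ
    set z := x ^ 2 ^ (k - 2)
    set a := y ^ μ
    set b := (y + 1) ^ μ
    set a' := (y + c) ^ μ
    set b' := (y + c + 1) ^ μ
    have e : c * ((a + b) * (a' + b'))
        = ((z + c + σ) * (a' + b')) * (a + b) + ((z + σ) * (a + b)) * (a' + b')
          - ((z + σ) * (a + b) * (a' + b') + (z + σ) * (a + b) * (a' + b')) := by ring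
    rw [e, h1, h2, CharTwo.add_self_eq_zero, sub_zero]
    have e2 : a' * (a + b) + a * (a' + b') = a * b' + b * a' + (a * a' + a * a') := by ring
    rw [e2, CharTwo.add_self_eq_zero, add_zero]

end Pool.Agent.Helper992
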