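import Pool.Agent.Helper992.Final
import Pool.Agent.Helper992.Main

set_option autoImplicit false
set_option linter.unusedSectionVars false
open scoped Classical

namespace Pool.Agent.Helper992

open Finset

variable {k : ℕ}

theorem exists_mu (hk : 1 ≤ k) {m : ℤ} (hm : IsCoprime m ((2 ^ k + 1 : ℕ) : ℤ)) :
    ∃ μ : ℕ, 1 ≤ μ ∧ μ ≤ 2 ^ (k - 1) ∧
      (((2 ^ k + 1 : ℕ) : ℤ) ∣ m - μ ∨ ((2 ^ k + 1 : ℕ) : ℤ) ∣ m + μ) := by
  have hq : 2 ^ k = 2 * 2 ^ (k - 1) := by rw [← pow_succ']; congr 1; omega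
  have hpos1 : 0 < 2 ^ (k - 1) := by positivity
  set n : ℕ := 2 ^ k + 1 with hn
  have hnpos : (0 : ℤ) < (n : ℤ) := by positivity
  have hr0 : 0 ≤ m % (n : ℤ) := Int.emod_nonneg _ hnpos.ne'
  have hrn : m % (n : ℤ) < n := Int.emod_lt_of_pos _ hnpos
  have hdm : m = m % (n : ℤ) + (n : ℤ) * (m / n) := (Int.emod_add_mul_ediv m n).symm
  obtain ⟨r, hr⟩ := Int.eq_ofNat_of_zero_le hr0
  rw [hr] at hdm hrn
  have hrn' : r < n := by exact_mod_cast hrn
  have hr1 : r ≠ 0 := by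
    intro h0
    rw [h0, Nat.cast_zero, zero_add] at hdm
    have h1 : (n : ℤ) ∣ m := ⟨_, hdm⟩
    have h2 : IsUnit (n : ℤ) := hm.isUnit_of_dvd' h1 dvd_rfl
    rcases Int.isUnit_iff.mp h2 with h | h <;> omega
  by_cases hle : r ≤ 2 ^ (k - 1)
  · refine ⟨r, by omega, hle, Or.inl ⟨m / n, ?_⟩⟩
    linarith
  · refine ⟨n - r, by omega, by omega, Or.inr ⟨m / n + 1, ?_⟩⟩
    rw [Nat.cast_sub hrn'.le]
    linarith

variable {F : Type*} [Field F] [Fintype F] [CharP F 2]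

theorem XX_pow {w : F} (hw : w ∈ (U F k).erase 1) {μ : ℕ} (hμ : w ^ μ ∈ (U F k).erase 1) :
    XX k (w ^ μ) * ((XX k w) ^ μ + (XX k w + 1) ^ μ) = (XX k w) ^ μ := by
  have hT := T_ne_zero hw
  have hTμ := T_ne_zero hμ
  have hwU := (mem_erase.mp hw).2
  have hwμU := (mem_erase.mp hμ).2
  have h1 : XX k w + 1 = w⁻¹ / T k w := by
    rw [← XX_inv hw, XX, T_inv hwU]
  rw [h1, XX, XX, div_pow, div_pow, ← add_div, inv_pow, ← T_U hwμU, div_mul_div_comm]
  rw [mul_comm (w ^ μ) (T k (w ^ μ)), mul_div_mul_left _ _ hTμ]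

/-- The case `3 ≤ j`. -/
theorem strong_case (hk : 1 ≤ k) (hF : Fintype.card F = 2 ^ (2 * k)) {s : ℤ}
    (hs : IsCoprime (1 - 2 * s) ((2 ^ k + 1 : ℕ) : ℤ)) {j : ℕ} (hj : 3 ≤ j)
    (hD : FourData F k s j) : Concl k s := by
  have h0 := hD.cop0
  have h1 : IsCoprime (s - 1) ((2 ^ k + 1 : ℕ) : ℤ) := by
    have := hD.cop1.neg_left
    rwa [neg_sub] at this
  set n : ℤ := ((2 ^ k + 1 : ℕ) : ℤ) with hn
  have hn3 : 3 ≤ n := by
    have : 2 ^ 1 ≤ 2 ^ k := Nat.pow_le_pow_right (by norm_num) hk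
    omega
  obtain ⟨a, b, hab⟩ := h1
  have h1 : IsCoprime (s - 1) n := ⟨a, b, hab⟩
  have hacop : IsCoprime a n := ⟨s - 1, b, by linear_combination hab⟩
  have hm : IsCoprime (a * s) n := hacop.mul_left h0
  obtain ⟨μ, hμ1, hμ2, hμ⟩ := exists_mu hk hm
  -- squares
  have hsq : ∀ x : F, ∃ y, y ^ 2 = x := by
    intro x
    have h2 : Function.Injective (fun y : F => y ^ 2) := by
      intro y z h
      simp only at h
      have h3 : (y + z) ^ 2 = 0 := by rw [CharTwo.add_sq, h, CharTwo.add_self_eq_zero]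
      exact CharTwo.add_eq_zero.mp ((pow_eq_zero_iff (by norm_num)).mp h3)
    exact (Finite.injective_iff_surjective.mp h2) x
  -- a primitive root
  obtain ⟨ζ, hζ⟩ := exists_zeta hF
  have hζU : ζ ∈ U F k := mem_U.mpr hζ.pow_eq_one
  have hζE : ζ ∈ (U F k).erase 1 := by
    rw [mem_erase]
    refine ⟨?_, hζU⟩
    intro h4
    have : (2 ^ k + 1) ∣ 1 := by
      rw [← hζ.pow_eq_one_iff_dvd, h4, one_pow]
    have := Nat.le_of_dvd one_pos this
    have : 0 < 2 ^ k := by positivity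
    omega
  set τ : F := XX k ζ with hτdef
  have hτ : τ + τ ^ (2 ^ k) = 1 := XX_conj hF hζE
  obtain ⟨f, G, hf⟩ := exists_geo hk hF hs hj hD hτ
  -- the constant
  have h8 : 8 ≤ 2 ^ j := by
    calc 8 = 2 ^ 3 := by norm_num
      _ ≤ 2 ^ j := Nat.pow_le_pow_right (by norm_num) hj
  obtain ⟨c, hc⟩ : ∃ c : F, IsPrimitiveRoot c (2 ^ j - 1) := by
    apply exists_prim
    rw [hF]
    obtain ⟨t, ht⟩ : j ∣ 2 * k := dvd_mul_of_dvd_right G.dvd 2
    rw [ht, pow_mul]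
    exact Nat.sub_one_dvd_pow_sub_one _ _
  have hcM : c ^ (2 ^ j) = c := by
    have e : 2 ^ j = (2 ^ j - 1) + 1 := by omega
    rw [e, pow_succ, hc.pow_eq_one, one_mul]
  have hc0 : c ≠ 0 := by
    rintro rfl
    have := hc.pow_eq_one
    rw [zero_pow (by omega)] at this
    exact zero_ne_one this
  have hc1 : c ≠ 1 := by
    rintro rfl
    have h2 : (2 ^ j - 1) ∣ 1 := by rw [← hc.pow_eq_one_iff_dvd, one_pow]
    have := Nat.le_of_dvd one_pos h2
    omega
  have hμcop : IsCoprime ((μ : ℕ) : ℤ) n := by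
    rcases hμ with h | h
    · apply isCoprime_congr _ hm
      rw [← dvd_neg, neg_sub]; exact h
    · have h2 : IsCoprime (-(a * s)) n := hm.neg_left
      apply isCoprime_congr _ h2
      rw [sub_neg_eq_add, add_comm]; exact h
  -- the relation
  obtain ⟨ε, hε⟩ : ∃ ε : F, ∀ p ∈ (U F k).erase 1,
      (XX k (p ^ s) + ε) * ((XX k (p ^ (s - 1))) ^ μ + (XX k (p ^ (s - 1)) + 1) ^ μ)
        = (XX k (p ^ (s - 1))) ^ μ := by
    have hpow : ∀ p ∈ (U F k).erase 1, p ^ s = (p ^ (s - 1)) ^ (a * s) := by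
      intro p hp
      rw [← zpow_mul]
      apply U_zpow_eq_of_dvd (mem_erase.mp hp).2
      refine ⟨s * b, ?_⟩
      rw [← hn]
      linear_combination (-s) * hab
    have hwμ : ∀ w ∈ (U F k).erase 1, w ^ μ ∈ (U F k).erase 1 := by
      intro w hw
      have := zpow_mem_erase hμcop hw
      rwa [zpow_natCast] at this
    rcases hμ with h | h
    · refine ⟨0, fun p hp => ?_⟩
      have hw := zpow_mem_erase h1 hp
      have e1 : p ^ s = (p ^ (s - 1)) ^ μ := by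
        rw [hpow p hp, ← zpow_natCast]
        exact U_zpow_eq_of_dvd (mem_erase.mp hw).2 h
      rw [e1, add_zero]
      exact XX_pow hw (hwμ _ hw)
    · refine ⟨1, fun p hp => ?_⟩
      have hw := zpow_mem_erase h1 hp
      have e1 : p ^ s = ((p ^ (s - 1)) ^ μ)⁻¹ := by
        rw [hpow p hp, ← zpow_natCast, ← zpow_neg]
        apply U_zpow_eq_of_dvd (mem_erase.mp hw).2
        rw [sub_neg_eq_add]; exact h
      rw [e1, XX_inv (hwμ _ hw), add_assoc, CharTwo.add_self_eq_zero, add_zero]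
      exact XX_pow hw (hwμ _ hw)
  have hrel : ∀ x ∈ K F k, (x + (τ + ε)) * ((f x + τ) ^ μ + (f x + τ + 1) ^ μ)
      = (f x + τ) ^ μ := by
    intro x hx
    obtain ⟨p, hp, rfl⟩ := exists_shift hk hF h0 hτ hx
    have h2 := hε p hp
    rw [hf p hp]
    have e1 : XX k (p ^ (s - 1)) + τ + τ = XX k (p ^ (s - 1)) := by
      rw [add_assoc, CharTwo.add_self_eq_zero, add_zero]
    have e2 : XX k (p ^ s) + τ + (τ + ε) = XX k (p ^ s) + ε := by
      have : XX k (p ^ s) + τ + (τ + ε) = XX k (p ^ s) + ε + (τ + τ) := by ring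
      rw [this, CharTwo.add_self_eq_zero, add_zero]
    rw [e1, e2]
    exact h2
  obtain ⟨r, hr⟩ := G.ending hsq hμ1 hμ2 hrel hcM hc0 hc1
  -- conclusion
  have hμr : ((μ : ℕ) : ℤ) = 2 ^ r := by rw [hr]; push_cast; ring
  rw [hμr] at hμ
  have hkey : n ∣ s - (a * s) * (s - 1) := ⟨s * b, by linear_combination (-s) * hab⟩
  rcases hμ with h | h
  · have h2 : n ∣ s - 2 ^ r * (s - 1) := by
      have h3 := dvd_add hkey (Dvd.dvd.mul_right h (s - 1))
      have e : s - a * s * (s - 1) + (a * s - 2 ^ r) * (s - 1) = s - 2 ^ r * (s - 1) := by ring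
      rwa [e] at h3
    have hr0 : 0 < r := by
      rcases Nat.eq_zero_or_pos r with h0' | h0'
      · exfalso
        rw [h0'] at h2
        have e : s - 2 ^ 0 * (s - 1) = 1 := by ring
        rw [e] at h2
        have := Int.le_of_dvd one_pos h2
        omega
      · exact h0'
    apply concl_of hk hs hr0 (ε := -1) (Or.inr rfl)
    have e3 : s * (2 ^ r + -1) - 2 ^ r = -(s - 2 ^ r * (s - 1)) := by ring
    rw [e3]; exact (dvd_neg).mpr h2
  · have h2 : n ∣ s + 2 ^ r * (s - 1) := by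
      have h3 := dvd_add hkey (Dvd.dvd.mul_right h (s - 1))
      have e : s - a * s * (s - 1) + (a * s + 2 ^ r) * (s - 1) = s + 2 ^ r * (s - 1) := by ring
      rwa [e] at h3
    have hr0 : 0 < r := by
      rcases Nat.eq_zero_or_pos r with h0' | h0'
      · exfalso
        rw [h0'] at h2
        have e : s + 2 ^ 0 * (s - 1) = -(1 - 2 * s) := by ring
        rw [e, dvd_neg] at h2
        have h4 : IsUnit n := hs.isUnit_of_dvd' h2 dvd_rfl
        rcases Int.isUnit_iff.mp h4 with h | h <;> omega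
      · exact h0'
    apply concl_of hk hs hr0 (ε := 1) (Or.inl rfl)
    have e3 : s * (2 ^ r + 1) - 2 ^ r = s + 2 ^ r * (s - 1) := by ring
    rw [e3]; exact h2

theorem main_strong {k : ℕ} {F : Type*} [Field F] [Fintype F] (hk : 1 ≤ k)
    (hF : Fintype.card F = 2 ^ (2 * k)) {s : ℕ}
    (hd : Nat.Coprime (s * (2 ^ k - 1) + 1) (2 ^ (2 * k) - 1))
    (hW : (WV F k (s * (2 ^ k - 1) + 1)).card = 4) :
    ∃ j : ℕ, 0 < j ∧ 2 * j ∣ k ∧
      WV F k (s * (2 ^ k - 1) + 1) = {-(2 : ℤ) ^ k, 0, (2 : ℤ) ^ k, (2 : ℤ) ^ (k + j)} ∧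
      ((j = 2 → k = 4) → Concl k (s : ℤ)) := by
  have hchar : CharP F 2 := charTwo hF
  rw [WV_card hk hF] at hW
  have hs := coprime_of hd
  obtain ⟨j, hD⟩ := four_data hk hF hs hW
  refine ⟨j, hD.hj, hD.dvd, ?_, ?_⟩
  · rw [WV_eq hk hF, hD.V_eq]
    simp only [image_insert, image_singleton]
    have e1 : (2 : ℤ) ^ k * (((0 : ℕ) : ℤ) - 1) = -(2 : ℤ) ^ k := by push_cast; ring
    have e2 : (2 : ℤ) ^ k * (((1 : ℕ) : ℤ) - 1) = 0 := by push_cast; ring
    have e3 : (2 : ℤ) ^ k * (((2 : ℕ) : ℤ) - 1) = (2 : ℤ) ^ k := by push_cast; ring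
    have e4 : (2 : ℤ) ^ k * (((2 ^ j + 1 : ℕ) : ℤ) - 1) = (2 : ℤ) ^ (k + j) := by
      push_cast; ring
    rw [e1, e2, e3, e4]
  · intro h
    have hj1 := hD.hj
    by_cases hj : j = 1
    · subst hj
      exact two_case hk hF hs hD
    · by_cases hj2 : j = 2
      · subst hj2
        have hk4 := h rfl
        exact square_case (by omega) hF hs (by omega) hD
      · exact strong_case hk hF hs (by omega) hD

end Pool.Agent.Helper992
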