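import Pool.Agent.Helper992.Quad6
import Pool.Agent.Helper992.Strong

set_option autoImplicit false
set_option linter.unusedSectionVars false
open scoped Classical

namespace Pool.Agent.Helper992

open Finset

variable {k : ℕ} {F : Type*} [Field F] [Fintype F] [CharP F 2]

theorem exists_ge (hk : 1 ≤ k) (hF : Fintype.card F = 2 ^ (2 * k)) {s : ℤ}
    (hs : IsCoprime (1 - 2 * s) ((2 ^ k + 1 : ℕ) : ℤ)) (hD : FourData F k s 2) {τ : F} (hτ : τ + τ ^ (2 ^ k) = 1) :
    ∃ f : F → F, Ge F (K F k) k f ∧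
      ∀ p ∈ (U F k).erase 1, f (XX k (p ^ s) + τ) = XX k (p ^ (s - 1)) + τ := by
  have h0 := hD.cop0
  have h1 : IsCoprime (s - 1) ((2 ^ k + 1 : ℕ) : ℤ) := by
    have := hD.cop1.neg_left
    rwa [neg_sub] at this
  obtain ⟨f, hf⟩ := exists_fun (F := F) h0 τ
  set E := (U F k).erase 1 with hE
  have hxK : ∀ p ∈ E, XX k (p ^ s) + τ ∈ K F k :=
    fun p hp => shift_mem_K hF hτ (zpow_mem_erase h0 hp)
  have hyK : ∀ p ∈ E, XX k (p ^ (s - 1)) + τ ∈ K F k :=
    fun p hp => shift_mem_K hF hτ (zpow_mem_erase h1 hp)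
  have hsurj : ∀ x ∈ K F k, ∃ p ∈ E, XX k (p ^ s) + τ = x :=
    fun x hx => exists_shift hk hF h0 hτ hx
  have hinj : ∀ p ∈ E, ∀ p' ∈ E, XX k (p ^ s) + τ = XX k (p' ^ s) + τ → p = p' := by
    intro p hp p' hp' h
    have h3 := XX_inj (zpow_mem_erase h0 hp) (zpow_mem_erase h0 hp') (add_right_cancel h)
    exact U_zpow_inj h0 (mem_erase.mp hp).2 (mem_erase.mp hp').2 h3
  have hfinj : ∀ x ∈ K F k, ∀ y ∈ K F k, f x = f y → x = y := by
    intro x hx y hy h
    obtain ⟨p, hp, rfl⟩ := hsurj x hx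
    obtain ⟨p', hp', rfl⟩ := hsurj y hy
    rw [hf p hp, hf p' hp'] at h
    have h3 := XX_inj (zpow_mem_erase h1 hp) (zpow_mem_erase h1 hp') (add_right_cancel h)
    rw [U_zpow_inj h1 (mem_erase.mp hp).2 (mem_erase.mp hp').2 h3]
  have hcard : ∀ α β : F, (ln (K F k) f α β).card = (E.filter (fun p =>
      (XX k (p ^ (s - 1)) + τ) + α * (XX k (p ^ s) + τ) + β = 0)).card := by
    intro α β
    symm
    have himg : ln (K F k) f α β = (E.filter (fun p =>
        (XX k (p ^ (s - 1)) + τ) + α * (XX k (p ^ s) + τ) + β = 0)).image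
          (fun p => XX k (p ^ s) + τ) := by
      ext x
      rw [mem_ln, mem_image]
      constructor
      · rintro ⟨hx, h⟩
        obtain ⟨p, hp, rfl⟩ := hsurj x hx
        refine ⟨p, ?_, rfl⟩
        rw [mem_filter]
        rw [hf p hp] at h
        exact ⟨hp, h⟩
      · rintro ⟨p, hp, rfl⟩
        rw [mem_filter] at hp
        refine ⟨hxK p hp.1, ?_⟩
        rw [hf p hp.1]
        exact hp.2
    rw [himg, card_image_of_injOn]
    intro p hp p' hp' h
    rw [mem_coe, mem_filter] at hp hp'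
    exact hinj p hp.1 p' hp'.1 h
  -- the lines of slope one
  have hone : ∀ β ∈ K F k, (ln (K F k) f 1 β).card = 0 ∨ (ln (K F k) f 1 β).card = 4 := by
    intro β hβ
    rw [hcard]
    have hset : ∀ p ∈ E, ((XX k (p ^ (s - 1)) + τ) + 1 * (XX k (p ^ s) + τ) + β = 0 ↔
        kap k s p = β) := by
      intro p hp
      have e : (XX k (p ^ (s - 1)) + τ) + 1 * (XX k (p ^ s) + τ) + β = kap k s p + β := by
        rw [kap_eq h0 h1 hp]
        have : XX k (p ^ (s - 1)) + τ + 1 * (XX k (p ^ s) + τ) + β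
          = XX k (p ^ s) + XX k (p ^ (s - 1)) + β + (τ + τ) := by ring
        rw [this, CharTwo.add_self_eq_zero, add_zero]
      rw [e, CharTwo.add_eq_zero]
    by_cases hβ0 : β = 0
    · left
      rw [card_eq_zero, filter_eq_empty_iff]
      intro p hp h
      rw [hset p hp, hβ0] at h
      exact kap_ne_zero h0 h1 hp h
    · have hβi : β⁻¹ ∈ K F k := inv_mem_K hβ
      have e1 : E.filter (fun p => (XX k (p ^ (s - 1)) + τ) + 1 * (XX k (p ^ s) + τ) + β = 0)
          = L k s 1 β⁻¹ := by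
        ext x
        rw [mem_filter]
        constructor
        · rintro ⟨hx, h⟩
          rw [mem_L_one hF hx, (hset x hx).mp h]
        · intro hx
          have hxE : x ∈ E := (mem_filter.mp hx).1
          rw [mem_L_one hF hxE] at hx
          exact ⟨hxE, (hset x hxE).mpr (inv_injective hx)⟩
      have hN := NZ_line hF (s := s) (one_mem_U (F := F) (k := k)) hβi
      rw [one_zpow, div_one] at hN
      rw [e1]
      rcases hD.valsK (β⁻¹ + 1) (add_mem_K hβi one_mem_K) with h | h <;> omega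
  have hk2 : 2 * 2 ≤ k := Nat.le_of_dvd (by omega) hD.dvd
  refine ⟨f, ⟨by omega, dvd_trans (Dvd.intro_left 2 rfl) hD.dvd, fun z => mem_K,
    card_K hk hF, ?_, hfinj, ?_, ?_, ?_⟩, hf⟩
  · intro x hx
    obtain ⟨p, hp, rfl⟩ := hsurj x hx
    rw [hf p hp]
    exact hyK p hp
  · intro α hα β hβ
    by_cases hα1 : α = 1
    · rw [hα1]
      rcases hone β hβ with h | h
      · left; exact h
      · right; right; exact h
    · have hα1' : 1 + α ≠ 0 := by
        intro h
        exact hα1 (CharTwo.add_eq_zero.mp h).symm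
      have hα1K : 1 + α ∈ K F k := add_mem_K one_mem_K hα
      set γ := β / (1 + α) with hγ
      have hγK : γ ∈ K F k := div_mem_K hβ hα1K
      have hξ : (γ + τ) + (γ + τ) ^ (2 ^ k) = 1 := by
        rw [add_pow_q, mem_K.mp hγK]
        have : γ + τ + (γ + τ ^ 2 ^ k) = (γ + γ) + (τ + τ ^ 2 ^ k) := by ring
        rw [this, CharTwo.add_self_eq_zero, zero_add, hτ]
      obtain ⟨θ, hθ, hθξ⟩ := exists_theta hk hF hξ
      have hTθ := T_ne_zero hθ
      have hθU := (mem_erase.mp hθ).2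
      set ρ := (α / (1 + α)) * T k θ with hρ
      have hρK : ρ ∈ K F k := mul_mem_K (div_mem_K hα hα1K) (T_mem_K hF _)
      have hρT : ρ / T k θ = α / (1 + α) := by rw [hρ, mul_div_cancel_right₀ _ hTθ]
      have e1 : E.filter (fun p => (XX k (p ^ (s - 1)) + τ) + α * (XX k (p ^ s) + τ) + β = 0)
          = L k s θ ρ := by
        ext x
        rw [mem_filter]
        have key : x ∈ E → ((XX k (x ^ (s - 1)) + τ) + α * (XX k (x ^ s) + τ) + β = 0 ↔
            x ∈ L k s θ ρ) := by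
          intro hx
          rw [mem_L_iff hF h0 h1 hx hθ, hρT, hθξ, kap_eq h0 h1 hx, Xp]
          set Y := XX k (x ^ (s - 1))
          set X := XX k (x ^ s)
          have e2 : (Y + τ) + α * (X + τ) + β
              = (1 + α) * ((Y + (γ + τ)) + (X + Y) * (α / (1 + α))) - (α * Y + α * Y) := by
            have hγ' : (1 + α) * γ = β := by rw [hγ, mul_div_cancel₀ _ hα1']
            have hαα : (1 + α) * (α / (1 + α)) = α := mul_div_cancel₀ _ hα1'
            linear_combination (-1 : F) * hγ' - (X + Y) * hαα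
          rw [e2, CharTwo.add_self_eq_zero, sub_zero, mul_eq_zero, or_iff_right hα1',
            CharTwo.add_eq_zero]
        constructor
        · rintro ⟨hx, h⟩
          exact (key hx).mp h
        · intro hx
          have hxE : x ∈ E := (mem_filter.mp hx).1
          exact ⟨hxE, (key hxE).mpr hx⟩
      rw [hcard, e1]
      have h2 := hθU
      rw [← image_zpow_U hs] at h2
      obtain ⟨w, hw, hwθ⟩ := mem_image.mp h2
      have hN := NZ_line hF (s := s) hw hρK
      rw [hwθ] at hN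
      rcases hD.vals ((ρ + θ) / w) with h | h | h | h <;> omega
  · intro x hx
    obtain ⟨p, hp, rfl⟩ := hsurj x hx
    have hp' := mem_erase.mp hp
    have hpi : p⁻¹ ∈ E := by
      rw [hE, mem_erase]
      refine ⟨fun h => hp'.1 ?_, inv_mem_U hp'.2⟩
      rw [← inv_inv p, h, inv_one]
    have e1 : XX k (p ^ s) + τ + 1 = XX k (p⁻¹ ^ s) + τ := by
      rw [inv_zpow, XX_inv (zpow_mem_erase h0 hp)]; ring
    rw [e1, hf _ hpi, hf p hp, inv_zpow, XX_inv (zpow_mem_erase h1 hp)]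
    ring
  · intro x hx
    have hfx : f x ∈ K F k := by
      obtain ⟨p, hp, rfl⟩ := hsurj x hx
      rw [hf p hp]; exact hyK p hp
    have hv : f x + x ∈ K F k := add_mem_K hfx hx
    have e1 : (K F k).filter (fun y => f y + y = f x + x) = ln (K F k) f 1 (f x + x) := by
      ext y
      rw [mem_filter, mem_ln, one_mul, CharTwo.add_eq_zero]
    rw [e1]
    rcases hone _ hv with h | h
    · exfalso
      rw [card_eq_zero] at h
      have : x ∈ ln (K F k) f 1 (f x + x) := by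
        rw [mem_ln, one_mul, CharTwo.add_self_eq_zero]
        exact ⟨hx, rfl⟩
      rw [h] at this
      exact absurd this (notMem_empty _)
    · exact h

/-- The case `j = 2`. -/
theorem quad_case (hk : 1 ≤ k) (hF : Fintype.card F = 2 ^ (2 * k)) {s : ℤ}
    (hs : IsCoprime (1 - 2 * s) ((2 ^ k + 1 : ℕ) : ℤ)) 
    (hD : FourData F k s 2) : Concl k s := by
  have h0 := hD.cop0
  have h1 : IsCoprime (s - 1) ((2 ^ k + 1 : ℕ) : ℤ) := by
    have := hD.cop1.neg_left
    rwa [neg_sub] at this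
  set n : ℤ := ((2 ^ k + 1 : ℕ) : ℤ) with hn
  have hn3 : 3 ≤ n := by
    have : 2 ^ 1 ≤ 2 ^ k := Nat.pow_le_pow_right (by norm_num) hk
    omega
  obtain ⟨a, b, hab⟩ := h1
  have h1 : IsCoprime (s - 1) n := ⟨a, b, hab⟩
  have hacop : IsCoprime a n := ⟨s - 1, b, by linear_combination hab⟩
  have hQcop : IsCoprime (((2 ^ (k - 2) : ℕ)) : ℤ) n := by
    push_cast
    exact (isCoprime_two hk).pow_left
  have hm : IsCoprime (a * s * ((2 ^ (k - 2) : ℕ) : ℤ)) n := (hacop.mul_left h0).mul_left hQcop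
  obtain ⟨μ, hμ1, hμ2, hμ⟩ := exists_mu hk hm
  -- squares
  have hsq : ∀ x : F, ∃ y, y ^ 2 = x := by
    intro x
    have h2 : Function.Injective (fun y : F => y ^ 2) := by
      intro y z h
      simp only at h
      have h3 : (y + z) ^ 2 = 0 := by rw [CharTwo.add_sq, h, CharTwo.add_self_eq_zero]
      exact CharTwo.add_eq_zero.mp ((pow_eq_zero_iff (by norm_num)).mp h3)
    exact (Finite.injective_iff_surjective.mp h2) x
  -- a primitive root
  obtain ⟨ζ, hζ⟩ := exists_zeta hF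
  have hζU : ζ ∈ U F k := mem_U.mpr hζ.pow_eq_one
  have hζE : ζ ∈ (U F k).erase 1 := by
    rw [mem_erase]
    refine ⟨?_, hζU⟩
    intro h4
    have : (2 ^ k + 1) ∣ 1 := by
      rw [← hζ.pow_eq_one_iff_dvd, h4, one_pow]
    have := Nat.le_of_dvd one_pos this
    have : 0 < 2 ^ k := by positivity
    omega
  set τ : F := XX k ζ with hτdef
  have hτ : τ + τ ^ (2 ^ k) = 1 := XX_conj hF hζE
  obtain ⟨f, G, hf⟩ := exists_ge hk hF hs hD hτ
  -- the constant
  obtain ⟨c, hc⟩ : ∃ c : F, IsPrimitiveRoot c (2 ^ 2 - 1) := by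
    apply exists_prim
    rw [hF]
    obtain ⟨t, ht⟩ : 2 ∣ 2 * k := Dvd.intro k rfl
    rw [ht, pow_mul]
    exact Nat.sub_one_dvd_pow_sub_one _ _
  have hcM : c ^ (2 ^ 2) = c := by
    have e : 2 ^ 2 = (2 ^ 2 - 1) + 1 := by norm_num
    rw [e, pow_succ, hc.pow_eq_one, one_mul]
  have hc0 : c ≠ 0 := by
    rintro rfl
    have := hc.pow_eq_one
    rw [zero_pow (by norm_num)] at this
    exact zero_ne_one this
  have hc1 : c ≠ 1 := by
    rintro rfl
    have h2 : (2 ^ 2 - 1) ∣ 1 := by rw [← hc.pow_eq_one_iff_dvd, one_pow]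
    have := Nat.le_of_dvd one_pos h2
    omega
  have hμcop : IsCoprime ((μ : ℕ) : ℤ) n := by
    rcases hμ with h | h
    · apply isCoprime_congr _ hm
      rw [← dvd_neg, neg_sub]; exact h
    · have h2 : IsCoprime (-(a * s * ((2 ^ (k - 2) : ℕ) : ℤ))) n := hm.neg_left
      apply isCoprime_congr _ h2
      rw [sub_neg_eq_add, add_comm]; exact h
  -- the relation
  obtain ⟨ε, hε⟩ : ∃ ε : F, ∀ p ∈ (U F k).erase 1,
      ((XX k (p ^ s)) ^ (2 ^ (k - 2)) + ε)
        * ((XX k (p ^ (s - 1))) ^ μ + (XX k (p ^ (s - 1)) + 1) ^ μ)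
        = (XX k (p ^ (s - 1))) ^ μ := by
    have hpow : ∀ p ∈ (U F k).erase 1, (p ^ s) ^ (2 ^ (k - 2))
        = (p ^ (s - 1)) ^ (a * s * ((2 ^ (k - 2) : ℕ) : ℤ)) := by
      intro p hp
      rw [← zpow_natCast, ← zpow_mul, ← zpow_mul]
      apply U_zpow_eq_of_dvd (mem_erase.mp hp).2
      refine ⟨s * b * ((2 ^ (k - 2) : ℕ) : ℤ), ?_⟩
      rw [← hn]
      linear_combination (-s * ((2 ^ (k - 2) : ℕ) : ℤ)) * hab
    have hwμ : ∀ w ∈ (U F k).erase 1, w ^ μ ∈ (U F k).erase 1 := by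
      intro w hw
      have := zpow_mem_erase hμcop hw
      rwa [zpow_natCast] at this
    rcases hμ with h | h
    · refine ⟨0, fun p hp => ?_⟩
      have hw := zpow_mem_erase h1 hp
      have e1 : (p ^ s) ^ (2 ^ (k - 2)) = (p ^ (s - 1)) ^ μ := by
        rw [hpow p hp, ← zpow_natCast (p ^ (s - 1)) μ]
        exact U_zpow_eq_of_dvd (mem_erase.mp hw).2 h
      rw [← XX_frob, e1, add_zero]
      exact XX_pow hw (hwμ _ hw)
    · refine ⟨1, fun p hp => ?_⟩
      have hw := zpow_mem_erase h1 hp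
      have e1 : (p ^ s) ^ (2 ^ (k - 2)) = ((p ^ (s - 1)) ^ μ)⁻¹ := by
        rw [hpow p hp, ← zpow_natCast (p ^ (s - 1)) μ, ← zpow_neg]
        apply U_zpow_eq_of_dvd (mem_erase.mp hw).2
        rw [sub_neg_eq_add]; exact h
      rw [← XX_frob, e1, XX_inv (hwμ _ hw), add_assoc, CharTwo.add_self_eq_zero, add_zero]
      exact XX_pow hw (hwμ _ hw)
  have hrel : ∀ x ∈ K F k, (x ^ (2 ^ (k - 2)) + (τ ^ (2 ^ (k - 2)) + ε))
      * ((f x + τ) ^ μ + (f x + τ + 1) ^ μ) = (f x + τ) ^ μ := by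
    intro x hx
    obtain ⟨p, hp, rfl⟩ := exists_shift hk hF h0 hτ hx
    have h2 := hε p hp
    rw [hf p hp]
    have e1 : XX k (p ^ (s - 1)) + τ + τ = XX k (p ^ (s - 1)) := by
      rw [add_assoc, CharTwo.add_self_eq_zero, add_zero]
    have e2 : (XX k (p ^ s) + τ) ^ (2 ^ (k - 2)) + (τ ^ (2 ^ (k - 2)) + ε)
        = (XX k (p ^ s)) ^ (2 ^ (k - 2)) + ε := by
      rw [add_pow_char_pow]
      have : XX k (p ^ s) ^ 2 ^ (k - 2) + τ ^ 2 ^ (k - 2) + (τ ^ 2 ^ (k - 2) + ε)
        = XX k (p ^ s) ^ 2 ^ (k - 2) + ε + (τ ^ 2 ^ (k - 2) + τ ^ 2 ^ (k - 2)) := by ring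
      rw [this, CharTwo.add_self_eq_zero, add_zero]
    rw [e1, e2]
    exact h2
  obtain ⟨r, hr⟩ := G.ending hsq hμ1 hμ2 hrel hcM hc0 hc1
  -- conclusion
  have hμr : ((μ : ℕ) : ℤ) = 2 ^ r := by rw [hr]; push_cast; ring
  rw [hμr] at hμ
  have hk4 := G.hk
  have hQ4 : 4 * ((2 ^ (k - 2) : ℕ) : ℤ) = n - 1 := by
    have : (4 : ℕ) * 2 ^ (k - 2) = 2 ^ k := by
      rw [show (4 : ℕ) = 2 ^ 2 by norm_num, ← pow_add]; congr 1; omega
    rw [hn]
    push_cast
    have h2 : (4 : ℤ) * 2 ^ (k - 2) = 2 ^ k := by exact_mod_cast this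
    rw [h2]; ring
  set Q : ℤ := ((2 ^ (k - 2) : ℕ) : ℤ) with hQ
  rcases hμ with h | h
  · -- `s + 2^(r+2) (s-1)`
    obtain ⟨t, ht⟩ := h
    apply concl_of hk hs (r := r + 2) (by omega) (ε := 1) (Or.inl rfl)
    refine ⟨s - 4 * (s - 1) * t - s * b * (n - 1), ?_⟩
    rw [← hn]
    linear_combination (-4 * (s - 1)) * ht + (s * (n - 1)) * hab + (a * s * (s - 1)) * hQ4
  · obtain ⟨t, ht⟩ := h
    apply concl_of hk hs (r := r + 2) (by omega) (ε := -1) (Or.inr rfl)
    refine ⟨-s + 4 * (s - 1) * t + s * b * (n - 1), ?_⟩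
    rw [← hn]
    linear_combination (4 * (s - 1)) * ht - (s * (n - 1)) * hab - (a * s * (s - 1)) * hQ4

/-- The full classification. -/
theorem main_full {k : ℕ} {F : Type*} [Field F] [Fintype F] (hk : 1 ≤ k)
    (hF : Fintype.card F = 2 ^ (2 * k)) {s : ℕ}
    (hd : Nat.Coprime (s * (2 ^ k - 1) + 1) (2 ^ (2 * k) - 1))
    (hW : (WV F k (s * (2 ^ k - 1) + 1)).card = 4) : Concl k (s : ℤ) := by
  have hchar : CharP F 2 := charTwo hF
  rw [WV_card hk hF] at hW
  have hs := coprime_of hd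
  obtain ⟨j, hD⟩ := four_data hk hF hs hW
  have hj1 := hD.hj
  by_cases hj : j = 1
  · subst hj
    exact two_case hk hF hs hD
  · by_cases hj2 : j = 2
    · subst hj2
      exact quad_case hk hF hs hD
    · exact strong_case hk hF hs (by omega) hD

end Pool.Agent.Helper992
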