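import Pool.Agent.Helper992.Quad7

set_option autoImplicit false
set_option linter.unusedSectionVars false
open scoped Classical

namespace Pool.Agent.Helper992

open Finset

theorem sign_zmod (a b : ZMod 2) : (-1 : ℤ) ^ (a.val + b.val) = if a + b = 0 then 1 else -1 := by
  revert a b
  decide

theorem trace_iff {k : ℕ} {F : Type*} [Field F] [Fintype F] [Algebra (ZMod 2) F]
    (hF : Fintype.card F = 2 ^ (2 * k)) (y : F) :
    Algebra.trace (ZMod 2) F y = 0 ↔ ∑ i ∈ range (2 * k), y ^ (2 ^ i) = 0 := by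
  have h1 : Module.finrank (ZMod 2) F = 2 * k := by
    have h := Module.card_eq_pow_finrank (K := ZMod 2) (V := F)
    rw [hF, ZMod.card] at h
    exact (Nat.pow_right_injective (le_refl 2) h).symm
  have h2 := FiniteField.algebraMap_trace_eq_sum_pow (ZMod 2) F y
  rw [h1, Nat.card_zmod] at h2
  rw [← h2]
  constructor
  · intro h; rw [h, map_zero]
  · intro h
    exact (map_eq_zero (algebraMap (ZMod 2) F)).mp h

theorem inv_form {k r : ℕ} {s a : ℤ} (hk : 1 ≤ k)
    (h : s * a ≡ 2 ^ r [ZMOD (2 ^ k + 1 : ℤ)]) :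
    (a : ZMod (2 ^ k + 1)) * (a : ZMod (2 ^ k + 1))⁻¹ = 1 ∧
      (s : ZMod (2 ^ k + 1)) = 2 ^ r * (a : ZMod (2 ^ k + 1))⁻¹ := by
  have h1 : (s : ZMod (2 ^ k + 1)) * (a : ZMod (2 ^ k + 1)) = 2 ^ r := by
    have h2 := (ZMod.intCast_eq_intCast_iff (s * a) (2 ^ r) (2 ^ k + 1)).mpr (by
      push_cast; exact h)
    push_cast at h2
    exact h2
  have h2 : IsUnit ((2 : ZMod (2 ^ k + 1)) ^ r) := by
    apply IsUnit.pow
    have h3 : Nat.Coprime 2 (2 ^ k + 1) := by
      rw [Nat.coprime_two_left]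
      exact ((even_two).pow_of_ne_zero (by omega)).add_one
    have := (ZMod.isUnit_iff_coprime 2 (2 ^ k + 1)).mpr h3
    exact_mod_cast this
  rw [← h1] at h2
  have h3 := isUnit_of_mul_isUnit_right h2
  have h4 := ZMod.mul_inv_of_unit _ h3
  refine ⟨h4, ?_⟩
  rw [← h1, mul_assoc, h4, mul_one]

/-- the cross-correlation -/
theorem seq_main {k : ℕ} (hk : 1 ≤ k) {F : Type*} [Field F] [Fintype F] [Algebra (ZMod 2) F]
    (hF : Fintype.card F = 2 ^ (2 * k)) {α : F} (hα : ∀ x : F, x ≠ 0 → ∃ i : ℕ, α ^ i = x)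
    (hα0 : α ≠ 0) {s : ℤ} {d : ℕ}
    (hd : (d : ℤ) ≡ s * (2 ^ k - 1) + 1 [ZMOD (2 ^ (2 * k) - 1 : ℤ)])
    (hcop : Nat.Coprime d (2 ^ (2 * k) - 1))
    (h4 : ((range (2 ^ (2 * k) - 1)).image (fun τ : ℕ =>
      ∑ t ∈ range (2 ^ (2 * k) - 1),
        (-1 : ℤ) ^ ((Algebra.trace (ZMod 2) F (α ^ (t + τ))).val
          + (Algebra.trace (ZMod 2) F (α ^ (d * t))).val))).card = 4) :
    Concl k s := by
  have hchar : CharP F 2 := charTwo hF
  set N := 2 ^ (2 * k) - 1 with hN
  have h16 : 4 ≤ 2 ^ (2 * k) := by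
    calc 4 = 2 ^ (2 * 1) := by norm_num
      _ ≤ 2 ^ (2 * k) := Nat.pow_le_pow_right (by norm_num) (by omega)
  have hd1 : 1 ≤ d := by
    rcases Nat.eq_zero_or_pos d with h | h
    · rw [h, Nat.coprime_zero_left] at hcop; omega
    · exact h
  -- order of the generator
  have hαN : α ^ N = 1 := by
    have := FiniteField.pow_card_sub_one_eq_one α hα0
    rwa [hF] at this
  have himg : (range N).image (fun i : ℕ => α ^ i) = univ.filter (fun a : F => a ≠ 0) := by
    ext x
    rw [mem_image, mem_filter]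
    constructor
    · rintro ⟨i, _, rfl⟩
      exact ⟨mem_univ _, pow_ne_zero _ hα0⟩
    · rintro ⟨_, hx⟩
      obtain ⟨i, rfl⟩ := hα x hx
      refine ⟨i % N, ?_, ?_⟩
      · rw [mem_range]; exact Nat.mod_lt _ (by omega)
      · exact (pow_eq_pow_of_modEq (Nat.mod_modEq i N) hαN)
  have hcardE : (univ.filter (fun a : F => a ≠ 0)).card = N := by
    rw [filter_ne' univ (0 : F), card_erase_of_mem (mem_univ _), card_univ, hF]
  have hinj : Set.InjOn (fun i : ℕ => α ^ i) (range N : Finset ℕ) := by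
    apply card_image_iff.mp
    rw [himg, hcardE, card_range]
  -- a natural parameter
  obtain ⟨s', hs'⟩ : ∃ s' : ℕ, (s' : ℤ) ≡ s [ZMOD (2 ^ k + 1 : ℤ)] := by
    refine ⟨(s % (2 ^ k + 1 : ℤ)).toNat, ?_⟩
    rw [Int.toNat_of_nonneg (Int.emod_nonneg _ (by positivity))]
    exact Int.mod_modEq _ _
  set d' := s' * (2 ^ k - 1) + 1 with hd'
  have hdd : d ≡ d' [MOD N] := by
    rw [← Int.natCast_modEq_iff]
    have e1 : ((N : ℕ) : ℤ) = 2 ^ (2 * k) - 1 := by
      rw [hN, Nat.cast_sub (by omega)]; push_cast; ring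
    have e2 : ((d' : ℕ) : ℤ) = s' * (2 ^ k - 1) + 1 := by
      rw [hd']
      push_cast [Nat.one_le_two_pow]
      ring
    rw [e1, e2]
    refine hd.trans ?_
    apply Int.ModEq.add_right
    obtain ⟨t, ht⟩ := hs'.dvd
    apply Int.ModEq.symm
    rw [Int.modEq_iff_dvd]
    refine ⟨t, ?_⟩
    have e3 : (2 : ℤ) ^ (2 * k) = 2 ^ k * 2 ^ k := by rw [← pow_add]; congr 1; omega
    rw [e3]
    linear_combination (2 ^ k - 1 : ℤ) * ht
  have hcop' : Nat.Coprime d' N := by
    rw [Nat.Coprime, ← hdd.gcd_eq]; exact hcop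
  have hpowd : ∀ x : F, x ^ d = x ^ d' := by
    intro x
    by_cases hx : x = 0
    · rw [hx, zero_pow (by omega), zero_pow (by omega)]
    · apply pow_eq_pow_of_modEq hdd
      have := FiniteField.pow_card_sub_one_eq_one x hx
      rwa [hF] at this
  -- the sums
  set g : F → F → ℤ := fun c x =>
    if (∑ i ∈ range (2 * k), (c * x + x ^ d') ^ (2 ^ i)) = 0 then (1 : ℤ) else -1 with hg
  have hsum : ∀ τ : ℕ, ∑ t ∈ range N,
        (-1 : ℤ) ^ ((Algebra.trace (ZMod 2) F (α ^ (t + τ))).val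
          + (Algebra.trace (ZMod 2) F (α ^ (d * t))).val) = (∑ x : F, g (α ^ τ) x) - 1 := by
    intro τ
    have h1 : ∀ t ∈ range N, (-1 : ℤ) ^ ((Algebra.trace (ZMod 2) F (α ^ (t + τ))).val
          + (Algebra.trace (ZMod 2) F (α ^ (d * t))).val) = g (α ^ τ) (α ^ t) := by
      intro t _
      rw [sign_zmod, ← map_add]
      simp only [trace_iff hF]
      rw [hg]
      simp only
      rw [← hpowd, ← pow_mul, mul_comm t d, pow_add α t τ, mul_comm (α ^ t)]
    rw [sum_congr rfl h1, ← sum_image (f := g (α ^ τ)) hinj, himg]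
    have h2 := sum_erase_add (s := (univ : Finset F)) (f := g (α ^ τ)) (mem_univ 0)
    have h3 : g (α ^ τ) 0 = 1 := by
      rw [hg]
      simp only
      rw [if_pos]
      apply sum_eq_zero
      intro i _
      rw [mul_zero, zero_pow (by omega), add_zero, zero_pow (by positivity)]
    rw [h3] at h2
    rw [filter_ne' univ (0 : F), ← h2]
    ring
  have himg2 : (range N).image (fun τ : ℕ => ∑ t ∈ range N,
        (-1 : ℤ) ^ ((Algebra.trace (ZMod 2) F (α ^ (t + τ))).val
          + (Algebra.trace (ZMod 2) F (α ^ (d * t))).val))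
      = (WV F k (s' * (2 ^ k - 1) + 1)).image (fun n => n - 1) := by
    rw [WV, ← himg, image_image, image_image]
    apply image_congr
    intro τ _
    exact hsum τ
  rw [himg2, card_image_of_injective _ (fun a b h => by linarith [h])] at h4
  obtain ⟨r, hr0, hr1, hr2⟩ := main_full hk hF hcop' h4
  refine ⟨r, hr0, hr1, ?_⟩
  rcases hr2 with h | h
  · left
    exact ((hs'.mul_right _).symm).trans h
  · right
    exact ((hs'.mul_right _).symm).trans h

end Pool.Agent.Helper992
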