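import Pool.Agent.Helper992.Min

set_option autoImplicit false
set_option linter.unusedSectionVars false
open scoped Classical

namespace Pool.Agent.Helper992

open Finset MvPolynomial Geo

variable {F : Type*} [Field F] [CharP F 2] {K : Finset F} {k j : ℕ} {f : F → F}

theorem tdm {a b : MvPolynomial (Fin 2) F} {m n : ℕ} (ha : a.totalDegree ≤ m)
    (hb : b.totalDegree ≤ n) : (a * b).totalDegree ≤ m + n :=
  (totalDegree_mul _ _).trans (by omega)

theorem tda {a b : MvPolynomial (Fin 2) F} {m : ℕ} (ha : a.totalDegree ≤ m)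
    (hb : b.totalDegree ≤ m) : (a + b).totalDegree ≤ m :=
  (totalDegree_add _ _).trans (max_le ha hb)

theorem tdd {a : MvPolynomial (Fin 2) F} {m : ℕ} (i : Fin 2) (ha : a.totalDegree ≤ m) :
    (pderiv i a).totalDegree ≤ m := (pderiv_deg i a).trans (by omega)

theorem tdpow (a : MvPolynomial (Fin 2) F) (n : ℕ) :
    (a ^ n).totalDegree = n * a.totalDegree := by
  by_cases ha : a = 0
  · rw [ha, totalDegree_zero, mul_zero]
    rcases Nat.eq_zero_or_pos n with h | h
    · rw [h, pow_zero, totalDegree_one]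
    · rw [zero_pow (by omega), totalDegree_zero]
  · induction n with
    | zero => rw [pow_zero, totalDegree_one, zero_mul]
    | succ n ih =>
      rw [pow_succ, totalDegree_mul_of_isDomain (pow_ne_zero _ ha) ha, ih]; ring

theorem add_self' (a : MvPolynomial (Fin 2) F) : a + a = 0 := CharTwo.add_self_eq_zero a

theorem eq_of_add {a b : MvPolynomial (Fin 2) F} (h : a + b = 0) : a = b :=
  CharTwo.add_eq_zero.mp h

/-- the data of a minimal solution -/
structure Mini (K : Finset F) (k : ℕ) (f : F → F) (δ : ℕ)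
    (P Q Kp : MvPolynomial (Fin 2) F) : Prop where
  mi : MI K k f P Q Kp
  Q0 : Q ≠ 0
  degP : P.totalDegree ≤ δ
  degQ : Q.totalDegree ≤ δ
  min : ∀ n, good K k f n → δ ≤ n
  cop : IsRelPrime P Q
  six : 6 * δ < 2 ^ k

namespace Geo

theorem W_zero (G : Geo F K k j f) {δ : ℕ} {P Q Kp : MvPolynomial (Fin 2) F}
    (H : Mini K k f δ P Q Kp) :
    Q * (pderiv 1 P * Q + P * pderiv 1 Q) + P * (pderiv 0 P * Q + P * pderiv 0 Q) = 0 := by
  apply vanish (K := K) (f := f)
  · rw [G.cardK]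
    have hP := H.degP
    have hQ := H.degQ
    have h6 := H.six
    refine lt_of_le_of_lt (b := δ + (δ + δ)) ?_ (by omega)
    apply tda
    · exact tdm hQ (tda (tdm (tdd 1 hP) hQ) (tdm hP (tdd 1 hQ)))
    · exact tdm hP (tda (tdm (tdd 0 hP) hQ) (tdm hP (tdd 0 hQ)))
  · intro x hx
    have h1 := G.star H.mi hx
    have h2 := congrArg Polynomial.derivative h1
    rw [Polynomial.derivative_C_mul, rl_deriv, rl_deriv] at h2
    simp only [map_add, map_mul]
    rw [h1]
    set q := rl x (f x) Q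
    set P0 := rl x (f x) (pderiv 0 P)
    set P1 := rl x (f x) (pderiv 1 P)
    set Q0 := rl x (f x) (pderiv 0 Q)
    set Q1 := rl x (f x) (pderiv 1 Q)
    set c := Polynomial.C x
    have e : q * (P1 * q + c * q * Q1) + c * q * (P0 * q + c * q * Q0)
        = q * q * ((c * P0 + P1) + c * (c * Q0 + Q1)) := by ring
    rw [e, h2, CharTwo.add_self_eq_zero, mul_zero]

theorem exists_J (G : Geo F K k j f) {δ : ℕ} {P Q Kp : MvPolynomial (Fin 2) F}
    (H : Mini K k f δ P Q Kp) :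
    ∃ J : MvPolynomial (Fin 2) F, pderiv 0 P = J ∧ pderiv 1 Q = J ∧ pderiv 0 Q = 0 ∧
      pderiv 1 P = 0 ∧ pderiv 0 J = 0 ∧ pderiv 1 J = 0 := by
  have hW := G.W_zero H
  have hcop := H.cop
  have hQ0 := H.Q0
  set JX := pderiv 0 P * Q + P * pderiv 0 Q with hJX
  set JY := pderiv 1 P * Q + P * pderiv 1 Q with hJY
  have h1 : Q * JY = P * JX := eq_of_add hW
  obtain ⟨J, hJ⟩ : Q ∣ JX := hcop.symm.dvd_of_dvd_mul_left (h1 ▸ dvd_mul_right Q JY)
  have hJ2 : JY = P * J := by
    apply mul_left_cancel₀ hQ0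
    rw [h1, hJ]; ring
  -- derivatives
  have d0 : pderiv 0 JX = 0 := by
    rw [hJX, map_add, pderiv_mul, pderiv_mul, pderiv_pderiv, pderiv_pderiv]
    have e : 0 * Q + pderiv 0 P * pderiv 0 Q + (pderiv 0 P * pderiv 0 Q + P * 0)
        = pderiv 0 P * pderiv 0 Q + pderiv 0 P * pderiv 0 Q := by ring
    rw [e, add_self']
  have d1 : pderiv 1 JY = 0 := by
    rw [hJY, map_add, pderiv_mul, pderiv_mul, pderiv_pderiv, pderiv_pderiv]
    have e : 0 * Q + pderiv 1 P * pderiv 1 Q + (pderiv 1 P * pderiv 1 Q + P * 0)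
        = pderiv 1 P * pderiv 1 Q + pderiv 1 P * pderiv 1 Q := by ring
    rw [e, add_self']
  have d2 : pderiv 1 JX = pderiv 0 JY := by
    rw [hJX, hJY, map_add, map_add, pderiv_mul, pderiv_mul, pderiv_mul, pderiv_mul,
      pderiv_comm P, pderiv_comm Q]
    ring
  rw [hJ, pderiv_mul] at d0 d2
  rw [hJ2, pderiv_mul] at d1 d2
  have e0 : pderiv 0 Q * J = Q * pderiv 0 J := eq_of_add d0
  have e1 : pderiv 1 P * J = P * pderiv 1 J := eq_of_add d1
  set c0 := pderiv 1 Q * J + Q * pderiv 1 J with hc0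
  have e2 : pderiv 0 P * J = c0 + P * pderiv 0 J := by
    rw [d2, add_assoc, add_self', add_zero]
  have e3 : c0 = J * J := by
    apply mul_right_cancel₀ hQ0
    have h5 : JX * J = Q * J * J := by rw [hJ]
    calc c0 * Q = (c0 + P * pderiv 0 J) * Q + P * (Q * pderiv 0 J) := by
          have : (c0 + P * pderiv 0 J) * Q + P * (Q * pderiv 0 J)
              = c0 * Q + (P * Q * pderiv 0 J + P * Q * pderiv 0 J) := by ring
          rw [this, add_self', add_zero]
      _ = JX * J := by rw [← e2, ← e0, hJX]; ring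
      _ = J * J * Q := by rw [h5]; ring
  have f1 : J ∣ P * pderiv 0 J := by
    have : P * pderiv 0 J = J * J + pderiv 0 P * J := by
      rw [e2, e3, ← add_assoc, add_self', zero_add]
    rw [this]
    exact dvd_add (dvd_mul_right _ _) (dvd_mul_left _ _)
  have f2 : J ∣ Q * pderiv 0 J := by rw [← e0]; exact dvd_mul_left _ _
  have f3 : J ∣ Q * pderiv 1 J := by
    have : Q * pderiv 1 J = J * J + pderiv 1 Q * J := by
      rw [← e3, hc0]
      have e : pderiv 1 Q * J + Q * pderiv 1 J + pderiv 1 Q * J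
        = Q * pderiv 1 J + (pderiv 1 Q * J + pderiv 1 Q * J) := by ring
      rw [e, add_self', add_zero]
    rw [this]
    exact dvd_add (dvd_mul_right _ _) (dvd_mul_left _ _)
  have f4 : J ∣ P * pderiv 1 J := by rw [← e1]; exact dvd_mul_left _ _
  have g0 : pderiv 0 J = 0 := pderiv_eq_zero_of_dvd (relprime_dvd hcop f1 f2)
  have g1 : pderiv 1 J = 0 := pderiv_eq_zero_of_dvd (relprime_dvd hcop f4 f3)
  by_cases hJ0 : J = 0
  · subst hJ0
    rw [mul_zero] at hJ hJ2
    have a1 : pderiv 0 P * Q = P * pderiv 0 Q := eq_of_add (hJX ▸ hJ)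
    have a2 : pderiv 1 P * Q = P * pderiv 1 Q := eq_of_add (hJY ▸ hJ2)
    have b1 : P ∣ pderiv 0 P :=
      hcop.dvd_of_dvd_mul_right (a1 ▸ dvd_mul_right P _)
    have b2 : P ∣ pderiv 1 P :=
      hcop.dvd_of_dvd_mul_right (a2 ▸ dvd_mul_right P _)
    have b3 : Q ∣ pderiv 0 Q :=
      hcop.symm.dvd_of_dvd_mul_left (a1 ▸ dvd_mul_left Q _)
    have b4 : Q ∣ pderiv 1 Q :=
      hcop.symm.dvd_of_dvd_mul_left (a2 ▸ dvd_mul_left Q _)
    exact ⟨0, pderiv_eq_zero_of_dvd b1, pderiv_eq_zero_of_dvd b4, pderiv_eq_zero_of_dvd b3,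
      pderiv_eq_zero_of_dvd b2, g0, g1⟩
  · refine ⟨J, ?_, ?_, ?_, ?_, g0, g1⟩
    · apply mul_right_cancel₀ hJ0
      rw [e2, e3, g0, mul_zero, add_zero]
    · apply mul_right_cancel₀ hJ0
      rw [← e3, hc0, g1, mul_zero, add_zero]
    · rw [g0, mul_zero] at e0
      exact (mul_eq_zero.mp e0).resolve_right hJ0
    · rw [g1, mul_zero] at e1
      exact (mul_eq_zero.mp e1).resolve_right hJ0

theorem stepA (G : Geo F K k j f) (hsq : ∀ a : F, ∃ b, b ^ 2 = a) {δ : ℕ}
    {P Q Kp : MvPolynomial (Fin 2) F} (H : Mini K k f δ P Q Kp) :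
    ∃ a b c : MvPolynomial (Fin 2) F, P = X 0 * c ^ 2 + a ^ 2 ∧ Q = X 1 * c ^ 2 + b ^ 2 ∧
      2 * a.totalDegree ≤ δ ∧ 2 * b.totalDegree ≤ δ ∧ 2 * c.totalDegree ≤ δ := by
  obtain ⟨J, h1, h2, h3, h4, h5, h6⟩ := G.exists_J H
  obtain ⟨c, hc⟩ := exists_sqrt hsq h5 h6
  obtain ⟨a, ha⟩ := exists_sqrt hsq (p := P + X 0 * J)
    (by rw [map_add, pderiv_mul, h1, h5, pderiv_X_self, one_mul, mul_zero, add_zero, add_self'])
    (by rw [map_add, pderiv_mul, h4, h6, pderiv_X_of_ne (show (0 : Fin 2) ≠ 1 by decide),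
      zero_mul, mul_zero, add_zero, add_zero])
  obtain ⟨b, hb⟩ := exists_sqrt hsq (p := Q + X 1 * J)
    (by rw [map_add, pderiv_mul, h3, h5, pderiv_X_of_ne (show (1 : Fin 2) ≠ 0 by decide),
      zero_mul, mul_zero, add_zero, add_zero])
    (by rw [map_add, pderiv_mul, h2, h6, pderiv_X_self, one_mul, mul_zero, add_zero, add_self'])
  have hJd : ∀ i : Fin 2, ∀ p : MvPolynomial (Fin 2) F, pderiv i p = J → p.totalDegree ≤ δ →
      (X i * J).totalDegree ≤ δ ∧ J.totalDegree ≤ δ := by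
    intro i p hp hpd
    have h7 := pderiv_deg i p
    rw [hp] at h7
    by_cases hJ0 : J = 0
    · rw [hJ0, mul_zero, totalDegree_zero]; omega
    · have h8 : 1 ≤ p.totalDegree := by
        by_contra h0
        have h0' : p.totalDegree = 0 := by omega
        rw [totalDegree_eq_zero_iff_eq_C] at h0'
        rw [h0', pderiv_C] at hp
        exact hJ0 hp.symm
      have h9 : (X i * J).totalDegree ≤ 1 + J.totalDegree :=
        tdm (by rw [totalDegree_X]) (le_refl _)
      constructor <;> omega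
  have k1 := hJd 0 P h1 H.degP
  have k2 := hJd 1 Q h2 H.degQ
  refine ⟨a, b, c, ?_, ?_, ?_, ?_, ?_⟩
  · rw [← ha, ← hc]
    have : X 0 * J + (P + X 0 * J) = P + (X 0 * J + X 0 * J) := by ring
    rw [this, add_self', add_zero]
  · rw [← hb, ← hc]
    have : X 1 * J + (Q + X 1 * J) = Q + (X 1 * J + X 1 * J) := by ring
    rw [this, add_self', add_zero]
  · rw [← tdpow, ← ha]; exact tda H.degP k1.1
  · rw [← tdpow, ← hb]; exact tda H.degQ k2.1
  · rw [← tdpow, ← hc]; exact k1.2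

end Geo

end Pool.Agent.Helper992
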