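import Pool.Agent.Helper992.StepA

set_option autoImplicit false
set_option linter.unusedSectionVars false
open scoped Classical

namespace Pool.Agent.Helper992

open Finset MvPolynomial Geo

variable {F : Type*} [Field F] [CharP F 2] {K : Finset F} {k j : ℕ} {f : F → F}

theorem pow_lemma {α : F} {Φ : Polynomial F} {i j : ℕ} (hi : 1 ≤ i) (hij : i ≤ j)
    (h : (Polynomial.X - Polynomial.C α) ^ (2 ^ j - 1) ∣ Φ ^ (2 ^ i)) :
    (Polynomial.X - Polynomial.C α) ^ (2 ^ (j - i)) ∣ Φ := by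
  by_cases hΦ : Φ = 0
  · rw [hΦ]; exact dvd_zero _
  obtain ⟨g, hg, hgn⟩ := Polynomial.exists_eq_pow_rootMultiplicity_mul_and_not_dvd Φ hΦ α
  set m := Polynomial.rootMultiplicity α Φ
  have hprime : Prime (Polynomial.X - Polynomial.C α) := Polynomial.prime_X_sub_C α
  have hm : 2 ^ (j - i) ≤ m := by
    by_contra hlt
    push Not at hlt
    have h1 : (m + 1) * 2 ^ i ≤ 2 ^ j := by
      calc (m + 1) * 2 ^ i ≤ 2 ^ (j - i) * 2 ^ i := Nat.mul_le_mul_right _ hlt
        _ = 2 ^ j := by rw [← pow_add]; congr 1; omega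
    have h2 : 2 ≤ 2 ^ i := by
      calc 2 = 2 ^ 1 := rfl
        _ ≤ 2 ^ i := Nat.pow_le_pow_right (by norm_num) hi
    have h3 : m * 2 ^ i + 1 ≤ 2 ^ j - 1 := by
      have : (m + 1) * 2 ^ i = m * 2 ^ i + 2 ^ i := by ring
      omega
    have h4 : (Polynomial.X - Polynomial.C α) ^ (m * 2 ^ i + 1)
        ∣ (Polynomial.X - Polynomial.C α) ^ (m * 2 ^ i) * g ^ (2 ^ i) := by
      refine (pow_dvd_pow _ h3).trans (h.trans ?_)
      rw [hg, mul_pow, ← pow_mul]
    rw [pow_succ] at h4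
    have h5 := (mul_dvd_mul_iff_left (pow_ne_zero _ hprime.ne_zero)).mp h4
    exact hgn (hprime.dvd_of_dvd_pow h5)
  rw [hg]
  exact Dvd.dvd.mul_right (pow_dvd_pow _ hm) _

theorem pd_even (i : Fin 2) (a : MvPolynomial (Fin 2) F) {n : ℕ} (hn : Even n) :
    pderiv i (a ^ n) = 0 := by
  obtain ⟨t, rfl⟩ := hn
  rw [pow_add, pderiv_mul, mul_comm (a ^ t), add_self']

theorem root_iter (hsq : ∀ a : F, ∃ b, b ^ 2 = a) (i : ℕ) (a : F) : ∃ b, b ^ (2 ^ i) = a := by
  induction i generalizing a with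
  | zero => exact ⟨a, by rw [pow_zero, pow_one]⟩
  | succ i ih =>
    obtain ⟨b, hb⟩ := hsq a
    obtain ⟨c, hc⟩ := ih b
    exact ⟨c, by rw [pow_succ, pow_mul, hc, hb]⟩

/-- level structure -/
structure Lv (δ n : ℕ) (P Q a b c : MvPolynomial (Fin 2) F) : Prop where
  hP : P = X 0 * c ^ n + a ^ n
  hQ : Q = X 1 * c ^ n + b ^ n
  da : n * a.totalDegree ≤ δ
  db : n * b.totalDegree ≤ δ
  dc : n * c.totalDegree ≤ δ

theorem Lv.pP {δ n : ℕ} {P Q a b c : MvPolynomial (Fin 2) F} (L : Lv δ n P Q a b c)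
    (hn : Even n) : pderiv 0 P = c ^ n := by
  rw [L.hP, map_add, pderiv_mul, pderiv_X_self, pd_even 0 c hn, pd_even 0 a hn]; ring

theorem Lv.pQ {δ n : ℕ} {P Q a b c : MvPolynomial (Fin 2) F} (L : Lv δ n P Q a b c)
    (hn : Even n) : pderiv 0 Q = 0 := by
  rw [L.hQ, map_add, pderiv_mul, pderiv_X_of_ne (show (1 : Fin 2) ≠ 0 by decide),
    pd_even 0 c hn, pd_even 0 b hn]; ring

theorem Lv.pQ1 {δ n : ℕ} {P Q a b c : MvPolynomial (Fin 2) F} (L : Lv δ n P Q a b c)
    (hn : Even n) : pderiv 1 Q = c ^ n := by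
  rw [L.hQ, map_add, pderiv_mul, pderiv_X_self, pd_even 1 c hn, pd_even 1 b hn]; ring

theorem Lv.pP1 {δ n : ℕ} {P Q a b c : MvPolynomial (Fin 2) F} (L : Lv δ n P Q a b c)
    (hn : Even n) : pderiv 1 P = 0 := by
  rw [L.hP, map_add, pderiv_mul, pderiv_X_of_ne (show (0 : Fin 2) ≠ 1 by decide),
    pd_even 1 c hn, pd_even 1 a hn]; ring

theorem tdU {g h : MvPolynomial (Fin 2) F} {δ : ℕ} (i : Fin 2)
    (hd : g.totalDegree + h.totalDegree ≤ δ) :
    (pderiv i g * h + g * pderiv i h).totalDegree + 1 ≤ δ ∨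
      pderiv i g * h + g * pderiv i h = 0 := by
  have hz : ∀ p : MvPolynomial (Fin 2) F, p.totalDegree = 0 → pderiv i p = 0 := by
    intro p hp
    rw [totalDegree_eq_zero_iff_eq_C] at hp
    rw [hp, pderiv_C]
  by_cases h0 : g.totalDegree + h.totalDegree = 0
  · right
    rw [hz g (by omega), hz h (by omega)]; ring
  · left
    have h1 : (pderiv i g * h).totalDegree ≤ δ - 1 := by
      by_cases hg : g.totalDegree = 0
      · rw [hz g hg, zero_mul, totalDegree_zero]; omega
      · have := totalDegree_mul (pderiv i g) h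
        have h2 := pderiv_deg i g
        omega
    have h2 : (g * pderiv i h).totalDegree ≤ δ - 1 := by
      by_cases hg : h.totalDegree = 0
      · rw [hz h hg, mul_zero, totalDegree_zero]; omega
      · have := totalDegree_mul g (pderiv i h)
        have h2 := pderiv_deg i h
        omega
    have := tda h1 h2
    omega

namespace Geo

theorem E1 (G : Geo F K k j f) {δ i : ℕ} (hi : 1 ≤ i) (hik : i ≤ k)
    {P Q Kp a b c : MvPolynomial (Fin 2) F}
    (H : Mini K k f δ P Q Kp) (L : Lv δ (2 ^ i) P Q a b c) {x : F} (hx : x ∈ K) :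
    (Polynomial.X ^ (2 ^ (k - i)) * rl x (f x) c + rl x (f x) b) ^ (2 ^ i)
      = rl x (f x) (∏ y ∈ K.erase x, lf y (f y)) * rl x (f x) Kp := by
  have heven : Even (2 ^ i) := (even_two).pow_of_ne_zero (by omega)
  have hevenk : Even (2 ^ k) := (even_two).pow_of_ne_zero (by omega)
  have h1 := congrArg (pderiv 0) H.mi
  rw [RR_erase hx, map_add, pderiv_mul, pderiv_mul, pderiv_mul, pderiv_mul, map_add, map_add,
    pd_even 0 _ hevenk, pd_even 0 _ hevenk, pderiv_X_self,
    pderiv_X_of_ne (show (1 : Fin 2) ≠ 0 by decide), L.pP heven, L.pQ heven] at h1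
  have h2 := congrArg (rl x (f x)) h1
  have hlf : pderiv 0 (lf x (f x)) = 1 := by
    rw [lf, map_sub, map_add, pderiv_X_self, pderiv_mul, pderiv_C, pderiv_C,
      pderiv_X_of_ne (show (1 : Fin 2) ≠ 0 by decide)]
    ring
  rw [hlf] at h2
  simp only [map_add, map_mul, map_pow, map_zero, map_one, rl_lf_self] at h2
  rw [L.hQ] at h2
  simp only [map_add, map_mul, map_pow, sb_X1] at h2
  rw [add_pow_char_pow, mul_pow, ← pow_mul]
  have e1 : 2 ^ (k - i) * 2 ^ i = 2 ^ k := by rw [← pow_add]; congr 1; omega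
  rw [e1]
  set C' := rl x (f x) c
  set B' := rl x (f x) b
  set E' := rl x (f x) (∏ y ∈ K.erase x, lf y (f y))
  set K' := rl x (f x) Kp
  have h3 : (0 + 1) * (Polynomial.X * C' ^ 2 ^ i + B' ^ 2 ^ i)
      + (Polynomial.X ^ 2 ^ k + Polynomial.X) * C' ^ 2 ^ i = E' * K' := by
    linear_combination h2
  rw [← h3]
  have h4 : (0 + 1) * (Polynomial.X * C' ^ 2 ^ i + B' ^ 2 ^ i)
      + (Polynomial.X ^ 2 ^ k + Polynomial.X) * C' ^ 2 ^ i
      = Polynomial.X ^ 2 ^ k * C' ^ 2 ^ i + B' ^ 2 ^ i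
        + (Polynomial.X * C' ^ 2 ^ i + Polynomial.X * C' ^ 2 ^ i) := by ring
  rw [h4, CharTwo.add_self_eq_zero, add_zero]

theorem E3 (G : Geo F K k j f) {δ i : ℕ} (hi : 1 ≤ i) (hij : i < j)
    {P Q Kp a b c : MvPolynomial (Fin 2) F}
    (H : Mini K k f δ P Q Kp) (L : Lv δ (2 ^ i) P Q a b c) {x : F} (hx : x ∈ K) :
    Polynomial.derivative (rl x (f x) b) * rl x (f x) c
      + rl x (f x) b * Polynomial.derivative (rl x (f x) c) = 0 := by
  have hjk := G.lt
  have h1 := G.E1 hi (by omega) H L hx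
  set C' := rl x (f x) c with hC'
  set B' := rl x (f x) b with hB'
  set Φ := Polynomial.X ^ (2 ^ (k - i)) * C' + B' with hΦ
  set ω := Polynomial.derivative B' * C' + B' * Polynomial.derivative C' with hω
  have hdX : Polynomial.derivative (Polynomial.X ^ (2 ^ (k - i)) : Polynomial F) = 0 := by
    rw [Polynomial.derivative_X_pow]
    have : ((2 ^ (k - i) : ℕ) : F) = 0 := by
      rw [CharP.cast_eq_zero_iff F 2]
      exact dvd_pow_self 2 (by omega)
    rw [this, map_zero, zero_mul]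
  have h2 : ω = Polynomial.derivative Φ * C' + Φ * Polynomial.derivative C' := by
    rw [hΦ, map_add, Polynomial.derivative_mul, hdX, hω]
    have e : (0 * C' + Polynomial.X ^ 2 ^ (k - i) * Polynomial.derivative C'
        + Polynomial.derivative B') * C'
        + (Polynomial.X ^ 2 ^ (k - i) * C' + B') * Polynomial.derivative C'
        = (Polynomial.derivative B' * C' + B' * Polynomial.derivative C')
        + (Polynomial.X ^ 2 ^ (k - i) * Polynomial.derivative C' * C'
        + Polynomial.X ^ 2 ^ (k - i) * Polynomial.derivative C' * C') := by ring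
    rw [e, CharTwo.add_self_eq_zero, add_zero]
  have h3 : ∀ α ∈ Ax K j f x,
      (Polynomial.X - Polynomial.C α) ^ (2 ^ (j - i) - 1) ∣ ω := by
    intro α hα
    have h4 : (Polynomial.X - Polynomial.C α) ^ (2 ^ j - 1) ∣ Φ ^ (2 ^ i) := by
      rw [h1]; exact Dvd.dvd.mul_right (pow_dvd_prod hx hα) _
    have h5 := pow_lemma hi hij.le h4
    rw [h2]
    refine dvd_add (Dvd.dvd.mul_right ?_ _) (Dvd.dvd.mul_right ?_ _)
    · exact Polynomial.pow_sub_one_dvd_derivative_of_pow_dvd h5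
    · exact (pow_dvd_pow _ (Nat.sub_le _ _)).trans h5
  have h4 : ∏ α ∈ Ax K j f x, (Polynomial.X - Polynomial.C α) ^ (2 ^ (j - i) - 1) ∣ ω := by
    apply Finset.prod_dvd_of_coprime
    · intro α _ β _ hαβ
      exact IsCoprime.pow (Polynomial.pairwise_coprime_X_sub_C Function.injective_id hαβ)
    · exact h3
  by_contra hne
  have h5 := Polynomial.natDegree_le_of_dvd h4 hne
  have h6 : (∏ α ∈ Ax K j f x, (Polynomial.X - Polynomial.C α) ^ (2 ^ (j - i) - 1)).natDegree
      = (Ax K j f x).card * (2 ^ (j - i) - 1) := by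
    rw [Polynomial.natDegree_prod_of_monic _ _
      (fun α _ => (Polynomial.monic_X_sub_C α).pow _)]
    exact Finset.sum_const_nat (fun α _ => by
      rw [Polynomial.natDegree_pow, Polynomial.natDegree_X_sub_C, mul_one])
  rw [h6] at h5
  have hdB : B'.natDegree ≤ b.totalDegree := rl_deg x (f x) le_rfl
  have hdC : C'.natDegree ≤ c.totalDegree := rl_deg x (f x) le_rfl
  have hω2 : ω.natDegree ≤ b.totalDegree + c.totalDegree := by
    rw [hω]
    refine (Polynomial.natDegree_add_le _ _).trans (max_le ?_ ?_)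
    · refine (Polynomial.natDegree_mul_le).trans ?_
      have := Polynomial.natDegree_derivative_le B'
      omega
    · refine (Polynomial.natDegree_mul_le).trans ?_
      have := Polynomial.natDegree_derivative_le C'
      omega
  have h7 := G.card_Ax hx
  set A := (Ax K j f x).card
  have h8 : A * (2 ^ (j - i) - 1) * 2 ^ i ≤ 2 * δ := by
    have h9 : A * (2 ^ (j - i) - 1) ≤ b.totalDegree + c.totalDegree := h5.trans hω2
    have h10 := L.db
    have h11 := L.dc
    calc A * (2 ^ (j - i) - 1) * 2 ^ i ≤ (b.totalDegree + c.totalDegree) * 2 ^ i :=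
          Nat.mul_le_mul_right _ h9
      _ = 2 ^ i * b.totalDegree + 2 ^ i * c.totalDegree := by ring
      _ ≤ 2 * δ := by omega
  have h9 : 2 ^ (j - 1) ≤ (2 ^ (j - i) - 1) * 2 ^ i := by
    have e1 : 2 ^ (j - i) * 2 ^ i = 2 ^ j := by rw [← pow_add]; congr 1; omega
    have e2 : 2 ^ j = 2 * 2 ^ (j - 1) := by rw [← pow_succ']; congr 1; omega
    have e3 : 2 ^ i ≤ 2 ^ (j - 1) := Nat.pow_le_pow_right (by norm_num) (by omega)
    rw [Nat.sub_mul, e1, one_mul]
    omega
  have h10 : A * 2 ^ (j - 1) ≤ 2 * δ := by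
    calc A * 2 ^ (j - 1) ≤ A * ((2 ^ (j - i) - 1) * 2 ^ i) := Nat.mul_le_mul_left _ h9
      _ = A * (2 ^ (j - i) - 1) * 2 ^ i := by ring
      _ ≤ 2 * δ := h8
  have h11 : 2 ^ k - 1 ≤ 2 * (A * 2 ^ (j - 1)) := by
    rw [← h7]
    have e2 : 2 ^ j = 2 * 2 ^ (j - 1) := by
      have := G.hj
      rw [← pow_succ']; congr 1; omega
    calc A * (2 ^ j - 1) ≤ A * 2 ^ j := Nat.mul_le_mul_left _ (Nat.sub_le _ _)
      _ = 2 * (A * 2 ^ (j - 1)) := by rw [e2]; ring
  have := H.six
  have := G.q_ge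
  omega

theorem E5 (G : Geo F K k j f) {δ : ℕ} {P Q Kp g h : MvPolynomial (Fin 2) F}
    (H : Mini K k f δ P Q Kp) (hd : g.totalDegree + h.totalDegree ≤ δ)
    (hw : ∀ x ∈ K, Polynomial.derivative (rl x (f x) g) * rl x (f x) h
      + rl x (f x) g * Polynomial.derivative (rl x (f x) h) = 0) :
    ∀ i : Fin 2, pderiv i g * h = g * pderiv i h := by
  set U1 := pderiv 0 g * h + g * pderiv 0 h with hU1
  set U2 := pderiv 1 g * h + g * pderiv 1 h with hU2
  have hgd : g.totalDegree ≤ δ := by omega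
  have hhd : h.totalDegree ≤ δ := by omega
  have h1 : Q * U2 + P * U1 = 0 := by
    apply vanish (K := K) (f := f)
    · rw [G.cardK]
      have h6 := H.six
      refine lt_of_le_of_lt (b := δ + (δ + δ)) ?_ (by omega)
      apply tda
      · exact tdm H.degQ (tda (tdm (tdd 1 hgd) hhd) (tdm hgd (tdd 1 hhd)))
      · exact tdm H.degP (tda (tdm (tdd 0 hgd) hhd) (tdm hgd (tdd 0 hhd)))
    · intro x hx
      have h2 := hw x hx
      rw [rl_deriv, rl_deriv] at h2
      have h3 : Polynomial.C x * rl x (f x) U1 + rl x (f x) U2 = 0 := by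
        rw [hU1, hU2]
        simp only [map_add, map_mul]
        linear_combination h2
      rw [map_add, map_mul, map_mul, G.star H.mi hx]
      linear_combination (rl x (f x) Q) * h3
  have h2 : Q * U2 = P * U1 := eq_of_add h1
  obtain ⟨L, hL⟩ : Q ∣ U1 := H.cop.symm.dvd_of_dvd_mul_left (h2 ▸ dvd_mul_right Q U2)
  have hL2 : U2 = P * L := by
    apply mul_left_cancel₀ H.Q0
    rw [h2, hL]; ring
  have hL0 : L = 0 := by
    by_contra hL0
    have hU10 : U1 ≠ 0 := by rw [hL]; exact mul_ne_zero H.Q0 hL0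
    have h3 := (tdU (F := F) (g := g) (h := h) 0 hd).resolve_right hU10
    rw [← hU1] at h3
    have h4 : Q.totalDegree ≤ δ - 1 := by
      have := totalDegree_mul_of_isDomain H.Q0 hL0
      rw [← hL] at this
      omega
    have h5 : P.totalDegree ≤ δ - 1 := by
      by_cases hP0 : P = 0
      · rw [hP0, totalDegree_zero]; omega
      · have hU20 : U2 ≠ 0 := by rw [hL2]; exact mul_ne_zero hP0 hL0
        have h6 := (tdU (F := F) (g := g) (h := h) 1 hd).resolve_right hU20
        rw [← hU2] at h6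
        have := totalDegree_mul_of_isDomain hP0 hL0
        rw [← hL2] at this
        omega
    have := H.min (δ - 1) ⟨P, Q, Kp, H.mi, H.Q0, h5, h4⟩
    omega
  intro i
  fin_cases i
  · apply eq_of_add
    show U1 = 0
    rw [hL, hL0, mul_zero]
  · apply eq_of_add
    show U2 = 0
    rw [hL2, hL0, mul_zero]

theorem E4 (G : Geo F K k j f) {δ i : ℕ}
    {P Q Kp a b c : MvPolynomial (Fin 2) F}
    (H : Mini K k f δ P Q Kp) (L : Lv δ (2 ^ i) P Q a b c) {x z w : F} (hx : x ∈ K)
    (hz : z ^ (2 ^ i) = x) (hw : w ^ (2 ^ i) = f x) :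
    rl x (f x) a = Polynomial.C z * rl x (f x) b + Polynomial.C w * rl x (f x) c := by
  have h1 := G.star H.mi hx
  rw [L.hP, L.hQ] at h1
  simp only [map_add, map_mul, map_pow, sb_X0, sb_X1] at h1
  apply CharTwo.add_eq_zero.mp
  apply (pow_eq_zero_iff (n := 2 ^ i) (by positivity)).mp
  rw [add_pow_char_pow, add_pow_char_pow, mul_pow, mul_pow, ← Polynomial.C_pow,
    ← Polynomial.C_pow, hz, hw]
  set A' := rl x (f x) a
  set B' := rl x (f x) b
  set C' := rl x (f x) c
  have h2 : A' ^ 2 ^ i = (Polynomial.C x * Polynomial.X + Polynomial.C (f x)) * C' ^ 2 ^ i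
      + Polynomial.C x * (Polynomial.X * C' ^ 2 ^ i + B' ^ 2 ^ i) := by
    rw [← h1, ← add_assoc, CharTwo.add_self_eq_zero, zero_add]
  rw [h2]
  have e : (Polynomial.C x * Polynomial.X + Polynomial.C (f x)) * C' ^ 2 ^ i
      + Polynomial.C x * (Polynomial.X * C' ^ 2 ^ i + B' ^ 2 ^ i)
      + (Polynomial.C x * B' ^ 2 ^ i + Polynomial.C (f x) * C' ^ 2 ^ i)
      = (Polynomial.C x * Polynomial.X * C' ^ 2 ^ i + Polynomial.C x * Polynomial.X * C' ^ 2 ^ i)
        + (Polynomial.C (f x) * C' ^ 2 ^ i + Polynomial.C (f x) * C' ^ 2 ^ i)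
        + (Polynomial.C x * B' ^ 2 ^ i + Polynomial.C x * B' ^ 2 ^ i) := by ring
  rw [e]
  simp only [CharTwo.add_self_eq_zero, add_zero]

theorem stepB (G : Geo F K k j f) (hsq : ∀ a : F, ∃ b, b ^ 2 = a) {δ i : ℕ} (hi : 1 ≤ i)
    (hij : i < j) {P Q Kp a b c : MvPolynomial (Fin 2) F}
    (H : Mini K k f δ P Q Kp) (L : Lv δ (2 ^ i) P Q a b c) :
    ∃ a' b' c', Lv δ (2 ^ (i + 1)) P Q a' b' c' := by
  have h2i : 2 ≤ 2 ^ i := by
    calc 2 = 2 ^ 1 := rfl
      _ ≤ 2 ^ i := Nat.pow_le_pow_right (by norm_num) hi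
  have hhalf : ∀ g h : MvPolynomial (Fin 2) F, 2 ^ i * g.totalDegree ≤ δ →
      2 ^ i * h.totalDegree ≤ δ → g.totalDegree + h.totalDegree ≤ δ := by
    intro g h hg hh
    have h1 : 2 * g.totalDegree ≤ δ := (Nat.mul_le_mul_right _ h2i).trans hg
    have h2 : 2 * h.totalDegree ≤ δ := (Nat.mul_le_mul_right _ h2i).trans hh
    omega
  have hbc := G.E5 H (hhalf b c L.db L.dc) (fun x hx => G.E3 hi hij H L hx)
  have hrel : ∀ x ∈ K, ∃ z w : F, rl x (f x) a
      = Polynomial.C z * rl x (f x) b + Polynomial.C w * rl x (f x) c := by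
    intro x hx
    obtain ⟨z, hz⟩ := root_iter hsq i x
    obtain ⟨w, hw⟩ := root_iter hsq i (f x)
    exact ⟨z, w, G.E4 H L hx hz hw⟩
  have hac := G.E5 H (hhalf a c L.da L.dc) (fun x hx => by
    obtain ⟨z, w, hzw⟩ := hrel x hx
    have h3 := G.E3 hi hij H L hx
    rw [hzw]
    simp only [map_add, Polynomial.derivative_C_mul]
    set B' := rl x (f x) b
    set C' := rl x (f x) c
    have e : (Polynomial.C z * Polynomial.derivative B' + Polynomial.C w * Polynomial.derivative C')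
        * C' + (Polynomial.C z * B' + Polynomial.C w * C') * Polynomial.derivative C'
        = Polynomial.C z * (Polynomial.derivative B' * C' + B' * Polynomial.derivative C')
        + (Polynomial.C w * Polynomial.derivative C' * C'
          + Polynomial.C w * Polynomial.derivative C' * C') := by ring
    rw [e, h3, CharTwo.add_self_eq_zero]; ring)
  have hab := G.E5 H (hhalf a b L.da L.db) (fun x hx => by
    obtain ⟨z, w, hzw⟩ := hrel x hx
    have h3 := G.E3 hi hij H L hx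
    rw [hzw]
    simp only [map_add, Polynomial.derivative_C_mul]
    set B' := rl x (f x) b
    set C' := rl x (f x) c
    have e : (Polynomial.C z * Polynomial.derivative B' + Polynomial.C w * Polynomial.derivative C')
        * B' + (Polynomial.C z * B' + Polynomial.C w * C') * Polynomial.derivative B'
        = Polynomial.C w * (Polynomial.derivative B' * C' + B' * Polynomial.derivative C')
        + (Polynomial.C z * Polynomial.derivative B' * B'
          + Polynomial.C z * Polynomial.derivative B' * B') := by ring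
    rw [e, h3, CharTwo.add_self_eq_zero]; ring)
  have hunit : ∀ d, d ∣ a → d ∣ b → d ∣ c → IsUnit d := by
    intro d hda hdb hdc
    have hne : 2 ^ i ≠ 0 := by positivity
    apply H.cop
    · rw [L.hP]
      exact dvd_add (Dvd.dvd.mul_left (dvd_pow hdc hne) _) (dvd_pow hda hne)
    · rw [L.hQ]
      exact dvd_add (Dvd.dvd.mul_left (dvd_pow hdc hne) _) (dvd_pow hdb hne)
  have za : ∀ i, pderiv i a = 0 := by
    intro i
    apply pderiv_eq_zero_of_dvd
    apply three_dvd hunit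
    · rw [mul_comm, hab i]; exact dvd_mul_right _ _
    · rw [mul_comm, hac i]; exact dvd_mul_right _ _
  have zb : ∀ i, pderiv i b = 0 := by
    intro i
    apply pderiv_eq_zero_of_dvd
    apply three_dvd (b := a) (c := c) (fun d h1 h2 h3 => hunit d h2 h1 h3)
    · rw [← hab i]; exact dvd_mul_left _ _
    · rw [mul_comm, hbc i]; exact dvd_mul_right _ _
  have zc : ∀ i, pderiv i c = 0 := by
    intro i
    apply pderiv_eq_zero_of_dvd
    apply three_dvd (b := a) (c := b) (fun d h1 h2 h3 => hunit d h2 h3 h1)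
    · rw [← hac i]; exact dvd_mul_left _ _
    · rw [← hbc i]; exact dvd_mul_left _ _
  obtain ⟨a', ha⟩ := exists_sqrt hsq (za 0) (za 1)
  obtain ⟨b', hb⟩ := exists_sqrt hsq (zb 0) (zb 1)
  obtain ⟨c', hc⟩ := exists_sqrt hsq (zc 0) (zc 1)
  have hpow : ∀ g : MvPolynomial (Fin 2) F, (g ^ 2) ^ (2 ^ i) = g ^ (2 ^ (i + 1)) := by
    intro g
    rw [← pow_mul, pow_succ, mul_comm 2]
  have hdeg : ∀ g g' : MvPolynomial (Fin 2) F, g = g' ^ 2 → 2 ^ i * g.totalDegree ≤ δ →
      2 ^ (i + 1) * g'.totalDegree ≤ δ := by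
    intro g g' hg h
    rw [hg, tdpow] at h
    calc 2 ^ (i + 1) * g'.totalDegree = 2 ^ i * (2 * g'.totalDegree) := by ring
      _ ≤ δ := h
  refine ⟨a', b', c', ⟨?_, ?_, hdeg a a' ha L.da, hdeg b b' hb L.db, hdeg c c' hc L.dc⟩⟩
  · rw [L.hP, ha, hc, hpow, hpow]
  · rw [L.hQ, hb, hc, hpow, hpow]

theorem level (G : Geo F K k j f) (hsq : ∀ a : F, ∃ b, b ^ 2 = a) {δ : ℕ}
    {P Q Kp : MvPolynomial (Fin 2) F} (H : Mini K k f δ P Q Kp) :
    ∀ i, 1 ≤ i → i ≤ j → ∃ a b c, Lv δ (2 ^ i) P Q a b c := by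
  intro i hi
  induction i, hi using Nat.le_induction with
  | base =>
    intro _
    obtain ⟨a, b, c, h1, h2, h3, h4, h5⟩ := G.stepA hsq H
    exact ⟨a, b, c, ⟨by rw [pow_one]; exact h1, by rw [pow_one]; exact h2, by rw [pow_one]; exact h3,
      by rw [pow_one]; exact h4, by rw [pow_one]; exact h5⟩⟩
  | succ i hi ih =>
    intro hij
    obtain ⟨a, b, c, L⟩ := ih (by omega)
    exact G.stepB hsq hi (by omega) H L

end Geo

end Pool.Agent.Helper992
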