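import Pool.Agent.Helper992.Four
import Pool.Agent.Helper992.Arith

set_option autoImplicit false
set_option linter.unusedSectionVars false
open scoped Classical

namespace Pool.Agent.Helper992

open Finset

variable {k : ℕ} {F : Type*} [Field F] [Fintype F] [CharP F 2]

/-- `1 / T`. -/
noncomputable def II (k : ℕ) (x : F) : F := (T k x)⁻¹

theorem n_cast (hk : 1 ≤ k) : ((2 ^ k + 1 : ℕ) : F) = 1 := by
  push_cast
  rw [CharTwo.two_eq_zero, zero_pow (by omega), zero_add]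

theorem not_dvd_four {m : ℕ} (hk : 1 ≤ k) (h : (2 ^ k + 1) ∣ 4 * m) : (2 ^ k + 1) ∣ m := by
  have h1 : Nat.Coprime (2 ^ k + 1) 4 := by
    have : (4 : ℕ) = 2 ^ 2 := by norm_num
    rw [this]
    apply Nat.Coprime.pow_right
    rw [Nat.coprime_two_right]
    exact odd_n hk
  exact h1.dvd_of_dvd_mul_left h

/-- orthogonality -/
theorem sum_U_zpow (hk : 1 ≤ k) (hF : Fintype.card F = 2 ^ (2 * k)) (m : ℤ) :
    ∑ θ ∈ U F k, θ ^ m = if ((2 ^ k + 1 : ℕ) : ℤ) ∣ m then 1 else 0 := by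
  split_ifs with h
  · have : ∀ θ ∈ U F k, θ ^ m = 1 := by
      intro θ hθ
      have := U_zpow_eq_of_dvd hθ (m := m) (m' := 0) (by simpa using h)
      rw [this, zpow_zero]
    rw [sum_congr rfl this, sum_const, card_U hF, nsmul_eq_mul, mul_one, n_cast hk]
  · obtain ⟨ζ, hζ⟩ := exists_zeta hF
    have hζU : ζ ∈ U F k := mem_U.mpr hζ.pow_eq_one
    have hζ0 := U_ne_zero hζU
    have h1 : ζ ^ m ≠ 1 := by
      intro h2; exact h ((hζ.zpow_eq_one_iff_dvd m).mp h2)
    have h2 : ζ ^ m * ∑ θ ∈ U F k, θ ^ m = ∑ θ ∈ U F k, θ ^ m := by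
      rw [mul_sum]
      refine sum_nbij' (fun θ => ζ * θ) (fun θ => ζ⁻¹ * θ) ?_ ?_ ?_ ?_ ?_
      · intro θ hθ; exact mul_mem_U hζU hθ
      · intro θ hθ; exact mul_mem_U (inv_mem_U hζU) hθ
      · intro θ _; exact inv_mul_cancel_left₀ hζ0 θ
      · intro θ _; exact mul_inv_cancel_left₀ hζ0 θ
      · intro θ _; exact (mul_zpow ζ θ m).symm
    have h3 : (ζ ^ m - 1) * ∑ θ ∈ U F k, θ ^ m = 0 := by
      rw [sub_mul, h2, one_mul, sub_self]
    rcases mul_eq_zero.mp h3 with h4 | h4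
    · exact absurd (sub_eq_zero.mp h4) h1
    · exact h4

/-- explicit polynomial for `1 / T` on the unit circle -/
theorem II_eq (hk : 2 ≤ k) {x : F} (hx : x ∈ U F k) :
    II k x = ∑ i ∈ range (2 ^ (k - 1)), x ^ (4 * i + 3) := by
  have hx0 := U_ne_zero hx
  by_cases h1 : x = 1
  · rw [h1, II, T_K one_mem_K, inv_zero]
    simp only [one_pow, sum_const, card_range, nsmul_eq_mul, mul_one]
    push_cast
    rw [CharTwo.two_eq_zero, zero_pow (by omega)]
  · have hT := T_ne_zero (mem_erase.mpr ⟨h1, hx⟩)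
    have h4 : x ^ 4 - 1 ≠ 0 := by
      intro h
      apply h1
      have h5 : x ^ (2 : ℤ) = 1 := by
        apply U_zpow_inj (isCoprime_two (by omega : 1 ≤ k)) (zpow_mem_U hx 2) one_mem_U
        rw [one_zpow, ← zpow_mul]
        have : x ^ ((2 : ℤ) * 2) = x ^ 4 := by norm_num
        rw [this]; exact sub_eq_zero.mp h
      apply U_zpow_inj (isCoprime_two (by omega : 1 ≤ k)) hx one_mem_U
      rw [one_zpow]; exact h5
    have hgeom : (∑ i ∈ range (2 ^ (k - 1)), x ^ (4 * i + 3)) * (x ^ 4 - 1)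
        = x ^ 3 * (x ^ (2 * 2 ^ k) - 1) := by
      have h6 := geom_sum_mul (x ^ 4) (2 ^ (k - 1))
      have h7 : (x ^ 4) ^ (2 ^ (k - 1)) = x ^ (2 * 2 ^ k) := by
        rw [← pow_mul]; congr 1
        have : 2 ^ k = 2 * 2 ^ (k - 1) := by rw [← pow_succ']; congr 1; omega
        rw [this]; ring
      rw [h7] at h6
      rw [← h6, ← mul_assoc, mul_sum]
      congr 1
      refine sum_congr rfl fun i _ => ?_
      rw [pow_add, pow_mul]; ring
    have h8 : x ^ (2 * 2 ^ k) = (x⁻¹) ^ 2 := by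
      rw [mul_comm, pow_mul, U_pow_q hx]
    rw [h8] at hgeom
    have h9 : II k x * (x ^ 4 - 1) = x ^ 3 * ((x⁻¹) ^ 2 - 1) := by
      rw [II, T_U hx]
      rw [T_U hx] at hT
      have hx2 : x * x + 1 ≠ 0 := by
        intro h
        apply hT
        have : x + x⁻¹ = (x * x + 1) * x⁻¹ := by field_simp
        rw [this, h, zero_mul]
      have e1 : (x + x⁻¹)⁻¹ = x / (x * x + 1) := by
        have : x + x⁻¹ = (x * x + 1) / x := by field_simp
        rw [this, inv_div]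
      rw [e1, div_mul_eq_mul_div, div_eq_iff hx2]
      have e2 : x ^ 3 * ((x⁻¹) ^ 2 - 1) = x - x ^ 3 := by field_simp
      rw [e2]
      have h2 : (2 : F) = 0 := CharTwo.two_eq_zero
      have e3 : x * (x ^ 4 - 1) - (x - x ^ 3) * (x * x + 1) = 2 * (x ^ 5 - x) := by ring
      rw [← sub_eq_zero, e3, h2, zero_mul]
    exact mul_right_cancel₀ h4 (h9.trans hgeom.symm)

/-- In the case `m = 3` the value two is attained exactly on the punctured circle. -/
theorem two_iff (hF : Fintype.card F = 2 ^ (2 * k)) {s : ℤ}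
    (hD : FourData F k s 1) (a : F) : NZ k s a = 2 ↔ a ∈ (U F k).erase 1 := by
  have h2 : ∑ a : F, (NZ k s a : ℤ) * ((NZ k s a : ℤ) - 1)
      = 2 * (((univ : Finset F).filter (fun a => NZ k s a = 2)).card : ℤ)
        + 6 * (((univ : Finset F).filter (fun a => NZ k s a = 3)).card : ℤ) := by
    have h3 : ∀ a : F, (NZ k s a : ℤ) * ((NZ k s a : ℤ) - 1)
        = (if NZ k s a = 2 then 2 else 0) + if NZ k s a = 3 then 6 else 0 := by
      intro a
      rcases hD.vals a with h | h | h | h <;> rw [h] <;> norm_num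
    rw [sum_congr rfl fun a _ => h3 a, sum_add_distrib, ← sum_filter, ← sum_filter, sum_const,
      sum_const, nsmul_eq_mul, nsmul_eq_mul]
    ring
  rw [moment2 hF] at h2
  have h3 := hD.third
  norm_num at h3
  have h4 : ((univ : Finset F).filter (fun a => NZ k s a = 2)).card = 2 ^ k := by
    have : (((univ : Finset F).filter (fun a => NZ k s a = 2)).card : ℤ) = 2 ^ k := by
      linarith
    exact_mod_cast this
  have h5 : (U F k).erase 1 ⊆ (univ : Finset F).filter (fun a => NZ k s a = 2) := by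
    intro u hu
    rw [mem_erase] at hu
    rw [mem_filter]
    exact ⟨mem_univ _, hD.valsU u hu.2 hu.1⟩
  have h6 := eq_of_subset_of_card_le h5 (by rw [h4, card_U_erase hF])
  rw [h6, mem_filter]
  simp

theorem line_on_U {w θ ρ : F} (hw : w ∈ U F k)
    (hθ : θ ∈ U F k) (hρ : ρ ∈ K F k) :
    (ρ + θ) / w ∈ U F k ↔ ρ = 0 ∨ ρ = T k θ := by
  have hw0 := U_ne_zero hw
  have hθ0 := U_ne_zero hθ
  have h1 : (ρ + θ) / w ∈ U F k ↔ (ρ + θ) ∈ U F k := by
    constructor
    · intro h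
      have := mul_mem_U h hw
      rwa [div_mul_cancel₀ _ hw0] at this
    · intro h
      rw [div_eq_mul_inv]; exact mul_mem_U h (inv_mem_U hw)
  rw [h1, mem_U, pow_succ, add_pow_q, mem_K.mp hρ, U_pow_q hθ]
  have h2 : (ρ + θ⁻¹) * (ρ + θ) = 1 + ρ * (ρ + T k θ) := by
    rw [T_U hθ]; field_simp; ring
  rw [h2]
  constructor
  · intro h
    have h3 : ρ * (ρ + T k θ) = 0 := by
      have : 1 + ρ * (ρ + T k θ) - 1 = 0 := by rw [h]; ring
      simpa using this
    rcases mul_eq_zero.mp h3 with h4 | h4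
    · left; exact h4
    · right; exact CharTwo.add_eq_zero.mp h4
  · rintro (h | h)
    · rw [h, zero_mul, add_zero]
    · rw [h, CharTwo.add_self_eq_zero, mul_zero, add_zero]

/-- parity of the line counts when `m = 3` -/
theorem L_parity (hF : Fintype.card F = 2 ^ (2 * k)) {s : ℤ}
    (hs : IsCoprime (1 - 2 * s) ((2 ^ k + 1 : ℕ) : ℤ))
    (hD : FourData F k s 1) {θ ρ : F} (hθ : θ ∈ U F k) (hρ : ρ ∈ K F k) :
    ((L k s θ ρ).card : F) = if (θ ≠ 1 ∧ (ρ = 0 ∨ ρ = T k θ)) then 1 else 0 := by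
  have hθ' := hθ
  rw [← image_zpow_U hs] at hθ'
  obtain ⟨w, hw, hwθ⟩ := mem_image.mp hθ'
  have hw0 := U_ne_zero hw
  have hN := NZ_line hF (s := s) hw hρ
  rw [hwθ] at hN
  have hiff := two_iff hF hD ((ρ + θ) / w)
  rw [mem_erase, line_on_U hw hθ hρ] at hiff
  by_cases hθ1 : θ = 1
  · rw [if_neg (by tauto)]
    have hw1 : w = 1 := by
      apply U_zpow_inj hs hw one_mem_U
      rw [one_zpow]; rw [hθ1] at hwθ; exact hwθ
    rw [hw1, hθ1, div_one] at hN
    have h1 := hD.valsK (ρ + 1) (add_mem_K hρ one_mem_K)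
    rw [hθ1]
    rcases h1 with h1 | h1
    · have : (L k s 1 ρ).card = 0 := by omega
      rw [this, Nat.cast_zero]
    · have : (L k s 1 ρ).card = 2 := by omega
      rw [this]; exact CharTwo.two_eq_zero
  · have hne1 : (ρ + θ) / w ≠ 1 := by
      intro h1
      rw [h1, hD.val1] at hN
      have h2 : w ∈ SolZ k s (1 : F) := by
        rw [mem_SolZ_iff hw]
        exact ⟨ρ, hρ, by rw [hwθ]; exact h1⟩
      have h3 : (1 : F) ∈ SolZ k s (1 : F) := one_mem_SolZ_K one_mem_K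
      have h4 := card_eq_one.mp (hD.val1 : (SolZ k s (1 : F)).card = 1)
      obtain ⟨y, hy⟩ := h4
      rw [hy, mem_singleton] at h2 h3
      have : w = 1 := by rw [h2, h3]
      rw [this] at hwθ
      simp only [one_zpow] at hwθ
      exact hθ1 hwθ.symm
    have hvals := hD.vals ((ρ + θ) / w)
    by_cases hρ2 : ρ = 0 ∨ ρ = T k θ
    · rw [if_pos ⟨hθ1, hρ2⟩]
      have := hiff.mpr ⟨hne1, hρ2⟩
      have : (L k s θ ρ).card = 1 := by omega
      rw [this, Nat.cast_one]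
    · rw [if_neg (by tauto)]
      have h5 : NZ k s ((ρ + θ) / w) ≠ 2 := fun h => hρ2 (hiff.mp h).2
      have h6 : (L k s θ ρ).card = 0 ∨ (L k s θ ρ).card = 2 := by omega
      rcases h6 with h6 | h6
      · rw [h6, Nat.cast_zero]
      · rw [h6]; exact CharTwo.two_eq_zero

/-- reciprocal sum along the pencil -/
theorem sum_inv (hF : Fintype.card F = 2 ^ (2 * k)) {s : ℤ}
    (hs : IsCoprime (1 - 2 * s) ((2 ^ k + 1 : ℕ) : ℤ))
    (hD : FourData F k s 1) {θ : F} (hθ : θ ∈ U F k) :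
    ∑ x ∈ (U F k).erase 1, (T k (θ * gg k s x))⁻¹ = II k θ := by
  have h1 := sum_fiberwise_of_maps_to' (L_maps hF s θ) (fun ρ => ρ⁻¹)
  rw [← h1]
  have h2 : ∀ ρ ∈ K F k, ∑ x ∈ (U F k).erase 1 with T k (θ * gg k s x) = ρ, ρ⁻¹
      = if (θ ≠ 1 ∧ (ρ = 0 ∨ ρ = T k θ)) then ρ⁻¹ else 0 := by
    intro ρ hρ
    rw [sum_const, nsmul_eq_mul]
    have := L_parity hF hs hD hθ hρ
    rw [L] at this
    rw [this]
    split_ifs <;> simp
  rw [sum_congr rfl h2]
  by_cases hθ1 : θ = 1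
  · simp only [hθ1, ne_eq, not_true_eq_false, false_and, if_false, sum_const_zero]
    rw [II, T_K one_mem_K, inv_zero]
  · have hT := T_ne_zero (mem_erase.mpr ⟨hθ1, hθ⟩)
    rw [sum_eq_single (T k θ)]
    · rw [if_pos ⟨hθ1, Or.inr rfl⟩, II]
    · intro ρ _ hρ2
      split_ifs with h
      · rcases h.2 with h3 | h3
        · rw [h3, inv_zero]
        · exact absurd h3 hρ2
      · rfl
    · intro h; exact absurd (T_mem_K hF θ) h

theorem inv_T_gg (hF : Fintype.card F = 2 ^ (2 * k)) {s : ℤ} {x : F} (hx : x ∈ U F k) (θ : F) :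
    (T k (θ * gg k s x))⁻¹ = T k x * II k (x ^ s) * II k (θ * x ^ (1 - s)) := by
  have hK : T k (x ^ s) / T k x ∈ K F k := div_mem_K (T_mem_K hF _) (T_mem_K hF _)
  rw [gg_mul hx]
  have : θ * (x ^ (1 - s) * (T k (x ^ s) / T k x)) = (T k (x ^ s) / T k x) * (θ * x ^ (1 - s)) := by
    ring
  rw [this, T_K_mul hK, II, II, mul_inv, inv_div, div_eq_mul_inv]

/-- the scalar identities -/
theorem coeff_identity (hk : 2 ≤ k) (hF : Fintype.card F = 2 ^ (2 * k)) {s : ℤ}
    (hs : IsCoprime (1 - 2 * s) ((2 ^ k + 1 : ℕ) : ℤ))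
    (hD : FourData F k s 1) {i : ℕ} (hi : i < 2 ^ (k - 1)) :
    ∑ x ∈ U F k, T k x * II k (x ^ s) * x ^ ((1 - s) * (4 * i + 3)) = 1 := by
  have hk1 : 1 ≤ k := by omega
  have hq : 2 ^ k = 2 * 2 ^ (k - 1) := by rw [← pow_succ']; congr 1; omega
  -- the identity for every θ, summed over the full circle
  have h1 : ∀ θ ∈ U F k, ∑ x ∈ U F k, T k x * II k (x ^ s) * II k (θ * x ^ (1 - s)) = II k θ := by
    intro θ hθ
    rw [← sum_inv hF hs hD hθ, ← add_sum_erase (U F k) _ one_mem_U, T_K one_mem_K,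
      zero_mul, zero_mul, zero_add]
    refine sum_congr rfl fun x hx => ?_
    rw [inv_T_gg hF (mem_erase.mp hx).2]
  -- orthogonality for II
  have h2 : ∀ c ∈ U F k, ∑ θ ∈ U F k, θ ^ (-(4 * (i : ℤ) + 3)) * II k (θ * c)
      = c ^ (4 * (i : ℤ) + 3) := by
    intro c hc
    have hc0 := U_ne_zero hc
    have e1 : ∀ θ ∈ U F k, θ ^ (-(4 * (i : ℤ) + 3)) * II k (θ * c)
        = ∑ l ∈ range (2 ^ (k - 1)), c ^ (4 * l + 3) * θ ^ (4 * ((l : ℤ) - i)) := by
      intro θ hθ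
      have hθ0 := U_ne_zero hθ
      rw [II_eq hk (mul_mem_U hθ hc), mul_sum]
      refine sum_congr rfl fun l _ => ?_
      rw [mul_pow]
      have : θ ^ (4 * ((l : ℤ) - i)) = θ ^ (-(4 * (i : ℤ) + 3)) * θ ^ (4 * l + 3) := by
        rw [← zpow_natCast θ (4 * l + 3), ← zpow_add₀ hθ0]
        congr 1; push_cast; ring
      rw [this]; ring
    rw [sum_congr rfl e1, sum_comm]
    simp_rw [← mul_sum]
    rw [sum_eq_single i]
    · rw [sum_U_zpow hk1 hF, if_pos (by simp), mul_one, ← zpow_natCast]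
      congr 1
    · intro l hl hli
      rw [sum_U_zpow hk1 hF, if_neg, mul_zero]
      intro hd
      rw [mem_range] at hl
      have h3 : IsCoprime ((2 ^ k + 1 : ℕ) : ℤ) 4 := by
        have := (isCoprime_two hk1).symm
        have h4 : (4 : ℤ) = 2 * 2 := by norm_num
        rw [h4]; exact this.mul_right this
      have h4 := h3.dvd_of_dvd_mul_left hd
      have h5 : ((l : ℤ) - i) = 0 := by
        apply Int.eq_zero_of_abs_lt_dvd h4
        have hqZ : (2 : ℤ) ^ k = 2 * 2 ^ (k - 1) := by exact_mod_cast hq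
        have hiZ : (i : ℤ) < 2 ^ (k - 1) := by exact_mod_cast hi
        have hlZ : (l : ℤ) < 2 ^ (k - 1) := by exact_mod_cast hl
        have hi0 : (0 : ℤ) ≤ i := by positivity
        have hl0 : (0 : ℤ) ≤ l := by positivity
        rw [abs_lt]
        constructor <;> push_cast <;> linarith
      omega
    · intro h; exact absurd (mem_range.mpr hi) h
  -- combine
  have h3 : ∑ θ ∈ U F k, θ ^ (-(4 * (i : ℤ) + 3)) *
      (∑ x ∈ U F k, T k x * II k (x ^ s) * II k (θ * x ^ (1 - s))) = 1 := by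
    rw [sum_congr rfl fun θ hθ => by rw [h1 θ hθ]]
    have := h2 1 one_mem_U
    simp only [mul_one, one_zpow] at this
    exact this
  rw [← h3]
  simp_rw [mul_sum]
  rw [sum_comm]
  refine sum_congr rfl fun x hx => ?_
  have h4 := h2 (x ^ (1 - s)) (zpow_mem_U hx _)
  rw [zpow_mul, ← h4, mul_sum]
  refine sum_congr rfl fun θ _ => ?_
  ring

/-- the combinatorial consequence -/
theorem count_identity (hk : 2 ≤ k) (hF : Fintype.card F = 2 ^ (2 * k)) {s : ℤ}
    (hs : IsCoprime (1 - 2 * s) ((2 ^ k + 1 : ℕ) : ℤ))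
    (hD : FourData F k s 1) {i : ℕ} (hi : i < 2 ^ (k - 1)) :
    Odd (((range (2 ^ (k - 1))).filter
        (fun l : ℕ => ((2 ^ k + 1 : ℕ) : ℤ) ∣ s * l + (1 - s) * i + 1)).card
      + ((range (2 ^ (k - 1))).filter
        (fun l : ℕ => ((2 ^ k + 1 : ℕ) : ℤ) ∣ 2 * (s * l) + 2 * ((1 - s) * i) + 1)).card) := by
  have hk1 : 1 ≤ k := by omega
  have h1 := coeff_identity hk hF hs hD hi
  have h2 : ∀ x ∈ U F k, T k x * II k (x ^ s) * x ^ ((1 - s) * (4 * i + 3))
      = ∑ l ∈ range (2 ^ (k - 1)), (x ^ (4 * (s * l + (1 - s) * i + 1))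
        + x ^ (2 * (2 * (s * l) + 2 * ((1 - s) * i) + 1))) := by
    intro x hx
    have hx0 := U_ne_zero hx
    rw [II_eq hk (zpow_mem_U hx s), mul_sum, sum_mul]
    refine sum_congr rfl fun l _ => ?_
    rw [T_U hx, ← zpow_natCast (x ^ s), ← zpow_mul, add_mul, add_mul]
    congr 1
    · rw [← zpow_one_add₀ hx0, ← zpow_add₀ hx0]
      congr 1; push_cast; ring
    · rw [← zpow_neg_one, ← zpow_add₀ hx0, ← zpow_add₀ hx0]
      congr 1; push_cast; ring
  rw [sum_congr rfl h2, sum_comm] at h1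
  simp_rw [sum_add_distrib, sum_U_zpow hk1 hF] at h1
  have hc2 := (isCoprime_two hk1).symm
  have hc4 : IsCoprime ((2 ^ k + 1 : ℕ) : ℤ) 4 := by
    have h4 : (4 : ℤ) = 2 * 2 := by norm_num
    rw [h4]; exact hc2.mul_right hc2
  have e1 : ∀ m : ℤ, (((2 ^ k + 1 : ℕ) : ℤ) ∣ 4 * m) = (((2 ^ k + 1 : ℕ) : ℤ) ∣ m) := by
    intro m
    exact propext ⟨fun h => hc4.dvd_of_dvd_mul_left h, fun h => dvd_mul_of_dvd_right h _⟩
  have e2 : ∀ m : ℤ, (((2 ^ k + 1 : ℕ) : ℤ) ∣ 2 * m) = (((2 ^ k + 1 : ℕ) : ℤ) ∣ m) := by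
    intro m
    exact propext ⟨fun h => hc2.dvd_of_dvd_mul_left h, fun h => dvd_mul_of_dvd_right h _⟩
  simp only [e1, e2] at h1
  rw [sum_boole, sum_boole] at h1
  rw [← Nat.cast_add] at h1
  rw [← Nat.not_even_iff_odd]
  intro he
  have h4 := (CharP.cast_eq_zero_iff F 2 _).mpr (even_iff_two_dvd.mp he)
  rw [h4] at h1
  exact zero_ne_one h1

end Pool.Agent.Helper992
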