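import Pool.Agent.Helper992.Two

set_option autoImplicit false
set_option linter.unusedSectionVars false
open scoped Classical

namespace Pool.Agent.Helper992

open Finset

variable {k : ℕ}

theorem isCoprime_congr {a b n : ℤ} (h : n ∣ a - b) (hb : IsCoprime b n) : IsCoprime a n := by
  obtain ⟨c, hc⟩ := h
  have : a = b + n * c := by linarith
  rw [this]; exact IsCoprime.add_mul_left_left_iff.mpr hb

theorem isCoprime_two_pow (hk : 1 ≤ k) (r : ℕ) :
    IsCoprime ((2 : ℤ) ^ r) ((2 ^ k + 1 : ℕ) : ℤ) := (isCoprime_two hk).pow_left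

/-- the valuation condition is automatic -/
theorem finish (hk : 1 ≤ k) {s : ℤ} (hs : IsCoprime (1 - 2 * s) ((2 ^ k + 1 : ℕ) : ℤ))
    {r : ℕ} {ε : ℤ} (hε : ε = 1 ∨ ε = -1)
    (h : ((2 ^ k + 1 : ℕ) : ℤ) ∣ s * (2 ^ r + ε) - 2 ^ r) :
    padicValNat 2 r < padicValNat 2 k := by
  have h1 : IsCoprime ((2 : ℤ) ^ r + ε) ((2 ^ k + 1 : ℕ) : ℤ) :=
    (isCoprime_congr h (isCoprime_two_pow hk r)).of_mul_left_right
  have h2 : IsCoprime ((2 : ℤ) ^ r - ε) ((2 ^ k + 1 : ℕ) : ℤ) := by
    have h3 : IsCoprime (-(1 - 2 * s) * (2 ^ r + ε)) ((2 ^ k + 1 : ℕ) : ℤ) :=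
      hs.neg_left.mul_left h1
    apply isCoprime_congr _ h3
    have : (2 : ℤ) ^ r - ε - -(1 - 2 * s) * (2 ^ r + ε) = -2 * (s * (2 ^ r + ε) - 2 ^ r) := by ring
    rw [this]; exact dvd_mul_of_dvd_right h _
  rcases hε with rfl | rfl
  · exact v2_lt hk h1 h2
  · refine v2_lt hk ?_ ?_
    · simpa [sub_neg_eq_add] using h2
    · simpa [sub_eq_add_neg] using h1

/-- The conclusion predicted by the conjecture. -/
def Concl (k : ℕ) (s : ℤ) : Prop :=
  ∃ r : ℕ, 0 < r ∧ padicValNat 2 r < padicValNat 2 k ∧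
    (s * (2 ^ r + 1) ≡ 2 ^ r [ZMOD (2 ^ k + 1 : ℤ)] ∨
     s * (2 ^ r - 1) ≡ 2 ^ r [ZMOD (2 ^ k + 1 : ℤ)])

theorem concl_of (hk : 1 ≤ k) {s : ℤ} (hs : IsCoprime (1 - 2 * s) ((2 ^ k + 1 : ℕ) : ℤ))
    {r : ℕ} (hr : 0 < r) {ε : ℤ} (hε : ε = 1 ∨ ε = -1)
    (h : ((2 ^ k + 1 : ℕ) : ℤ) ∣ s * (2 ^ r + ε) - 2 ^ r) : Concl k s := by
  refine ⟨r, hr, finish hk hs hε h, ?_⟩
  have hn : ((2 ^ k + 1 : ℕ) : ℤ) = 2 ^ k + 1 := by push_cast; ring
  rw [hn] at h
  rcases hε with rfl | rfl
  · left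
    exact (Int.modEq_iff_dvd.mpr h).symm
  · right
    rw [← sub_eq_add_neg] at h
    exact (Int.modEq_iff_dvd.mpr h).symm

variable {F : Type*} [Field F] [Fintype F] [CharP F 2]

theorem two_case (hk : 1 ≤ k) (hF : Fintype.card F = 2 ^ (2 * k)) {s : ℤ}
    (hs : IsCoprime (1 - 2 * s) ((2 ^ k + 1 : ℕ) : ℤ))
    (hD : FourData F k s 1) : Concl k s := by
  have hk2 : 2 ≤ k := by
    have := Nat.le_of_dvd (by omega) hD.dvd
    omega
  have h0 := hD.cop0
  have h1 := hD.cop1
  set n : ℕ := 2 ^ k + 1 with hn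
  have hc2 := isCoprime_two hk
  have hq : 2 ^ k = 2 * 2 ^ (k - 1) := by rw [← pow_succ']; congr 1; omega
  obtain ⟨a, b, hab⟩ := hc2.mul_left h0
  set μ := a * (s - 1) with hμ
  have hμs : (n : ℤ) ∣ 2 * s * μ - (s - 1) := by
    refine ⟨-(b * (s - 1)), ?_⟩
    have : 2 * s * μ - (s - 1) = (a * (2 * s) - 1) * (s - 1) := by rw [hμ]; ring
    rw [this]
    have h2 : a * (2 * s) - 1 = -(b * n) := by linarith
    rw [h2]; ring
  have hμc : IsCoprime μ (n : ℤ) := by
    have h2 : IsCoprime (s - 1) (n : ℤ) := by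
      have := h1.neg_left
      rwa [neg_sub] at this
    exact (isCoprime_congr hμs h2).of_mul_left_right
  have hC : ∀ i : ℕ, i < 2 ^ (k - 1) → ((μ * (2 * i + 1)) % (n : ℤ) ≤ 2 ^ (k - 1) ↔
      (μ * (2 * i + 2)) % (n : ℤ) ≤ 2 ^ (k - 1)) := by
    intro i hi
    have hodd := count_identity hk2 hF hs hD hi
    set h := 2 ^ (k - 1) with hh
    have hhpos : 0 < h := by positivity
    have hnh : n = 2 * h + 1 := by omega
    have hnZ : (n : ℤ) = 2 * h + 1 := by exact_mod_cast hnh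
    have hhZ : (2 : ℤ) ^ (k - 1) = h := by rw [hh]; push_cast; ring
    rw [hhZ]
    have hnpos : (0 : ℤ) < n := by omega
    set r1 := (μ * (2 * i + 1)) % (n : ℤ) with hr1
    set r2 := (μ * (2 * i + 2)) % (n : ℤ) with hr2
    have hr1a : 0 ≤ r1 := Int.emod_nonneg _ hnpos.ne'
    have hr1b : r1 < n := Int.emod_lt_of_pos _ hnpos
    have hr2a : 0 ≤ r2 := Int.emod_nonneg _ hnpos.ne'
    have hr2b : r2 < n := Int.emod_lt_of_pos _ hnpos
    have hd1 : (n : ℤ) ∣ μ * (2 * i + 1) - r1 := Int.dvd_self_sub_emod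
    have hd2 : (n : ℤ) ∣ μ * (2 * i + 2) - r2 := Int.dvd_self_sub_emod
    have hr20 : r2 ≠ 0 := by
      intro h2
      rw [h2, sub_zero] at hd2
      have h3 := hμc.symm.dvd_of_dvd_mul_left hd2
      have h4 := Int.le_of_dvd (by omega) h3
      omega
    have hA : ∀ l : ℕ, l < h → ((n : ℤ) ∣ s * l + (1 - s) * i + 1 ↔ (l : ℤ) + 1 = r2) := by
      intro l hl
      have e1 : (n : ℤ) ∣ s * l + (1 - s) * i + 1 ↔ (n : ℤ) ∣ (l : ℤ) + 1 - r2 := by
        have e2 : s * l + (1 - s) * i + 1 - s * ((l : ℤ) + 1 - r2)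
            = (2 * s * μ - (s - 1)) * (i + 1) - s * (μ * (2 * i + 2) - r2) := by ring
        have e3 : (n : ℤ) ∣ s * l + (1 - s) * i + 1 - s * ((l : ℤ) + 1 - r2) := by
          rw [e2]
          exact dvd_sub (dvd_mul_of_dvd_left hμs _) (dvd_mul_of_dvd_right hd2 _)
        constructor
        · intro h2
          have h3 := dvd_sub h2 e3
          rw [sub_sub_cancel] at h3
          exact h0.symm.dvd_of_dvd_mul_left h3
        · intro h2
          have h3 := dvd_add e3 (dvd_mul_of_dvd_right h2 s)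
          rw [sub_add_cancel] at h3
          exact h3
      rw [e1]
      constructor
      · intro h2
        have h3 := Int.eq_zero_of_abs_lt_dvd h2 (by rw [abs_lt]; constructor <;> omega)
        omega
      · intro h2
        rw [h2, sub_self]; exact dvd_zero _
    have hB : ∀ l : ℕ, l < h → ((n : ℤ) ∣ 2 * (s * l) + 2 * ((1 - s) * i) + 1 ↔
        (l : ℤ) + 1 + h = r1) := by
      intro l hl
      have e1 : (n : ℤ) ∣ 2 * (s * l) + 2 * ((1 - s) * i) + 1 ↔ (n : ℤ) ∣ 2 * (l : ℤ) + 1 - 2 * r1 := by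
        have e2 : 2 * (s * l) + 2 * ((1 - s) * i) + 1 - s * (2 * (l : ℤ) + 1 - 2 * r1)
            = (2 * s * μ - (s - 1)) * (2 * i + 1) - (2 * s) * (μ * (2 * i + 1) - r1) := by ring
        have e3 : (n : ℤ) ∣ 2 * (s * l) + 2 * ((1 - s) * i) + 1 - s * (2 * (l : ℤ) + 1 - 2 * r1) := by
          rw [e2]
          exact dvd_sub (dvd_mul_of_dvd_left hμs _) (dvd_mul_of_dvd_right hd1 _)
        constructor
        · intro h2
          have h3 := dvd_sub h2 e3
          rw [sub_sub_cancel] at h3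
          exact h0.symm.dvd_of_dvd_mul_left h3
        · intro h2
          have h3 := dvd_add e3 (dvd_mul_of_dvd_right h2 s)
          rw [sub_add_cancel] at h3
          exact h3
      rw [e1]
      constructor
      · intro h2
        have h2' : (n : ℤ) ∣ 2 * ((l : ℤ) + 1 + h - r1) := by
          have h3 := dvd_add h2 (dvd_refl (n : ℤ))
          have h4 : 2 * (l : ℤ) + 1 - 2 * r1 + n = 2 * ((l : ℤ) + 1 + h - r1) := by
            rw [hnZ]; ring
          rwa [h4] at h3
        have h3 := hc2.symm.dvd_of_dvd_mul_left h2'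
        have h5 := Int.eq_zero_of_abs_lt_dvd h3 (by rw [abs_lt]; constructor <;> omega)
        omega
      · intro h2
        refine ⟨-1, ?_⟩
        rw [hnZ, ← h2]; ring
    have hAc : ((range h).filter
        (fun l : ℕ => (n : ℤ) ∣ s * l + (1 - s) * i + 1)).card = if r2 ≤ h then 1 else 0 := by
      split_ifs with h2
      · rw [card_eq_one]
        refine ⟨(r2 - 1).toNat, ?_⟩
        ext l
        rw [mem_filter, mem_range, mem_singleton]
        constructor
        · rintro ⟨hl, h3⟩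
          rw [hA l hl] at h3
          omega
        · intro h3
          have hl : l < h := by omega
          exact ⟨hl, (hA l hl).mpr (by omega)⟩
      · rw [card_eq_zero]
        ext l
        rw [mem_filter, mem_range]
        constructor
        · rintro ⟨hl, h3⟩
          rw [hA l hl] at h3
          omega
        · intro h3; exact absurd h3 (notMem_empty _)
    have hBc : ((range h).filter
        (fun l : ℕ => (n : ℤ) ∣ 2 * (s * l) + 2 * ((1 - s) * i) + 1)).card
          = if r1 ≤ h then 0 else 1 := by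
      split_ifs with h2
      · rw [card_eq_zero]
        ext l
        rw [mem_filter, mem_range]
        constructor
        · rintro ⟨hl, h3⟩
          rw [hB l hl] at h3
          omega
        · intro h3; exact absurd h3 (notMem_empty _)
      · rw [card_eq_one]
        refine ⟨(r1 - 1 - h).toNat, ?_⟩
        ext l
        rw [mem_filter, mem_range, mem_singleton]
        constructor
        · rintro ⟨hl, h3⟩
          rw [hB l hl] at h3
          omega
        · intro h3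
          have hl : l < h := by omega
          exact ⟨hl, (hB l hl).mpr (by omega)⟩
    rw [hAc, hBc] at hodd
    by_cases c1 : r1 ≤ h <;> by_cases c2 : r2 ≤ h
    · simp [c1, c2]
    · rw [if_neg c2, if_pos c1] at hodd
      exact absurd hodd (by decide)
    · rw [if_pos c2, if_neg c1] at hodd
      exact absurd hodd (by decide)
    · simp [c1, c2]
  obtain ⟨i, hi, hμi⟩ := rigidity hk hμc hC
  -- conclude
  obtain ⟨r, hr⟩ : ∃ r, k = r + (i + 1) := ⟨k - (i + 1), by omega⟩
  have hr1 : 0 < r := by omega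
  have hpow : (2 : ℤ) ^ r * 2 ^ (i + 1) = n - 1 := by
    rw [← pow_add, ← hr, hn]; push_cast; ring
  rcases hμi with h2 | h2
  · apply concl_of hk hs hr1 (ε := 1) (Or.inl rfl)
    -- s - 1 ≡ 2 s 2^i
    have h3 : (n : ℤ) ∣ 2 * s * 2 ^ i - (s - 1) := by
      have : 2 * s * 2 ^ i - (s - 1) = (2 * s * μ - (s - 1)) - 2 * s * (μ - 2 ^ i) := by ring
      rw [this]; exact dvd_sub hμs (dvd_mul_of_dvd_right h2 _)
    have h4 : s * (2 ^ r + 1) - 2 ^ r
        = (n : ℤ) * s - 2 ^ r * (2 * s * 2 ^ i - (s - 1)) := by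
      have : (n : ℤ) = 2 ^ r * 2 ^ (i + 1) + 1 := by linarith
      rw [this]; ring
    rw [h4]
    exact dvd_sub (dvd_mul_right _ _) (dvd_mul_of_dvd_right h3 _)
  · apply concl_of hk hs hr1 (ε := -1) (Or.inr rfl)
    have h3 : (n : ℤ) ∣ 2 * s * 2 ^ i + (s - 1) := by
      have : 2 * s * 2 ^ i + (s - 1) = 2 * s * (μ + 2 ^ i) - (2 * s * μ - (s - 1)) := by ring
      rw [this]; exact dvd_sub (dvd_mul_of_dvd_right h2 _) hμs
    have h4 : s * (2 ^ r + -1) - 2 ^ r
        = 2 ^ r * (2 * s * 2 ^ i + (s - 1)) - (n : ℤ) * s := by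
      have : (n : ℤ) = 2 ^ r * 2 ^ (i + 1) + 1 := by linarith
      rw [this]; ring
    rw [h4]
    exact dvd_sub (dvd_mul_of_dvd_right h3 _) (dvd_mul_right _ _)

end Pool.Agent.Helper992
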