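import Pool.Agent.Helper992.OnU

set_option autoImplicit false
set_option linter.unusedSectionVars false
open scoped Classical

namespace Pool.Agent.Helper992

open Finset

variable {k : ℕ}

/-- The values taken off zero. -/
noncomputable def V (F : Type*) [Field F] [Fintype F] (k : ℕ) (s : ℤ) : Finset ℕ :=
  (univ.filter (fun a : F => a ≠ 0)).image (fun a => NZ k s a)

theorem odd_n (hk : 1 ≤ k) : Odd (2 ^ k + 1) := by
  have : Even (2 ^ k) := (Nat.even_pow.mpr ⟨even_two, by omega⟩)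
  exact this.add_one

theorem gcd_ge_three (hk : 1 ≤ k) {s : ℤ} (h : ¬ IsCoprime s ((2 ^ k + 1 : ℕ) : ℤ)) :
    3 ≤ Int.gcd (-2 * s) ((2 ^ k + 1 : ℕ) : ℤ) := by
  set g := Int.gcd (-2 * s) ((2 ^ k + 1 : ℕ) : ℤ) with hg
  have hgn : g ∣ 2 ^ k + 1 := by
    have := Int.gcd_dvd_right (-2 * s) ((2 ^ k + 1 : ℕ) : ℤ)
    exact_mod_cast this
  have hodd : Odd g := Odd.of_dvd_nat (odd_n hk) hgn
  have hne : g ≠ 1 := by
    intro h1
    apply h
    have h2 : IsCoprime (-2 * s) ((2 ^ k + 1 : ℕ) : ℤ) := Int.isCoprime_iff_gcd_eq_one.mpr h1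
    exact IsCoprime.of_mul_left_right h2
  obtain ⟨c, hc⟩ := hodd
  omega

theorem gcd_eq_one_of_both (hk : 1 ≤ k) {s : ℤ} {b : ℕ} (hbn : b ∣ 2 ^ k + 1)
    (h1 : (b : ℤ) ∣ -2 * s) (h2 : (b : ℤ) ∣ -2 * (1 - s)) : b = 1 := by
  have h3 : (b : ℤ) ∣ 2 := by
    have := dvd_add h1 h2
    have h4 : -2 * s + -2 * (1 - s) = -2 := by ring
    rw [h4] at this
    exact (dvd_neg).mp this
  have h4 : b ∣ 2 := by exact_mod_cast h3
  have hodd : Odd b := Odd.of_dvd_nat (odd_n hk) hbn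
  rcases (Nat.dvd_prime Nat.prime_two).mp h4 with h | h
  · exact h
  · rw [h] at hodd
    exact absurd hodd (by decide)

variable {F : Type*} [Field F] [Fintype F]

theorem P_empty_zeta {ζ : F} (hζ : IsPrimitiveRoot ζ (2 ^ k + 1)) {m t : ℤ}
    (ht : ¬ ((Int.gcd m ((2 ^ k + 1 : ℕ) : ℤ) : ℤ) ∣ t)) : (P k m (ζ ^ t)).card = 0 := by
  rw [card_eq_zero]
  by_contra hne
  obtain ⟨z, hz⟩ := nonempty_iff_ne_empty.mpr hne
  rw [P, mem_filter] at hz
  obtain ⟨hzU, hzm⟩ := hz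
  have : NeZero (2 ^ k + 1) := ⟨by positivity⟩
  obtain ⟨i, _, hi⟩ := hζ.eq_pow_of_pow_eq_one (mem_U.mp hzU)
  have hζ0 : ζ ≠ 0 := hζ.ne_zero (by positivity)
  apply ht
  have h1 : ζ ^ ((i : ℤ) * m - t) = 1 := by
    rw [zpow_sub₀ hζ0, zpow_mul, zpow_natCast, hi, hzm, div_self (zpow_ne_zero _ hζ0)]
  rw [hζ.zpow_eq_one_iff_dvd] at h1
  have h2 : (Int.gcd m ((2 ^ k + 1 : ℕ) : ℤ) : ℤ) ∣ (i : ℤ) * m - t :=
    dvd_trans (Int.gcd_dvd_right _ _) h1
  have h3 : (Int.gcd m ((2 ^ k + 1 : ℕ) : ℤ) : ℤ) ∣ (i : ℤ) * m :=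
    dvd_mul_of_dvd_right (Int.gcd_dvd_left _ _) _
  have h4 : t = (i : ℤ) * m - ((i : ℤ) * m - t) := by ring
  rw [h4]; exact dvd_sub h3 h2

theorem P_full_zeta {ζ : F} (hζ : IsPrimitiveRoot ζ (2 ^ k + 1))
    (hF : Fintype.card F = 2 ^ (2 * k)) (m : ℤ) :
    (P k m (ζ ^ m)).card = Int.gcd m ((2 ^ k + 1 : ℕ) : ℤ) := by
  rcases card_P (k := k) m (u := ζ ^ m) with h | h
  · rw [card_eq_zero] at h
    have : ζ ∈ P k m (ζ ^ m) := by
      rw [P, mem_filter]; exact ⟨mem_U.mpr hζ.pow_eq_one, rfl⟩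
    rw [h] at this
    exact absurd this (notMem_empty _)
  · rw [h, card_ker hF]

variable [CharP F 2]

theorem NZ_one_general (hk : 1 ≤ k) (hF : Fintype.card F = 2 ^ (2 * k)) {s : ℤ}
    (hs : IsCoprime (1 - 2 * s) ((2 ^ k + 1 : ℕ) : ℤ)) :
    NZ k s (1 : F) + 1 = Int.gcd (-2 * s) ((2 ^ k + 1 : ℕ) : ℤ)
      + Int.gcd (-2 * (1 - s)) ((2 ^ k + 1 : ℕ) : ℤ) := by
  have := NZ_U hk hs (one_mem_U (F := F))
  rw [if_pos rfl, card_ker hF, card_ker hF] at this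
  exact this

/-- a value equal to the gcd -/
theorem exists_val_gcd (hk : 1 ≤ k) (hF : Fintype.card F = 2 ^ (2 * k)) {s : ℤ}
    (hs : IsCoprime (1 - 2 * s) ((2 ^ k + 1 : ℕ) : ℤ))
    (h1 : ¬ IsCoprime (1 - s) ((2 ^ k + 1 : ℕ) : ℤ)) :
    ∃ u : F, u ≠ 0 ∧ NZ k s u = Int.gcd (-2 * s) ((2 ^ k + 1 : ℕ) : ℤ) := by
  obtain ⟨ζ, hζ⟩ := exists_zeta hF
  have hζU : ζ ∈ U F k := mem_U.mpr hζ.pow_eq_one
  have hu : ζ ^ (-2 * s) ∈ U F k := zpow_mem_U hζU _
  have hb := gcd_ge_three hk h1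
  have hP2 : (P k (-2 * (1 - s)) (ζ ^ (-2 * s))).card = 0 := by
    apply P_empty_zeta hζ
    intro hdvd
    have := gcd_eq_one_of_both hk (s := s)
      (b := Int.gcd (-2 * (1 - s)) ((2 ^ k + 1 : ℕ) : ℤ))
      (by exact_mod_cast Int.gcd_dvd_right (-2 * (1 - s)) ((2 ^ k + 1 : ℕ) : ℤ))
      hdvd (Int.gcd_dvd_left _ _)
    omega
  have hU := NZ_U hk hs hu
  rw [P_full_zeta hζ hF, hP2, add_zero] at hU
  refine ⟨ζ ^ (-2 * s), U_ne_zero hu, ?_⟩
  rw [if_neg] at hU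
  · simpa using hU
  · intro h
    rw [h, card_ker hF] at hP2
    omega

theorem exists_val_zero (hk : 1 ≤ k) (hF : Fintype.card F = 2 ^ (2 * k)) {s : ℤ}
    (hs : IsCoprime (1 - 2 * s) ((2 ^ k + 1 : ℕ) : ℤ))
    (h0 : ¬ IsCoprime s ((2 ^ k + 1 : ℕ) : ℤ))
    (h1 : ¬ IsCoprime (1 - s) ((2 ^ k + 1 : ℕ) : ℤ)) :
    ∃ u : F, u ≠ 0 ∧ NZ k s u = 0 := by
  obtain ⟨ζ, hζ⟩ := exists_zeta hF
  have hζU : ζ ∈ U F k := mem_U.mpr hζ.pow_eq_one
  have ha := gcd_ge_three hk h0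
  have hb := gcd_ge_three hk h1
  have hnot : ∀ g : ℕ, 3 ≤ g → ¬ ((g : ℤ) ∣ 1) := by
    intro g hg hd
    have : g ∣ 1 := by exact_mod_cast hd
    have := Nat.le_of_dvd one_pos this
    omega
  have hP1 : (P k (-2 * s) (ζ ^ (1 : ℤ))).card = 0 := P_empty_zeta hζ (hnot _ ha)
  have hP2 : (P k (-2 * (1 - s)) (ζ ^ (1 : ℤ))).card = 0 := P_empty_zeta hζ (hnot _ hb)
  rw [zpow_one] at hP1 hP2
  have hU := NZ_U hk hs hζU
  rw [hP1, hP2] at hU
  exact ⟨ζ, U_ne_zero hζU, by omega⟩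

theorem mem_V {s : ℤ} {u : F} (hu : u ≠ 0) {n : ℕ} (h : NZ k s u = n) : n ∈ V F k s := by
  rw [V, mem_image]
  exact ⟨u, by simp [hu], h⟩

theorem one_mem_V (hk : 1 ≤ k) (hF : Fintype.card F = 2 ^ (2 * k)) {s : ℤ}
    (hs : IsCoprime (1 - 2 * s) ((2 ^ k + 1 : ℕ) : ℤ)) (hq : 2 < 2 ^ k) :
    1 ∈ V F k s := by
  by_contra hcon
  have h1 : ∀ a ∈ (K F k).erase 0, 3 ≤ NZ k s a := by
    intro a ha
    rw [mem_erase] at ha
    have hodd := NZ_K_odd (s := s) ha.2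
    have hne : NZ k s a ≠ 1 := fun h => hcon (mem_V ha.1 h)
    obtain ⟨c, hc⟩ := hodd
    omega
  have h2 : 1 + ∑ a ∈ (K F k).erase 0, NZ k s a = 2 * 2 ^ k := by
    rw [← sum_NZ_K hk hF (F := F) s, ← add_sum_erase (K F k) _ zero_mem_K, NZ_zero hs]
  have h3 : ((K F k).erase 0).card • 3 ≤ ∑ a ∈ (K F k).erase 0, NZ k s a :=
    card_nsmul_le_sum _ _ _ h1
  rw [card_erase_of_mem zero_mem_K, card_K hk hF, smul_eq_mul] at h3
  omega

theorem caseB (hk : 1 ≤ k) (hF : Fintype.card F = 2 ^ (2 * k)) {s : ℤ}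
    (hs : IsCoprime (1 - 2 * s) ((2 ^ k + 1 : ℕ) : ℤ))
    (h0 : ¬ IsCoprime s ((2 ^ k + 1 : ℕ) : ℤ))
    (h1 : ¬ IsCoprime (1 - s) ((2 ^ k + 1 : ℕ) : ℤ)) : 5 ≤ (V F k s).card := by
  have ha := gcd_ge_three hk h0
  have hb := gcd_ge_three hk h1
  obtain ⟨u1, hu1, e1⟩ := exists_val_gcd hk hF (F := F) hs h1
  have h0' : ¬ IsCoprime (1 - (1 - s)) ((2 ^ k + 1 : ℕ) : ℤ) := by rwa [sub_sub_cancel]
  obtain ⟨u2, hu2, e2⟩ := exists_val_gcd hk hF (F := F) (coprime_symm hs) h0'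
  rw [NZ_symm] at e2
  obtain ⟨u3, hu3, e3⟩ := exists_val_zero hk hF (F := F) hs h0 h1
  have e4 := NZ_one_general hk hF (F := F) hs
  have hab : Int.gcd (-2 * s) ((2 ^ k + 1 : ℕ) : ℤ)
      ≠ Int.gcd (-2 * (1 - s)) ((2 ^ k + 1 : ℕ) : ℤ) := by
    intro h
    have := gcd_eq_one_of_both hk (s := s) (b := Int.gcd (-2 * s) ((2 ^ k + 1 : ℕ) : ℤ))
      (by exact_mod_cast Int.gcd_dvd_right (-2 * s) ((2 ^ k + 1 : ℕ) : ℤ))
      (Int.gcd_dvd_left _ _) (by rw [h]; exact Int.gcd_dvd_left _ _)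
    omega
  have hadvd : Int.gcd (-2 * s) ((2 ^ k + 1 : ℕ) : ℤ) ∣ 2 ^ k + 1 := by
    exact_mod_cast Int.gcd_dvd_right (-2 * s) ((2 ^ k + 1 : ℕ) : ℤ)
  have hbdvd : Int.gcd (-2 * (1 - s)) ((2 ^ k + 1 : ℕ) : ℤ) ∣ 2 ^ k + 1 := by
    exact_mod_cast Int.gcd_dvd_right (-2 * (1 - s)) ((2 ^ k + 1 : ℕ) : ℤ)
  have hale := Nat.le_of_dvd (by positivity) hadvd
  have hble := Nat.le_of_dvd (by positivity) hbdvd
  have e5 := one_mem_V hk hF (F := F) hs (by omega)
  set a := Int.gcd (-2 * s) ((2 ^ k + 1 : ℕ) : ℤ) with ha'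
  set b := Int.gcd (-2 * (1 - s)) ((2 ^ k + 1 : ℕ) : ℤ) with hb'
  have hsub : ({0, 1, a, b, a + b - 1} : Finset ℕ) ⊆ V F k s := by
    intro n hn
    simp only [mem_insert, mem_singleton] at hn
    rcases hn with rfl | rfl | rfl | rfl | rfl
    · exact mem_V hu3 e3
    · exact e5
    · exact mem_V hu1 e1
    · exact mem_V hu2 e2
    · exact mem_V one_ne_zero (by omega)
  have hcard : ({0, 1, a, b, a + b - 1} : Finset ℕ).card = 5 := by
    rw [card_insert_of_notMem, card_insert_of_notMem, card_insert_of_notMem,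
      card_insert_of_notMem, card_singleton]
    all_goals simp only [mem_insert, mem_singleton]; omega
  rw [← hcard]; exact card_le_card hsub

theorem sum_off_U (hk : 1 ≤ k) (hF : Fintype.card F = 2 ^ (2 * k)) {s : ℤ}
    (hs : IsCoprime (1 - 2 * s) ((2 ^ k + 1 : ℕ) : ℤ)) :
    ∑ a ∈ univ \ U F k, ((NZ k s a : ℤ) - 1) = 0 := by
  have h1 : ∑ a : F, ((NZ k s a : ℤ) - 1) = 2 ^ k := by
    rw [sum_sub_distrib, moment1 hk hF, sum_const, card_univ, hF, nsmul_eq_mul]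
    push_cast
    have : (2 : ℤ) ^ (2 * k) = 2 ^ k * 2 ^ k := by rw [← pow_add]; congr 1; ring
    rw [this]; ring
  have h2 : ∑ a ∈ U F k, ((NZ k s a : ℤ) - 1) = 2 ^ k := by
    have h3 := sum_NZ_U hk hF (F := F) hs
    rw [sum_sub_distrib, sum_const, card_U hF, nsmul_eq_mul, ← Nat.cast_sum]
    have h4 : ((∑ u ∈ U F k, NZ k s u : ℕ) : ℤ) + 1 = 2 * (2 ^ k + 1) := by exact_mod_cast h3
    push_cast at h4 ⊢
    linarith
  have h3 := sum_sdiff (f := fun a : F => (NZ k s a : ℤ) - 1) (subset_univ (U F k))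
  rw [h1, h2] at h3
  linarith

/-- if zero is never a value, every value off the unit circle is one -/
theorem off_U_of_no_zero (hk : 1 ≤ k) (hF : Fintype.card F = 2 ^ (2 * k)) {s : ℤ}
    (hs : IsCoprime (1 - 2 * s) ((2 ^ k + 1 : ℕ) : ℤ)) (h : ∀ a : F, NZ k s a ≠ 0) :
    ∀ a : F, a ∉ U F k → NZ k s a = 1 := by
  have h1 := sum_off_U hk hF (F := F) hs
  have h2 := (sum_eq_zero_iff_of_nonneg (s := univ \ U F k)
    (f := fun a : F => (NZ k s a : ℤ) - 1) (by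
      intro a _
      have := Nat.pos_of_ne_zero (h a)
      have : (1 : ℤ) ≤ NZ k s a := by exact_mod_cast this
      linarith)).mp h1
  intro a ha
  have h3 := h2 a (by rw [mem_sdiff]; exact ⟨mem_univ _, ha⟩)
  have : (NZ k s a : ℤ) = 1 := by linarith
  exact_mod_cast this

theorem C2_diag (hk : 1 ≤ k) (hF : Fintype.card F = 2 ^ (2 * k)) {s : ℤ}
    (h0 : IsCoprime s ((2 ^ k + 1 : ℕ) : ℤ))
    (h1 : IsCoprime (1 - s) ((2 ^ k + 1 : ℕ) : ℤ)) : (C2 F k s).card = 2 ^ k := by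
  rw [← card_U_erase hF, ← card_map ⟨fun x : F => (x, x), fun x y h => (Prod.ext_iff.mp h).1⟩]
  congr 1
  ext p
  rw [C2, mem_filter, mem_product, mem_map]
  constructor
  · rintro ⟨⟨hx, hy⟩, h⟩
    have hx' := (mem_erase.mp hx)
    rcases gg_eq hk hF hx hy h with h2 | h2 | h2
    · exact ⟨p.1, hx, Prod.ext rfl h2⟩
    · exact absurd (U_zpow_inj h0 hx'.2 one_mem_U (by rw [h2.1, one_zpow])) hx'.1
    · exact absurd (U_zpow_inj h1 hx'.2 one_mem_U (by rw [h2.1, one_zpow])) hx'.1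
  · rintro ⟨x, hx, rfl⟩
    exact ⟨⟨hx, hx⟩, rfl⟩

theorem C2_le (hk : 1 ≤ k) (hF : Fintype.card F = 2 ^ (2 * k)) {s : ℤ} {g : ℕ}
    (hg : Int.gcd (-2 * s) ((2 ^ k + 1 : ℕ) : ℤ) = g + 1)
    (h1 : IsCoprime (1 - s) ((2 ^ k + 1 : ℕ) : ℤ)) :
    (C2 F k s).card ≤ 2 ^ k + (g * g - g) := by
  have hsub : C2 F k s ⊆ ((U F k).erase 1).map
      ⟨fun x : F => (x, x), fun x y h => (Prod.ext_iff.mp h).1⟩
      ∪ ((P k (-2 * s) (1 : F)).erase 1).offDiag := by
    intro p hp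
    rw [C2, mem_filter, mem_product] at hp
    obtain ⟨⟨hx, hy⟩, h⟩ := hp
    have hx' := (mem_erase.mp hx)
    have hy' := (mem_erase.mp hy)
    rw [mem_union, mem_map, mem_offDiag]
    by_cases hxy : p.1 = p.2
    · left; exact ⟨p.1, hx, Prod.ext rfl hxy⟩
    · right
      rcases gg_eq hk hF hx hy h with h2 | h2 | h2
      · exact absurd h2 hxy
      · refine ⟨?_, ?_, hxy⟩
        · rw [mem_erase, P, mem_filter]
          refine ⟨hx'.1, hx'.2, ?_⟩
          rw [mul_comm, zpow_mul, h2.1, one_zpow]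
        · rw [mem_erase, P, mem_filter]
          refine ⟨hy'.1, hy'.2, ?_⟩
          rw [mul_comm, zpow_mul, h2.2, one_zpow]
      · exact absurd (U_zpow_inj h1 hx'.2 one_mem_U (by rw [h2.1, one_zpow])) hx'.1
  refine le_trans (card_le_card hsub) (le_trans (card_union_le _ _) ?_)
  rw [card_map, card_U_erase hF, offDiag_card, card_erase_of_mem, card_ker hF, hg,
    Nat.add_sub_cancel]
  rw [P, mem_filter]
  exact ⟨one_mem_U, one_zpow _⟩

theorem sum_sq (hk : 1 ≤ k) (hF : Fintype.card F = 2 ^ (2 * k)) (s : ℤ) :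
    ∑ a : F, ((NZ k s a : ℤ) - 1) ^ 2 = 2 ^ k * 2 ^ k := by
  have h1 := moment1 hk hF (F := F) s
  have h2 := moment2 hF (F := F) s
  have h3 : ∑ a : F, ((NZ k s a : ℤ) - 1) ^ 2
      = ∑ a : F, (NZ k s a : ℤ) * ((NZ k s a : ℤ) - 1)
        - (∑ a : F, (NZ k s a : ℤ) - ∑ a : F, (1 : ℤ)) := by
    rw [← sum_sub_distrib, ← sum_sub_distrib]
    refine sum_congr rfl fun a _ => ?_
    ring
  rw [h3, h1, h2, sum_const, card_univ, hF, nsmul_eq_mul]
  push_cast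
  have : (2 : ℤ) ^ (2 * k) = 2 ^ k * 2 ^ k := by rw [← pow_add]; congr 1; ring
  rw [this]; ring

theorem caseA (hk : 1 ≤ k) (hF : Fintype.card F = 2 ^ (2 * k)) {s : ℤ}
    (hs : IsCoprime (1 - 2 * s) ((2 ^ k + 1 : ℕ) : ℤ))
    (h0 : ¬ IsCoprime s ((2 ^ k + 1 : ℕ) : ℤ))
    (h1 : IsCoprime (1 - s) ((2 ^ k + 1 : ℕ) : ℤ)) : (V F k s).card ≠ 4 := by
  intro hV
  have hg3 := gcd_ge_three hk h0
  set g := Int.gcd (-2 * s) ((2 ^ k + 1 : ℕ) : ℤ) with hg
  have hgn : g ∣ 2 ^ k + 1 := by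
    exact_mod_cast Int.gcd_dvd_right (-2 * s) ((2 ^ k + 1 : ℕ) : ℤ)
  have hgle := Nat.le_of_dvd (by positivity) hgn
  have h1' : IsCoprime (-2 * (1 - s)) ((2 ^ k + 1 : ℕ) : ℤ) := by
    have h2 : IsCoprime (-2 : ℤ) ((2 ^ k + 1 : ℕ) : ℤ) := (isCoprime_two hk).neg_left
    exact h2.mul_left h1
  have hU : ∀ u ∈ U F k, NZ k s u + (if u = 1 then 1 else 0) = (P k (-2 * s) u).card + 1 := by
    intro u hu
    rw [NZ_U hk hs hu, card_P_coprime h1' hu]
  have hN1 : NZ k s (1 : F) = g := by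
    have := hU 1 one_mem_U
    rw [if_pos rfl, card_ker hF] at this
    omega
  have hUval : ∀ u ∈ U F k, NZ k s u = 1 ∨ NZ k s u = g ∨ NZ k s u = g + 1 := by
    intro u hu
    by_cases hu1 : u = 1
    · right; left; rw [hu1]; exact hN1
    · have := hU u hu
      rw [if_neg hu1] at this
      rcases card_P (k := k) (-2 * s) (u := u) with h | h
      · left; omega
      · right; right; rw [card_ker hF] at h; omega
  obtain ⟨ζ, hζ⟩ := exists_zeta hF
  have hζU : ζ ∈ U F k := mem_U.mpr hζ.pow_eq_one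
  by_cases hgfull : g = 2 ^ k + 1
  · -- two values only
    have h2 := sum_sq hk hF (F := F) s
    rw [← add_sum_erase univ _ (mem_univ (1 : F)), hN1, hgfull] at h2
    have h3 : ∑ a ∈ univ.erase (1 : F), ((NZ k s a : ℤ) - 1) ^ 2 = 0 := by
      push_cast at h2
      have : ((2 : ℤ) ^ k + 1 - 1) ^ 2 = 2 ^ k * 2 ^ k := by ring
      rw [this] at h2
      linarith
    have h4 := (sum_eq_zero_iff_of_nonneg (fun a _ => sq_nonneg _)).mp h3
    have h5 : V F k s ⊆ {1, 2 ^ k + 1} := by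
      intro n hn
      rw [V, mem_image] at hn
      obtain ⟨a, _, rfl⟩ := hn
      rw [mem_insert, mem_singleton]
      by_cases ha1 : a = 1
      · right; rw [ha1, hN1, hgfull]
      · left
        have h6 := h4 a (mem_erase.mpr ⟨ha1, mem_univ _⟩)
        have h7 : (NZ k s a : ℤ) - 1 = 0 := by simpa using h6
        have h8 : (NZ k s a : ℤ) = 1 := by linarith
        exact_mod_cast h8
    have h6 := card_le_card h5
    have h7 : ({1, 2 ^ k + 1} : Finset ℕ).card ≤ 2 := card_le_two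
    omega
  · -- the point with value g + 1
    have hu1 : NZ k s (ζ ^ (-2 * s)) = g + 1 := by
      have h2 := hU (ζ ^ (-2 * s)) (zpow_mem_U hζU _)
      rw [P_full_zeta hζ hF, if_neg] at h2
      · omega
      · intro h3
        rw [hζ.zpow_eq_one_iff_dvd] at h3
        apply hgfull
        apply Nat.dvd_antisymm hgn
        have h4 : ((2 ^ k + 1 : ℕ) : ℤ) ∣ (g : ℤ) := Int.dvd_coe_gcd h3 dvd_rfl
        exact_mod_cast h4
    have hζ1 : NZ k s ζ = 1 := by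
      have h2 := hU ζ hζU
      have h3 : (P k (-2 * s) (ζ ^ (1 : ℤ))).card = 0 := by
        apply P_empty_zeta hζ
        intro hd
        have : g ∣ 1 := by exact_mod_cast hd
        have := Nat.le_of_dvd one_pos this
        omega
      rw [zpow_one] at h3
      rw [h3, if_neg] at h2
      · omega
      · intro h4
        have : (2 ^ k + 1) ∣ 1 := by
          rw [← hζ.pow_eq_one_iff_dvd, h4, one_pow]
        have := Nat.le_of_dvd one_pos this
        have : 0 < 2 ^ k := by positivity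
        omega
    have hzero : ∃ b : F, NZ k s b = 0 := by
      by_contra hcon
      push Not at hcon
      have h2 := off_U_of_no_zero hk hF hs hcon
      have h5 : V F k s ⊆ {1, g, g + 1} := by
        intro n hn
        rw [V, mem_image] at hn
        obtain ⟨a, _, rfl⟩ := hn
        simp only [mem_insert, mem_singleton]
        by_cases ha : a ∈ U F k
        · exact hUval a ha
        · left; exact h2 a ha
      have h6 := card_le_card h5
      have h7 : ({1, g, g + 1} : Finset ℕ).card ≤ 3 := card_le_three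
      omega
    obtain ⟨b, hb⟩ := hzero
    have hb0 : b ≠ 0 := by
      rintro rfl
      rw [NZ_zero hs] at hb
      omega
    have hsub : ({0, 1, g, g + 1} : Finset ℕ) ⊆ V F k s := by
      intro n hn
      simp only [mem_insert, mem_singleton] at hn
      rcases hn with rfl | rfl | rfl | rfl
      · exact mem_V hb0 hb
      · exact mem_V (U_ne_zero hζU) hζ1
      · exact mem_V one_ne_zero hN1
      · exact mem_V (U_ne_zero (zpow_mem_U hζU _)) hu1
    have hcard : ({0, 1, g, g + 1} : Finset ℕ).card = 4 := by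
      rw [card_insert_of_notMem, card_insert_of_notMem, card_insert_of_notMem, card_singleton]
      all_goals simp only [mem_insert, mem_singleton]; omega
    have hVeq : V F k s = {0, 1, g, g + 1} :=
      (eq_of_subset_of_card_le hsub (by rw [hV, hcard])).symm
    have hall : ∀ a : F, NZ k s a = 0 ∨ NZ k s a = 1 ∨ NZ k s a = g ∨ NZ k s a = g + 1 := by
      intro a
      by_cases ha : a = 0
      · right; left; rw [ha, NZ_zero hs]
      · have : NZ k s a ∈ V F k s := mem_V ha rfl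
        rw [hVeq] at this
        simpa using this
    obtain ⟨τ, hτ⟩ : ∃ τ : ℕ, g = τ + 1 := ⟨g - 1, by omega⟩
    have hC := C2_le hk hF (F := F) (s := s) (g := τ) (by rw [← hg, hτ]) h1
    have hC' : ((C2 F k s).card : ℤ) ≤ 2 ^ k + (τ * τ - τ) := by
      have h2 : τ ≤ τ * τ := Nat.le_mul_self τ
      have h3 : ((C2 F k s).card : ℤ) ≤ ((2 ^ k + (τ * τ - τ) : ℕ) : ℤ) := by exact_mod_cast hC
      rw [Nat.cast_add, Nat.cast_sub h2] at h3
      push_cast at h3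
      exact h3
    have hm2 := moment2 hF (F := F) s
    have hm3 := moment3 hk hF (F := F) hs
    have hsum : ∑ a : F, (NZ k s a : ℤ) * ((NZ k s a : ℤ) - 1) * ((NZ k s a : ℤ) - g)
        = (2 : ℤ) ^ k * 2 ^ k + 2 ^ k * ((C2 F k s).card : ℤ)
          - τ * (2 ^ k * (2 ^ k + 1)) := by
      rw [← hm3, ← hm2, mul_sum, ← sum_sub_distrib]
      refine sum_congr rfl fun a _ => ?_
      rw [hτ]; push_cast; ring
    have hle : ∑ a : F, (NZ k s a : ℤ) * ((NZ k s a : ℤ) - 1) * ((NZ k s a : ℤ) - g) ≤ 0 := by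
      rw [hsum]
      have hq : (0 : ℤ) < 2 ^ k := by positivity
      have h2 : (2 : ℤ) ^ k * ((C2 F k s).card : ℤ) ≤ 2 ^ k * (2 ^ k + (τ * τ - τ)) :=
        mul_le_mul_of_nonneg_left hC' hq.le
      have h3 : (2 : ℤ) ^ k * 2 ^ k + 2 ^ k * (2 ^ k + (τ * τ - τ)) - τ * (2 ^ k * (2 ^ k + 1))
          = - (2 ^ k * ((τ - 2) * (2 ^ k - τ))) := by ring
      have h4 : (0 : ℤ) ≤ τ - 2 := by
        have : 2 ≤ τ := by omega
        have : (2 : ℤ) ≤ τ := by exact_mod_cast this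
        linarith
      have h5 : (0 : ℤ) ≤ 2 ^ k - τ := by
        have : τ ≤ 2 ^ k := by omega
        have : (τ : ℤ) ≤ 2 ^ k := by exact_mod_cast this
        linarith
      have h6 : (0 : ℤ) ≤ 2 ^ k * ((τ - 2) * (2 ^ k - τ)) := by positivity
      linarith
    have hpos : 0 < ∑ a : F, (NZ k s a : ℤ) * ((NZ k s a : ℤ) - 1) * ((NZ k s a : ℤ) - g) := by
      apply sum_pos'
      · intro a _
        rcases hall a with h | h | h | h
        · rw [h]; simp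
        · rw [h]; simp
        · rw [h]; simp
        · rw [h]
          have : (0 : ℤ) ≤ g := by positivity
          push_cast
          have e : ((g : ℤ) + 1) * (g + 1 - 1) * (g + 1 - g) = (g + 1) * g := by ring
          rw [e]; positivity
      · refine ⟨ζ ^ (-2 * s), mem_univ _, ?_⟩
        rw [hu1]
        have h3 : (3 : ℤ) ≤ g := by exact_mod_cast hg3
        push_cast
        have e : ((g : ℤ) + 1) * (g + 1 - 1) * (g + 1 - g) = (g + 1) * g := by ring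
        rw [e]; positivity
    linarith

theorem coprime_of_four (hk : 1 ≤ k) (hF : Fintype.card F = 2 ^ (2 * k)) {s : ℤ}
    (hs : IsCoprime (1 - 2 * s) ((2 ^ k + 1 : ℕ) : ℤ)) (hV : (V F k s).card = 4) :
    IsCoprime s ((2 ^ k + 1 : ℕ) : ℤ) ∧ IsCoprime (1 - s) ((2 ^ k + 1 : ℕ) : ℤ) := by
  by_cases h0 : IsCoprime s ((2 ^ k + 1 : ℕ) : ℤ)
  · by_cases h1 : IsCoprime (1 - s) ((2 ^ k + 1 : ℕ) : ℤ)
    · exact ⟨h0, h1⟩
    · exfalso
      have hV' : V F k (1 - s) = V F k s := by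
        rw [V, V]
        apply image_congr
        intro a _
        exact NZ_symm s a
      have h0' : IsCoprime (1 - (1 - s)) ((2 ^ k + 1 : ℕ) : ℤ) := by rwa [sub_sub_cancel]
      exact caseA hk hF (F := F) (coprime_symm hs) h1 h0' (by rw [hV', hV])
  · exfalso
    by_cases h1 : IsCoprime (1 - s) ((2 ^ k + 1 : ℕ) : ℤ)
    · exact caseA hk hF hs h0 h1 hV
    · have := caseB hk hF (F := F) hs h0 h1
      omega

end Pool.Agent.Helper992
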