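import Pool.Agent.Helper992.Basic

set_option autoImplicit false
set_option linter.unusedSectionVars false
open scoped Classical

namespace Pool.Agent.Helper992

open Finset

variable {F : Type*} [Field F] [Fintype F]

/-- The points of the unit circle solving the Niho equation. -/
noncomputable def Sol (k d : ℕ) (a : F) : Finset F :=
  (U F k).filter (fun z => T k (a * z + z ^ d) = 0)

/-- The number of solutions of the Niho equation. -/
noncomputable def N (k d : ℕ) (a : F) : ℕ := (Sol k d a).card

/-- The absolute trace, as a sum. -/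
noncomputable def tr (k : ℕ) (x : F) : F := ∑ i ∈ range (2 * k), x ^ (2 ^ i)

/-- The additive character attached to the absolute trace. -/
noncomputable def chi (k : ℕ) (x : F) : ℤ := if tr k x = 0 then 1 else -1

/-- The Walsh sum. -/
noncomputable def W (k d : ℕ) (a : F) : ℤ := ∑ x : F, chi k (a * x + x ^ d)

variable [CharP F 2] {k : ℕ}

theorem tr_add (x y : F) : tr k (x + y) = tr k x + tr k y := by
  rw [tr, tr, tr, ← sum_add_distrib]
  refine sum_congr rfl fun i _ => ?_
  exact add_pow_q x y

theorem tr_zero : tr k (0 : F) = 0 := by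
  rw [tr]
  exact sum_eq_zero fun i _ => zero_pow (by positivity)

theorem tr_zero_or_one (hF : Fintype.card F = 2 ^ (2 * k)) (x : F) :
    tr k x = 0 ∨ tr k x = 1 := by
  have h1 : (tr k x) ^ 2 = tr k x := by
    have h2 : (tr k x) ^ (2 ^ 1) = ∑ i ∈ range (2 * k), x ^ (2 ^ (i + 1)) := by
      rw [tr, sum_pow_q]
      refine sum_congr rfl fun i _ => ?_
      rw [← pow_mul, ← pow_add]
    have h3 := sum_range_succ' (fun i => x ^ (2 ^ i)) (2 * k)
    have h4 := sum_range_succ (fun i => x ^ (2 ^ i)) (2 * k)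
    have h5 : x ^ (2 ^ (2 * k)) = x := by rw [← hF]; exact FiniteField.pow_card x
    rw [pow_one] at h2
    rw [h2]
    simp only [h5] at h4
    simp only [pow_zero, pow_one] at h3
    have h6 := h3.symm.trans h4
    exact add_right_cancel h6
  have h2 : tr k x * (tr k x - 1) = 0 := by
    have : tr k x * (tr k x - 1) = (tr k x) ^ 2 - tr k x := by ring
    rw [this, h1, sub_self]
  rcases mul_eq_zero.mp h2 with h | h
  · left; exact h
  · right; exact sub_eq_zero.mp h

theorem chi_add (hF : Fintype.card F = 2 ^ (2 * k)) (x y : F) :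
    chi k (x + y) = chi k x * chi k y := by
  unfold chi
  rw [tr_add]
  rcases tr_zero_or_one hF x with hx | hx <;> rcases tr_zero_or_one hF y with hy | hy <;>
    simp [hx, hy, CharTwo.add_self_eq_zero]

theorem tr_split (x : F) :
    tr k x = ∑ i ∈ range k, (T k x) ^ (2 ^ i) := by
  rw [tr, two_mul, sum_range_add, ← sum_add_distrib]
  refine sum_congr rfl fun i _ => ?_
  rw [T, add_pow_q, pow_add, pow_mul]

theorem exists_tr_ne (hk : 1 ≤ k) (hF : Fintype.card F = 2 ^ (2 * k)) :
    ∃ x ∈ K F k, ∑ i ∈ range k, x ^ (2 ^ i) ≠ 0 := by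
  by_contra hcon
  push Not at hcon
  let P : Polynomial F := ∑ i ∈ range k, Polynomial.X ^ (2 ^ i)
  have hPdeg : P.natDegree ≤ 2 ^ (k - 1) := by
    apply Polynomial.natDegree_sum_le_of_forall_le
    intro i hi
    rw [Polynomial.natDegree_X_pow]
    apply Nat.pow_le_pow_right (by norm_num)
    have := mem_range.mp hi
    omega
  have hP0 : P = 0 := by
    apply Polynomial.eq_zero_of_natDegree_lt_card_of_eval_eq_zero' P (K F k)
    · intro x hx
      have := hcon x hx
      simp only [P, Polynomial.eval_finsetSum, Polynomial.eval_pow, Polynomial.eval_X]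
      exact this
    · rw [card_K hk hF]
      refine lt_of_le_of_lt hPdeg ?_
      exact Nat.pow_lt_pow_right (by norm_num) (by omega)
  have hc : P.coeff 1 = 1 := by
    simp only [P, Polynomial.finsetSum_coeff, Polynomial.coeff_X_pow]
    rw [sum_eq_single 0]
    · simp
    · intro i _ hi
      rw [if_neg]
      intro h
      have : 1 < 2 ^ i := Nat.one_lt_two_pow hi
      omega
    · intro h
      exact absurd (mem_range.mpr (by omega)) h
  rw [hP0] at hc
  simp at hc

theorem sum_chi_K (hk : 1 ≤ k) (hF : Fintype.card F = 2 ^ (2 * k)) (b : F) :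
    ∑ y ∈ K F k, chi k (y * b) = if T k b = 0 then 2 ^ k else 0 := by
  split_ifs with hb
  · have h1 : ∀ y ∈ K F k, chi k (y * b) = 1 := by
      intro y hy
      rw [chi, if_pos]
      rw [tr_split, T_K_mul hy, hb, mul_zero]
      exact sum_eq_zero fun i _ => zero_pow (by positivity)
    rw [sum_congr rfl h1, sum_const, card_K hk hF]
    simp
  · obtain ⟨x, hx, hxne⟩ := exists_tr_ne hk hF (F := F)
    have hy0 : x / T k b ∈ K F k := div_mem_K hx (T_mem_K hF b)
    set y0 := x / T k b with hy0def
    have hne : chi k (y0 * b) = -1 := by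
      rw [chi, if_neg]
      rw [tr_split, T_K_mul hy0, hy0def, div_mul_cancel₀ _ hb]
      exact hxne
    have h2 : ∑ y ∈ K F k, chi k (y * b) = ∑ y ∈ K F k, chi k ((y + y0) * b) := by
      refine (sum_nbij' (fun y => y + y0) (fun y => y + y0) ?_ ?_ ?_ ?_ ?_).symm
      · intro y hy; exact add_mem_K hy hy0
      · intro y hy; exact add_mem_K hy hy0
      · intro y _; show y + y0 + y0 = y
        rw [add_assoc, CharTwo.add_self_eq_zero, add_zero]
      · intro y _; show y + y0 + y0 = y
        rw [add_assoc, CharTwo.add_self_eq_zero, add_zero]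
      · intro y _; rfl
    have h3 : ∑ y ∈ K F k, chi k ((y + y0) * b) = - ∑ y ∈ K F k, chi k (y * b) := by
      rw [← sum_neg_distrib]
      refine sum_congr rfl fun y _ => ?_
      rw [add_mul, chi_add hF, hne]; ring
    rw [h3] at h2
    omega

theorem polar (hk : 1 ≤ k) (hF : Fintype.card F = 2 ^ (2 * k)) {R : Type*} [AddCommMonoid R]
    (f : F → R) :
    ∑ x : F, f x = f 0 + ∑ z ∈ U F k, ∑ y ∈ (K F k).erase 0, f (y * z) := by
  have h1 : ((U F k) ×ˢ ((K F k).erase 0)).image (fun p : F × F => p.2 * p.1)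
      = univ.erase (0 : F) := by
    have hinj : Set.InjOn (fun p : F × F => p.2 * p.1)
        ((U F k) ×ˢ ((K F k).erase 0) : Finset (F × F)) := by
      intro p hp p' hp' h
      simp only [coe_product, Set.mem_prod, mem_coe, mem_erase] at hp hp'
      obtain ⟨hz, hy0, hy⟩ := hp
      obtain ⟨hz', hy0', hy'⟩ := hp'
      simp only at h
      have hz0 := U_ne_zero hz
      have hz0' := U_ne_zero hz'
      have h3 : p.2 / p'.2 = p'.1 * (p.1)⁻¹ := by
        field_simp
        rw [h]
      have h4 : p.2 / p'.2 = 1 := by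
        apply eq_one_of_U_K (k := k)
        · rw [h3]; exact mul_mem_U hz' (inv_mem_U hz)
        · exact div_mem_K hy hy'
      have h5 : p.2 = p'.2 := by
        rw [div_eq_one_iff_eq hy0'] at h4; exact h4
      have h6 : p.1 = p'.1 := by
        rw [h5] at h; exact mul_left_cancel₀ hy0' h
      exact Prod.ext h6 h5
    apply eq_of_subset_of_card_le
    · intro x hx
      rw [mem_image] at hx
      obtain ⟨p, hp, rfl⟩ := hx
      rw [mem_product, mem_erase] at hp
      rw [mem_erase]
      exact ⟨mul_ne_zero hp.2.1 (U_ne_zero hp.1), mem_univ _⟩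
    · rw [card_image_of_injOn hinj, card_product, card_erase_of_mem (mem_univ _),
        card_erase_of_mem zero_mem_K, card_K hk hF, card_U hF, card_univ, card_sub_one hF]
  have h2 : ∑ x : F, f x = f 0 + ∑ x ∈ univ.erase (0 : F), f x :=
    (add_sum_erase univ f (mem_univ 0)).symm
  rw [h2, ← h1, sum_image, sum_product]
  intro p hp p' hp' h
  simp only [coe_product, Set.mem_prod, mem_coe, mem_erase] at hp hp'
  obtain ⟨hz, hy0, hy⟩ := hp
  obtain ⟨hz', hy0', hy'⟩ := hp'
  simp only at h
  have hz0 := U_ne_zero hz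
  have hz0' := U_ne_zero hz'
  have h3 : p.2 / p'.2 = p'.1 * (p.1)⁻¹ := by
    field_simp
    rw [h]
  have h4 : p.2 / p'.2 = 1 := by
    apply eq_one_of_U_K (k := k)
    · rw [h3]; exact mul_mem_U hz' (inv_mem_U hz)
    · exact div_mem_K hy hy'
  have h5 : p.2 = p'.2 := by
    rw [div_eq_one_iff_eq hy0'] at h4; exact h4
  have h6 : p.1 = p'.1 := by
    rw [h5] at h; exact mul_left_cancel₀ hy0' h
  exact Prod.ext h6 h5

theorem K_pow_niho {s : ℕ} {y : F} (hy : y ∈ K F k) (hy0 : y ≠ 0) :
    y ^ (s * (2 ^ k - 1) + 1) = y := by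
  have h1 : y ^ (2 ^ k - 1) = 1 := by
    have h2 : y ^ (2 ^ k - 1) * y = 1 * y := by
      rw [← pow_succ, Nat.sub_add_cancel Nat.one_le_two_pow, one_mul, mem_K.mp hy]
    exact mul_right_cancel₀ hy0 h2
  rw [pow_succ, mul_comm s, pow_mul, h1, one_pow, one_mul]

theorem walsh (hk : 1 ≤ k) (hF : Fintype.card F = 2 ^ (2 * k)) (s : ℕ) (a : F) :
    W k (s * (2 ^ k - 1) + 1) a = 2 ^ k * ((N k (s * (2 ^ k - 1) + 1) a : ℤ) - 1) := by
  set d := s * (2 ^ k - 1) + 1 with hd
  rw [W, polar hk hF]
  have h0 : chi k (a * (0 : F) + 0 ^ d) = 1 := by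
    rw [mul_zero, zero_pow (by omega), add_zero, chi, if_pos tr_zero]
  rw [h0]
  have h1 : ∀ z ∈ U F k, ∑ y ∈ (K F k).erase 0, chi k (a * (y * z) + (y * z) ^ d)
      = (if T k (a * z + z ^ d) = 0 then 2 ^ k else 0) - 1 := by
    intro z _
    have h2 : ∀ y ∈ (K F k).erase 0, chi k (a * (y * z) + (y * z) ^ d)
        = chi k (y * (a * z + z ^ d)) := by
      intro y hy
      rw [mem_erase] at hy
      rw [mul_pow, hd, K_pow_niho hy.2 hy.1]
      congr 1; ring
    rw [sum_congr rfl h2]
    have h3 := add_sum_erase (K F k) (fun y => chi k (y * (a * z + z ^ d))) zero_mem_K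
    rw [sum_chi_K hk hF] at h3
    have h4 : chi k (0 * (a * z + z ^ d)) = 1 := by
      rw [zero_mul, chi, if_pos tr_zero]
    rw [← h3, h4]; ring
  rw [sum_congr rfl h1, sum_sub_distrib, sum_const, card_U hF, ← sum_filter, sum_const]
  have h5 : (filter (fun z => T k (a * z + z ^ d) = 0) (U F k)).card = N k d a := rfl
  rw [h5]
  simp only [nsmul_eq_mul]
  push_cast
  ring

end Pool.Agent.Helper992
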