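import Pool.Agent.Helper992.YOne

set_option autoImplicit false
set_option linter.unusedSectionVars false
open scoped Classical

namespace Pool.Agent.Helper992

open Finset MvPolynomial Geo

variable {F : Type*} [Field F] [CharP F 2] {K : Finset F} {k j : ℕ} {f : F → F}

namespace Geo

theorem key1 (G : Geo F K k j f) {δ : ℕ} {P Q Kp a b c : MvPolynomial (Fin 2) F}
    (H : Mini K k f δ P Q Kp) (L : Lv δ (2 ^ j) P Q a b c) {v y : F} (hy : y ∈ K)
    (hv : f y + y = v) :
    y * (Polynomial.eval v (ro 1 (pderiv 0 a)) + v ^ (2 ^ (k - j)) *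
      Polynomial.eval v (ro 1 (pderiv 0 c))) + y ^ (2 ^ (k - j)) *
      (Polynomial.eval v (ro 1 (pderiv 1 b)) + Polynomial.eval v (ro 1 (pderiv 1 c)))
      + (Polynomial.eval v (ro 1 (pderiv 1 a)) + v ^ (2 ^ (k - j)) *
      Polynomial.eval v (ro 1 (pderiv 1 c))) = 0 := by
  have hjk := G.lt
  have hexp : ∀ z ∈ K, (z ^ (2 ^ (k - j))) ^ (2 ^ j) = z := by
    intro z hz
    rw [← pow_mul, ← pow_add, show k - j + j = k by omega]
    exact (G.memK z).mp hz
  have h1 := G.E4 H L hy (hexp y hy) (hexp (f y) (G.fK y hy))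
  have h2 := congrArg Polynomial.derivative h1
  rw [map_add, Polynomial.derivative_mul, Polynomial.derivative_mul, Polynomial.derivative_C,
    Polynomial.derivative_C, zero_mul, zero_add, zero_mul, zero_add, rl_deriv, rl_deriv,
    rl_deriv] at h2
  have h3 := congrArg (Polynomial.eval 1) h2
  simp only [Polynomial.eval_add, Polynomial.eval_mul, Polynomial.eval_C, eval_rl, mul_one] at h3
  have hyv : y + f y = v := by rw [add_comm]; exact hv
  rw [hyv] at h3
  have hbc : ro 1 (pderiv 0 b) = ro 1 (pderiv 0 c) := by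
    rw [← ro_deriv, ← ro_deriv, G.F3 H L]
  rw [hbc] at h3
  have hw : (f y) ^ (2 ^ (k - j)) = y ^ (2 ^ (k - j)) + v ^ (2 ^ (k - j)) := by
    rw [← hv, add_pow_char_pow]
    have : y ^ 2 ^ (k - j) + (f y ^ 2 ^ (k - j) + y ^ 2 ^ (k - j))
      = f y ^ 2 ^ (k - j) + (y ^ 2 ^ (k - j) + y ^ 2 ^ (k - j)) := by ring
    rw [this, CharTwo.add_self_eq_zero, add_zero]
  rw [hw] at h3
  set A0 := Polynomial.eval v (ro 1 (pderiv 0 a))
  set A1 := Polynomial.eval v (ro 1 (pderiv 1 a))
  set C0 := Polynomial.eval v (ro 1 (pderiv 0 c))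
  set C1 := Polynomial.eval v (ro 1 (pderiv 1 c))
  set B1 := Polynomial.eval v (ro 1 (pderiv 1 b))
  set z := y ^ (2 ^ (k - j))
  set V := v ^ (2 ^ (k - j))
  have e : y * (A0 + V * C0) + z * (B1 + C1) + (A1 + V * C1)
      = ((y * A0 + A1) + (z * (y * C0 + B1) + (z + V) * (y * C0 + C1)))
        - (z * y * C0 + z * y * C0) := by ring
  rw [e, CharTwo.add_self_eq_zero, sub_zero, h3, CharTwo.add_self_eq_zero]

theorem F6 (G : Geo F K k j f) {δ : ℕ} {P Q Kp a b c : MvPolynomial (Fin 2) F}
    (H : Mini K k f δ P Q Kp) (L : Lv δ (2 ^ j) P Q a b c) {x : F} (hx : x ∈ K)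
    (hω : Polynomial.eval (f x + x) (Polynomial.derivative (ro 1 a) * ro 1 c
      + ro 1 a * Polynomial.derivative (ro 1 c)) ≠ 0) {u : F} (hu : u ^ (2 ^ j) = u) :
    f (x + u) = f x + u := by
  have hjk := G.lt
  obtain ⟨v, hv⟩ : ∃ v, f x + x = v := ⟨_, rfl⟩
  have hvV : v ∈ VV K f := by
    rw [VV, mem_image]; exact ⟨x, hx, hv⟩
  rw [hv] at hω
  set l1 := Polynomial.eval v (ro 1 (pderiv 0 a)) + v ^ (2 ^ (k - j)) *
      Polynomial.eval v (ro 1 (pderiv 0 c)) with hl1
  set l4 := Polynomial.eval v (ro 1 (pderiv 1 b)) + Polynomial.eval v (ro 1 (pderiv 1 c)) with hl4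
  set l2 := Polynomial.eval v (ro 1 (pderiv 1 a)) + v ^ (2 ^ (k - j)) *
      Polynomial.eval v (ro 1 (pderiv 1 c)) with hl2
  have hkey : ∀ y ∈ K, f y + y = v → y * l1 + y ^ (2 ^ (k - j)) * l4 + l2 = 0 :=
    fun y hy hyv => G.key1 H L hy hyv
  have h4 := G.F4 H L hvV
  rw [Polynomial.eval_add, Polynomial.eval_mul, Polynomial.eval_pow, Polynomial.eval_X] at h4
  have h4' := CharTwo.add_eq_zero.mp h4
  have hl1ne : l1 ≠ 0 := by
    intro h0
    apply hω
    rw [Polynomial.eval_add, Polynomial.eval_mul, Polynomial.eval_mul, ← h4', ro_deriv, ro_deriv]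
    have : Polynomial.eval v (ro 1 (pderiv 0 a)) * Polynomial.eval v (ro 1 c)
        + v ^ 2 ^ (k - j) * Polynomial.eval v (ro 1 c) * Polynomial.eval v (ro 1 (pderiv 0 c))
        = Polynomial.eval v (ro 1 c) * l1 := by rw [hl1]; ring
    rw [this, h0, mul_zero]
  have hx1 : x + 1 ∈ K := G.addK hx G.oneK
  have hfx1 : f (x + 1) + (x + 1) = v := by
    rw [G.one x hx, ← hv]
    have : f x + 1 + (x + 1) = f x + x + (1 + 1) := by ring
    rw [this, CharTwo.add_self_eq_zero, add_zero]
  have h5 := hkey x hx hv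
  have h6 := hkey (x + 1) hx1 hfx1
  rw [add_pow_char_pow, one_pow] at h6
  have h7 : l1 + l4 = 0 := by
    have e : l1 + l4 = ((x + 1) * l1 + (x ^ 2 ^ (k - j) + 1) * l4 + l2)
        - (x * l1 + x ^ 2 ^ (k - j) * l4 + l2) := by ring
    rw [e, h5, h6, sub_zero]
  have h8 : l4 = l1 := (CharTwo.add_eq_zero.mp h7).symm
  have h9 : ∀ y ∈ K, f y + y = v → (y + x) ^ (2 ^ (k - j)) = y + x := by
    intro y hy hyv
    have h10 := hkey y hy hyv
    rw [h8] at h10 h5
    have h11 : l1 * ((y + x) + (y + x) ^ (2 ^ (k - j))) = 0 := by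
      rw [add_pow_char_pow]
      have e : l1 * (y + x + (y ^ 2 ^ (k - j) + x ^ 2 ^ (k - j)))
          = (y * l1 + y ^ 2 ^ (k - j) * l1 + l2) + (x * l1 + x ^ 2 ^ (k - j) * l1 + l2)
            - (l2 + l2) := by ring
      rw [e, h10, h5, CharTwo.add_self_eq_zero, CharTwo.add_self_eq_zero, sub_zero]
    exact (CharTwo.add_eq_zero.mp ((mul_eq_zero.mp h11).resolve_left hl1ne)).symm
  have h10 : ∀ y ∈ K, f y + y = v → (y + x) ^ (2 ^ j) = y + x := by
    intro y hy hyv
    have h11 := h9 y hy hyv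
    have h12 := (G.memK (y + x)).mp (G.addK hy hx)
    rw [show k = k - j + j by omega, pow_add, pow_mul, h11] at h12
    exact h12
  set pol : Polynomial F := Polynomial.X ^ (2 ^ j) - Polynomial.X with hpol
  have h8' := G.eight
  have hpd : pol.natDegree = 2 ^ j := by
    rw [hpol]
    apply Polynomial.natDegree_eq_of_degree_eq_some
    rw [Polynomial.degree_sub_eq_left_of_degree_lt]
    · rw [Polynomial.degree_X_pow]
    · rw [Polynomial.degree_X_pow, Polynomial.degree_X]
      exact_mod_cast (by omega : 1 < 2 ^ j)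
  have hpne : pol ≠ 0 := by
    intro h
    rw [h, Polynomial.natDegree_zero] at hpd
    omega
  have hroot : ∀ t : F, t ∈ pol.roots.toFinset ↔ t ^ (2 ^ j) = t := by
    intro t
    rw [Multiset.mem_toFinset, Polynomial.mem_roots hpne, Polynomial.IsRoot.def, hpol,
      Polynomial.eval_sub, Polynomial.eval_pow, Polynomial.eval_X, sub_eq_zero]
  have hcard : pol.roots.toFinset.card ≤ 2 ^ j := by
    refine (Multiset.toFinset_card_le _).trans ?_
    rw [← hpd]
    exact Polynomial.card_roots' _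
  have himg : (K.filter (fun y => f y + y = v)).image (fun y => y + x) ⊆ pol.roots.toFinset := by
    intro t ht
    rw [mem_image] at ht
    obtain ⟨y, hy, rfl⟩ := ht
    rw [mem_filter] at hy
    rw [hroot]
    exact h10 y hy.1 hy.2
  have hcimg : ((K.filter (fun y => f y + y = v)).image (fun y => y + x)).card = 2 ^ j := by
    rw [card_image_of_injective _ (add_left_injective x), ← hv]
    exact G.full x hx
  have heq := eq_of_subset_of_card_le himg (by rw [hcimg]; exact hcard)
  have hu' := (hroot u).mpr hu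
  rw [← heq, mem_image] at hu'
  obtain ⟨y, hy, hyu⟩ := hu'
  rw [mem_filter] at hy
  have hyx : y = x + u := by
    rw [← hyu]
    have : x + (y + x) = y + (x + x) := by ring
    rw [this, CharTwo.add_self_eq_zero, add_zero]
  have h13 := hy.2
  rw [hyx, ← hv] at h13
  have h14 : f (x + u) + (f x + u) = 0 := by
    have e : f (x + u) + (f x + u) = (f (x + u) + (x + u)) - (f x + x) + (f x + f x) := by ring
    rw [e, h13, sub_self, zero_add, CharTwo.add_self_eq_zero]
  exact CharTwo.add_eq_zero.mp h14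

theorem geo_main (G : Geo F K k j f) (hsq : ∀ a : F, ∃ b, b ^ 2 = a) :
    ∃ δ : ℕ, 6 * δ < 2 ^ k ∧
      (∃ N D : Polynomial F, N.natDegree ≤ δ ∧ D.natDegree ≤ δ ∧ D ≠ 0 ∧
        ∀ x ∈ K, Polynomial.eval (f x) N = x * Polynomial.eval (f x) D) ∧
      ∃ Bad : Finset F, Bad.card ≤ 2 * δ ∧
        ∀ x ∈ K, x ∉ Bad → ∀ u : F, u ^ (2 ^ j) = u → f (x + u) = f x + u := by
  obtain ⟨δ, P, Q, Kp, h1, h2, h3, h4, h5, h6, h7⟩ := G.exists_min
  have H : Mini K k f δ P Q Kp := ⟨h1, h2, h3, h4, h5, h6, h7⟩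
  have hj := G.hj
  obtain ⟨a, b, c, L⟩ := G.level hsq H j (by omega) le_rfl
  refine ⟨δ, h7, ⟨ro 0 P, ro 0 Q, ro_deg 0 h3, ro_deg 0 h4, ?_, ?_⟩, ?_⟩
  · intro hQ
    have hP : ro 0 P = 0 := by
      apply Polynomial.eq_zero_of_natDegree_lt_card_of_eval_eq_zero' _ (K.image f)
      · intro v hv
        obtain ⟨x, hx, rfl⟩ := mem_image.mp hv
        have h8 := congrArg (Polynomial.eval 0) (G.star h1 hx)
        rw [Polynomial.eval_mul, Polynomial.eval_C, eval_rl, eval_rl, hQ, Polynomial.eval_zero,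
          mul_zero, zero_add] at h8
        exact h8
      · rw [card_image_of_injOn (fun x hx y hy h => G.inj x hx y hy h), G.cardK]
        have := ro_deg (0 : F) h3
        omega
    exact not_unit_h 0 (h6 (dvd_of_sb1 (0 : F) hP) (dvd_of_sb1 (0 : F) hQ))
  · intro x hx
    have h8 := congrArg (Polynomial.eval 0) (G.star h1 hx)
    rw [Polynomial.eval_mul, Polynomial.eval_C, eval_rl, eval_rl, mul_zero, zero_add] at h8
    exact h8
  · set ω := Polynomial.derivative (ro 1 a) * ro 1 c + ro 1 a * Polynomial.derivative (ro 1 c)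
      with hω
    have hω0 : ω ≠ 0 := G.F5 H L
    refine ⟨K.filter (fun x => Polynomial.eval (f x + x) ω = 0), ?_, ?_⟩
    · have hsub : K.filter (fun x => Polynomial.eval (f x + x) ω = 0) ⊆
          (ω.roots.toFinset).biUnion (fun v => K.filter (fun y => f y + y = v)) := by
        intro x hx
        rw [mem_filter] at hx
        rw [mem_biUnion]
        refine ⟨f x + x, ?_, ?_⟩
        · rw [Multiset.mem_toFinset, Polynomial.mem_roots hω0]
          exact hx.2
        · rw [mem_filter]; exact ⟨hx.1, rfl⟩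
      have hfib : ∀ v ∈ ω.roots.toFinset, (K.filter (fun y => f y + y = v)).card ≤ 2 ^ j := by
        intro v _
        by_cases he : K.filter (fun y => f y + y = v) = ∅
        · rw [he, card_empty]; positivity
        · obtain ⟨x, hx⟩ := nonempty_iff_ne_empty.mpr he
          rw [mem_filter] at hx
          rw [← hx.2]
          exact (G.full x hx.1).le
      have hdeg : ω.natDegree ≤ a.totalDegree + c.totalDegree := by
        have ha' : (ro 1 a).natDegree ≤ a.totalDegree := ro_deg 1 le_rfl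
        have hc' : (ro 1 c).natDegree ≤ c.totalDegree := ro_deg 1 le_rfl
        have hda := Polynomial.natDegree_derivative_le (ro 1 a)
        have hdc := Polynomial.natDegree_derivative_le (ro 1 c)
        rw [hω]
        refine (Polynomial.natDegree_add_le _ _).trans (max_le ?_ ?_)
        · refine Polynomial.natDegree_mul_le.trans ?_
          omega
        · refine Polynomial.natDegree_mul_le.trans ?_
          omega
      have hr : ω.roots.toFinset.card ≤ a.totalDegree + c.totalDegree :=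
        (Multiset.toFinset_card_le _).trans ((Polynomial.card_roots' _).trans hdeg)
      calc (K.filter (fun x => Polynomial.eval (f x + x) ω = 0)).card
          ≤ ((ω.roots.toFinset).biUnion (fun v => K.filter (fun y => f y + y = v))).card :=
            card_le_card hsub
        _ ≤ ω.roots.toFinset.card * 2 ^ j := card_biUnion_le_card_mul _ _ _ hfib
        _ ≤ (a.totalDegree + c.totalDegree) * 2 ^ j := Nat.mul_le_mul_right _ hr
        _ = 2 ^ j * a.totalDegree + 2 ^ j * c.totalDegree := by ring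
        _ ≤ 2 * δ := by have := L.da; have := L.dc; omega
    · intro x hx hxB u hu
      rw [mem_filter, not_and] at hxB
      exact G.F6 H L hx (hxB hx) hu

end Geo

end Pool.Agent.Helper992
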