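import Pool.Agent.Helper992.StepB

set_option autoImplicit false
set_option linter.unusedSectionVars false
open scoped Classical

namespace Pool.Agent.Helper992

open Finset MvPolynomial Geo

variable {F : Type*} [Field F]

/-- restriction to a horizontal line -/
noncomputable abbrev ro (t : F) : MvPolynomial (Fin 2) F →ₐ[F] Polynomial F :=
  sb Polynomial.X (Polynomial.C t)

theorem ro_deg (t : F) {p : MvPolynomial (Fin 2) F} {n : ℕ} (hp : p.totalDegree ≤ n) :
    (ro t p).natDegree ≤ n :=
  sb_deg Polynomial.natDegree_X_le (by rw [Polynomial.natDegree_C]; omega) hp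

theorem ro_deriv (t : F) (p : MvPolynomial (Fin 2) F) :
    Polynomial.derivative (ro t p) = ro t (pderiv 0 p) := by
  rw [sb_deriv]; simp

theorem eval_rl (x y t : F) (p : MvPolynomial (Fin 2) F) :
    Polynomial.eval t (rl x y p) = Polynomial.eval (x * t + y) (ro t p) := by
  induction p using MvPolynomial.induction_on with
  | C a => rw [sb_C, sb_C, Polynomial.eval_C, Polynomial.eval_C]
  | add p q hp hq => rw [map_add, map_add, Polynomial.eval_add, Polynomial.eval_add, hp, hq]
  | mul_X p i hp =>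
    rw [map_mul, map_mul, Polynomial.eval_mul, Polynomial.eval_mul, hp]
    congr 1
    fin_cases i
    · simp [sb_X0]
    · simp [sb_X1]

theorem not_unit_h (t : F) : ¬ IsUnit (X 1 - C t : MvPolynomial (Fin 2) F) := by
  intro h
  have h1 := h.map (ro t)
  rw [map_sub, sb_X1, sb_C, sub_self] at h1
  exact not_isUnit_zero h1

theorem dvd_prod_pow {V : Finset F} {n : ℕ} {g : Polynomial F}
    (h : ∀ v ∈ V, (Polynomial.X - Polynomial.C v) ^ n ∣ g) (hg : g ≠ 0) :
    V.card * n ≤ g.natDegree := by
  have h4 : ∏ α ∈ V, (Polynomial.X - Polynomial.C α) ^ n ∣ g := by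
    apply Finset.prod_dvd_of_coprime
    · intro α _ β _ hαβ
      exact IsCoprime.pow (Polynomial.pairwise_coprime_X_sub_C Function.injective_id hαβ)
    · exact h
  have h5 := Polynomial.natDegree_le_of_dvd h4 hg
  have h6 : (∏ α ∈ V, (Polynomial.X - Polynomial.C α) ^ n).natDegree = V.card * n := by
    rw [Polynomial.natDegree_prod_of_monic _ _
      (fun α _ => (Polynomial.monic_X_sub_C α).pow _)]
    exact Finset.sum_const_nat (fun α _ => by
      rw [Polynomial.natDegree_pow, Polynomial.natDegree_X_sub_C, mul_one])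
  rw [h6] at h5
  exact h5

variable [CharP F 2] {K : Finset F} {k j : ℕ} {f : F → F}

namespace Geo

/-- the values of `f x + x` -/
noncomputable def VV (K : Finset F) (f : F → F) : Finset F := K.image (fun x => f x + x)

theorem card_VV (G : Geo F K k j f) : (VV K f).card * 2 ^ j = 2 ^ k := by
  rw [← G.cardK, card_eq_sum_card_image (fun x => f x + x) K]
  symm
  apply Finset.sum_const_nat
  intro v hv
  obtain ⟨x, hx, rfl⟩ := mem_image.mp hv
  exact G.full x hx

theorem card_VV' (G : Geo F K k j f) : (VV K f).card = 2 ^ (k - j) := by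
  have h1 := G.card_VV
  have h2 := G.lt
  have h3 : 2 ^ k = 2 ^ (k - j) * 2 ^ j := by rw [← pow_add]; congr 1; omega
  rw [h3] at h1
  exact Nat.eq_of_mul_eq_mul_right (by positivity) h1

theorem ro_RR (t : F) : ro t (RR K f) = ∏ x ∈ K, (Polynomial.X - Polynomial.C (x * t + f x)) := by
  rw [RR, map_prod]
  refine prod_congr rfl fun x _ => ?_
  rw [lf, map_sub, map_add, map_mul, sb_X0, sb_X1, sb_C, sb_C, Polynomial.C_add, Polynomial.C_mul]

theorem ro_RR_ne (t : F) : ro t (RR K f) ≠ 0 := by
  rw [ro_RR]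
  exact (Polynomial.monic_prod_of_monic _ _ fun r _ => Polynomial.monic_X_sub_C _).ne_zero

theorem pow_dvd_ro (G : Geo F K k j f) {v : F} (hv : v ∈ VV K f) :
    (Polynomial.X - Polynomial.C v) ^ (2 ^ j) ∣ ro 1 (RR K f) := by
  rw [ro_RR]
  obtain ⟨x, hx, rfl⟩ := mem_image.mp hv
  refine dvd_trans ?_ (prod_dvd_prod_of_subset (K.filter (fun y => f y + y = f x + x)) K _
    (filter_subset _ _))
  rw [← G.full x hx, ← prod_const]
  apply prod_dvd_prod_of_dvd
  intro y hy
  rw [mem_filter] at hy
  rw [mul_one, ← hy.2, add_comm (f y)]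

theorem VV_sub (G : Geo F K k j f) {v : F} (hv : v ∈ VV K f) : v ∈ K := by
  obtain ⟨x, hx, rfl⟩ := mem_image.mp hv
  exact G.addK (G.fK x hx) hx

theorem roQ (G : Geo F K k j f) {δ : ℕ} {P Q Kp : MvPolynomial (Fin 2) F}
    (H : Mini K k f δ P Q Kp) : ro 1 Q = 0 ∧ ro 1 Kp = 0 := by
  have h1 := congrArg (ro 1) H.mi
  simp only [map_add, map_mul, map_pow, sb_X0, sb_X1, map_one, one_pow] at h1
  rw [CharTwo.add_self_eq_zero, zero_mul, add_zero] at h1
  have hQ : ro 1 Q = 0 := by
    by_contra hne
    have h2 : ∀ v ∈ VV K f, (Polynomial.X - Polynomial.C v) ^ (2 ^ j - 1) ∣ ro 1 Q := by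
      intro v hv
      have hvK := G.VV_sub hv
      have h3 : (Polynomial.X - Polynomial.C v) ^ (2 ^ j)
          ∣ (Polynomial.X ^ 2 ^ k + Polynomial.X) * ro 1 Q := by
        rw [h1]; exact Dvd.dvd.mul_right (G.pow_dvd_ro hv) _
      rw [← uni G.memK G.cardK G.one_le,
        ← mul_prod_erase K (fun r => Polynomial.X - Polynomial.C r) hvK] at h3
      have e : 2 ^ j = 2 ^ j - 1 + 1 := by have := G.eight; omega
      rw [e, pow_succ', mul_assoc] at h3
      have h4 := (mul_dvd_mul_iff_left (Polynomial.X_sub_C_ne_zero v)).mp h3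
      refine IsCoprime.dvd_of_dvd_mul_left ?_ h4
      apply IsCoprime.pow_left
      apply IsCoprime.prod_right
      intro r hr
      rw [mem_erase] at hr
      exact Polynomial.pairwise_coprime_X_sub_C Function.injective_id (Ne.symm hr.1)
    have h3 := dvd_prod_pow h2 hne
    have h4 := ro_deg (1 : F) H.degQ
    have h5 := G.card_VV
    have h6 := H.six
    have h8 := G.eight
    have h7 : (VV K f).card * 2 ^ j ≤ 2 * ((VV K f).card * (2 ^ j - 1)) := by
      have : 2 ^ j ≤ 2 * (2 ^ j - 1) := by omega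
      calc (VV K f).card * 2 ^ j ≤ (VV K f).card * (2 * (2 ^ j - 1)) :=
            Nat.mul_le_mul_left _ this
        _ = 2 * ((VV K f).card * (2 ^ j - 1)) := by ring
    omega
  refine ⟨hQ, ?_⟩
  rw [hQ, mul_zero] at h1
  exact (mul_eq_zero.mp h1.symm).resolve_left (ro_RR_ne 1)

theorem F3 (G : Geo F K k j f) {δ : ℕ} {P Q Kp a b c : MvPolynomial (Fin 2) F}
    (H : Mini K k f δ P Q Kp) (L : Lv δ (2 ^ j) P Q a b c) : ro 1 b = ro 1 c := by
  have h1 := (G.roQ H).1
  rw [L.hQ] at h1
  simp only [map_add, map_mul, map_pow, sb_X1, map_one, one_mul] at h1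
  rw [← add_pow_char_pow] at h1
  have h2 := (pow_eq_zero_iff (by positivity)).mp h1
  exact (CharTwo.add_eq_zero.mp h2).symm

theorem F4 (G : Geo F K k j f) {δ : ℕ} {P Q Kp a b c : MvPolynomial (Fin 2) F}
    (H : Mini K k f δ P Q Kp) (L : Lv δ (2 ^ j) P Q a b c) {v : F} (hv : v ∈ VV K f) :
    Polynomial.eval v (Polynomial.X ^ (2 ^ (k - j)) * ro 1 c + ro 1 a) = 0 := by
  have hj := G.hj
  have hjk := G.lt
  have heven : Even (2 ^ j) := (even_two).pow_of_ne_zero (by omega)
  have hevenk : Even (2 ^ k) := (even_two).pow_of_ne_zero (by omega)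
  have h1 := congrArg (pderiv 1) H.mi
  rw [map_add, pderiv_mul, pderiv_mul, pderiv_mul, map_add, map_add,
    pd_even 1 _ hevenk, pd_even 1 _ hevenk, pderiv_X_self,
    pderiv_X_of_ne (show (0 : Fin 2) ≠ 1 by decide), L.pP1 heven, L.pQ1 heven] at h1
  have h2 := congrArg (ro 1) h1
  simp only [map_add, map_mul, map_pow, map_zero, map_one, sb_X0, sb_X1, (G.roQ H).2] at h2
  have h3 : (Polynomial.X ^ (2 ^ (k - j)) * ro 1 c + ro 1 a) ^ (2 ^ j)
      = ro 1 (RR K f) * ro 1 (pderiv 1 Kp) := by
    rw [add_pow_char_pow, mul_pow, ← pow_mul]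
    have e1 : 2 ^ (k - j) * 2 ^ j = 2 ^ k := by rw [← pow_add]; congr 1; omega
    rw [e1]
    rw [L.hP] at h2
    simp only [map_add, map_mul, map_pow, sb_X0] at h2
    have e2 : Polynomial.X ^ 2 ^ k * ro 1 c ^ 2 ^ j + ro 1 a ^ 2 ^ j
        = (Polynomial.X ^ 2 ^ k + Polynomial.X) * ro 1 c ^ 2 ^ j
          + (Polynomial.X * ro 1 c ^ 2 ^ j + ro 1 a ^ 2 ^ j) := by
      have : (Polynomial.X ^ 2 ^ k + Polynomial.X) * ro 1 c ^ 2 ^ j
          + (Polynomial.X * ro 1 c ^ 2 ^ j + ro 1 a ^ 2 ^ j)
          = Polynomial.X ^ 2 ^ k * ro 1 c ^ 2 ^ j + ro 1 a ^ 2 ^ j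
            + (Polynomial.X * ro 1 c ^ 2 ^ j + Polynomial.X * ro 1 c ^ 2 ^ j) := by ring
      rw [this, CharTwo.add_self_eq_zero, add_zero]
    rw [e2]
    linear_combination h2
  have h4 : (Polynomial.X - Polynomial.C v)
      ∣ (Polynomial.X ^ (2 ^ (k - j)) * ro 1 c + ro 1 a) ^ (2 ^ j) := by
    rw [h3]
    refine Dvd.dvd.mul_right ((dvd_pow_self _ (by positivity)).trans (G.pow_dvd_ro hv)) _
  have h5 := (Polynomial.prime_X_sub_C v).dvd_of_dvd_pow h4
  exact Polynomial.dvd_iff_isRoot.mp h5

theorem sq_dvd {v : F} {g : Polynomial F} (h1 : Polynomial.eval v g = 0)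
    (h2 : Polynomial.eval v (Polynomial.derivative g) = 0) :
    (Polynomial.X - Polynomial.C v) ^ 2 ∣ g := by
  obtain ⟨h, rfl⟩ := Polynomial.dvd_iff_isRoot.mpr h1
  rw [Polynomial.derivative_mul] at h2
  simp only [Polynomial.derivative_sub, Polynomial.derivative_X, Polynomial.derivative_C,
    sub_zero, one_mul, Polynomial.eval_add, Polynomial.eval_mul, Polynomial.eval_sub,
    Polynomial.eval_X, Polynomial.eval_C, sub_self, zero_mul, add_zero] at h2
  obtain ⟨h', rfl⟩ := Polynomial.dvd_iff_isRoot.mpr h2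
  exact ⟨h', by ring⟩

theorem F5 (G : Geo F K k j f) {δ : ℕ} {P Q Kp a b c : MvPolynomial (Fin 2) F}
    (H : Mini K k f δ P Q Kp) (L : Lv δ (2 ^ j) P Q a b c) :
    Polynomial.derivative (ro 1 a) * ro 1 c + ro 1 a * Polynomial.derivative (ro 1 c) ≠ 0 := by
  intro hω
  have hjk := G.lt
  set cb := ro 1 c with hcb
  set ab := ro 1 a with hab
  set e := 2 ^ (k - j) with he
  have heM : e * 2 ^ j = 2 ^ k := by rw [he, ← pow_add]; congr 1; omega
  have hda : ab.natDegree ≤ a.totalDegree := ro_deg 1 le_rfl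
  have hdc : cb.natDegree ≤ c.totalDegree := ro_deg 1 le_rfl
  have h6 := H.six
  have hLa := L.da
  have hLc := L.dc
  have hlt : ∀ m : ℕ, 2 ^ j * m ≤ 3 * δ → m < e := by
    intro m hm
    by_contra hle
    push Not at hle
    have : e * 2 ^ j ≤ 2 ^ j * m := by rw [mul_comm]; exact Nat.mul_le_mul_left _ hle
    omega
  have hVcard : (VV K f).card = e := G.card_VV'
  set Φ := Polynomial.X ^ e * cb + ab with hΦ
  have hΦ0 : ∀ v ∈ VV K f, Polynomial.eval v Φ = 0 := fun v hv => G.F4 H L hv
  by_cases hc0 : cb = 0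
  · have ha0 : ab = 0 := by
      apply Polynomial.eq_zero_of_natDegree_lt_card_of_eval_eq_zero' _ (VV K f)
      · intro v hv
        have := hΦ0 v hv
        rw [hΦ, hc0, mul_zero, zero_add] at this
        exact this
      · rw [hVcard]
        exact lt_of_le_of_lt hda (hlt _ (by omega))
    have hP : ro 1 P = 0 := by
      rw [L.hP]
      simp only [map_add, map_mul, map_pow]
      rw [← hcb, ← hab, hc0, ha0, zero_pow (by positivity), mul_zero, add_zero]
    have h1 := dvd_of_sb1 (1 : F) hP
    have h2 := dvd_of_sb1 (1 : F) (G.roQ H).1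
    exact not_unit_h 1 (H.cop h1 h2)
  · have hΦne : Φ ≠ 0 := by
      intro h0
      have h1 : Polynomial.X ^ e * cb = ab := CharTwo.add_eq_zero.mp h0
      have h2 := congrArg Polynomial.natDegree h1
      rw [Polynomial.natDegree_mul (pow_ne_zero _ Polynomial.X_ne_zero) hc0,
        Polynomial.natDegree_X_pow] at h2
      have := hlt a.totalDegree (by omega)
      omega
    have hdX : Polynomial.derivative (Polynomial.X ^ e : Polynomial F) = 0 := by
      rw [Polynomial.derivative_X_pow]
      have : ((e : ℕ) : F) = 0 := by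
        rw [CharP.cast_eq_zero_iff F 2]
        exact dvd_pow_self 2 (by omega)
      rw [this, map_zero, zero_mul]
    have hrel : Polynomial.derivative Φ * cb + Φ * Polynomial.derivative cb = 0 := by
      rw [hΦ, map_add, Polynomial.derivative_mul, hdX]
      have e1 : (0 * cb + Polynomial.X ^ e * Polynomial.derivative cb
          + Polynomial.derivative ab) * cb
          + (Polynomial.X ^ e * cb + ab) * Polynomial.derivative cb
          = (Polynomial.derivative ab * cb + ab * Polynomial.derivative cb)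
          + (Polynomial.X ^ e * Polynomial.derivative cb * cb
          + Polynomial.X ^ e * Polynomial.derivative cb * cb) := by ring
      rw [e1, hω, CharTwo.add_self_eq_zero, add_zero]
    set V1 := (VV K f).filter (fun v => Polynomial.eval v cb ≠ 0) with hV1
    have h2 : ∀ v ∈ V1, (Polynomial.X - Polynomial.C v) ^ 2 ∣ Φ := by
      intro v hv
      rw [hV1, mem_filter] at hv
      have h3 := congrArg (Polynomial.eval v) hrel
      rw [Polynomial.eval_add, Polynomial.eval_mul, Polynomial.eval_mul, hΦ0 v hv.1, zero_mul,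
        add_zero, Polynomial.eval_zero] at h3
      exact sq_dvd (hΦ0 v hv.1) ((mul_eq_zero.mp h3).resolve_right hv.2)
    have h3 := dvd_prod_pow h2 hΦne
    have h4 : Φ.natDegree ≤ e + max a.totalDegree c.totalDegree := by
      rw [hΦ]
      refine (Polynomial.natDegree_add_le _ _).trans (max_le ?_ ?_)
      · refine Polynomial.natDegree_mul_le.trans ?_
        rw [Polynomial.natDegree_X_pow]
        have := le_max_right a.totalDegree c.totalDegree
        omega
      · have := le_max_left a.totalDegree c.totalDegree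
        omega
    have h5 : ((VV K f).filter (fun v => ¬ Polynomial.eval v cb ≠ 0)).card ≤ c.totalDegree := by
      refine le_trans ?_ hdc
      by_contra hlt2
      push Not at hlt2
      apply hc0
      apply Polynomial.eq_zero_of_natDegree_lt_card_of_eval_eq_zero' _ _ _ hlt2
      intro v hv
      have hv2 := (mem_filter.mp hv).2
      simpa using hv2
    have h7 := card_filter_add_card_filter_not (s := VV K f) (fun v => Polynomial.eval v cb ≠ 0)
    rw [← hV1, hVcard] at h7
    have h8 := hlt (2 * c.totalDegree + max a.totalDegree c.totalDegree) (by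
      rcases le_total a.totalDegree c.totalDegree with h | h
      · rw [max_eq_right h]
        have : 2 ^ j * (2 * c.totalDegree + c.totalDegree) = 3 * (2 ^ j * c.totalDegree) := by ring
        omega
      · rw [max_eq_left h]
        have : 2 ^ j * (2 * c.totalDegree + a.totalDegree)
          = 2 * (2 ^ j * c.totalDegree) + 2 ^ j * a.totalDegree := by ring
        omega)
    omega

end Geo

end Pool.Agent.Helper992
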